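import Mathlib

/-! Weighted a priori bounds for linear ordinary differential equations started at time `0+`. -/

namespace Pool.Agent.Lib.MP_fbbbeb_an.D

open Set Filter Topology

variable {E : Type*} [NormedAddCommGroup E] [NormedSpace ℝ E]

/-- `y' = M y + f`, `y (0+) = 0`, `|f| ≤ c A` up to time `t0` give `|y t0| ≤ K c A t0` -/
def Prc (T : ℝ) (M : ℝ → E →L[ℝ] E) (A : ℝ → ℝ) (K : ℝ) : Prop :=
  ∀ (y f : ℝ → E) (c t0 : ℝ), t0 ∈ Ioo 0 T → (∀ t ∈ Ioc 0 t0, HasDerivAt y (M t (y t) + f t) t) →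
    Tendsto y (𝓝[>] 0) (𝓝 0) → (∀ t ∈ Ioc 0 t0, ‖f t‖ ≤ c * A t) → ‖y t0‖ ≤ K * c * A t0

/-- barrier argument from `0+` -/
lemma barrier {y y' : ℝ → E} {B B' : ℝ → ℝ} {t0 : ℝ} (t1 : 0 < t0)
    (hy : ∀ t ∈ Ioc 0 t0, HasDerivAt y (y' t) t) (h0 : Tendsto y (𝓝[>] 0) (𝓝 0))
    (hB : ∀ t, HasDerivAt B (B' t) t) (B0 : 0 < B 0)
    (hb : ∀ t ∈ Ioc 0 t0, ‖y t‖ = B t → ‖y' t‖ < B' t) : ‖y t0‖ ≤ B t0 := by
  have e1 : Tendsto (fun t => B t - ‖y t‖) (𝓝[>] 0) (𝓝 (B 0 - ‖(0 : E)‖)) :=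
    ((hB 0).continuousAt.tendsto.mono_left nhdsWithin_le_nhds).sub h0.norm
  have e2 : ∀ᶠ t in 𝓝[>] (0 : ℝ), 0 < B t - ‖y t‖ := e1.eventually (lt_mem_nhds (by simpa))
  obtain ⟨d, d1, d2⟩ := (e2.and (Ioo_mem_nhdsGT t1)).exists
  have m : ∀ t ∈ Icc d t0, t ∈ Ioc 0 t0 := fun t h => ⟨d2.1.trans_le h.1, h.2⟩
  exact image_norm_le_of_norm_deriv_right_lt_deriv_boundary (f := y) (f' := y') (a := d) (b := t0)
    (fun t h => (hy t (m t h)).continuousAt.continuousWithinAt)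
    (fun t h => (hy t (m t (Ico_subset_Icc_self h))).hasDerivWithinAt) (by linarith) hB
    (fun t h => hb t (m t (Ico_subset_Icc_self h))) ⟨d2.2.le, le_rfl⟩

/-- mean value bound from `0+` -/
lemma bound0 {y y' : ℝ → E} {t0 L : ℝ} (t1 : 0 < t0)
    (hy : ∀ t ∈ Ioc 0 t0, HasDerivAt y (y' t) t) (h0 : Tendsto y (𝓝[>] 0) (𝓝 0))
    (hb : ∀ t ∈ Ioc 0 t0, ‖y' t‖ ≤ L) : ‖y t0‖ ≤ L * t0 := by
  refine le_of_forall_pos_le_add fun e e0 => ?_
  have p : 0 < e / (1 + t0) := by positivity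
  have := barrier (B := fun t => e / (1 + t0) + (L + e / (1 + t0)) * t)
    (B' := fun _ => L + e / (1 + t0)) t1 hy h0
    (fun t => by simpa using ((hasDerivAt_id t).const_mul (L + e / (1 + t0))).const_add (e / (1 + t0)))
    (by simpa) fun t h _ => (hb t h).trans_lt (by linarith)
  refine this.trans_eq ?_
  field_simp
  ring

omit [NormedSpace ℝ E] in
/-- boundedness from `0+` -/
lemma bdd0 {y : ℝ → E} {t0 : ℝ} (hy : ∀ t ∈ Ioc 0 t0, ContinuousAt y t)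
    (h0 : Tendsto y (𝓝[>] 0) (𝓝 0)) : ∃ C, ∀ t ∈ Ioc 0 t0, ‖y t‖ ≤ C := by
  have e2 : ∀ᶠ t in 𝓝[>] (0 : ℝ), ‖y t‖ < 1 := h0.norm.eventually (gt_mem_nhds (by simp))
  obtain ⟨d, d1, d2⟩ := (mem_nhdsGT_iff_exists_Ioo_subset).1 e2
  obtain ⟨C, hC⟩ := (isCompact_Icc (a := d) (b := t0)).exists_bound_of_continuousOn (f := y)
    fun t h => (hy t ⟨d1.trans_le h.1, h.2⟩).continuousWithinAt
  refine ⟨max 1 C, fun t h => ?_⟩
  rcases lt_or_ge t d with q | q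
  exacts [(le_of_lt (d2 ⟨h.1, q⟩)).trans (le_max_left _ _), (hC t ⟨q, h.2⟩).trans (le_max_right _ _)]

variable {T K : ℝ} {M : ℝ → E →L[ℝ] E} {A : ℝ → ℝ}

lemma Prc.mono (h : Prc T M A K) {T' K' : ℝ} (hT : T' ≤ T) (hK : K ≤ K') : Prc T' M A K' :=
  fun y f c t0 h1 h2 h3 h4 => (h y f c t0 ⟨h1.1, h1.2.trans_le hT⟩ h2 h3 h4).trans (by
    rw [mul_assoc, mul_assoc]
    exact mul_le_mul_of_nonneg_right hK ((norm_nonneg _).trans (h4 t0 ⟨h1.1, le_rfl⟩)))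

/-- a positive multiple of the weight -/
lemma Prc.smul (h : Prc T M A K) (a : ℝ) : Prc T M (fun t => a * A t) K :=
  fun y f c t0 h1 h2 h3 h4 => (h y f (c * a) t0 h1 h2 h3 fun t ht => by
    simpa only [mul_assoc] using h4 t ht).trans_eq (by ring)

/-- comparable weights -/
lemma Prc.comp (h : Prc T M A K) {A' : ℝ → ℝ} {L : ℝ} (K0 : 0 ≤ K) (L0 : 0 ≤ L)
    (A0 : ∀ t ∈ Ioo 0 T, 0 < A' t) (h1 : ∀ t ∈ Ioo 0 T, A t ≤ L * A' t)
    (h2 : ∀ t ∈ Ioo 0 T, A' t ≤ L * A t) : Prc T M A' (K * L ^ 2) := by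
  intro y f c t0 t1 hy h0 hf
  have c0 : 0 ≤ c := nonneg_of_mul_nonneg_left ((norm_nonneg _).trans (hf t0 ⟨t1.1, le_rfl⟩)) (A0 t0 t1)
  refine (h y f (c * L) t0 t1 hy h0 fun t ht => (hf t ht).trans ?_).trans ?_
  · rw [mul_assoc]; exact mul_le_mul_of_nonneg_left (h2 t ⟨ht.1, ht.2.trans_lt t1.2⟩) c0
  · refine (mul_le_mul_of_nonneg_left (h1 t0 t1) (by positivity)).trans_eq (by ring)

/-- perturbation of the coefficient -/
lemma Prc.pert (h : Prc T M A K) (K0 : 0 < K) {M' : ℝ → E →L[ℝ] E}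
    (hM : ∀ t ∈ Ioo 0 T, ‖M' t - M t‖ ≤ 1 / (2 * K))
    (hA : ∀ t0 ∈ Ioo 0 T, ∃ a, 0 < a ∧ ∀ t ∈ Ioc 0 t0, a ≤ A t) : Prc T M' A (2 * K) := by
  intro y f c t0 t1 hy h0 hf
  obtain ⟨a, a0, ha⟩ := hA t0 t1
  obtain ⟨C, hC⟩ := bdd0 (fun t ht => (hy t ht).continuousAt) h0
  have A0 : ∀ t ∈ Ioc 0 t0, 0 < A t := fun t ht => a0.trans_le (ha t ht)
  have bd : BddAbove ((fun t => ‖y t‖ / A t) '' Ioc 0 t0) := ⟨C / a, by
    rintro _ ⟨t, ht, rfl⟩
    exact div_le_div₀ ((norm_nonneg _).trans (hC t ht)) (hC t ht) a0 (ha t ht)⟩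
  set S := sSup ((fun t => ‖y t‖ / A t) '' Ioc 0 t0) with hS
  have s1 : ∀ t ∈ Ioc 0 t0, ‖y t‖ ≤ S * A t := fun t ht =>
    (div_le_iff₀ (A0 t ht)).1 (le_csSup bd ⟨t, ht, rfl⟩)
  have s2 : S ≤ K * (c + S / (2 * K)) := by
    refine csSup_le ⟨_, t0, ⟨t1.1, le_rfl⟩, rfl⟩ ?_
    rintro _ ⟨t, ht, rfl⟩
    have m : ∀ s ∈ Ioc 0 t, s ∈ Ioc 0 t0 := fun s hs => ⟨hs.1, hs.2.trans ht.2⟩
    refine (div_le_iff₀ (A0 t ht)).2 (h y (fun s => f s + (M' s - M s) (y s)) _ t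
      ⟨ht.1, ht.2.trans_lt t1.2⟩ (fun s hs => ?_) h0 fun s hs => ?_)
    · convert hy s (m s hs) using 1
      simp only [sub_apply]; abel
    · refine (norm_add_le _ _).trans ?_
      have := ((M' s - M s).le_opNorm (y s)).trans (mul_le_mul (hM s ⟨hs.1, (m s hs).2.trans_lt t1.2⟩)
        (s1 s (m s hs)) (norm_nonneg _) (by positivity))
      refine (add_le_add (hf s (m s hs)) this).trans_eq (by ring)
  have s3 : K * (c + S / (2 * K)) = K * c + S / 2 := by field_simp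
  exact (s1 t0 ⟨t1.1, le_rfl⟩).trans (mul_le_mul_of_nonneg_right (by linarith) (A0 t0 ⟨t1.1, le_rfl⟩).le)

/-- fast growing weights -/
lemma Prc.crude {lam : ℝ} (hM : ∀ t ∈ Ioo 0 T, ‖M t‖ ≤ lam - 1) (A0 : ∀ t ∈ Ioo 0 T, 0 < A t)
    (hA : ∀ s t, 0 < s → s ≤ t → t < T → A s ≤ Real.exp (- lam * (t - s)) * A t) : Prc T M A 1 := by
  intro y f c t0 t1 hy h0 hf
  have c0 : 0 ≤ c := nonneg_of_mul_nonneg_left ((norm_nonneg _).trans (hf t0 ⟨t1.1, le_rfl⟩)) (A0 t0 t1)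
  have a0 := A0 t0 t1
  refine le_of_forall_pos_le_add fun e e0 => ?_
  have := barrier (B := fun t => (c * A t0 + e) * Real.exp (lam * (t - t0)))
    (B' := fun t => (c * A t0 + e) * (Real.exp (lam * (t - t0)) * lam)) t1.1 hy h0
    (fun t => by
      simpa using ((((hasDerivAt_id t).sub_const t0).const_mul lam).exp).const_mul (c * A t0 + e))
    (by positivity) fun t ht q => by
      have h1 := ((M t).le_opNorm (y t)).trans (mul_le_mul_of_nonneg_right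
        (hM t ⟨ht.1, ht.2.trans_lt t1.2⟩) (norm_nonneg _))
      have h2 := (hf t ht).trans (mul_le_mul_of_nonneg_left (hA t t0 ht.1 ht.2 t1.2) c0)
      rw [show - lam * (t0 - t) = lam * (t - t0) by ring] at h2
      have h3 := mul_pos e0 (Real.exp_pos (lam * (t - t0)))
      rw [q] at h1
      refine (norm_add_le _ _).trans_lt ?_
      nlinarith
  simpa using this

/-- conjugation by an isometry -/
lemma Prc.conj (h : Prc T M A K) (O : E ≃ₗᵢ[ℝ] E) {M' : ℝ → E →L[ℝ] E}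
    (hM : ∀ t ∈ Ioo 0 T, ∀ v, O (M' t v) = M t (O v)) : Prc T M' A K := by
  intro y f c t0 t1 hy h0 hf
  have := h (fun t => O (y t)) (fun t => O (f t)) c t0 t1 (fun t ht => by
    have := (O.toContinuousLinearEquiv : E →L[ℝ] E).hasFDerivAt.comp_hasDerivAt t (hy t ht)
    simpa [hM t ⟨ht.1, ht.2.trans_lt t1.2⟩, Function.comp_def] using this)
    (by simpa [Function.comp_def] using (O.continuous.tendsto 0).comp h0) fun t ht => by simpa using hf t ht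
  simpa using this

/-- the forced scalar system, by the Wronskian with a positive solution -/
lemma d1_scalar {c t0 a : ℝ} {p q th fl Th Fl g1 g2 : ℝ → ℝ} (K1 : 1 ≤ K) (t1 : 0 < t0)
    (tK : t0 ≤ K) (a0 : 0 < a) (ha : ∀ t ∈ Ioc 0 t0, a ≤ th t)
    (d1 : ∀ t ∈ Ioc 0 t0, HasDerivAt th (fl t / p t) t)
    (d2 : ∀ t ∈ Ioc 0 t0, HasDerivAt fl (q t * th t) t)
    (hp : ∀ t ∈ Ioc 0 t0, 1 / K ≤ p t) (hf : ∀ t ∈ Ioc 0 t0, |fl t| ≤ K * th t)
    (hm : ∀ s t, 0 < s → s ≤ t → t ≤ t0 → th s ≤ K * th t)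
    (D1 : ∀ t ∈ Ioc 0 t0, HasDerivAt Th (Fl t / p t + g1 t) t)
    (D2 : ∀ t ∈ Ioc 0 t0, HasDerivAt Fl (q t * Th t + g2 t) t)
    (z1 : Tendsto Th (𝓝[>] 0) (𝓝 0)) (z2 : Tendsto Fl (𝓝[>] 0) (𝓝 0))
    (b1 : ∀ t ∈ Ioc 0 t0, |g1 t| ≤ c * th t) (b2 : ∀ t ∈ Ioc 0 t0, |g2 t| ≤ c * th t) :
    |Th t0| ≤ 3 * K ^ 6 * c * th t0 ∧ |Fl t0| ≤ 5 * K ^ 7 * c * th t0 := by
  have K0 : 0 < K := one_pos.trans_le K1
  have p0 : ∀ t ∈ Ioc 0 t0, 0 < p t := fun t h => (by positivity : 0 < 1 / K).trans_le (hp t h)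
  have h0 : ∀ t ∈ Ioc 0 t0, 0 < th t := fun t h => a0.trans_le (ha t h)
  have m0 : t0 ∈ Ioc 0 t0 := ⟨t1, le_rfl⟩
  have c0 : 0 ≤ c := nonneg_of_mul_nonneg_left ((abs_nonneg _).trans (b1 t0 m0)) (h0 t0 m0)
  have ev : ∀ᶠ t in 𝓝[>] (0 : ℝ), t ∈ Ioc 0 t0 := Ioc_mem_nhdsGT t1
  have zW : Tendsto (fun t => Fl t * th t - fl t * Th t) (𝓝[>] 0) (𝓝 0) := by
    refine squeeze_zero_norm' (a := fun t => |Fl t| * (K * th t0) + K * (K * th t0) * |Th t|)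
      (ev.mono fun t h => (norm_sub_le _ _).trans ?_) (by
        simpa using (z2.abs.mul_const (K * th t0)).add (z1.abs.const_mul (K * (K * th t0))))
    have k := hm t t0 h.1 h.2 le_rfl
    simp only [norm_mul, Real.norm_eq_abs, abs_of_pos (h0 t h)]
    exact add_le_add (mul_le_mul_of_nonneg_left k (abs_nonneg _)) (mul_le_mul_of_nonneg_right
      ((hf t h).trans (mul_le_mul_of_nonneg_left k K0.le)) (abs_nonneg _))
  have W : ∀ t ∈ Ioc 0 t0, |Fl t * th t - fl t * Th t| ≤ 2 * K ^ 4 * c * th t ^ 2 := fun t h => by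
    have m : ∀ s ∈ Ioc 0 t, s ∈ Ioc 0 t0 := fun s hs => ⟨hs.1, hs.2.trans h.2⟩
    have := bound0 (y' := fun s => g2 s * th s - fl s * g1 s) (L := 2 * K ^ 3 * c * th t ^ 2) h.1
      (fun s hs => (((D2 s (m s hs)).fun_mul (d1 s (m s hs))).fun_sub
        ((d2 s (m s hs)).fun_mul (D1 s (m s hs)))).congr_deriv (by ring)) zW fun s hs => by
      have k := hm s t hs.1 hs.2 h.2
      have s0 := h0 s (m s hs)
      have e1 : |g2 s * th s| ≤ c * th s ^ 2 := by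
        rw [abs_mul, abs_of_pos s0]; nlinarith [b2 s (m s hs)]
      have e2 : |fl s * g1 s| ≤ K * c * th s ^ 2 := by
        rw [abs_mul]
        exact (mul_le_mul (hf s (m s hs)) (b1 s (m s hs)) (abs_nonneg _) (by positivity)).trans_eq (by ring)
      have e3 : th s ^ 2 ≤ (K * th t) ^ 2 := pow_le_pow_left₀ s0.le k 2
      have e4 : c * th s ^ 2 ≤ K * c * th s ^ 2 := by
        rw [mul_assoc]; exact le_mul_of_one_le_left (by positivity) K1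
      have e5 := mul_le_mul_of_nonneg_left e3 (by positivity : 0 ≤ 2 * K * c)
      refine (abs_sub _ _).trans ?_
      nlinarith
    refine this.trans ((mul_le_mul_of_nonneg_left (h.2.trans tK) (by positivity)).trans_eq (by ring))
  have zR : Tendsto (fun t => Th t / th t) (𝓝[>] 0) (𝓝 0) :=
    squeeze_zero_norm' (a := fun t => |Th t| / a) (ev.mono fun t h => by
      rw [norm_div, Real.norm_eq_abs, Real.norm_eq_abs, abs_of_pos (h0 t h)]
      exact div_le_div_of_nonneg_left (abs_nonneg _) a0 (ha t h)) (by simpa using z1.abs.div_const a)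
  have R := bound0 (y' := fun s => (Fl s * th s - fl s * Th s) / (p s * th s ^ 2) + g1 s / th s)
    (L := 3 * K ^ 5 * c) t1 (fun s hs => by
      have := (h0 s hs).ne'
      have := (p0 s hs).ne'
      refine ((D1 s hs).fun_div (d1 s hs) (h0 s hs).ne').congr_deriv ?_
      field_simp
      ring) zR fun s hs => by
    have s0 := h0 s hs
    have s1 := p0 s hs
    have e1 : |(Fl s * th s - fl s * Th s) / (p s * th s ^ 2)| ≤ 2 * K ^ 5 * c := by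
      rw [abs_div, abs_of_pos (by positivity : 0 < p s * th s ^ 2), div_le_iff₀ (by positivity)]
      have : 1 ≤ K * p s := by simpa [mul_comm] using (div_le_iff₀ K0).1 (hp s hs)
      refine (W s hs).trans ((le_mul_of_one_le_right (by positivity) this).trans_eq (by ring))
    have e2 : |g1 s / th s| ≤ K ^ 5 * c := by
      rw [abs_div, abs_of_pos s0, div_le_iff₀ s0]
      exact (b1 s hs).trans (mul_le_mul_of_nonneg_right
        (le_mul_of_one_le_left c0 (one_le_pow₀ K1)) s0.le)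
    exact (abs_add_le _ _).trans (by linarith)
  have s0 := h0 t0 m0
  have r1 : |Th t0| ≤ 3 * K ^ 6 * c * th t0 := by
    rw [Real.norm_eq_abs, abs_div, abs_of_pos s0, div_le_iff₀ s0] at R
    refine R.trans (mul_le_mul_of_nonneg_right ((mul_le_mul_of_nonneg_left tK
      (by positivity)).trans_eq (by ring)) s0.le)
  refine ⟨r1, le_of_mul_le_mul_right ?_ s0⟩
  have e1 : |Fl t0| * th t0 ≤ |Fl t0 * th t0 - fl t0 * Th t0| + |fl t0| * |Th t0| := by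
    rw [← abs_mul, ← abs_of_pos s0, ← abs_mul, abs_of_pos s0]
    simpa using abs_add_le (Fl t0 * th t0 - fl t0 * Th t0) (fl t0 * Th t0)
  have e2 := mul_le_mul (hf t0 m0) r1 (abs_nonneg _) (by positivity)
  have e3 : K ^ 4 * (c * th t0 ^ 2) ≤ K ^ 7 * (c * th t0 ^ 2) :=
    mul_le_mul_of_nonneg_right (pow_le_pow_right₀ K1 (by norm_num)) (by positivity)
  nlinarith [W t0 m0]

end Pool.Agent.Lib.MP_fbbbeb_an.D
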