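import Pool.Agent.Lib.MP_fbbbeb_an.Cas.Pio

/-! The reduced inner product and the scalar form of the wave equation. -/

noncomputable section

namespace Pool.Agent.Lib.MP_fbbbeb_an.D.Geo

open Pool.Agent.Lib.MP_fbbbeb_an.Pub Pool.Agent.Lib.MP_fbbbeb_an.Cas Set Filter Topology
open scoped RealInnerProductSpace

/-- inner product of the parts orthogonal to `e` -/
def Gr (e x y : E) : ℝ := ⟪x, y⟫ - ⟪x, e⟫ * ⟪y, e⟫ / ⟪e, e⟫

/-- the part orthogonal to `e` -/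
def pr (e x : E) : E := x - (⟪x, e⟫ / ⟪e, e⟫) • e

variable {e x y z : E}

lemma Gr_comm (e x y : E) : Gr e x y = Gr e y x := by
  simp only [Gr, real_inner_comm x y]; ring

lemma Gr_add (e x y z : E) : Gr e x (y + z) = Gr e x y + Gr e x z := by
  simp only [Gr, inner_add_left, inner_add_right]; ring

lemma Gr_sub (e x y z : E) : Gr e x (y - z) = Gr e x y - Gr e x z := by
  simp only [Gr, inner_sub_left, inner_sub_right]; ring

lemma Gr_smul (e x y : E) (c : ℝ) : Gr e x (c • y) = c * Gr e x y := by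
  simp only [Gr, real_inner_smul_left, real_inner_smul_right]; ring

lemma Gr_neg (e x y : E) : Gr e x (-y) = -Gr e x y := by
  simp only [Gr, inner_neg_left, inner_neg_right]; ring

lemma add_Gr (e x y z : E) : Gr e (x + y) z = Gr e x z + Gr e y z := by
  rw [Gr_comm, Gr_add, Gr_comm e z, Gr_comm e z]

lemma sub_Gr (e x y z : E) : Gr e (x - y) z = Gr e x z - Gr e y z := by
  rw [Gr_comm, Gr_sub, Gr_comm e z, Gr_comm e z]

lemma smul_Gr (e x y : E) (c : ℝ) : Gr e (c • x) y = c * Gr e x y := by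
  rw [Gr_comm, Gr_smul, Gr_comm]

lemma Gr_e (e x : E) : Gr e x e = 0 := by
  by_cases h : ⟪e, e⟫ = 0
  · simp [Gr, inner_self_eq_zero.1 h]
  · simp only [Gr]; field_simp; ring

lemma e_Gr (e x : E) : Gr e e x = 0 := by rw [Gr_comm, Gr_e]

lemma pr_inner (e x y : E) : ⟪pr e x, pr e y⟫ = Gr e x y := by
  by_cases h : ⟪e, e⟫ = 0
  · simp [Gr, pr, inner_self_eq_zero.1 h]
  · simp only [Gr, pr, inner_sub_left, inner_sub_right, real_inner_smul_left, real_inner_smul_right,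
      real_inner_comm y e]
    field_simp; ring

lemma pr_e (e x : E) : ⟪pr e x, e⟫ = 0 := by
  by_cases h : ⟪e, e⟫ = 0
  · simp [pr, inner_self_eq_zero.1 h]
  · simp only [pr, inner_sub_left, real_inner_smul_left]; field_simp; ring

lemma Gr_self (e x : E) : Gr e x x = ‖pr e x‖ ^ 2 := by
  rw [← pr_inner, real_inner_self_eq_norm_sq]

lemma Gr_nonneg (e x : E) : 0 ≤ Gr e x x := by rw [Gr_self]; positivity

lemma Gr_le (e x : E) : Gr e x x ≤ ‖x‖ ^ 2 := by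
  rw [Gr, real_inner_self_eq_norm_sq x]
  exact sub_le_self _ (div_nonneg (mul_self_nonneg _) real_inner_self_nonneg)

lemma norm_pr_le (e x : E) : ‖pr e x‖ ≤ ‖x‖ :=
  (pow_le_pow_iff_left₀ (norm_nonneg _) (norm_nonneg _) two_ne_zero).1 (Gr_self e x ▸ Gr_le e x)

/-- Cauchy-Schwarz -/
lemma Gr_sq_le (e x y : E) : Gr e x y ^ 2 ≤ Gr e x x * Gr e y y := by
  rw [Gr_self, Gr_self, ← pr_inner, ← mul_pow, ← sq_abs]
  exact pow_le_pow_left₀ (abs_nonneg _) (abs_real_inner_le_norm _ _) 2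

lemma abs_Gr_le (e x y : E) : |Gr e x y| ≤ ‖x‖ * ‖y‖ := by
  rw [← pr_inner]
  exact (abs_real_inner_le_norm _ _).trans
    (mul_le_mul (norm_pr_le _ _) (norm_pr_le _ _) (norm_nonneg _) (norm_nonneg _))

lemma abs_Gr_le' {a b : ℝ} (e : E) (ha : ‖x‖ ≤ a) (hb : ‖y‖ ≤ b) : |Gr e x y| ≤ a * b :=
  (abs_Gr_le e x y).trans (mul_le_mul ha hb (norm_nonneg _) ((norm_nonneg _).trans ha))

/-- lower bound for a vector orthogonal to `a` -/
lemma Gr_lower {F : L3} {K : ℝ} (h : ∀ x, ‖x‖ ≤ K * ‖F x‖) {a τ : E} (ha : ⟪a, τ⟫ = 0) :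
    ‖τ‖ ^ 2 ≤ K ^ 2 * Gr (F a) (F τ) (F τ) := by
  set c := ⟪F τ, F a⟫ / ⟪F a, F a⟫
  have e1 : pr (F a) (F τ) = F (τ - c • a) := by simp [pr, c]
  have e2 : ‖τ‖ ^ 2 ≤ ‖τ - c • a‖ ^ 2 := by
    rw [norm_sub_sq_real, real_inner_smul_right, real_inner_comm, ha]
    nlinarith [sq_nonneg ‖c • a‖]
  rw [Gr_self, e1, ← mul_pow]
  exact e2.trans (pow_le_pow_left₀ (norm_nonneg _) (h _) 2)

/-- expansion in an orthogonal basis of the three-space -/
lemma expand {a b c : E} (ha : a ≠ 0) (hb : b ≠ 0) (hc : c ≠ 0) (ab : ⟪a, b⟫ = 0) (ac : ⟪a, c⟫ = 0)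
    (bc : ⟪b, c⟫ = 0) (x : E) :
    x = (⟪x, a⟫ / ⟪a, a⟫) • a + (⟪x, b⟫ / ⟪b, b⟫) • b + (⟪x, c⟫ / ⟪c, c⟫) • c := by
  have ba : ⟪b, a⟫ = 0 := by rw [real_inner_comm]; exact ab
  have ca : ⟪c, a⟫ = 0 := by rw [real_inner_comm]; exact ac
  have cb : ⟪c, b⟫ = 0 := by rw [real_inner_comm]; exact bc
  have li : LinearIndependent ℝ ![a, b, c] := by
    refine linearIndependent_of_ne_zero_of_inner_eq_zero (fun i => ?_) fun i j h => ?_
    · fin_cases i <;> simpa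
    · fin_cases i <;> fin_cases j <;> simp_all
  have sp := li.span_eq_top_of_card_eq_finrank' (by simp)
  have hx : x ∈ Submodule.span ℝ (range ![a, b, c]) := sp ▸ Submodule.mem_top
  obtain ⟨u, rfl⟩ := (Submodule.mem_span_range_iff_exists_fun ℝ).1 hx
  have a1 : ⟪a, a⟫ ≠ 0 := inner_self_ne_zero.2 ha
  have b1 : ⟪b, b⟫ ≠ 0 := inner_self_ne_zero.2 hb
  have c1 : ⟪c, c⟫ ≠ 0 := inner_self_ne_zero.2 hc
  simp only [Fin.sum_univ_three, Matrix.cons_val_zero, Matrix.cons_val_one, Matrix.cons_val,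
    inner_add_left, real_inner_smul_left, ab, ac, bc, ba, ca, cb, mul_zero, add_zero, zero_add,
    mul_div_cancel_right₀ _ a1, mul_div_cancel_right₀ _ b1, mul_div_cancel_right₀ _ c1]

/-- Pythagoras in the plane orthogonal to `e` -/
lemma pyth (he : e ≠ 0) (hy : 0 < Gr e y y) (hz : 0 < Gr e z z) (h : Gr e y z = 0) (v : E) :
    Gr e v y ^ 2 * Gr e z z + Gr e v z ^ 2 * Gr e y y = Gr e v v * Gr e y y * Gr e z z := by
  have y0 : pr e y ≠ 0 := fun q => by rw [Gr_self, q] at hy; simp at hy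
  have z0 : pr e z ≠ 0 := fun q => by rw [Gr_self, q] at hz; simp at hz
  have k := expand he y0 z0 (by rw [real_inner_comm, pr_e]) (by rw [real_inner_comm, pr_e])
    (by rw [pr_inner, h]) (pr e v)
  have k2 := congrArg (fun w => ⟪pr e v, w⟫) k
  simp only [inner_add_right, real_inner_smul_right, pr_e, pr_inner] at k2
  rw [k2]
  field_simp
  ring

/-- Lipschitz bound of the projection -/
lemma pr_lip {e e' x x' : E} {K δ : ℝ} (he : 1 ≤ K * ‖e‖) (he' : 1 ≤ K * ‖e'‖)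
    (h1 : ‖e - e'‖ ≤ δ) : ‖pr e x - pr e' x'‖ ≤ ‖x - x'‖ + 4 * K * δ * ‖x'‖ := by
  have p : ∀ {e : E}, 1 ≤ K * ‖e‖ → 0 < ‖e‖ := fun h =>
    (norm_nonneg _).lt_of_ne' fun q => by rw [q] at h; linarith
  have e0 := p he
  have e1 := p he'
  have K0 : 0 < K := by by_contra q; nlinarith
  have d0 : 0 ≤ δ := (norm_nonneg _).trans h1
  set n := ‖e‖⁻¹ • e
  set n' := ‖e'‖⁻¹ • e'
  have q : ∀ {e : E}, 0 < ‖e‖ → ∀ x, pr e x = x - ⟪x, ‖e‖⁻¹ • e⟫ • ‖e‖⁻¹ • e := fun {e} h x => by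
    rw [pr, real_inner_smul_right, smul_smul, real_inner_self_eq_norm_sq]
    congr 2
    field_simp
  have u : ∀ {e : E}, 0 < ‖e‖ → ‖‖e‖⁻¹ • e‖ = 1 := fun {e} h => by
    rw [norm_smul, norm_inv, norm_norm, inv_mul_cancel₀ h.ne']
  have nn : ‖n - n'‖ ≤ 2 * K * δ := by
    have : n - n' = ‖e‖⁻¹ • ((e - e') + (‖e'‖ - ‖e‖) • n') := by
      simp only [n, n', smul_add, smul_sub, smul_smul]
      rw [show ‖e‖⁻¹ * ((‖e'‖ - ‖e‖) * ‖e'‖⁻¹) = ‖e‖⁻¹ - ‖e'‖⁻¹ by field_simp, sub_smul]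
      abel
    rw [this, norm_smul, norm_inv, norm_norm, inv_mul_le_iff₀ e0]
    refine (norm_add_le _ _).trans ?_
    rw [norm_smul, u e1, mul_one, Real.norm_eq_abs, abs_sub_comm]
    nlinarith [abs_norm_sub_norm_le e e']
  have s1 : pr e x - pr e' x' = pr e (x - x') - (⟪x', n - n'⟫ • n + ⟪x', n'⟫ • (n - n')) := by
    rw [q e0, q e0, q e1]
    simp only [inner_sub_left, inner_sub_right, sub_smul, smul_sub, n, n']
    abel
  rw [s1]
  refine (norm_sub_le _ _).trans (add_le_add (norm_pr_le _ _) ((norm_add_le _ _).trans ?_))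
  rw [norm_smul, u e0, norm_smul, mul_one, Real.norm_eq_abs, Real.norm_eq_abs]
  have t1 := (abs_real_inner_le_norm x' (n - n')).trans (mul_le_mul_of_nonneg_left nn (norm_nonneg _))
  have t2 := abs_real_inner_le_norm x' n'
  rw [u e1, mul_one] at t2
  nlinarith [mul_le_mul t2 nn (norm_nonneg _) (norm_nonneg _)]

/-- Lipschitz bound -/
lemma Gr_lip {e e' x x' y y' : E} {K δ a b dx dy : ℝ} (he : 1 ≤ K * ‖e‖) (he' : 1 ≤ K * ‖e'‖)
    (h1 : ‖e - e'‖ ≤ δ) (hx : ‖x - x'‖ ≤ dx) (hy : ‖y - y'‖ ≤ dy) (ha : ‖x'‖ ≤ a) (hb : ‖y‖ ≤ b)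
    (hb' : ‖y'‖ ≤ b) : |Gr e x y - Gr e' x' y'| ≤ dx * b + a * dy + 8 * K * δ * a * b := by
  have d0 : 0 ≤ δ := (norm_nonneg _).trans h1
  have K0 : 0 ≤ K := by by_contra q; nlinarith [norm_nonneg e]
  have c0 : 0 ≤ 4 * K * δ := by positivity
  have a0 : 0 ≤ a := (norm_nonneg _).trans ha
  have k1 := (pr_lip (x := x) (x' := x') he he' h1).trans
    (add_le_add hx (mul_le_mul_of_nonneg_left ha c0))
  have k2 := (pr_lip (x := y) (x' := y') he he' h1).trans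
    (add_le_add hy (mul_le_mul_of_nonneg_left hb' c0))
  have s : Gr e x y - Gr e' x' y' = ⟪pr e x - pr e' x', pr e y⟫ + ⟪pr e' x', pr e y - pr e' y'⟫ := by
    rw [inner_sub_left, inner_sub_right, pr_inner, pr_inner]; ring
  rw [s]
  refine (abs_add_le _ _).trans ((add_le_add ((abs_real_inner_le_norm _ _).trans
    (mul_le_mul k1 ((norm_pr_le _ _).trans hb) (norm_nonneg _) ((norm_nonneg _).trans k1)))
    ((abs_real_inner_le_norm _ _).trans (mul_le_mul ((norm_pr_le _ _).trans ha) k2 (norm_nonneg _)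
      a0))).trans_eq (by ring))

/-- derivative of `Gr` -/
lemma hasDerivAt_Gr {e x y : ℝ → E} {e1 x1 y1 : E} {t : ℝ} (he : HasDerivAt e e1 t)
    (hx : HasDerivAt x x1 t) (hy : HasDerivAt y y1 t) (h0 : e t ≠ 0) :
    HasDerivAt (fun s => Gr (e s) (x s) (y s)) (Gr (e t) x1 (y t) + Gr (e t) (x t) y1
      - ⟪x t, e t⟫ / ⟪e t, e t⟫ * Gr (e t) e1 (y t) - ⟪y t, e t⟫ / ⟪e t, e t⟫ * Gr (e t) e1 (x t)) t := by
  have n0 : ⟪e t, e t⟫ ≠ 0 := inner_self_ne_zero.2 h0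
  refine ((hx.inner ℝ hy).fun_sub (((hx.inner ℝ he).fun_mul (hy.inner ℝ he)).fun_div
    (he.inner ℝ he) n0)).congr_deriv ?_
  simp only [Gr, real_inner_comm (y t) e1, real_inner_comm (x t) e1, real_inner_comm (e t) e1]
  field_simp
  ring

lemma abs_sr_le {e x : E} {K : ℝ} (he : 1 ≤ K * ‖e‖) : |⟪x, e⟫ / ⟪e, e⟫| ≤ K * ‖x‖ := by
  have e0 : 0 < ‖e‖ := (norm_nonneg _).lt_of_ne' fun q => by rw [q] at he; linarith
  rw [abs_div, real_inner_self_eq_norm_sq, abs_of_pos (pow_pos e0 2), div_le_iff₀ (pow_pos e0 2)]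
  nlinarith [abs_real_inner_le_norm x e, mul_nonneg (norm_nonneg x) e0.le]

lemma continuousOn_Gr {X : Type*} [TopologicalSpace X] {S : Set X} {e x y : X → E}
    (he : ContinuousOn e S) (hx : ContinuousOn x S) (hy : ContinuousOn y S) (h0 : ∀ t ∈ S, e t ≠ 0) :
    ContinuousOn (fun s => Gr (e s) (x s) (y s)) S :=
  (hx.inner (𝕜 := ℝ) hy).sub (((hx.inner (𝕜 := ℝ) he).mul (hy.inner (𝕜 := ℝ) he)).div (he.inner (𝕜 := ℝ) he)
    fun t h => inner_self_ne_zero.2 (h0 t h))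

lemma inner_Bop (F F1 : L3) (x y : E) : ⟪x, Bop F F1 y⟫ = ⟪F1 x, F y⟫ - ⟪F x, F1 y⟫ := by
  simp only [Bop, sub_apply, inner_sub_right, mul_apply_eq_comp,
    ContinuousLinearMap.star_eq_adjoint, ContinuousLinearMap.adjoint_inner_right]

/-- derivative of the ratio `⟪F τ, F a⟫ / ⟪F a, F a⟫` -/
lemma hasDerivAt_sr {F : ℝ → L3} {F1 : L3} {t : ℝ} (hF : HasDerivAt F F1 t) (a τ : E)
    (h0 : F t a ≠ 0) : HasDerivAt (fun s => ⟪F s τ, F s a⟫ / ⟪F s a, F s a⟫)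
      ((2 * Gr (F t a) (F1 a) (F t τ) - ⟪a, Bop (F t) F1 τ⟫) / ⟪F t a, F t a⟫) t := by
  have n0 : ⟪F t a, F t a⟫ ≠ 0 := inner_self_ne_zero.2 h0
  have ha : HasDerivAt (fun s => F s a) (F1 a) t := by simpa using hF.clm_apply (hasDerivAt_const t a)
  have hτ : HasDerivAt (fun s => F s τ) (F1 τ) t := by simpa using hF.clm_apply (hasDerivAt_const t τ)
  refine ((hτ.inner ℝ ha).fun_div (ha.inner ℝ ha) n0).congr_deriv ?_
  simp only [Gr, inner_Bop, real_inner_comm (F t τ) (F1 a), real_inner_comm (F t a) (F1 a),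
    real_inner_comm (F t a) (F1 τ)]
  field_simp
  ring

/-- pointwise form of the reduction: the scalar relations give the wave equation -/
lemma pio_of_scalar {F B : L3} {K al ga al1 ga1 th : ℝ} (h : ∀ x, ‖x‖ ≤ K * ‖F x‖) {a τ k p : E}
    (ha : a ≠ 0) (hτ : τ ≠ 0) (hk : k ≠ 0) (aτ : ⟪a, τ⟫ = 0) (ka : ⟪k, a⟫ = 0) (kτ : ⟪k, τ⟫ = 0)
    (hB : ∀ x y, ⟪x, B y⟫ = -⟪y, B x⟫) (e1 : th = ⟪p, a⟫ + ⟪a, B τ⟫ * ga)
    (e2 : al1 = th / ⟪F a, F a⟫ - ⟪F τ, F a⟫ / ⟪F a, F a⟫ * ga1)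
    (e3 : ga1 * Gr (F a) (F τ) (F τ) = ⟪p, τ⟫ - ⟪a, B τ⟫ * al - ⟪F τ, F a⟫ / ⟪F a, F a⟫ * th) :
    al1 • a + ga1 • τ = Pio F k (B (al • a + ga • τ) + p) := by
  have n0 : ⟪F a, F a⟫ ≠ 0 := inner_self_ne_zero.2 fun q => ha (by
    have := h a; rw [q] at this; simpa using this)
  set w := (star F * F) (al1 • a + ga1 • τ) - (B (al • a + ga • τ) + p) with hw
  have b0 : ∀ x, ⟪x, B x⟫ = 0 := fun x => by linarith [hB x x]
  have w1 : ⟪w, a⟫ = 0 := by
    rw [real_inner_comm, hw, inner_sub_right, PioA.inner_gm]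
    simp only [map_add, map_smul, inner_add_right, real_inner_smul_right, b0, real_inner_comm p a,
      real_inner_comm (F τ) (F a)]
    rw [e2, e1]; field_simp; ring
  have w2 : ⟪w, τ⟫ = 0 := by
    rw [real_inner_comm, hw, inner_sub_right, PioA.inner_gm]
    simp only [map_add, map_smul, inner_add_right, real_inner_smul_right, b0, real_inner_comm p τ,
      hB τ a]
    rw [Gr] at e3
    rw [e2]
    linear_combination e3
  have k1 := expand ha hτ hk aτ (by rw [real_inner_comm, ka]) (by rw [real_inner_comm, kτ]) w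
  rw [w1, w2] at k1
  refine PioA.pio_uniq h hk _ _ (⟪w, k⟫ / ⟪k, k⟫) (by
    simp only [inner_add_right, real_inner_smul_right, ka, kτ]; ring) ?_
  simp only [zero_div, zero_smul, zero_add] at k1
  rw [← k1, hw]; abel

/-- continuous extension to `0` of a function with bounded derivative -/
lemma exists_lim {V : Type*} [NormedAddCommGroup V] [NormedSpace ℝ V] [CompleteSpace V]
    {y y' : ℝ → V} {T L : ℝ} (T0 : 0 < T) (hy : ∀ t ∈ Ioo 0 T, HasDerivAt y (y' t) t)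
    (hb : ∀ t ∈ Ioo 0 T, ‖y' t‖ ≤ L) : ∃ y0, Tendsto y (𝓝[>] 0) (𝓝 y0) := by
  have L0 : 0 ≤ L := (norm_nonneg _).trans (hb (T / 2) ⟨by linarith, by linarith⟩)
  have lip : LipschitzOnWith ⟨L, L0⟩ y (Ioo 0 T) :=
    (convex_Ioo 0 T).lipschitzOnWith_of_nnnorm_hasDerivWithin_le
      (fun t h => (hy t h).hasDerivWithinAt) fun t h => hb t h
  have c : Cauchy (𝓝[>] (0 : ℝ)) := cauchy_nhds.mono nhdsWithin_le_nhds
  exact cauchy_map_iff_exists_tendsto.1 (c.map_of_le lip.uniformContinuousOn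
    (le_principal_iff.2 (Ioo_mem_nhdsGT T0)))

/-- a curve with bounded derivatives agrees on `(0, T)` with one that is `C^1` up to `0` -/
lemma exists_ext {V : Type} [NormedAddCommGroup V] [NormedSpace ℝ V] [CompleteSpace V] {T L : ℝ}
    (T0 : 0 < T) {F : Cv V} (hF : F.Ok T) (h1 : ∀ t ∈ Ioo 0 T, ‖F.f1 t‖ ≤ L)
    (h2 : ∀ t ∈ Ioo 0 T, ‖F.f2 t‖ ≤ L) : ∃ G : Cv V, G.Ok T ∧
      (∀ t, t ≠ 0 → G.f t = F.f t ∧ G.f1 t = F.f1 t) ∧ G.f2 = F.f2 ∧
      ContinuousOn G.f (Ico 0 T) ∧ ContinuousOn G.f1 (Ico 0 T) := by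
  obtain ⟨y0, l0⟩ := exists_lim T0 (fun t h => (hF t h).1) h1
  obtain ⟨y1, l1⟩ := exists_lim T0 (fun t h => (hF t h).2) h2
  have ev : ∀ (g : ℝ → V) (v : V) (t : ℝ), t ≠ 0 → Function.update g 0 v =ᶠ[𝓝 t] g := fun g v t h =>
    (eventually_ne_nhds h).mono fun s hs => Function.update_of_ne hs _ _
  have co : ∀ (g : ℝ → V) (v : V), Tendsto g (𝓝[>] 0) (𝓝 v) → (∀ t ∈ Ioo 0 T, ContinuousAt g t) →
      ContinuousOn (Function.update g 0 v) (Ico 0 T) := fun g v l c t h => by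
    rcases h.1.eq_or_lt with rfl | q
    · rw [continuousWithinAt_update_same]
      exact l.mono_left (nhdsWithin_mono _ fun s hs => lt_of_le_of_ne hs.1.1 (Ne.symm hs.2))
    · exact ((c t ⟨q, h.2⟩).congr (ev g v t q.ne').symm).continuousWithinAt
  refine ⟨⟨Function.update F.f 0 y0, Function.update F.f1 0 y1, F.f2⟩, fun t h => ⟨?_, ?_⟩,
    fun t h => ⟨Function.update_of_ne h _ _, Function.update_of_ne h _ _⟩, rfl,
    co _ _ l0 fun t h => (hF t h).1.continuousAt, co _ _ l1 fun t h => (hF t h).2.continuousAt⟩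
  · simp only [Function.update_of_ne h.1.ne']
    exact (hF t h).1.congr_of_eventuallyEq (ev _ _ t h.1.ne')
  · exact (hF t h).2.congr_of_eventuallyEq (ev _ _ t h.1.ne')

end Pool.Agent.Lib.MP_fbbbeb_an.D.Geo
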