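import Pool.Agent.Lib.MP_fbbbeb_an.D.Ric

set_option autoImplicit false

/-! The window around `t* = 0`: normal form, incoming regime (D4), level G (D5). -/

namespace Pool.Agent.Lib.MP_fbbbeb_an.Ric

open Set

structure Sg (a b sg ps : ℝ) (Sig S1 S2 : ℝ → ℝ) : Prop where
  ha : a ≤ 0
  hb : 0 ≤ b
  sg0 : 0 < sg
  ps0 : 0 < ps
  ps1 : ps ≤ 1 / 1000
  d1 : ∀ t ∈ Icc a b, HasDerivAt Sig (S1 t) t
  d2 : ∀ t ∈ Icc a b, HasDerivAt S1 (S2 t) t
  h2 : ∀ t ∈ Icc a b, |S2 t - sg ^ 2 * ps| ≤ sg ^ 2 * ps / 1000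
  z1 : S1 0 = 0

structure NF (a b sg ps S : ℝ) (Sig P Q : ℝ → ℝ) : Prop where
  hP : ∀ t ∈ Icc a b, |P t - (1 + Sig t ^ 2)| ≤ (1 + Sig t ^ 2) / 1000
  hQ : ∀ t ∈ Icc a b, |Q t - sg ^ 2 * (S - ps * Sig t)| ≤ sg ^ 2 * (1 + ps * |Sig t|) / 1000

theorem NF.mono {a b c d sg ps S : ℝ} {Sig P Q : ℝ → ℝ} (h : NF a b sg ps S Sig P Q) (hac : a ≤ c)
    (hdb : d ≤ b) : NF c d sg ps S Sig P Q :=
  ⟨fun t ht => h.hP t (Icc_subset_Icc hac hdb ht), fun t ht => h.hQ t (Icc_subset_Icc hac hdb ht)⟩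

theorem mono_of_deriv {a b : ℝ} {g g' : ℝ → ℝ} (hg : ∀ t ∈ Icc a b, HasDerivAt g (g' t) t)
    (h : ∀ t ∈ Icc a b, 0 ≤ g' t) {s t : ℝ} (hs : a ≤ s) (hst : s ≤ t) (ht : t ≤ b) : g s ≤ g t :=
  le_of_deriv (a := s) (b := t) (fun x hx => hg x (Icc_subset_Icc hs ht hx))
    (fun x hx => h x ⟨hs.trans hx.1, hx.2.le.trans ht⟩) t ⟨hst, le_rfl⟩

theorem dlin (c d t : ℝ) : HasDerivAt (fun t => c * (t - d)) c t := by
  simpa using ((hasDerivAt_id t).sub_const d).const_mul c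

theorem dmul (c t : ℝ) : HasDerivAt (fun t => c * t) c t := by
  simpa using (hasDerivAt_id t).const_mul c

theorem dsq (c t : ℝ) : HasDerivAt (fun t => c * t ^ 2) (2 * c * t) t :=
  ((hasDerivAt_pow 2 t).const_mul c).congr_deriv (by simp; ring)

theorem dcub (c t : ℝ) : HasDerivAt (fun t => c * t ^ 3) (3 * c * t ^ 2) t :=
  ((hasDerivAt_pow 3 t).const_mul c).congr_deriv (by simp; ring)

/-- crude upper bound for `Fl / Th`. -/
theorem Sys.upper {a b K u0 : ℝ} {P Q Th Fl : ℝ → ℝ} (h : Sys a b P Q Th Fl)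
    (hQ : ∀ t ∈ Ico a b, Q t ≤ K) (hT : ∀ t ∈ Ico a b, 0 ≤ Th t) (h1 : Fl a ≤ u0 * Th a) :
    ∀ t ∈ Icc a b, Fl t ≤ (u0 + K * (t - a)) * Th t :=
  h.ric_super (u := fun t => u0 + K * (t - a)) (u' := fun _ => K)
    (fun t _ => (dlin K a t).const_add u0) (fun t ht => by
      have := div_nonneg (sq_nonneg (u0 + K * (t - a))) (h.pos t (Ico_subset_Icc_self ht)).le
      linarith [hQ t ht]) hT (by simpa using h1)

section
variable {a b sg ps S : ℝ} {Sig S1 S2 P Q Th Fl : ℝ → ℝ}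

theorem Sg.lo (h : Sg a b sg ps Sig S1 S2) {s t : ℝ} (hs : a ≤ s) (hst : s ≤ t) (ht : t ≤ b) :
    999 / 1000 * (sg ^ 2 * ps) * (t - s) ≤ S1 t - S1 s := by
  have := mono_of_deriv (g := fun x => S1 x - 999 / 1000 * (sg ^ 2 * ps) * x)
    (fun x hx => (h.d2 x hx).sub (dmul _ x))
    (fun x hx => by have := (abs_le.mp (h.h2 x hx)).1; linarith) hs hst ht
  linarith

theorem Sg.hi (h : Sg a b sg ps Sig S1 S2) {s t : ℝ} (hs : a ≤ s) (hst : s ≤ t) (ht : t ≤ b) :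
    S1 t - S1 s ≤ 1001 / 1000 * (sg ^ 2 * ps) * (t - s) := by
  have := mono_of_deriv (g := fun x => 1001 / 1000 * (sg ^ 2 * ps) * x - S1 x)
    (fun x hx => (dmul _ x).sub (h.d2 x hx))
    (fun x hx => by have := (abs_le.mp (h.h2 x hx)).2; linarith) hs hst ht
  linarith

theorem Sg.c0 (h : Sg a b sg ps Sig S1 S2) : 0 < sg ^ 2 * ps := mul_pos (pow_pos h.sg0 2) h.ps0

theorem Sg.neg (h : Sg a b sg ps Sig S1 S2) {t : ℝ} (ha : a ≤ t) (ht : t ≤ 0) :
    999 / 1000 * (sg ^ 2 * ps) * (-t) ≤ -S1 t ∧ -S1 t ≤ 1001 / 1000 * (sg ^ 2 * ps) * (-t) := by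
  have h1 := h.lo ha ht h.hb
  have h2 := h.hi ha ht h.hb
  rw [h.z1] at h1 h2
  constructor <;> linarith

theorem Sg.pos (h : Sg a b sg ps Sig S1 S2) {t : ℝ} (ht : 0 ≤ t) (hb : t ≤ b) :
    999 / 1000 * (sg ^ 2 * ps) * t ≤ S1 t ∧ S1 t ≤ 1001 / 1000 * (sg ^ 2 * ps) * t := by
  have h1 := h.lo h.ha ht hb
  have h2 := h.hi h.ha ht hb
  rw [h.z1] at h1 h2
  constructor <;> linarith

theorem Sg.S1_le (h : Sg a b sg ps Sig S1 S2) {t : ℝ} (ha : a ≤ t) (ht : t ≤ 0) : S1 t ≤ 0 := by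
  have := (h.neg ha ht).1
  have := h.c0
  nlinarith

theorem Sg.anti (h : Sg a b sg ps Sig S1 S2) {s t : ℝ} (hs : a ≤ s) (hst : s ≤ t) (ht : t ≤ 0) :
    Sig t ≤ Sig s := by
  have := mono_of_deriv (a := a) (b := 0) (g := fun x => -Sig x)
    (fun x hx => (h.d1 x ⟨hx.1, hx.2.trans h.hb⟩).neg)
    (fun x hx => by have := h.S1_le hx.1 hx.2; linarith) hs hst ht
  linarith

theorem Sg.par (h : Sg a b sg ps Sig S1 S2) {t : ℝ} (ht : t ∈ Icc a b) :
    999 / 2000 * (sg ^ 2 * ps) * t ^ 2 ≤ Sig t - Sig 0 ∧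
      Sig t - Sig 0 ≤ 1001 / 2000 * (sg ^ 2 * ps) * t ^ 2 := by
  rcases le_total t 0 with h0 | h0
  · have h1 := mono_of_deriv (a := a) (b := 0)
      (g := fun x => 999 / 2000 * (sg ^ 2 * ps) * x ^ 2 - Sig x)
      (fun x hx => (dsq _ x).sub (h.d1 x ⟨hx.1, hx.2.trans h.hb⟩))
      (fun x hx => by have := (h.neg hx.1 hx.2).1; linarith) ht.1 h0 le_rfl
    have h2 := mono_of_deriv (a := a) (b := 0)
      (g := fun x => Sig x - 1001 / 2000 * (sg ^ 2 * ps) * x ^ 2)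
      (fun x hx => (h.d1 x ⟨hx.1, hx.2.trans h.hb⟩).sub (dsq _ x))
      (fun x hx => by have := (h.neg hx.1 hx.2).2; linarith) ht.1 h0 le_rfl
    constructor <;> linarith
  · have h1 := mono_of_deriv (a := 0) (b := b)
      (g := fun x => Sig x - 999 / 2000 * (sg ^ 2 * ps) * x ^ 2)
      (fun x hx => (h.d1 x ⟨h.ha.trans hx.1, hx.2⟩).sub (dsq _ x))
      (fun x hx => by have := (h.pos hx.1 hx.2).1; linarith) le_rfl h0 ht.2
    have h2 := mono_of_deriv (a := 0) (b := b)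
      (g := fun x => 1001 / 2000 * (sg ^ 2 * ps) * x ^ 2 - Sig x)
      (fun x hx => (dsq _ x).sub (h.d1 x ⟨h.ha.trans hx.1, hx.2⟩))
      (fun x hx => by have := (h.pos hx.1 hx.2).2; linarith) le_rfl h0 ht.2
    constructor <;> linarith

/-- D4: incoming regime. -/
theorem incoming {c : ℝ} (h : Sg a b sg ps Sig S1 S2) (hc : c ≤ 0) (hs : Sys a c P Q Th Fl)
    (hn : NF a c sg ps S Sig P Q) (h0 : Sig 0 ≤ 0) (hp : ∀ t ∈ Icc a c, 0 ≤ Sig t)
    (hS : S = 1 ∨ (S = -1 ∧ ∀ t ∈ Icc a c, 20 * sg ^ 2 ≤ S1 t ^ 2))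
    (hT : 0 < Th a) (hF : 3 / 4 * (Sig a * -S1 a) * Th a ≤ Fl a) :
    ∀ t ∈ Icc a c, 0 < Th t ∧ 3 / 4 * (Sig t * -S1 t) * Th t ≤ Fl t := by
  have hsub : Icc a c ⊆ Icc a b := Icc_subset_Icc le_rfl (hc.trans h.hb)
  refine hs.ric_sub (u := fun t => 3 / 4 * (Sig t * -S1 t))
    (u' := fun t => 3 / 4 * (S1 t * -S1 t + Sig t * -S2 t))
    (fun t ht => ((h.d1 t (hsub ht)).mul (h.d2 t (hsub ht)).neg).const_mul _) (fun t ht => ?_) hT hF
  have ht' := Ico_subset_Icc_self ht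
  have e0 := hp t ht'
  have eP := (abs_le.mp (hn.hP t ht')).1
  have eQ := (abs_le.mp (hn.hQ t ht')).1
  rw [abs_of_nonneg e0] at eQ
  have e1 : (3 / 4 * (Sig t * -S1 t)) ^ 2 / P t ≤ 5631 / 10000 * S1 t ^ 2 := by
    rw [div_le_iff₀ (hs.pos t ht')]
    nlinarith [mul_le_mul_of_nonneg_left eP (sq_nonneg (S1 t)), sq_nonneg (S1 t),
      sq_nonneg (Sig t * S1 t)]
  have c0 := h.c0
  have e2 := (abs_le.mp (h.h2 t (hsub ht'))).1
  have e3 : 999 / 1000 * (sg ^ 2 * ps * Sig t) ≤ Sig t * S2 t := by nlinarith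
  have e4 := (h.par (hsub ht')).2
  have e5 := (h.neg ht.1 (ht.2.le.trans hc)).1
  have e6 : (999 / 1000 * (sg ^ 2 * ps) * (-t)) ^ 2 ≤ (-S1 t) ^ 2 :=
    pow_le_pow_left₀ (by have := ht.2.le.trans hc; nlinarith) e5 2
  have e7 : sg ^ 2 * ps * Sig t ≤ 1001 / 2000 * ((sg ^ 2 * ps) ^ 2 * t ^ 2) := by nlinarith
  have e8 := sq_nonneg sg
  rcases hS with rfl | ⟨rfl, hS⟩
  · nlinarith
  · have := hS t ht'
    nlinarith

/-- D5: the level G. -/
theorem levelG {l : ℝ} (h : Sg a b sg ps Sig S1 S2) (hs : Sys a b P Q Th Fl)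
    (hn : NF a b sg ps 1 Sig P Q) (h0 : Sig 0 = 0) (hl0 : 0 < l) (hl : ps * l ^ 2 = 1)
    (hal : sg * a ≤ -l) (hbl : 26 / 10 ≤ sg * ps * b)
    (hT : 0 < Th a) (hF : 3 / 4 * (Sig a * -S1 a) * Th a ≤ Fl a) :
    ∃ tn ∈ Icc 0 b, 16 / 10 ≤ sg * ps * tn ∧ sg * ps * tn ≤ 26 / 10 ∧ Fl tn = 0 ∧
      (∀ t ∈ Icc a tn, 0 < Th t ∧ 0 ≤ Fl t) ∧ Real.exp (l / 2) * Th a ≤ Th tn ∧
      127 / 100 ≤ ps * Sig tn ∧ ps * Sig tn ≤ 34 / 10 ∧ Q tn ≤ -(sg ^ 2 / 5) := by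
  have sg0 := h.sg0
  have ps0 := h.ps0
  have ps1 := h.ps1
  have c0 := h.c0
  have sp0 : 0 < sg * ps := mul_pos sg0 ps0
  have hl31 : 31 ≤ l := by nlinarith only [hl, ps1, hl0, ps0]
  have hlp : ps * l ≤ 1 := by nlinarith only [hl, hl31, ps0]
  have par : ∀ t ∈ Icc a b, 999 / 2000 * (sg ^ 2 * ps) * t ^ 2 ≤ Sig t ∧
      Sig t ≤ 1001 / 2000 * (sg ^ 2 * ps) * t ^ 2 := fun t ht => by
    have := h.par ht; rwa [h0, sub_zero] at this
  have hp : ∀ t ∈ Icc a b, 0 ≤ Sig t := fun t ht => le_trans (by positivity) (par t ht).1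
  have hQ : ∀ t ∈ Icc a b, sg ^ 2 * (999 / 1000 - 1001 / 1000 * (ps * Sig t)) ≤ Q t ∧
      Q t ≤ sg ^ 2 * (1001 / 1000 - 999 / 1000 * (ps * Sig t)) := fun t ht => by
    have e := abs_le.mp (hn.hQ t ht)
    rw [abs_of_nonneg (hp t ht)] at e
    constructor <;> linarith [e.1, e.2]
  have hin := incoming h le_rfl (hs.mono le_rfl h.hb) (hn.mono le_rfl h.hb) h0.le
    (fun t ht => hp t ⟨ht.1, ht.2.trans h.hb⟩) (Or.inl rfl) hT hF
  have hin' : ∀ t ∈ Icc a 0, 0 < Th t ∧ 0 ≤ Fl t := fun t ht => ⟨(hin t ht).1, le_trans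
    (mul_nonneg (mul_nonneg (by norm_num) (mul_nonneg (hp t ⟨ht.1, ht.2.trans h.hb⟩)
      (neg_nonneg.mpr (h.S1_le ht.1 ht.2)))) (hin t ht).1.le) (hin t ht).2⟩
  -- times
  obtain ⟨w, hw⟩ : ∃ w, sg * w = 1 := ⟨1 / sg, by field_simp⟩
  have w0 : 0 < w := by nlinarith only [hw, sg0]
  obtain ⟨v, hv⟩ : ∃ v, sg * ps * v = 1 := ⟨1 / (sg * ps), by field_simp⟩
  have v0 : 0 < v := by nlinarith only [hv, sp0]
  have hwv : w = ps * v := by
    have : sg * (w - ps * v) = 0 := by linarith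
    rcases mul_eq_zero.mp this with e | e <;> linarith
  have slw : sg * (l * w) = l := by rw [mul_left_comm, hw, mul_one]
  have ha1 : a ≤ -(l * w) := by
    by_contra e; push Not at e
    linarith only [mul_pos sg0 (sub_pos.2 e), slw, hal]
  have hb1 : 26 / 10 * v ≤ b := by
    by_contra e; push Not at e
    linarith only [mul_pos sp0 (sub_pos.2 e), hv, hbl]
  have hlv : l * w ≤ v := by
    rw [hwv]; linarith only [mul_le_mul_of_nonneg_right hlp v0.le]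
  have hwl : w ≤ l * w := by linarith only [mul_le_mul_of_nonneg_right hl31 w0.le, w0]
  have core : ∀ t ∈ Icc (-(l * w)) (l * w), 9 / 10 * sg ^ 2 ≤ Q t ∧ Q t ≤ 1001 / 1000 * sg ^ 2 ∧
      999 / 1000 ≤ P t ∧ P t ≤ 1252 / 1000 := fun t ht => by
    have ht' : t ∈ Icc a b := ⟨ha1.trans ht.1, by linarith [ht.2]⟩
    have e1 : t ^ 2 ≤ (l * w) ^ 2 := sq_le_sq' ht.1 ht.2
    have e2 : sg ^ 2 * ps * (l * w) ^ 2 = 1 := by
      calc _ = (ps * l ^ 2) * (sg * w) ^ 2 := by ring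
        _ = 1 := by rw [hl, hw]; norm_num
    have e3 : Sig t ≤ 1001 / 2000 := by
      linarith only [(par t ht').2, mul_le_mul_of_nonneg_left e1 c0.le, e2]
    have e4 := hp t ht'
    have e5 := abs_le.mp (hn.hP t ht')
    have e6 := hQ t ht'
    have e7 : 0 ≤ ps * Sig t := by positivity
    have e8 : ps * Sig t ≤ 1 / 1000 := by
      linarith only [mul_le_mul_of_nonneg_left e3 ps0.le, ps1]
    have e9 := sq_nonneg sg
    refine ⟨by linarith only [e6.1, mul_le_mul_of_nonneg_left e8 e9, e9],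
      by linarith only [e6.2, mul_nonneg e9 e7], by linarith only [e5.1, sq_nonneg (Sig t)],
      by linarith only [e5.2, mul_le_mul_of_nonneg_left e3 e4, e3]⟩
  -- gain
  have g1 := (hs.mono ha1 (show -(l * w) + w ≤ b by linarith)).ric_sub
    (u := fun t => sg ^ 2 / 2 * (t - -(l * w))) (u' := fun _ => sg ^ 2 / 2)
    (fun t _ => dlin _ _ t) (fun t ht => by
      have e := core t ⟨ht.1, by linarith [ht.2]⟩
      have e1 : sg * (t - -(l * w)) ≤ 1 := by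
        linarith only [mul_le_mul_of_nonneg_left ht.2.le sg0.le, hw]
      have e2 : 0 ≤ sg * (t - -(l * w)) := mul_nonneg sg0.le (by linarith [ht.1])
      have e3 : (sg * (t - -(l * w))) ^ 2 ≤ 1 := pow_le_one₀ e2 e1
      have e4 : (sg ^ 2 / 2 * (t - -(l * w))) ^ 2 / P t ≤ 3 / 10 * sg ^ 2 := by
        rw [div_le_iff₀ (by linarith [e.2.2.1])]
        linarith only [mul_le_mul_of_nonneg_left e3 (sq_nonneg sg),
          mul_le_mul_of_nonneg_left e.2.2.1 (sq_nonneg sg), sq_nonneg sg]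
      linarith only [e.1, sq_nonneg sg, e4])
    (hin' _ ⟨ha1, by linarith⟩).1 (by simpa using (hin' _ ⟨ha1, by linarith⟩).2)
    (-(l * w) + w) ⟨by linarith, le_rfl⟩
  have hs2 := hs.mono (show a ≤ -(l * w) + w by linarith) (show l * w ≤ b by linarith)
  have g2 := hs2.ric_sub (u := fun _ => sg / 2) (u' := fun _ => 0)
    (fun t _ => hasDerivAt_const t _) (fun t ht => by
      have e := core t ⟨by linarith [ht.1], ht.2.le⟩
      have e4 : (sg / 2) ^ 2 / P t ≤ 3 / 10 * sg ^ 2 := by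
        rw [div_le_iff₀ (by linarith [e.2.2.1])]
        linarith only [mul_le_mul_of_nonneg_left e.2.2.1 (sq_nonneg sg), sq_nonneg sg]
      linarith only [e.1, sq_nonneg sg, e4]) g1.1 (by
      have e : sg ^ 2 / 2 * (-(l * w) + w - -(l * w)) = sg / 2 := by
        calc _ = sg / 2 * (sg * w) := by ring
          _ = _ := by rw [hw, mul_one]
      have := g1.2; simp only [e] at this; exact this)
  have g3 := hs2.gain (c := 39 / 100 * sg) (fun t ht => by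
      have e := core t ⟨by linarith [ht.1], ht.2⟩
      have e1 := g2 t ht
      have e2 := mul_pos sg0 e1.1
      linarith only [mul_le_mul_of_nonneg_left e.2.2.2 e2.le, e1.2, e2]) (l * w) ⟨by linarith, le_rfl⟩
  -- subsolution after 0
  have s1 := (hs.mono h.ha (show 16 / 10 * v ≤ b by linarith)).ric_sub
    (u := fun t => 4 / 10 * (sg ^ 3 * ps) * t ^ 2 - 1 / 4 * (sg ^ 4 * ps ^ 2) * t ^ 3)
    (u' := fun t => 2 * (4 / 10 * (sg ^ 3 * ps)) * t - 3 * (1 / 4 * (sg ^ 4 * ps ^ 2)) * t ^ 2)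
    (fun t _ => (dsq _ t).sub (dcub _ t)) (fun t ht => by
      have ht' : t ∈ Icc a b := ⟨h.ha.trans ht.1, by linarith [ht.2]⟩
      obtain ⟨x, hx⟩ : ∃ x, x = sg * ps * t := ⟨_, rfl⟩
      have x0 : 0 ≤ x := by rw [hx]; exact mul_nonneg sp0.le ht.1
      have x1 : x ≤ 16 / 10 := by
        rw [hx]; linarith only [mul_le_mul_of_nonneg_left ht.2.le sp0.le, hv]
      have e1 : 999 / 2000 * x ^ 2 ≤ ps * Sig t := by
        have := mul_le_mul_of_nonneg_left (par t ht').1 ps0.le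
        rw [hx]; linarith only [this]
      have e2 : ps * Sig t ≤ 1001 / 2000 * x ^ 2 := by
        have := mul_le_mul_of_nonneg_left (par t ht').2 ps0.le
        rw [hx]; linarith only [this]
      have e3 : (999 / 2000 * x ^ 2) ^ 2 ≤ (ps * Sig t) ^ 2 := pow_le_pow_left₀ (by positivity) e1 2
      have e4 : 999 / 1000 * Sig t ^ 2 ≤ P t := by linarith only [(abs_le.mp (hn.hP t ht')).1]
      have e5 : x ^ 4 / 16 ≤ 251 / 1000 * (ps ^ 2 * P t) := by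
        linarith only [mul_le_mul_of_nonneg_left e4 (sq_nonneg ps), pow_nonneg x0 4, e3]
      have e6 : (4 / 10 * (sg ^ 3 * ps) * t ^ 2 - 1 / 4 * (sg ^ 4 * ps ^ 2) * t ^ 3) ^ 2 / P t ≤
          251 / 1000 * (sg ^ 2 * (16 / 10 - x) ^ 2) := by
        rw [div_le_iff₀ (hs.pos t ht')]
        refine le_of_mul_le_mul_left ?_ (pow_pos ps0 2)
        have e7 := mul_le_mul_of_nonneg_left e5
          (show 0 ≤ sg ^ 2 * (16 / 10 - x) ^ 2 by positivity)
        calc _ = sg ^ 2 * (16 / 10 - x) ^ 2 * (x ^ 4 / 16) := by rw [hx]; ring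
          _ ≤ _ := e7
          _ = _ := by ring
      have e8 : 2 * (4 / 10 * (sg ^ 3 * ps)) * t - 3 * (1 / 4 * (sg ^ 4 * ps ^ 2)) * t ^ 2 =
          sg ^ 2 * (8 / 10 * x - 3 / 4 * x ^ 2) := by rw [hx]; ring
      have e9 : 8 / 10 * x - 3 / 4 * x ^ 2 ≤ 999 / 1000 - 1001 / 1000 * (ps * Sig t) -
          251 / 1000 * (16 / 10 - x) ^ 2 := by nlinarith only [e2, x0, x1]
      have e10 := mul_le_mul_of_nonneg_left e9 (sq_nonneg sg)
      have e11 := (hQ t ht').1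
      simp only [e8]
      linarith)
    (hin' 0 ⟨h.ha, le_rfl⟩).1 (by simpa using (hin' 0 ⟨h.ha, le_rfl⟩).2)
  have s2 : ∀ t ∈ Icc a (16 / 10 * v), 0 ≤ Fl t := fun t ht => by
    rcases le_total t 0 with e | e
    · exact (hin' t ⟨ht.1, e⟩).2
    · have e1 := s1 t ⟨e, ht.2⟩
      refine le_trans (mul_nonneg ?_ e1.1.le) e1.2
      have x1 : sg * ps * t ≤ 16 / 10 := by
        linarith only [mul_le_mul_of_nonneg_left ht.2 sp0.le, hv]
      have : 4 / 10 * (sg ^ 3 * ps) * t ^ 2 - 1 / 4 * (sg ^ 4 * ps ^ 2) * t ^ 3 =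
          1 / 4 * (sg ^ 3 * ps * t ^ 2) * (16 / 10 - sg * ps * t) := by ring
      simp only [this]
      exact mul_nonneg (by positivity) (by linarith)
  -- upper bound at 0
  have u0 : Fl 0 ≤ 25 / 10 * sg * Th 0 := by
    have haw : a ≤ -w := by linarith
    have e0 := hin' (-w) ⟨haw, by linarith⟩
    obtain ⟨d, d0, hd⟩ : ∃ d : ℝ, 0 < d ∧ Fl (-w) ≤ 13 / 10 * d⁻¹ * Th (-w) := by
      refine ⟨Th (-w) / (Fl (-w) + 1), div_pos e0.1 (by linarith [e0.2]), ?_⟩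
      have := e0.1.ne'
      rw [inv_div, mul_assoc, div_mul_cancel₀ _ this]; linarith [e0.2]
    have := (hs.mono haw h.hb).ric_super
      (u := fun t => 13 / 10 * (t + (w + d))⁻¹ + 12 / 10 * sg)
      (u' := fun t => 13 / 10 * (-1 / (t + (w + d)) ^ 2))
      (fun t ht => ((((hasDerivAt_id' t).add_const (w + d)).inv
        (by linarith [ht.1] : 0 < t + (w + d)).ne').const_mul _).add_const _)
      (fun t ht => by
        have e := core t ⟨by linarith [ht.1], by linarith [ht.2]⟩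
        have e1 : 0 < t + (w + d) := by linarith [ht.1]
        obtain ⟨y, hy⟩ : ∃ y, y = (t + (w + d))⁻¹ := ⟨_, rfl⟩
        have y0 : 0 < y := hy ▸ inv_pos.mpr e1
        have e2 : -1 / (t + (w + d)) ^ 2 = -y ^ 2 := by rw [hy]; field_simp
        have e3 : 13 / 10 * y ^ 2 + 1001 / 1000 * sg ^ 2 ≤ (13 / 10 * y + 12 / 10 * sg) ^ 2 / P t := by
          rw [le_div_iff₀ (by linarith [e.2.2.1])]
          linarith only [mul_le_mul_of_nonneg_left e.2.2.2 (sq_nonneg sg),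
            mul_le_mul_of_nonneg_left e.2.2.2 (sq_nonneg y), mul_pos y0 sg0, sq_nonneg y, sq_nonneg sg]
        simp only [e2, ← hy]
        linarith [e.2.1])
      (fun t ht => (hin' t ⟨haw.trans ht.1, ht.2.le⟩).1.le)
      (by
        have : -w + (w + d) = d := by ring
        simp only [this]
        linarith only [mul_pos sg0 e0.1, hd]) 0 ⟨by linarith, le_rfl⟩
    have e1 : (0 + (w + d))⁻¹ ≤ sg := by
      rw [inv_le_iff_one_le_mul₀ (by linarith)]; linarith only [mul_pos sg0 d0, hw]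
    have e2 := (hin' 0 ⟨h.ha, le_rfl⟩).1
    linarith only [mul_le_mul_of_nonneg_right e1 e2.le, this]
  have ex : ∃ t ∈ Icc (16 / 10 * v) (26 / 10 * v), Fl t ≤ 0 := by
    by_contra hn'
    push Not at hn'
    have f0 : ∀ t ∈ Icc a (26 / 10 * v), 0 ≤ Fl t := fun t ht => by
      rcases le_total t (16 / 10 * v) with e | e
      · exact s2 t ⟨ht.1, e⟩
      · exact (hn' t ⟨e, ht.2⟩).le
    have hav : a ≤ 26 / 10 * v := by linarith [h.ha]
    have t0 : ∀ t ∈ Icc a (26 / 10 * v), 0 < Th t := fun t ht =>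
      hT.trans_le ((hs.mono le_rfl hb1).Th_mono f0 a ⟨le_rfl, hav⟩ t ht ht.1)
    have := (hs.mono h.ha hb1).ric_super
      (u := fun t => 25 / 10 * sg + (1001 / 1000 * sg ^ 2 * t - 16625 / 100000 * (sg ^ 4 * ps ^ 2) * t ^ 3))
      (u' := fun t => 1001 / 1000 * sg ^ 2 - 3 * (16625 / 100000 * (sg ^ 4 * ps ^ 2)) * t ^ 2)
      (fun t _ => ((dmul _ t).sub (dcub _ t)).const_add _)
      (fun t ht => by
        have ht' : t ∈ Icc a b := ⟨h.ha.trans ht.1, by linarith [ht.2]⟩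
        have e1 := mul_le_mul_of_nonneg_left (par t ht').1 c0.le
        have e2 := (hQ t ht').2
        have e3 := div_nonneg (sq_nonneg (25 / 10 * sg + (1001 / 1000 * sg ^ 2 * t -
          16625 / 100000 * (sg ^ 4 * ps ^ 2) * t ^ 3))) (hs.pos t ht').le
        have e4 : 0 ≤ sg ^ 4 * ps ^ 2 * t ^ 2 := by positivity
        linarith only [e1, e2, e3, e4])
      (fun t ht => (t0 t ⟨h.ha.trans ht.1, ht.2.le⟩).le) (by simpa using u0)
      (26 / 10 * v) ⟨by linarith, le_rfl⟩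
    have e1 := t0 _ ⟨hav, le_rfl⟩
    have e2 := hn' _ ⟨by linarith, le_rfl⟩
    have e3 : sg ^ 4 * ps ^ 2 * v ^ 3 = sg ^ 2 * v := by
      calc _ = sg ^ 2 * v * (sg * ps * v) ^ 2 := by ring
        _ = _ := by rw [hv]; ring
    have e4 : 1000 * sg ≤ sg ^ 2 * v := by
      have : 1000 ≤ sg * v := by
        linarith only [mul_le_mul_of_nonneg_left ps1 (mul_pos sg0 v0).le, hv]
      linarith only [mul_le_mul_of_nonneg_left this sg0.le]
    have e5 : 25 / 10 * sg + (1001 / 1000 * sg ^ 2 * (26 / 10 * v) -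
        16625 / 100000 * (sg ^ 4 * ps ^ 2) * (26 / 10 * v) ^ 3) ≤ 0 := by
      linarith only [e3, e4, sg0]
    linarith only [mul_nonpos_of_nonpos_of_nonneg e5 e1.le, this, e2]
  obtain ⟨tn, htn, hz, hge⟩ := first_zero
    (contOn (hs.mono (show a ≤ 16 / 10 * v by linarith [h.ha]) hb1).dFl)
    (s2 _ ⟨by linarith [h.ha], le_rfl⟩) ex
  have htb : tn ≤ b := htn.2.trans hb1
  have hat : a ≤ tn := by linarith [h.ha, htn.1]
  have f0 : ∀ t ∈ Icc a tn, 0 ≤ Fl t := fun t ht => by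
    rcases le_total t (16 / 10 * v) with e | e
    · exact s2 t ⟨ht.1, e⟩
    · exact hge t ⟨e, ht.2⟩
  have hm := (hs.mono le_rfl htb).Th_mono f0
  have x0 : 16 / 10 ≤ sg * ps * tn := by
    linarith only [mul_le_mul_of_nonneg_left htn.1 sp0.le, hv]
  have x1 : sg * ps * tn ≤ 26 / 10 := by
    linarith only [mul_le_mul_of_nonneg_left htn.2 sp0.le, hv]
  have e1 := mul_le_mul_of_nonneg_left (par tn ⟨hat, htb⟩).1 ps0.le
  have e2 := mul_le_mul_of_nonneg_left (par tn ⟨hat, htb⟩).2 ps0.le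
  have y0 : (16 / 10) ^ 2 ≤ (sg * ps * tn) ^ 2 := pow_le_pow_left₀ (by norm_num) x0 2
  have y1 : (sg * ps * tn) ^ 2 ≤ (26 / 10) ^ 2 := pow_le_pow_left₀ (by linarith only [x0]) x1 2
  have e3 : 127 / 100 ≤ ps * Sig tn := by linarith only [e1, y0]
  refine ⟨tn, ⟨by linarith [htn.1], htb⟩, x0, x1, hz,
    fun t ht => ⟨hT.trans_le (hm a ⟨le_rfl, hat⟩ t ht ht.1), f0 t ht⟩, ?_, e3, by linarith only [e2, y1],
    by linarith only [(hQ tn ⟨hat, htb⟩).2, sq_nonneg sg,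
      mul_le_mul_of_nonneg_left e3 (sq_nonneg sg)]⟩
  have m1 := hm a ⟨le_rfl, hat⟩ (-(l * w) + w) ⟨by linarith, by linarith [htn.1]⟩ (by linarith)
  have m2 := hm (l * w) ⟨by linarith [h.ha], by linarith [htn.1]⟩ tn ⟨hat, le_rfl⟩
    (by linarith [htn.1])
  have m3 : Real.exp (l / 2) ≤ Real.exp (39 / 100 * sg * (l * w - (-(l * w) + w))) := by
    apply Real.exp_le_exp.mpr
    have : 39 / 100 * sg * (l * w - (-(l * w) + w)) = 39 / 100 * (2 * l - 1) * (sg * w) := by ring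
    rw [this, hw]; linarith
  have m4 := mul_le_mul m3 m1 hT.le (Real.exp_pos _).le
  linarith

end

end Pool.Agent.Lib.MP_fbbbeb_an.Ric
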