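import Mathlib
import Pool.Agent.Lib.MP_fbbbeb_an.D.Win

/-! Scalar layer of the ODE cascade: data of one level and statements of the steps. -/

set_option autoImplicit false

noncomputable section

namespace Pool.Agent.Lib.MP_fbbbeb_an.D

open Set Pool.Agent.Lib.MP_fbbbeb_an.Ric

/-- a positive solution of the scalar system with a turning point at `t0` -/
structure Sp (K T t0 : ℝ) (p q th f : ℝ → ℝ) : Prop where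
  sys : Sys 0 T p q th f
  p_lo : ∀ t ∈ Icc 0 T, 1 ≤ K * p t
  p_hi : ∀ t ∈ Icc 0 T, p t ≤ K
  q_bd : ∀ t ∈ Icc 0 T, |q t| ≤ K
  pos : ∀ t ∈ Icc 0 T, 0 < th t
  f_bd : ∀ t ∈ Icc 0 T, |f t| ≤ K * th t
  qmono : ∀ s ∈ Icc 0 T, ∀ t ∈ Icc 0 T, s ≤ t → th s ≤ K * th t
  top : ∀ t ∈ Icc 0 T, th t ≤ K * th t0
  t_lo : 1 ≤ K * t0
  t_hi : t0 + 1 / K ≤ T
  T_le : T ≤ 1
  f_zero : f t0 = 0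
  mono : ∀ t ∈ Icc 0 T, ∀ s ∈ Icc (t0 - 1 / K) t0, t ≤ s → th t ≤ th s
  drop : th 0 ≤ (1 - 1 / K) * th t0

/-- bounded and Lipschitz on `[0,T]` -/
def Lip (K T : ℝ) (g : ℝ → ℝ) : Prop :=
  (∀ t ∈ Icc 0 T, |g t| ≤ K) ∧ ∀ s ∈ Icc 0 T, ∀ t ∈ Icc 0 T, |g t - g s| ≤ K * |t - s|

/-- scalar data of one level -/
structure Dat where
  T : ℝ
  t0 : ℝ
  m : ℝ
  p : ℝ → ℝ
  q : ℝ → ℝ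
  th : ℝ → ℝ
  f : ℝ → ℝ
  a : ℝ → ℝ
  b : ℝ → ℝ
  c : ℝ → ℝ
  d : ℝ → ℝ
  om : ℝ → ℝ

/-- size of the level -/
def Dat.TH (x : Dat) : ℝ := x.th x.t0

def Dat.lam (x : Dat) (L t : ℝ) : ℝ := (L - x.th t) / x.m

structure Dat.Ok (x : Dat) (K ε ψ S : ℝ) : Prop where
  sp : Sp K x.T x.t0 x.p x.q x.th x.f
  m_lo : 1 ≤ K * |x.m|
  m_hi : |x.m| ≤ K
  dp : ∃ p1 : ℝ → ℝ, ∀ t ∈ Ioo 0 x.T, HasDerivAt x.p (p1 t) t ∧ |p1 t| ≤ K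
  lp : Lip K x.T x.p
  la : Lip K x.T x.a
  lb : Lip K x.T x.b
  lc : Lip K x.T x.c
  ld : Lip K x.T x.d
  lo : Lip K x.T x.om
  a_lo : 1 ≤ K * x.a x.t0
  q_eq : ∀ t ∈ Icc 0 x.T, |x.q t + 2 * x.m * x.d t| ≤ ε
  b_zero : x.b x.t0 = 0
  md : 0 < x.m * x.d x.t0
  d_lo : 1 ≤ K * |x.d x.t0|
  sgn : S = 1 ∨ S = -1
  c_lo : 1 ≤ K * (S * x.c x.t0)
  om_eq : x.om x.t0 = x.c x.t0 ^ 2 / x.a x.t0 + x.d x.t0 ^ 2 / x.p x.t0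
  psi : 0 ≤ ψ
  tilt : x.d x.t0 ^ 2 ≤ ψ ^ 2 * x.om x.t0 * x.p x.t0

/-- coefficients of the next level for the parameter `L` -/
structure Nw (x : Dat) (K K1 ε L mn : ℝ) (P Q D Om : ℝ → ℝ) : Prop where
  P_eq : ∀ t ∈ Icc 0 x.T, |P t - (x.a t - 2 * x.lam L t * x.b t + x.lam L t ^ 2 * x.p t)| ≤ ε
  D_eq : ∀ t ∈ Icc 0 x.T, |D t - (x.c t - x.lam L t * x.d t)| ≤ ε
  Q_eq : ∀ t ∈ Icc 0 x.T, |Q t + 2 * mn * D t| ≤ ε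
  Om_eq : ∀ t ∈ Icc 0 x.T, |Om t - x.om t| ≤ ε
  m_eq : |mn + L| ≤ K
  P_lo : ∀ t ∈ Icc 0 x.T, 1 ≤ K1 * P t
  P_hi : ∀ t ∈ Icc 0 x.T, P t ≤ K1
  Q_bd : ∀ t ∈ Icc 0 x.T, |Q t| ≤ K1

/-- the new solution follows the old one on `[0,s]` -/
structure Al (x : Dat) (K2 L s : ℝ) (Th Fl : ℝ → ℝ) : Prop where
  dl : ∀ t ∈ Icc 0 s, x.TH ≤ K2 * (L - x.th t)
  w : ∀ t ∈ Icc 0 s, K2 * |(L - x.th t) * Th t - x.th t| ≤ x.th t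
  g : ∀ t ∈ Icc 0 s, K2 * |x.m ^ 2 * Fl t / (L - x.th t) - x.f t * Th t - x.f t| ≤ x.th t

/-- the solution of the new system with aligned data -/
structure Ini (x : Dat) (L : ℝ) (P Q Th Fl : ℝ → ℝ) : Prop where
  sys : Sys 0 x.T P Q Th Fl
  th0 : Th 0 = x.th 0 / (L - x.th 0)
  fl0 : Fl 0 = x.f 0 * L / x.m ^ 2

/-- two-sided comparison of the normalised solutions -/
def Cmp (K T t0 t1 : ℝ) (th Th : ℝ → ℝ) : Prop :=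
  ∀ t ∈ Icc 0 T, Th t * th t0 ≤ K * (th t * Th t1) ∧ th t * Th t1 ≤ K * (Th t * th t0)

/-! constants and functions of the normal form -/

def Dat.sg (x : Dat) : ℝ := Real.sqrt (2 * x.TH * |x.c x.t0| / x.a x.t0)

def Dat.kp (x : Dat) : ℝ := Real.sqrt (x.p x.t0 / x.a x.t0)

def Dat.ps (x : Dat) : ℝ := |x.d x.t0| / (x.kp * |x.c x.t0|)

def Dat.Sig (x : Dat) (L u : ℝ) : ℝ := (L - x.th (u + x.t0)) / |x.m| * x.kp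

def Dat.S1 (x : Dat) (u : ℝ) : ℝ := -(x.f (u + x.t0) / x.p (u + x.t0)) / |x.m| * x.kp

/-- D3 -/
def AliSt : Prop := ∃ C : ℕ, ∀ (x : Dat) (K K1 K2 ε ψ S L mn s : ℝ) (P Q D Om Th Fl : ℝ → ℝ),
  2 ≤ K → K ≤ K2 → x.Ok K ε ψ S → Nw x K K1 ε L mn P Q D Om → K2 ^ C ≤ x.TH → ε * K2 ^ C ≤ 1 →
  2 * |L - x.TH| ≤ x.TH → s ∈ Icc 0 x.T → (∀ t ∈ Icc 0 s, x.TH ≤ K2 * (L - x.th t)) →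
  Ini x L P Q Th Fl → Al x K2 L s Th Fl

/-- the old solution near its turning point -/
def TurnSt : Prop := ∃ C : ℕ, ∀ (x : Dat) (K ε ψ S τ : ℝ), 2 ≤ K → x.Ok K ε ψ S →
  ε * K ^ C ≤ 1 → τ * K ^ C ≤ 1 → ∀ u ∈ Icc (-τ) τ,
    u ^ 2 * x.TH ≤ K ^ C * (x.TH - x.th (u + x.t0)) ∧ x.TH - x.th (u + x.t0) ≤ K ^ C * u ^ 2 * x.TH ∧
    u ^ 2 * x.TH ≤ K ^ C * (-u * x.f (u + x.t0)) ∧ |x.f (u + x.t0)| ≤ K ^ C * |u| * x.TH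

/-- D4, normal form on the window -/
def NfSt : Prop := ∃ C : ℕ, ∀ (x : Dat) (K ε ψ S τ : ℝ), 2 ≤ K → x.Ok K ε ψ S → ψ ≤ 1 / 2000 →
  K ^ C ≤ x.TH → ε * K ^ C ≤ 1 → 0 < τ → τ * K ^ C ≤ 1 →
  (x.TH ≤ K ^ C * x.sg ^ 2 ∧ x.sg ^ 2 ≤ K ^ C * x.TH ∧ 1 ≤ K ^ C * x.ps ∧ x.ps ≤ 2 * ψ ∧
    0 < x.kp ∧ x.kp ≤ K) ∧
  ∀ L : ℝ, (∃ S2 : ℝ → ℝ, Sg (-τ) τ x.sg x.ps (x.Sig L) x.S1 S2) ∧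
    ∀ (K1 mn : ℝ) (P Q D Om : ℝ → ℝ), 10000 * |L - x.TH| ≤ x.TH → Nw x K K1 ε L mn P Q D Om →
      NF (-τ) τ x.sg x.ps S (x.Sig L) (fun u => P (u + x.t0) / x.a x.t0)
        (fun u => Q (u + x.t0) / x.a x.t0) ∧
      ∀ u ∈ Icc (-τ) τ,
        |D (u + x.t0) - |x.c x.t0| * (S - x.ps * x.Sig L u)| ≤
          |x.c x.t0| * (1 + x.ps * |x.Sig L u|) / 1000 ∧
        9 / 10 * x.om x.t0 ≤ Om (u + x.t0)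

/-- start value of the Riccati comparison at the left end of the window -/
def EntSt : Prop := ∃ C : ℕ, ∀ (x : Dat) (K K2 ε ψ S L τ : ℝ) (Th Fl : ℝ → ℝ), 2 ≤ K →
  x.Ok K ε ψ S → ε * K ^ C ≤ 1 → 0 < τ → τ * K ^ C ≤ 1 → K ^ C ≤ τ * K2 →
  Al x K2 L (-τ + x.t0) Th Fl →
  0 < Th (-τ + x.t0) ∧ 3 / 4 * (x.Sig L (-τ) * -x.S1 (-τ)) * Th (-τ + x.t0) ≤
    Fl (-τ + x.t0) / x.a x.t0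

/-- D7, the new pack -/
def NewSt : Prop := ∃ C : ℕ, ∀ (x : Dat) (K K1 K2 ε ψ S L s t1 : ℝ) (P Q Th Fl : ℝ → ℝ), 2 ≤ K →
  K ≤ K2 → K2 ≤ K1 → x.Ok K ε ψ S → 1 ≤ x.TH → x.TH ≤ K1 → 2 * |L - x.TH| ≤ x.TH →
  Sys 0 x.T P Q Th Fl → (∀ t ∈ Icc 0 x.T, 1 ≤ K1 * P t ∧ P t ≤ K1 ∧ |Q t| ≤ K1) →
  x.t0 - 1 / (2 * K) ≤ s → s ≤ x.t0 → s ≤ t1 → t1 + 1 / K1 ≤ x.T → Al x K2 L s Th Fl →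
  (∀ t ∈ Icc s t1, 0 ≤ Fl t) → Fl t1 = 0 → 8 * Th s ≤ Th t1 →
  ∃ Tn : ℝ, Tn ≤ t1 + 1 / K1 ∧ Sp (K1 ^ C) Tn t1 P Q Th Fl ∧ s + 2 / K1 ^ C ≤ t1 ∧
    (∀ t ∈ Icc 0 s, Th t ≤ 4 * Th s) ∧
    ((∀ t ∈ Icc s t1, Q t ≤ 0) → (∀ t ∈ Icc s Tn, x.TH ≤ 2 * x.th t) →
      Cmp (K1 ^ C) Tn x.t0 t1 x.th Th)

/-- parameter of the returning level with end time `te` -/
def Dat.La (x : Dat) (ψ' te : ℝ) : ℝ :=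
  x.th te + x.m * ((x.c te + ψ' * |x.c x.t0| / 4) / x.d te)

/-- sign of the new coefficient before the end time of a returning level -/
def NegSt : Prop := ∃ C : ℕ, ∀ (x : Dat) (K ε ψ ψ' τ te : ℝ), 2 ≤ K → x.Ok K ε ψ (-1) →
  ε * K ^ C ≤ 1 → τ * K ^ C ≤ 1 → te ∈ Icc (-τ + x.t0) x.t0 → K ^ C ≤ (x.t0 - te) * x.TH →
  0 ≤ ψ' → ψ' ≤ 1 / 1000 → K ^ C ≤ x.TH →
  10000 * |x.La ψ' te - x.TH| ≤ x.TH ∧ |x.ps * x.Sig (x.La ψ' te) (te - x.t0) + 1| ≤ 1 / 1000 ∧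
  x.d te ≠ 0 ∧ ∀ t ∈ Icc (-τ + x.t0) te,
    x.c t - x.lam (x.La ψ' te) t * x.d t ≤ -(ψ' * |x.c x.t0| / 4)

/-- growing level -/
def StepGSt : Prop := ∃ C : ℕ, ∀ (x : Dat) (K K1 ε ψ l mn : ℝ) (P Q D Om : ℝ → ℝ), 2 ≤ K →
  x.Ok K ε ψ 1 → Nw x K K1 ε x.TH mn P Q D Om → ContinuousOn P (Icc 0 x.T) →
  ContinuousOn Q (Icc 0 x.T) → K ^ C ≤ x.TH → x.TH ≤ K1 → ε * K ^ C ≤ 1 → 100 ≤ l →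
  2 * ψ * l ^ 2 ≤ 1 →
  ∃ (s t1 Tn : ℝ) (Th Fl : ℝ → ℝ), Sp (K1 ^ C) Tn t1 P Q Th Fl ∧ x.t0 - 1 / K < s ∧
    s + 2 / K1 ^ C ≤ t1 ∧ Tn ≤ x.T ∧ Tn - s ≤ 1 / K ∧
    (∀ t ∈ Icc 0 s, Th t ≤ 4 * Real.exp (-(l / 2)) * Th t1) ∧ D t1 < 0 ∧ 1 ≤ K1 ^ C * |D t1| ∧
    D t1 ^ 2 ≤ (3 * ψ) ^ 2 * Om t1 * P t1 ∧ x.TH ≤ 2 * K * (x.th s - x.th 0)

/-- returning level -/
def StepASt : Prop := ∃ C : ℕ, ∀ (x : Dat) (K K1 ε ψ ψ' : ℝ) (mn : ℝ → ℝ) (P Q D : ℝ → ℝ → ℝ)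
  (Om : ℝ → ℝ), 2 ≤ K → x.Ok K ε ψ (-1) →
  (∀ L, 2 * |L - x.TH| ≤ x.TH → Nw x K K1 ε L (mn L) (P L) (Q L) (D L) Om) →
  ContinuousOn (fun z : ℝ × ℝ => P z.1 z.2) (univ ×ˢ Icc 0 x.T) →
  ContinuousOn (fun z : ℝ × ℝ => Q z.1 z.2) (univ ×ˢ Icc 0 x.T) →
  K ^ C ≤ x.TH → x.TH ≤ K1 → ψ ≤ 1 / 2000 → 0 < ψ' → ψ' ≤ 1 / 1000 → ε * K ^ C ≤ ψ' →
  1 ≤ K1 * ψ' →
  ∃ (L te Tn : ℝ) (Th Fl : ℝ → ℝ), 2 * |L - x.TH| ≤ x.TH ∧ Sp (K1 ^ C) Tn te (P L) (Q L) Th Fl ∧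
    x.t0 - 1 / K ≤ te ∧ Tn ≤ x.T ∧ D L te < 0 ∧ 1 ≤ K1 ^ C * |D L te| ∧
    D L te ^ 2 ≤ ψ' ^ 2 * Om te * P L te ∧ Cmp (K1 ^ C) Tn x.t0 te x.th Th

/-- first level -/
def FirstSt : Prop := ∃ C : ℕ, ∀ (K : ℝ) (p q : ℝ → ℝ), 2 ≤ K → ContinuousOn p (Icc 0 1) →
  ContinuousOn q (Icc 0 1) →
  (∀ t ∈ Icc (0 : ℝ) 1, 1 / 2 ≤ p t ∧ p t ≤ 2 ∧ -(1 / 100) ≤ q t ∧ K * q t ≤ -1) →
  ∃ th f : ℝ → ℝ, Sp (K ^ C) 1 (1 / 2) p q th f ∧ th (1 / 2) = 1 ∧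
    ∀ t ∈ Icc (0 : ℝ) 1, 1 / 2 ≤ th t ∧ th t ≤ 1

end Pool.Agent.Lib.MP_fbbbeb_an.D
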