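import Mathlib
import Pool.Agent.Lib.MP_fbbbeb_an.Cas.Stmt
import Pool.Agent.Lib.MP_fbbbeb_an.D.SDefs
import Pool.Agent.Lib.MP_fbbbeb_an.D.Geo
import Pool.Agent.Lib.MP_fbbbeb_an.D.Prp

/-! Matrix layer of the ODE cascade: curves, packs, levels and statements of the steps. -/

set_option autoImplicit false

noncomputable section

namespace Pool.Agent.Lib.MP_fbbbeb_an.D

open Set Pool.Agent.Lib.MP_fbbbeb_an.Pub Pool.Agent.Lib.MP_fbbbeb_an.Cas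
open Pool.Agent.Lib.MP_fbbbeb_an.D.Geo
open scoped RealInnerProductSpace

def rr (F : L3) : ℝ := ⟪F a0, F a0⟫

def pp (F : L3) (x y : E) : ℝ := Gr (F a0) (F x) (F y)

def dq (F F1 : L3) (x : E) : ℝ := Gr (F a0) (F1 a0) (F x) / rr F

def om (F F1 : L3) : ℝ := Gr (F a0) (F1 a0) (F1 a0) / rr F ^ 2

def mm (B : L3) (τ : E) : ℝ := ⟪a0, B τ⟫

def qc (F F1 B : L3) (τ : E) : ℝ :=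
  -mm B τ * (2 * dq F F1 τ + (mm B τ - mm (Bop F F1) τ) / rr F)

/-- a curve on the closed interval whose Cauchy invariants are `B` up to `ε` -/
structure Crv (K ε T : ℝ) (F : Cv L3) (B : L3) : Prop where
  T_pos : 0 < T
  T_le : T ≤ 1
  ok : F.Ok T
  c0 : ContinuousOn F.f (Icc 0 T)
  c1 : ContinuousOn F.f1 (Icc 0 T)
  b0 : ∀ t ∈ Icc 0 T, ‖F.f t‖ ≤ K
  b1 : ∀ t ∈ Icc 0 T, ‖F.f1 t‖ ≤ K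
  b2 : ∀ t ∈ Ioo 0 T, ‖F.f2 t‖ ≤ K
  lo : ∀ t ∈ Icc 0 T, ∀ x, ‖x‖ ≤ K * ‖F.f t x‖
  anti : ∀ x y, ⟪x, B y⟫ = -⟪B x, y⟫
  bB : ‖B‖ ≤ K
  dfc : ∀ t ∈ Icc 0 T, ‖Bop (F.f t) (F.f1 t) - B‖ ≤ ε
  om_lo : ∀ t ∈ Icc 0 T, 1 ≤ K * om (F.f t) (F.f1 t)

structure Pack (K ε ψ T t0 : ℝ) (F : Cv L3) (B : L3) (τ : E) (th f : ℝ → ℝ) : Prop where
  crv : Crv K ε T F B
  perp : ⟪a0, τ⟫ = 0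
  t_lo : 1 ≤ ‖τ‖
  t_hi : ‖τ‖ ≤ K
  m_lo : 1 ≤ K * |mm B τ|
  sp : D.Sp K T t0 (fun t => pp (F.f t) τ τ) (fun t => qc (F.f t) (F.f1 t) B τ) th f
  md : 0 < mm B τ * dq (F.f t0) (F.f1 t0) τ
  d_lo : 1 ≤ K * |dq (F.f t0) (F.f1 t0) τ|
  psi : 0 ≤ ψ
  tilt : dq (F.f t0) (F.f1 t0) τ ^ 2 ≤ ψ ^ 2 * om (F.f t0) (F.f1 t0) * pp (F.f t0) τ τ

/-- scalar data of a level -/
def dat (T t0 : ℝ) (F : Cv L3) (B : L3) (τ ν : E) (th f : ℝ → ℝ) : Dat where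
  T := T
  t0 := t0
  m := mm B τ
  p t := pp (F.f t) τ τ
  q t := qc (F.f t) (F.f1 t) B τ
  th := th
  f := f
  a t := pp (F.f t) ν ν
  b t := pp (F.f t) τ ν
  c t := dq (F.f t) (F.f1 t) ν
  d t := dq (F.f t) (F.f1 t) τ
  om t := om (F.f t) (F.f1 t)

/-- ideal wave, bounded by the weight `w` -/
structure Iw (K T : ℝ) (F : Cv L3) (B : L3) (k p : E) (η : Cv E) (w : ℝ → ℝ) : Prop where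
  ok : η.Ok T
  c0 : ContinuousOn η.f (Icc 0 T)
  c1 : ContinuousOn η.f1 (Icc 0 T)
  zero : η.f 0 = 0
  perp : ∀ t ∈ Icc 0 T, ⟪k, η.f t⟫ = 0
  eqn : ∀ t ∈ Icc 0 T, η.f1 t = Pio (F.f t) k (B (η.f t) + p)
  b0 : ∀ t ∈ Icc 0 T, ‖η.f t‖ ≤ K * w t
  b1 : ∀ t ∈ Icc 0 T, ‖η.f1 t‖ ≤ K * w t
  b2 : ∀ t ∈ Ioo 0 T, ‖η.f2 t‖ ≤ K * w t
  bp : ∀ t ∈ Icc 0 T, ‖p‖ ≤ K * w t

/-- the frame `k, ν` of the next level -/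
structure Frm (K : ℝ) (τ k ν : E) : Prop where
  k_one : ‖k‖ = 1
  k_a : ⟪k, a0⟫ = 0
  k_t : ⟪k, τ⟫ = 0
  k_n : ⟪k, ν⟫ = 1
  n_a : ⟪a0, ν⟫ = 0
  n_hi : ‖ν‖ ≤ K

/-- the wave is given by the scalar solution -/
def Dec (T : ℝ) (B : L3) (τ p : E) (th : ℝ → ℝ) (η : Cv E) : Prop :=
  ⟪p, a0⟫ = th 0 ∧ ∀ t ∈ Icc 0 T, ∃ α : ℝ, η.f t = α • a0 + ((th t - th 0) / mm B τ) • τ

/-- a level with its wave, prepared for a next level of kind `S` -/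
structure Lev (K ε ψ S T t0 : ℝ) (F : Cv L3) (B : L3) (τ : E) (th f : ℝ → ℝ) (k ν p : E)
    (η : Cv E) : Prop where
  pack : Pack K ε ψ T t0 F B τ th f
  frm : Frm K τ k ν
  dat : (dat T t0 F B τ ν th f).Ok K (K * ε) ψ S
  iw : Iw K T F B k p η th
  dec : Dec T B τ p th η

def Bx (B : L3) (k p : E) : L3 := B + r1 k p - r1 p k

def tn (B : L3) (τ ν : E) (th : ℝ → ℝ) (L : ℝ) : E := ν - ((L - th 0) / mm B τ) • τ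

/-- close in `C¹`, bounded in `C²`, on the open interval -/
def Cl (T K ε : ℝ) (F G : Cv L3) : Prop :=
  ∀ t ∈ Ioo 0 T, ‖F.f t - G.f t‖ ≤ ε ∧ ‖F.f1 t - G.f1 t‖ ≤ ε ∧ ‖F.f2 t‖ ≤ K

/-- close in `C¹` on the closed interval -/
def ClI (T ε : ℝ) (F G : Cv L3) : Prop :=
  ∀ t ∈ Icc 0 T, ‖F.f t - G.f t‖ ≤ ε ∧ ‖F.f1 t - G.f1 t‖ ≤ ε

def Same (T : ℝ) (F G : Cv L3) : Prop :=
  ∀ t ∈ Ioo 0 T, F.f t = G.f t ∧ F.f1 t = G.f1 t ∧ F.f2 t = G.f2 t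

/-- D2: choice of the frame and the scalar data -/
def PrepSt : Prop := ∃ C : ℕ, ∀ (K ε ψ S T t0 : ℝ) (F : Cv L3) (B : L3) (τ : E) (th f : ℝ → ℝ),
  2 ≤ K → Pack K ε ψ T t0 F B τ th f → ψ ≤ 1 / 2 → (S = 1 ∨ S = -1) →
  ∃ k ν : E, Frm (K ^ C) τ k ν ∧ (dat T t0 F B τ ν th f).Ok (K ^ C) (K ^ C * ε) ψ S

/-- the ideal wave of a pack -/
def WavSt : Prop := ∃ C : ℕ, ∀ (K ε ψ T t0 : ℝ) (F : Cv L3) (B : L3) (τ k : E) (th f : ℝ → ℝ),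
  2 ≤ K → Pack K ε ψ T t0 F B τ th f → ‖k‖ = 1 → ⟪k, a0⟫ = 0 → ⟪k, τ⟫ = 0 →
  ∃ (p : E) (η : Cv E), Iw (K ^ C) T F B k p η th ∧ Dec T B τ p th η

/-- from a pack to a level of size `H` -/
def FinSt : Prop := ∃ C : ℕ, ∀ (K ε ψ S T t0 H : ℝ) (F : Cv L3) (B : L3) (τ : E) (th f : ℝ → ℝ),
  2 ≤ K → Pack K ε ψ T t0 F B τ th f → ψ ≤ 1 / 2 → (S = 1 ∨ S = -1) → 0 < H →
  ∃ (k ν p : E) (η : Cv E), Lev (K ^ C) ε ψ S T t0 F B τ (fun t => H / th t0 * th t)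
    (fun t => H / th t0 * f t) k ν p η

/-- the ideal new curve -/
def MulSt : Prop := ∃ C : ℕ, ∀ (K ε T : ℝ) (F : Cv L3) (B : L3) (k p : E) (η : Cv E) (w : ℝ → ℝ),
  2 ≤ K → Crv K ε T F B → Iw K T F B k p η w → (∀ t ∈ Icc 0 T, w t ≤ K) → ‖k‖ = 1 →
  ⟪k, a0⟫ = 0 → Crv (K ^ C) (K ^ C * ε) T (mulH F η k) (Bx B k p)

/-- extension to the closed interval -/
def Ext0St : Prop := ∀ (K ε T : ℝ) (F : Cv L3), 0 < T → T ≤ 1 → F.Ok T →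
  (∀ t ∈ Ioo 0 T, ‖F.f1 t‖ ≤ K ∧ ‖F.f2 t‖ ≤ K) → Defect T ε F →
  ∃ G : Cv L3, Same T G F ∧ G.Ok T ∧ ContinuousOn G.f (Icc 0 T) ∧ ContinuousOn G.f1 (Icc 0 T) ∧
    ∀ t ∈ Icc 0 T, ‖Bop (G.f t) (G.f1 t) - Bop (F.f (T / 2)) (F.f1 (T / 2))‖ ≤ ε

def ExtSt : Prop := ∃ C : ℕ, ∀ (K ε0 ε T : ℝ) (F G : Cv L3) (B : L3), 2 ≤ K → Crv K ε0 T G B →
  Cl T K ε0 F G → F.Ok T → Defect T ε F → ε0 * K ^ C ≤ 1 →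
  ∃ (F' : Cv L3) (B' : L3), Same T F' F ∧ Crv (K ^ C) ε T F' B' ∧ ClI T ε0 F' G

/-- D1 for a pack -/
def PrpLevSt : Prop := ∃ C : ℕ, ∀ (K ε ψ T t0 : ℝ) (F : Cv L3) (B : L3) (τ k : E) (th f : ℝ → ℝ),
  2 ≤ K → Pack K ε ψ T t0 F B τ th f → ‖k‖ = 1 → ⟪k, a0⟫ = 0 → ⟪k, τ⟫ = 0 →
  Prc T (fun t => Pio (F.f t) k * B) th (K ^ C)

def PrpNearSt : Prop := ∃ C : ℕ, ∀ (K δ T T' amin : ℝ) (F G : Cv L3) (B : L3) (k : E) (w : ℝ → ℝ),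
  2 ≤ K → Crv K δ T G B → T' ≤ T → Prc T' (fun t => Pio (G.f t) k * B) w K → Cl T' K δ F G →
  δ * K ^ C ≤ 1 → ‖k‖ = 1 → 0 < amin → (∀ t ∈ Ioo 0 T', amin ≤ w t) →
  Prp T' (fun t => Mop (F.f t) (F.f1 t) k) w (2 * K)

/-- the true wave is close to the ideal wave -/
def NearSt : Prop := ∃ C : ℕ, ∀ (K δ T T' : ℝ) (F G Fn : Cv L3) (B : L3) (k p : E) (η ηi : Cv E)
  (th w : ℝ → ℝ), 2 ≤ K → Crv K δ T G B → Iw K T G B k p ηi th → T' ≤ T →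
  (∀ t ∈ Ioo 0 T', th t ≤ K * w t ∧ w t ≤ K) → ‖k‖ = 1 → F.Ok T' → Cl T' K δ F G →
  Prp T' (fun t => Mop (F.f t) (F.f1 t) k) w K → Wave T' δ w F k p η →
  Fn.Near T' δ (mulH F η k) → δ * K ^ C ≤ 1 → Cl T' (K ^ C) (K ^ C * δ) Fn (mulH G ηi k)

/-- D2: the coefficients of the next level -/
def NwSt : Prop := ∃ C : ℕ, ∀ (K K1 δ εa εn ψ S T t0 : ℝ) (F Fn : Cv L3) (B Bn : L3) (τ k ν p : E)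
  (th f : ℝ → ℝ) (η : Cv E), 2 ≤ K → K ≤ K1 → Lev K εa ψ S T t0 F B τ th f k ν p η → th t0 ≤ K1 →
  Crv K1 εn T Fn Bn → ClI T δ Fn (mulH F η k) → εa ≤ δ → εn ≤ δ → δ * K1 ^ C ≤ 1 →
  (∀ L : ℝ, |L| ≤ 2 * K1 →
    Nw (dat T t0 F B τ ν th f) (K ^ C) (K1 ^ C) (K1 ^ C * δ) L (mm Bn (tn B τ ν th L))
      (fun t => pp (Fn.f t) (tn B τ ν th L) (tn B τ ν th L))
      (fun t => qc (Fn.f t) (Fn.f1 t) Bn (tn B τ ν th L))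
      (fun t => dq (Fn.f t) (Fn.f1 t) (tn B τ ν th L)) (fun t => om (Fn.f t) (Fn.f1 t)) ∧
    ⟪a0, tn B τ ν th L⟫ = 0 ∧ 1 ≤ ‖tn B τ ν th L‖ ∧ ‖tn B τ ν th L‖ ≤ K1 ^ C) ∧
  ContinuousOn (fun z : ℝ × ℝ => pp (Fn.f z.2) (tn B τ ν th z.1) (tn B τ ν th z.1))
    (univ ×ˢ Icc 0 T) ∧
  ContinuousOn (fun z : ℝ × ℝ => qc (Fn.f z.2) (Fn.f1 z.2) Bn (tn B τ ν th z.1)) (univ ×ˢ Icc 0 T)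

/-- growing level -/
def MG (C : ℕ) : Prop := ∀ (K K1 δ εa εn ψ l T t0 : ℝ) (F Fn : Cv L3) (B Bn : L3) (τ k ν p : E)
  (th f : ℝ → ℝ) (η : Cv E), 2 ≤ K → Lev K εa ψ 1 T t0 F B τ th f k ν p η → K ^ C ≤ th t0 →
  th t0 ≤ K1 → Crv K1 εn T Fn Bn → ClI T δ Fn (mulH F η k) → εa ≤ δ → εn ≤ δ → δ * K1 ^ C ≤ 1 →
  100 ≤ l → 2 * ψ * l ^ 2 ≤ 1 →
  ∃ (s t1 Tn : ℝ) (τn : E) (Th Fl : ℝ → ℝ), Pack (K1 ^ C) εn (3 * ψ) Tn t1 Fn Bn τn Th Fl ∧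
    t0 - 1 / K < s ∧ s + 2 / K1 ^ C ≤ t1 ∧ Tn ≤ T ∧ Tn - s ≤ 1 / K ∧
    (∀ t ∈ Icc 0 s, Th t ≤ 4 * Real.exp (-(l / 2)) * Th t1) ∧ K ≤ ‖Fn.f s‖

def MGSt : Prop := ∃ C : ℕ, MG C

/-- returning level, on the ideal curve -/
def MASt : Prop := ∃ C : ℕ, ∀ (K K1 ε ψ ψ' T t0 : ℝ) (F : Cv L3) (B : L3) (τ k ν p : E)
  (th f : ℝ → ℝ) (η : Cv E), 2 ≤ K → Lev K ε ψ (-1) T t0 F B τ th f k ν p η → K ^ C ≤ th t0 →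
  th t0 ≤ K1 → ψ ≤ 1 / 2000 → 0 < ψ' → ψ' ≤ 1 / 1000 → 1 ≤ K1 * ψ' → ε * K1 ^ C ≤ 1 →
  ∃ (te Tn : ℝ) (τn : E) (Th Fl : ℝ → ℝ),
    Pack (K1 ^ C) (K1 ^ C * ε) ψ' Tn te (mulH F η k) (Bx B k p) τn Th Fl ∧
    t0 - 1 / K ≤ te ∧ Tn ≤ T ∧ Cmp (K1 ^ C) Tn t0 te th Th

/-- D8 -/
def FirstPackSt : Prop := ∃ C : ℕ, ∀ (l ε : ℝ) (U : L3) (F : Cv L3), (C : ℝ) ≤ l → ‖U‖ ≤ 10 →
  1 / 10 ≤ ‖U a0‖ → (∀ x, ⟪a0, U x⟫ + ⟪x, U a0⟫ = 0) → F.Ok 1 →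
  F.Near 1 (l ^ 22)⁻¹ ⟨fun t => 1 + (t * (l ^ 12)⁻¹) • U, fun _ => (l ^ 12)⁻¹ • U, fun _ => 0⟩ →
  Defect 1 ε F → ε * l ^ C ≤ 1 →
  ∃ (F' : Cv L3) (B : L3) (τ : E) (th f : ℝ → ℝ), Same 1 F' F ∧
    Pack (l ^ C) ε (1 / (2 * l ^ 2)) 1 (1 / 2) F' B τ th f ∧ th (1 / 2) = 1 ∧
    ∀ t ∈ Icc (0 : ℝ) 1, 1 / 2 ≤ th t ∧ th t ≤ 1

/-- ready for a growing level -/
def Rdy (C0 : ℕ) (K l ε T s0 : ℝ) (F : Cv L3) : Prop :=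
  ∃ (Ka ψ t0 : ℝ) (Fa : Cv L3) (B : L3) (τ : E) (th f : ℝ → ℝ) (k ν p : E) (η : Cv E),
    l ≤ Ka ∧ Ka ≤ K ∧ Ka ^ C0 ≤ th t0 ∧ th t0 ≤ K ∧ 2 * ψ * l ^ 2 ≤ 1 ∧ s0 ≤ t0 - 1 / Ka ∧
    Lev Ka ε ψ 1 T t0 Fa B τ th f k ν p η ∧ Cl T K ε F (mulH Fa η k)

def StartK (C0 C : ℕ) : Prop :=
  ∀ (l ε : ℝ) (U : L3) (F : Cv L3), (C : ℝ) ≤ l → ‖U‖ ≤ 10 → 1 / 10 ≤ ‖U a0‖ →
    (∀ x, ⟪a0, U x⟫ + ⟪x, U a0⟫ = 0) → F.Ok 1 →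
    F.Near 1 (l ^ 22)⁻¹ ⟨fun t => 1 + (t * (l ^ 12)⁻¹) • U, fun _ => (l ^ 12)⁻¹ • U, fun _ => 0⟩ →
    Defect 1 ε F → ε * l ^ C ≤ 1 →
    ∃ k p : E, ‖k‖ = 1 ∧ ⟪k, a0⟫ = 0 ∧ ‖p‖ ≤ l ^ C ∧
      ∀ η : Cv E, Wave 1 ε w1 F k p η → ∀ Fn : Cv L3, Fn.Near 1 ε (mulH F η k) →
        Rdy C0 (l ^ C) l (l ^ C * ε) 1 (1 / 4) Fn

def CycK (C0 C : ℕ) : Prop :=
  ∀ (K L l ε0 ε T s0 : ℝ) (F : Cv L3), 100 ≤ l → K ^ C ≤ L → ε0 * K ^ C ≤ 1 → ε * L ^ C ≤ 1 →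
    F.Ok T → Rdy C0 K l ε0 T s0 F → Defect T ε F →
    ∃ (T' s amin : ℝ) (Aw : ℝ → ℝ) (k2 p2 k3 p3 : E), s0 < s ∧ s < T' ∧ T' ≤ T ∧ T' - s ≤ 1 / l ∧
      ‖k2‖ = 1 ∧ ⟪k2, a0⟫ = 0 ∧ ‖k3‖ = 1 ∧ ⟪k3, a0⟫ = 0 ∧ 0 < amin ∧
      (∀ t ∈ Ioo 0 T', amin ≤ Aw t ∧ Aw t ≤ K ^ C ∧ (t ≤ s → Aw t ≤ 4 * Real.exp (-(l / 2))) ∧
        ‖p2‖ ≤ K ^ C * Aw t ∧ ‖p3‖ ≤ L ^ C * Aw t) ∧
      l ≤ ‖F.f s‖ ∧ Prp T' (fun t => Mop (F.f t) (F.f1 t) k2) Aw (K ^ C) ∧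
      ∀ η2 : Cv E, Wave T' ε Aw F k2 p2 η2 → ∀ F2 : Cv L3, F2.Ok T' →
        F2.Near T' ε (mulH F η2 k2) →
        Prp T' (fun t => Mop (F2.f t) (F2.f1 t) k3) Aw (L ^ C) ∧
        ∀ η3 : Cv E, Wave T' ε Aw F2 k3 p3 η3 → ∀ Fn : Cv L3,
          Fn.Near T' ε (mulH F2 η3 k3) → Rdy C0 (L ^ C) L (L ^ C * ε) T' s Fn

def StartKSt : Prop := ∀ C0 : ℕ, ∃ C : ℕ, StartK C0 C

def CycKSt : Prop := ∃ C0 C : ℕ, CycK C0 C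

end Pool.Agent.Lib.MP_fbbbeb_an.D
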