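import Mathlib
import Pool.Agent.Lib.MP_fbbbeb_an.D.MDefs

/-! Monotonicity and scaling of the structures of the ODE cascade. -/

set_option autoImplicit false

noncomputable section

namespace Pool.Agent.Lib.MP_fbbbeb_an.D

open Set Pool.Agent.Lib.MP_fbbbeb_an.Pub Pool.Agent.Lib.MP_fbbbeb_an.Cas
open Pool.Agent.Lib.MP_fbbbeb_an.Ric
open scoped RealInnerProductSpace

theorem one_le_mono {K K' x : ℝ} (h : 1 ≤ K * x) (h0 : 0 < K) (hK : K ≤ K') : 1 ≤ K' * x := by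
  have hx : 0 < x := by
    by_contra hn
    have := mul_nonpos_of_nonneg_of_nonpos h0.le (not_lt.1 hn)
    linarith
  exact h.trans (mul_le_mul_of_nonneg_right hK hx.le)

theorem le_mul_mono {K K' x y : ℝ} (h : y ≤ K * x) (h0 : 0 < K) (hy : 0 ≤ y) (hK : K ≤ K') :
    y ≤ K' * x := by
  have hx : 0 ≤ x := by
    by_contra hn
    have := mul_neg_of_pos_of_neg h0 (not_le.1 hn)
    linarith
  exact h.trans (mul_le_mul_of_nonneg_right hK hx)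

section scalar
variable {K K' T t0 : ℝ} {p q th f : ℝ → ℝ}

theorem Sp.t0_pos (h : D.Sp K T t0 p q th f) (h0 : 0 < K) : 0 < t0 := by
  by_contra hn
  have := mul_nonpos_of_nonneg_of_nonpos h0.le (not_lt.1 hn)
  linarith [h.t_lo]

theorem Sp.t0_lt (h : D.Sp K T t0 p q th f) (h0 : 0 < K) : t0 < T := by
  have : 0 < 1 / K := by positivity
  linarith [h.t_hi]

theorem Sp.t0_mem (h : D.Sp K T t0 p q th f) (h0 : 0 < K) : t0 ∈ Icc 0 T :=
  ⟨(h.t0_pos h0).le, (h.t0_lt h0).le⟩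

theorem Sp.T_pos (h : D.Sp K T t0 p q th f) (h0 : 0 < K) : 0 < T :=
  (h.t0_pos h0).trans (h.t0_lt h0)

theorem Sp.TH_pos (h : D.Sp K T t0 p q th f) (h0 : 0 < K) : 0 < th t0 := h.pos _ (h.t0_mem h0)

theorem Sp.inv_le (h : D.Sp K T t0 p q th f) (h0 : 0 < K) : 1 / K ≤ t0 := by
  rw [div_le_iff₀ h0]; linarith [h.t_lo]

theorem Sp.cont (h : D.Sp K T t0 p q th f) : ContinuousOn th (Icc 0 T) := contOn h.sys.dTh

theorem Sp.amin (h : D.Sp K T t0 p q th f) (h0 : 0 < K) :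
    ∃ a, 0 < a ∧ ∀ t ∈ Icc 0 T, a ≤ th t := by
  obtain ⟨t, ht, hm⟩ := isCompact_Icc.exists_isMinOn ⟨t0, h.t0_mem h0⟩ h.cont
  exact ⟨th t, h.pos t ht, fun s hs => hm hs⟩

theorem Sp.monoK (h : D.Sp K T t0 p q th f) (h0 : 0 < K) (hK : K ≤ K') : D.Sp K' T t0 p q th f := by
  have hi : 1 / K' ≤ 1 / K := one_div_le_one_div_of_le h0 hK
  refine ⟨h.sys, fun t ht => one_le_mono (h.p_lo t ht) h0 hK, fun t ht => (h.p_hi t ht).trans hK,
    fun t ht => (h.q_bd t ht).trans hK, h.pos,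
    fun t ht => le_mul_mono (h.f_bd t ht) h0 (abs_nonneg _) hK,
    fun s hs t ht hst => le_mul_mono (h.qmono s hs t ht hst) h0 (h.pos s hs).le hK,
    fun t ht => le_mul_mono (h.top t ht) h0 (h.pos t ht).le hK, one_le_mono h.t_lo h0 hK,
    by linarith [h.t_hi], h.T_le, h.f_zero,
    fun t ht s hs hts => h.mono t ht s ⟨by linarith [hs.1], hs.2⟩ hts, h.drop.trans ?_⟩
  exact mul_le_mul_of_nonneg_right (by linarith) (h.TH_pos h0).le

theorem Sp.smul (h : D.Sp K T t0 p q th f) {c : ℝ} (hc : 0 < c) :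
    D.Sp K T t0 p q (fun t => c * th t) (fun t => c * f t) := by
  refine ⟨⟨h.sys.hP, h.sys.pos, fun t ht => ((h.sys.dTh t ht).const_mul c).congr_deriv (by ring),
    fun t ht => ((h.sys.dFl t ht).const_mul c).congr_deriv (by ring)⟩, h.p_lo, h.p_hi, h.q_bd,
    fun t ht => mul_pos hc (h.pos t ht), fun t ht => ?_, fun s hs t ht hst => ?_, fun t ht => ?_,
    h.t_lo, h.t_hi, h.T_le, by simp [h.f_zero],
    fun t ht s hs hts => mul_le_mul_of_nonneg_left (h.mono t ht s hs hts) hc.le, ?_⟩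
  · rw [abs_mul, abs_of_pos hc]; nlinarith [h.f_bd t ht]
  · nlinarith [h.qmono s hs t ht hst]
  · nlinarith [h.top t ht]
  · nlinarith [h.drop]

theorem Lip.monoK {g : ℝ → ℝ} (h : Lip K T g) (hK : K ≤ K') : Lip K' T g :=
  ⟨fun t ht => (h.1 t ht).trans hK, fun s hs t ht =>
    (h.2 s hs t ht).trans (mul_le_mul_of_nonneg_right hK (abs_nonneg _))⟩

theorem Dat.Ok.monoK {x : Dat} {ε ε' ψ S : ℝ} (h : x.Ok K ε ψ S) (h0 : 0 < K) (hK : K ≤ K')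
    (he : ε ≤ ε') : x.Ok K' ε' ψ S := by
  obtain ⟨p1, hp⟩ := h.dp
  exact ⟨h.sp.monoK h0 hK, one_le_mono h.m_lo h0 hK, h.m_hi.trans hK,
    ⟨p1, fun t ht => ⟨(hp t ht).1, (hp t ht).2.trans hK⟩⟩, h.lp.monoK hK, h.la.monoK hK,
    h.lb.monoK hK, h.lc.monoK hK, h.ld.monoK hK, h.lo.monoK hK, one_le_mono h.a_lo h0 hK,
    fun t ht => (h.q_eq t ht).trans he, h.b_zero, h.md, one_le_mono h.d_lo h0 hK, h.sgn,
    one_le_mono h.c_lo h0 hK, h.om_eq, h.psi, h.tilt⟩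

theorem Nw.monoK {x : Dat} {K1 K1' ε ε' L mn : ℝ} {P Q D Om : ℝ → ℝ}
    (h : Nw x K K1 ε L mn P Q D Om) (hK : K ≤ K') (h1 : 0 < K1) (hK1 : K1 ≤ K1') (he : ε ≤ ε') :
    Nw x K' K1' ε' L mn P Q D Om :=
  ⟨fun t ht => (h.P_eq t ht).trans he, fun t ht => (h.D_eq t ht).trans he,
    fun t ht => (h.Q_eq t ht).trans he, fun t ht => (h.Om_eq t ht).trans he, h.m_eq.trans hK,
    fun t ht => one_le_mono (h.P_lo t ht) h1 hK1, fun t ht => (h.P_hi t ht).trans hK1,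
    fun t ht => (h.Q_bd t ht).trans hK1⟩

end scalar

section matrix
variable {K K' ε ε' ψ S T T' t0 : ℝ} {F G : Cv L3} {B : L3} {τ k ν p : E} {th f w : ℝ → ℝ}
  {η : Cv E}

theorem ok_restrict {X : Type} [NormedAddCommGroup X] [NormedSpace ℝ X] {Y : Cv X} (h : Y.Ok T)
    (hT : T' ≤ T) : Y.Ok T' := fun t ht => h t ⟨ht.1, ht.2.trans_le hT⟩

theorem Crv.eps (h : Crv K ε T F B) : 0 ≤ ε :=
  (norm_nonneg _).trans (h.dfc 0 ⟨le_rfl, h.T_pos.le⟩)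

theorem Crv.monoK (h : Crv K ε T F B) (h0 : 0 < K) (hK : K ≤ K') (he : ε ≤ ε') :
    Crv K' ε' T F B :=
  ⟨h.T_pos, h.T_le, h.ok, h.c0, h.c1, fun t ht => (h.b0 t ht).trans hK,
    fun t ht => (h.b1 t ht).trans hK, fun t ht => (h.b2 t ht).trans hK,
    fun t ht x => (h.lo t ht x).trans (mul_le_mul_of_nonneg_right hK (norm_nonneg _)), h.anti,
    h.bB.trans hK, fun t ht => (h.dfc t ht).trans he, fun t ht => one_le_mono (h.om_lo t ht) h0 hK⟩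

theorem Crv.restrict (h : Crv K ε T F B) (h0 : 0 < T') (hT : T' ≤ T) : Crv K ε T' F B :=
  have a : Icc 0 T' ⊆ Icc 0 T := Icc_subset_Icc le_rfl hT
  have b : Ioo 0 T' ⊆ Ioo 0 T := Ioo_subset_Ioo le_rfl hT
  ⟨h0, hT.trans h.T_le, ok_restrict h.ok hT, h.c0.mono a, h.c1.mono a, fun t ht => h.b0 t (a ht),
    fun t ht => h.b1 t (a ht), fun t ht => h.b2 t (b ht), fun t ht => h.lo t (a ht), h.anti, h.bB,
    fun t ht => h.dfc t (a ht), fun t ht => h.om_lo t (a ht)⟩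

theorem Pack.monoK (h : Pack K ε ψ T t0 F B τ th f) (h0 : 0 < K) (hK : K ≤ K') (he : ε ≤ ε') :
    Pack K' ε' ψ T t0 F B τ th f :=
  ⟨h.crv.monoK h0 hK he, h.perp, h.t_lo, h.t_hi.trans hK, one_le_mono h.m_lo h0 hK,
    h.sp.monoK h0 hK, h.md, one_le_mono h.d_lo h0 hK, h.psi, h.tilt⟩

theorem Pack.smul (h : Pack K ε ψ T t0 F B τ th f) {c : ℝ} (hc : 0 < c) :
    Pack K ε ψ T t0 F B τ (fun t => c * th t) (fun t => c * f t) :=
  ⟨h.crv, h.perp, h.t_lo, h.t_hi, h.m_lo, h.sp.smul hc, h.md, h.d_lo, h.psi, h.tilt⟩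

theorem Iw.monoK (h : Iw K T F B k p η w) (h0 : 0 < K) (hK : K ≤ K') : Iw K' T F B k p η w :=
  ⟨h.ok, h.c0, h.c1, h.zero, h.perp, h.eqn,
    fun t ht => le_mul_mono (h.b0 t ht) h0 (norm_nonneg _) hK,
    fun t ht => le_mul_mono (h.b1 t ht) h0 (norm_nonneg _) hK,
    fun t ht => le_mul_mono (h.b2 t ht) h0 (norm_nonneg _) hK,
    fun t ht => le_mul_mono (h.bp t ht) h0 (norm_nonneg _) hK⟩

theorem Frm.monoK (h : Frm K τ k ν) (hK : K ≤ K') : Frm K' τ k ν :=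
  ⟨h.k_one, h.k_a, h.k_t, h.k_n, h.n_a, h.n_hi.trans hK⟩

theorem Lev.monoK (h : Lev K ε ψ S T t0 F B τ th f k ν p η) (h0 : 0 < K) (hK : K ≤ K')
    (he : ε ≤ ε') : Lev K' ε' ψ S T t0 F B τ th f k ν p η :=
  ⟨h.pack.monoK h0 hK he, h.frm.monoK hK,
    h.dat.monoK h0 hK (mul_le_mul hK he h.pack.crv.eps (h0.le.trans hK)), h.iw.monoK h0 hK, h.dec⟩

theorem Cl.monoK (h : Cl T K ε F G) (hT : T' ≤ T) (hK : K ≤ K') (he : ε ≤ ε') : Cl T' K' ε' F G :=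
  fun t ht =>
    have a := h t ⟨ht.1, ht.2.trans_le hT⟩
    ⟨a.1.trans he, a.2.1.trans he, a.2.2.trans hK⟩

theorem ClI.monoK (h : ClI T ε F G) (he : ε ≤ ε') : ClI T ε' F G :=
  fun t ht => ⟨(h t ht).1.trans he, (h t ht).2.trans he⟩

theorem ClI.refl (he : 0 ≤ ε) : ClI T ε F F := fun _ _ => by simpa using he

/-- the true curve is close to its own extension -/
theorem Same.cl (h : Same T G F) (hc : Crv K ε T G B) : Cl T K ε F G := fun t ht => by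
  obtain ⟨a, b, c⟩ := h t ht
  rw [← a, ← b, ← c]
  exact ⟨by simpa using hc.eps, by simpa using hc.eps, hc.b2 t ht⟩

theorem Rdy.monoK {C0 : ℕ} {l s0 : ℝ} (h : Rdy C0 K l ε T s0 F) (hl : 0 < l) (hK : K ≤ K')
    (he : ε ≤ ε') : Rdy C0 K' l ε' T s0 F := by
  obtain ⟨Ka, ψ, t0, Fa, B, τ, th, f, k, ν, p, η, h1, h2, h3, h4, h5, h6, h7, h8⟩ := h
  exact ⟨Ka, ψ, t0, Fa, B, τ, th, f, k, ν, p, η, h1, h2.trans hK, h3, h4.trans hK, h5, h6,
    h7.monoK (hl.trans_le h1) le_rfl he, h8.monoK le_rfl hK he⟩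

end matrix

end Pool.Agent.Lib.MP_fbbbeb_an.D
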