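import Mathlib
import Pool.Agent.Lib.MP_fbbbeb_an.D.MDefs
import Pool.Agent.Lib.MP_fbbbeb_an.D.Mono

/-! The returning level on the ideal curve. -/

set_option autoImplicit false

noncomputable section

namespace Pool.Agent.Lib.MP_fbbbeb_an.D

open Set Pool.Agent.Lib.MP_fbbbeb_an.Pub Pool.Agent.Lib.MP_fbbbeb_an.Cas
open Pool.Agent.Lib.MP_fbbbeb_an.D.Geo
open scoped RealInnerProductSpace

theorem maSt (hM : MulSt) (hN : NwSt) (hA : StepASt) : MASt := by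
  obtain ⟨Cm, hM⟩ := hM
  obtain ⟨Cn, hN⟩ := hN
  obtain ⟨Cs, hA⟩ := hA
  obtain ⟨a, ha⟩ : ∃ a, a = 2 * Cm + 1 := ⟨_, rfl⟩
  obtain ⟨b, hb⟩ : ∃ b, b = a * (Cn + 1) := ⟨_, rfl⟩
  obtain ⟨C, c1, c2, c3, c4⟩ : ∃ C, a + b + 2 ≤ C ∧ (Cn + 1) * Cs ≤ C ∧ b * Cs ≤ C ∧ Cn + 3 ≤ C :=
    ⟨a + b + 2 + (Cn + 1) * Cs + b * Cs + Cn + 3, by omega, by omega, by omega, by omega⟩
  refine ⟨C, ?_⟩
  intro K K1 ε ψ ψ' T t0 F B τ k ν p th f η hK hL hTH hTH1 hψ hp0 hp1 hp2 hε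
  have K0 : 0 < K := by linarith
  have K1' : 1 ≤ K := by linarith
  have pK : ∀ {i j : ℕ}, i ≤ j → K ^ i ≤ K ^ j := fun h => pow_le_pow_right₀ K1' h
  have hKK : K ≤ K1 := (le_self_pow₀ K1' (by omega)).trans (hTH.trans hTH1)
  have L2 : 2 ≤ K1 := hK.trans hKK
  have L1 : 1 ≤ K1 := by linarith
  have L0 : 0 < K1 := by linarith
  have pL : ∀ {i j : ℕ}, i ≤ j → K1 ^ i ≤ K1 ^ j := fun h => pow_le_pow_right₀ L1 h
  have sL : ∀ {i : ℕ}, 1 ≤ i → K1 ≤ K1 ^ i := fun h => le_self_pow₀ L1 (by omega)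
  have e0 : 0 ≤ ε := hL.pack.crv.eps
  have a1 : 1 ≤ a := by omega
  have ab : a ≤ b := by rw [hb]; exact Nat.le_mul_of_pos_right _ (by omega)
  have sm : ∀ {i : ℕ}, i ≤ C → ε * K1 ^ i ≤ 1 := fun h =>
    (mul_le_mul_of_nonneg_left (pL h) e0).trans hε
  have sp := hL.pack.sp
  have TH0 : 0 < th t0 := sp.TH_pos K0
  -- the ideal curve
  have hK2 : K ≤ K1 ^ 2 := hKK.trans (sL (by norm_num))
  have cv0 := hM (K1 ^ 2) ε T F B k p η th (L2.trans (sL (by norm_num)))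
    (hL.pack.crv.monoK K0 hK2 le_rfl) (hL.iw.monoK K0 hK2) (fun t ht => (sp.top t ht).trans (by
      rw [sq]; exact mul_le_mul hKK hTH1 TH0.le L0.le)) hL.frm.k_one hL.frm.k_a
  rw [← pow_mul] at cv0
  have cv : Crv (K1 ^ a) (K1 ^ a * ε) T (mulH F η k) (Bx B k p) :=
    cv0.monoK (by positivity) (pL (by omega)) (mul_le_mul_of_nonneg_right (pL (by omega)) e0)
  have d0 : 0 ≤ K1 ^ a * ε := by positivity
  obtain ⟨n1, n2, n3⟩ := hN K (K1 ^ a) (K1 ^ a * ε) ε (K1 ^ a * ε) ψ (-1) T t0 F (mulH F η k) B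
    (Bx B k p) τ k ν p th f η hK (hKK.trans (sL a1)) hL (hTH1.trans (sL a1)) cv (ClI.refl d0)
    (le_mul_of_one_le_left e0 (one_le_pow₀ L1)) le_rfl (by
      have := sm (i := b) (by omega)
      rw [hb, pow_mul, pow_succ] at this
      linarith [mul_comm (K1 ^ a * ε) ((K1 ^ a) ^ Cn), mul_assoc ((K1 ^ a) ^ Cn) (K1 ^ a) ε,
        mul_comm ε ((K1 ^ a) ^ Cn * K1 ^ a)])
  have nb : (K1 ^ a) ^ Cn ≤ K1 ^ b := by
    rw [← pow_mul]; exact pL (by rw [hb]; exact Nat.mul_le_mul_left _ (by omega))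
  have hLb : ∀ L : ℝ, 2 * |L - th t0| ≤ th t0 → |L| ≤ 2 * K1 ^ a := fun L h => by
    have h1 := abs_add_le (L - th t0) (th t0)
    rw [sub_add_cancel, abs_of_pos TH0] at h1
    linarith [sL a1]
  have KA : K ≤ K ^ (Cn + 1) := le_self_pow₀ K1' (by omega)
  obtain ⟨L, te, Tn, Th, Fl, g1, g2, g3, g4, g5, g6, g7, g8⟩ :=
    hA (dat T t0 F B τ ν th f) (K ^ (Cn + 1)) (K1 ^ b) (K1 ^ b * (K1 ^ a * ε)) ψ ψ'
      (fun L => mm (Bx B k p) (tn B τ ν th L))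
      (fun L t => pp ((mulH F η k).f t) (tn B τ ν th L) (tn B τ ν th L))
      (fun L t => qc ((mulH F η k).f t) ((mulH F η k).f1 t) (Bx B k p) (tn B τ ν th L))
      (fun L t => dq ((mulH F η k).f t) ((mulH F η k).f1 t) (tn B τ ν th L))
      (fun t => om ((mulH F η k).f t) ((mulH F η k).f1 t)) (hK.trans KA)
      (hL.dat.monoK K0 KA (by
        rw [← mul_assoc, ← pow_add]
        exact mul_le_mul_of_nonneg_right (hKK.trans (sL (by omega))) e0))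
      (fun L h => (n1 L (hLb L h)).1.monoK (pK (by omega)) (by positivity) nb
        (mul_le_mul_of_nonneg_right nb d0)) n2 n3
      (by rw [← pow_mul]; exact (pK c2).trans hTH) (hTH1.trans (sL (by omega))) hψ hp0 hp1
      (by
        have h1 : (K ^ (Cn + 1)) ^ Cs ≤ K1 := by
          rw [← pow_mul]; exact ((pK c2).trans hTH).trans hTH1
        have h2 := (sm c1).trans hp2
        have h3 : K1 ^ b * (K1 ^ a * ε) * K1 ≤ ψ' := by
          refine le_of_mul_le_mul_left (le_of_eq_of_le ?_ h2) L0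
          ring
        exact (mul_le_mul_of_nonneg_left h1 (by positivity)).trans h3)
      (hp2.trans (mul_le_mul_of_nonneg_right (sL (by omega)) hp0.le))
  rw [← pow_mul] at g2 g6 g8
  have q0 : 0 < K1 ^ (b * Cs) := by positivity
  obtain ⟨m1, m2, m3, m4⟩ := n1 L (hLb L g1)
  have mneg : mm (Bx B k p) (tn B τ ν th L) ≤ -1 := by
    have h1 := (abs_le.1 m1.m_eq).2
    have h2 : -(L - th t0) ≤ |L - th t0| := neg_le_abs _
    have h3 : 2 * |L - th t0| ≤ th t0 := g1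
    have h4 : K ^ (Cn + 3) ≤ th t0 := (pK c4).trans hTH
    have h5 : 1 ≤ K ^ Cn := one_le_pow₀ K1'
    have h6 : (2 : ℝ) ^ 3 ≤ K ^ 3 := pow_le_pow_left₀ (by norm_num) hK 3
    have h7 := mul_le_mul_of_nonneg_left h6 (by positivity : 0 ≤ K ^ Cn)
    rw [← pow_add] at h7
    linarith
  refine ⟨te, Tn, tn B τ ν th L, Th, Fl, ⟨(cv.restrict (g2.T_pos q0) g4).monoK (by positivity)
    (pL (by omega)) (mul_le_mul_of_nonneg_right (pL (by omega)) e0), m2, m3,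
    m4.trans (nb.trans (pL (by omega))), ?_, g2.monoK q0 (pL c3),
    mul_pos_of_neg_of_neg (by linarith) g5, one_le_mono g6 q0 (pL c3), hp0.le, g7⟩, ?_, g4,
    fun t ht => ?_⟩
  · have h1 : 1 ≤ |mm (Bx B k p) (tn B τ ν th L)| := by
      rw [abs_of_neg (by linarith)]; linarith
    exact one_le_mul_of_one_le_of_one_le (one_le_pow₀ L1) h1
  · have h1 : 1 / K ^ (Cn + 1) ≤ 1 / K := one_div_le_one_div_of_le K0 KA
    have h2 : t0 - 1 / K ^ (Cn + 1) ≤ te := g3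
    linarith
  · have h1 := g2.pos t ht
    have h2 := g2.TH_pos q0
    have h3 := sp.pos t ⟨ht.1, ht.2.trans g4⟩
    exact ⟨le_mul_mono (g8 t ht).1 q0 (mul_pos h1 TH0).le (pL c3),
      le_mul_mono (g8 t ht).2 q0 (mul_pos h3 h2).le (pL c3)⟩

end Pool.Agent.Lib.MP_fbbbeb_an.D
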