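import Mathlib
import Pool.Agent.Lib.MP_fbbbeb_an.Cas.Pio
import Pool.Agent.Lib.MP_fbbbeb_an.Cas.Prp

/-! The a priori bound for the projected system, with a positive scalar solution as weight. -/

namespace Pool.Agent.Lib.MP_fbbbeb_an.D

open Pool.Agent.Lib.MP_fbbbeb_an.Pub Pool.Agent.Lib.MP_fbbbeb_an.Cas Set Filter Topology
open scoped RealInnerProductSpace

lemma amul {a b A B : ℝ} (h1 : |a| ≤ A) (h2 : |b| ≤ B) : |a * b| ≤ A * B := by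
  rw [abs_mul]; exact mul_le_mul h1 h2 (abs_nonneg _) ((abs_nonneg _).trans h1)

lemma aadd {a b A B : ℝ} (h1 : |a| ≤ A) (h2 : |b| ≤ B) : |a + b| ≤ A + B :=
  (abs_add_le _ _).trans (add_le_add h1 h2)

lemma asub {a b A B : ℝ} (h1 : |a| ≤ A) (h2 : |b| ≤ B) : |a - b| ≤ A + B :=
  (abs_sub _ _).trans (add_le_add h1 h2)

lemma ainv {a L : ℝ} (L0 : 0 < L) (h : 1 / L ≤ |a|) : |a⁻¹| ≤ L := by
  rw [abs_inv]
  exact (inv_anti₀ (by positivity) h).trans_eq (by simp)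

/-- the system in coordinates -/
lemma d1_coord {L c t0 a m b1 b2 : ℝ} {p q th fl al ga ka z1 z2 f1 f2 f3 r r' g : ℝ → ℝ}
    (L1 : 1 ≤ L) (t1 : 0 < t0) (tK : t0 ≤ L) (a0 : 0 < a) (ha : ∀ t ∈ Ioc 0 t0, a ≤ th t)
    (d1 : ∀ t ∈ Ioc 0 t0, HasDerivAt th (fl t / p t) t)
    (d2 : ∀ t ∈ Ioc 0 t0, HasDerivAt fl (q t * th t) t)
    (hp : ∀ t ∈ Ioc 0 t0, 1 / L ≤ p t) (hf : ∀ t ∈ Ioc 0 t0, |fl t| ≤ L * th t)
    (hm : ∀ s t, 0 < s → s ≤ t → t ≤ t0 → th s ≤ L * th t)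
    (m1 : |m| ≤ L) (m2 : 1 / L ≤ |m|) (B1 : |b1| ≤ L) (B2 : |b2| ≤ L)
    (hr : ∀ t ∈ Ioc 0 t0, |r t| ≤ L) (hg : ∀ t ∈ Ioc 0 t0, 1 / L ≤ g t)
    (Da : ∀ t ∈ Ioc 0 t0, HasDerivAt al (z1 t + f1 t) t)
    (Dg : ∀ t ∈ Ioc 0 t0, HasDerivAt ga (z2 t + f2 t) t)
    (Dk : ∀ t ∈ Ioc 0 t0, HasDerivAt ka (f3 t) t) (Dr : ∀ t ∈ Ioc 0 t0, HasDerivAt r (r' t) t)
    (e1 : ∀ t ∈ Ioc 0 t0, g t * (z1 t + r t * z2 t) = m * ga t + ka t * b1)
    (e2 : ∀ t ∈ Ioc 0 t0, p t * z2 t = - m * (al t + r t * ga t) + ka t * (b2 - r t * b1))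
    (e3 : ∀ t ∈ Ioc 0 t0, q t = - m * (m / g t + r' t))
    (za : Tendsto al (𝓝[>] 0) (𝓝 0)) (zg : Tendsto ga (𝓝[>] 0) (𝓝 0))
    (zk : Tendsto ka (𝓝[>] 0) (𝓝 0)) (F1 : ∀ t ∈ Ioc 0 t0, |f1 t| ≤ c * th t)
    (F2 : ∀ t ∈ Ioc 0 t0, |f2 t| ≤ L * (c * th t)) (F3 : ∀ t ∈ Ioc 0 t0, |f3 t| ≤ c * th t) :
    |al t0| ≤ 24 * L ^ 15 * (c * th t0) ∧ |ga t0| ≤ 9 * L ^ 13 * (c * th t0) ∧
      |ka t0| ≤ L ^ 2 * (c * th t0) := by
  have L0 : 0 < L := one_pos.trans_le L1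
  have h0 : ∀ t ∈ Ioc 0 t0, 0 < th t := fun t h => a0.trans_le (ha t h)
  have m0 : t0 ∈ Ioc 0 t0 := ⟨t1, le_rfl⟩
  have c0 : 0 ≤ c := nonneg_of_mul_nonneg_left ((abs_nonneg _).trans (F1 t0 m0)) (h0 t0 m0)
  have p0 : ∀ t ∈ Ioc 0 t0, 0 < p t := fun t h => (by positivity : 0 < 1 / L).trans_le (hp t h)
  have g0 : ∀ t ∈ Ioc 0 t0, 0 < g t := fun t h => (by positivity : 0 < 1 / L).trans_le (hg t h)
  have pw : ∀ (i j : ℕ) (t : ℝ), t ∈ Ioc 0 t0 → i ≤ j →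
      L ^ i * (c * th t) ≤ L ^ j * (c * th t) := fun i j t h ij =>
    mul_le_mul_of_nonneg_right (pow_le_pow_right₀ L1 ij) (mul_nonneg c0 (h0 t h).le)
  have bk : ∀ t ∈ Ioc 0 t0, |ka t| ≤ L ^ 2 * (c * th t) := fun t h => by
    have m : ∀ s ∈ Ioc 0 t, s ∈ Ioc 0 t0 := fun s hs => ⟨hs.1, hs.2.trans h.2⟩
    have := bound0 (L := c * (L * th t)) h.1 (fun s hs => Dk s (m s hs)) zk fun s hs =>
      (F3 s (m s hs)).trans (mul_le_mul_of_nonneg_left (hm s t hs.1 hs.2 h.2) c0)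
    have s0 := h0 t h
    exact this.trans ((mul_le_mul_of_nonneg_left (h.2.trans tK) (by positivity)).trans_eq (by ring))
  have ev : ∀ᶠ t in 𝓝[>] (0 : ℝ), t ∈ Ioc 0 t0 := Ioc_mem_nhdsGT t1
  have zr : Tendsto (fun t => r t * ga t) (𝓝[>] 0) (𝓝 0) :=
    squeeze_zero_norm' (a := fun t => L * |ga t|) (ev.mono fun t h => amul (hr t h) le_rfl)
      (by simpa using zg.abs.const_mul L)
  obtain ⟨r1, r2⟩ := d1_scalar (c := 3 * L ^ 6 * c) (Th := fun t => m * ga t)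
    (Fl := fun t => - m ^ 2 * (al t + r t * ga t))
    (g1 := fun t => m * (ka t * (b2 - r t * b1) * (p t)⁻¹ + f2 t))
    (g2 := fun t => - m ^ 2 * (ka t * b1 * (g t)⁻¹ + f1 t + r t * f2 t))
    L1 t1 tK a0 ha d1 d2 hp hf hm
    (fun t h => ((Dg t h).const_mul m).congr_deriv (by
      have := (p0 t h).ne'
      have e : z2 t = (- m * (al t + r t * ga t) + ka t * (b2 - r t * b1)) / p t := by
        rw [← e2 t h]; field_simp
      rw [e]; field_simp; ring))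
    (fun t h => (((Da t h).fun_add ((Dr t h).fun_mul (Dg t h))).const_mul (- m ^ 2)).congr_deriv (by
      have := (g0 t h).ne'
      have e : z1 t = (m * ga t + ka t * b1) / g t - r t * z2 t := by
        rw [← e1 t h]; field_simp; ring
      rw [e, e3 t h]; field_simp; ring))
    (by simpa using zg.const_mul m) (by simpa using (za.add zr).const_mul (- m ^ 2))
    (fun t h => by
      have := amul m1 (aadd (amul (amul (bk t h) (asub B2 (amul (hr t h) B1)))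
        (ainv L0 ((hp t h).trans (le_abs_self _)))) (F2 t h))
      refine this.trans ?_
      nlinarith [pw 5 6 t h (by norm_num), pw 2 6 t h (by norm_num)])
    (fun t h => by
      have mm : |- m ^ 2| ≤ L * L := by rw [abs_neg, sq]; exact amul m1 m1
      have := amul mm (aadd (aadd (amul (amul (bk t h) B1)
        (ainv L0 ((hg t h).trans (le_abs_self _)))) (F1 t h)) (amul (hr t h) (F2 t h)))
      refine this.trans ?_
      nlinarith [pw 2 6 t h (by norm_num), pw 4 6 t h (by norm_num)])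
  have mi := ainv L0 m2
  have mn : m ≠ 0 := abs_pos.1 ((by positivity : 0 < 1 / L).trans_le m2)
  have k1 : |ga t0| ≤ 9 * L ^ 13 * (c * th t0) := by
    have := amul mi r1
    rw [inv_mul_cancel_left₀ mn] at this
    exact this.trans_eq (by ring)
  refine ⟨?_, k1, bk t0 m0⟩
  have := aadd (amul (amul mi mi) r2) (amul (hr t0 m0) k1)
  rw [show m⁻¹ * m⁻¹ * (- m ^ 2 * (al t0 + r t0 * ga t0)) + r t0 * ga t0 = - al t0 by
    field_simp; ring, abs_neg] at this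
  refine this.trans ?_
  nlinarith [pw 14 15 t0 m0 (by norm_num)]

/-- expansion in an orthonormal frame -/
lemma expand1 {a b k : E} (ha : ‖a‖ = 1) (hb : ‖b‖ = 1) (hk : ‖k‖ = 1) (ab : ⟪a, b⟫ = 0)
    (ka : ⟪k, a⟫ = 0) (kb : ⟪k, b⟫ = 0) (x : E) :
    x = ⟪a, x⟫ • a + ⟪b, x⟫ • b + ⟪k, x⟫ • k := by
  have ba : ⟪b, a⟫ = 0 := by rw [real_inner_comm]; exact ab
  have ak : ⟪a, k⟫ = 0 := by rw [real_inner_comm]; exact ka
  have bk : ⟪b, k⟫ = 0 := by rw [real_inner_comm]; exact kb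
  have o : Orthonormal ℝ ![a, b, k] := by
    rw [orthonormal_iff_ite]
    intro i j
    fin_cases i <;> fin_cases j <;> simp [*]
  have sp := o.linearIndependent.span_eq_top_of_card_eq_finrank (by simp)
  simpa [Fin.sum_univ_three] using ((OrthonormalBasis.mk o sp.ge).sum_repr' x).symm

/-- expansion in an orthogonal frame -/
lemma expand {a τ k : E} (ha : ‖a‖ = 1) (ht : τ ≠ 0) (hk : ‖k‖ = 1) (ab : ⟪a, τ⟫ = 0)
    (ka : ⟪k, a⟫ = 0) (kb : ⟪k, τ⟫ = 0) (x : E) :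
    x = ⟪a, x⟫ • a + (⟪τ, x⟫ / ‖τ‖ ^ 2) • τ + ⟪k, x⟫ • k := by
  have n := norm_ne_zero_iff.2 ht
  have := expand1 (b := ‖τ‖⁻¹ • τ) ha (by simp [norm_smul, n]) hk
    (by simp [real_inner_smul_right, ab]) ka (by simp [real_inner_smul_right, kb]) x
  rw [real_inner_smul_left, smul_smul] at this
  convert this using 4
  field_simp

/-- lower bound of the reduced metric -/
lemma p_low {K : ℝ} {F : L3} {a τ : E} (ha : ‖a‖ = 1) (ab : ⟪a, τ⟫ = 0)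
    (F2 : ∀ x, ‖x‖ ≤ K * ‖F x‖) :
    ‖τ‖ ^ 2 ≤ K ^ 2 * (‖F τ‖ ^ 2 - ⟪F a, F τ⟫ ^ 2 / ‖F a‖ ^ 2) := by
  have n : ‖F a‖ ≠ 0 := fun h => by have := F2 a; rw [h, ha] at this; linarith
  set r := ⟪F a, F τ⟫ / ‖F a‖ ^ 2 with hr
  have e1 : ‖F (τ - r • a)‖ ^ 2 = ‖F τ‖ ^ 2 - ⟪F a, F τ⟫ ^ 2 / ‖F a‖ ^ 2 := by
    rw [map_sub, map_smul, norm_sub_sq_real, real_inner_smul_right, norm_smul, mul_pow,
      Real.norm_eq_abs, sq_abs, real_inner_comm, hr]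
    field_simp
    ring
  have e2 : ‖τ - r • a‖ ^ 2 = ‖τ‖ ^ 2 + r ^ 2 := by
    rw [norm_sub_sq_real, real_inner_smul_right, real_inner_comm, ab, norm_smul, ha]
    simp
  have := pow_le_pow_left₀ (norm_nonneg _) (F2 (τ - r • a)) 2
  rw [mul_pow, e1, e2] at this
  nlinarith [sq_nonneg r]

/-- **D1**: the a priori bound for `y' = Π B y + f` with the weight `th` -/
theorem d1 {T K m amin : ℝ} {F : ℝ → L3} {B : L3} {a τ k : E} {p q r r' th fl : ℝ → ℝ}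
    (K2 : 2 ≤ K) (TK : T ≤ K) (ha : ‖a‖ = 1) (hk : ‖k‖ = 1) (ab : ⟪a, τ⟫ = 0) (ka : ⟪k, a⟫ = 0)
    (kb : ⟪k, τ⟫ = 0) (τ1 : ‖τ‖ ≤ K) (τ2 : 1 ≤ K * ‖τ‖) (hB : ∀ x y, ⟪x, B y⟫ = - ⟪B x, y⟫)
    (B1 : ‖B‖ ≤ K) (hm : m = ⟪a, B τ⟫) (m1 : 1 ≤ K * |m|) (F1 : ∀ t ∈ Ioo 0 T, ‖F t‖ ≤ K)
    (F2 : ∀ t ∈ Ioo 0 T, ∀ x, ‖x‖ ≤ K * ‖F t x‖)
    (hr : ∀ t ∈ Ioo 0 T, r t = ⟪F t a, F t τ⟫ / ‖F t a‖ ^ 2)
    (Dr : ∀ t ∈ Ioo 0 T, HasDerivAt r (r' t) t)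
    (hp : ∀ t ∈ Ioo 0 T, p t = ‖F t τ‖ ^ 2 - ⟪F t a, F t τ⟫ ^ 2 / ‖F t a‖ ^ 2)
    (hq : ∀ t ∈ Ioo 0 T, q t = - m * (m / ‖F t a‖ ^ 2 + r' t))
    (d1 : ∀ t ∈ Ioo 0 T, HasDerivAt th (fl t / p t) t)
    (d2 : ∀ t ∈ Ioo 0 T, HasDerivAt fl (q t * th t) t)
    (a0 : 0 < amin) (a1 : ∀ t ∈ Ioo 0 T, amin ≤ th t) (hf : ∀ t ∈ Ioo 0 T, |fl t| ≤ K * th t)
    (mo : ∀ s t, 0 < s → s ≤ t → t < T → th s ≤ K * th t) :
    Prc T (fun t => Pio (F t) k * B) th (K ^ 68) := by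
  intro y f c t0 t1 hy h0 hf'
  have K1 : 1 ≤ K := by linarith
  have K0 : 0 < K := by linarith
  have mm : ∀ t ∈ Ioc 0 t0, t ∈ Ioo 0 T := fun t h => ⟨h.1, h.2.trans_lt t1.2⟩
  have pk : ∀ i : ℕ, i ≤ 4 → K ^ i ≤ K ^ 4 := fun i h => pow_le_pow_right₀ K1 h
  have KL : K ≤ K ^ 4 := by simpa using pk 1 (by norm_num)
  have τ0 : 0 < ‖τ‖ := (mul_pos_iff_of_pos_left K0).1 (one_pos.trans_le τ2)
  have τn : τ ≠ 0 := norm_pos_iff.1 τ0
  have k0 : k ≠ 0 := norm_pos_iff.1 (by rw [hk]; exact one_pos)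
  have th0 : ∀ t ∈ Ioc 0 t0, 0 < th t := fun t h => a0.trans_le (a1 t (mm t h))
  have n1 : ∀ t ∈ Ioc 0 t0, 1 ≤ K * ‖F t a‖ := fun t h => ha ▸ F2 t (mm t h) a
  have n0 : ∀ t ∈ Ioc 0 t0, 0 < ‖F t a‖ := fun t h =>
    (mul_pos_iff_of_pos_left K0).1 (one_pos.trans_le (n1 t h))
  have ip : ∀ u v : E, |⟪u, B v⟫| ≤ ‖u‖ * (K * ‖v‖) := fun u v =>
    (abs_real_inner_le_norm _ _).trans (mul_le_mul_of_nonneg_left ((B.le_opNorm v).trans
      (mul_le_mul_of_nonneg_right B1 (norm_nonneg _))) (norm_nonneg _))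
  have Baa : ⟪a, B a⟫ = 0 := by have := hB a a; rw [real_inner_comm a (B a)] at this; linarith
  have Btt : ⟪τ, B τ⟫ = 0 := by have := hB τ τ; rw [real_inner_comm τ (B τ)] at this; linarith
  have Bta : ⟪τ, B a⟫ = - m := by rw [hm, hB a τ, neg_neg, real_inner_comm]
  have ex := expand ha τn hk ab ka kb
  have Di : ∀ u : E, ∀ t ∈ Ioc 0 t0, HasDerivAt (fun s => ⟪u, y s⟫)
      (⟪u, Pio (F t) k (B (y t))⟫ + ⟪u, f t⟫) t := fun u t h => by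
    simpa [inner_add_right] using (hasDerivAt_const t u).inner ℝ (hy t h)
  have Zi : ∀ u : E, Tendsto (fun s => ⟪u, y s⟫) (𝓝[>] 0) (𝓝 0) := fun u => by
    simpa using (tendsto_const_nhds (x := u)).inner (𝕜 := ℝ) h0
  have G : ∀ t ∈ Ioc 0 t0, ∀ u : E, ⟪k, u⟫ = 0 →
      ⟪a, Pio (F t) k (B (y t))⟫ * ⟪F t u, F t a⟫ +
        ⟪τ, Pio (F t) k (B (y t))⟫ / ‖τ‖ ^ 2 * ⟪F t u, F t τ⟫ =
      ⟪a, y t⟫ * ⟪u, B a⟫ + ⟪τ, y t⟫ / ‖τ‖ ^ 2 * ⟪u, B τ⟫ + ⟪k, y t⟫ * ⟪u, B k⟫ := fun t h u hu => by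
    obtain ⟨s, hs⟩ := PioA.pio_eq (F2 t (mm t h)) k (B (y t))
    have e := PioA.inner_gm (F t) u (Pio (F t) k (B (y t)))
    rw [hs, inner_add_right, real_inner_smul_right, real_inner_comm, real_inner_comm k u, hu] at e
    have e1 := congrArg (fun v => ⟪F t u, F t v⟫) (ex (Pio (F t) k (B (y t))))
    have e2 := congrArg (fun v => ⟪u, B v⟫) (ex (y t))
    simp only [map_add, map_smul, inner_add_right, real_inner_smul_right,
      PioA.pio_perp (F2 t (mm t h)) k0] at e1 e2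
    rw [real_inner_comm] at e
    linarith
  obtain ⟨r1, r2, r3⟩ := d1_coord (L := K ^ 4) (c := c) (m := ⟪a, B τ⟫) (b1 := ⟪a, B k⟫)
    (b2 := ⟪τ, B k⟫) (al := fun t => ⟪a, y t⟫) (ga := fun t => ⟪τ, y t⟫ / ‖τ‖ ^ 2)
    (ka := fun t => ⟪k, y t⟫) (z1 := fun t => ⟪a, Pio (F t) k (B (y t))⟫)
    (z2 := fun t => ⟪τ, Pio (F t) k (B (y t))⟫ / ‖τ‖ ^ 2) (f1 := fun t => ⟪a, f t⟫)
    (f2 := fun t => ⟪τ, f t⟫ / ‖τ‖ ^ 2) (f3 := fun t => ⟪k, f t⟫) (g := fun t => ‖F t a‖ ^ 2)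
    (K1.trans KL) t1.1 (t1.2.le.trans (TK.trans KL)) a0 (fun t h => a1 t (mm t h))
    (fun t h => d1 t (mm t h)) (fun t h => d2 t (mm t h))
    (fun t h => by
      have := p_low ha ab (F2 t (mm t h))
      rw [← hp t (mm t h)] at this
      rw [div_le_iff₀ (by positivity)]
      nlinarith [one_le_pow₀ (n := 2) τ2, mul_le_mul_of_nonneg_left this (sq_nonneg K)])
    (fun t h => (hf t (mm t h)).trans (mul_le_mul_of_nonneg_right KL (th0 t h).le))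
    (fun s t s0 st tt => (mo s t s0 st (tt.trans_lt t1.2)).trans
      (mul_le_mul_of_nonneg_right KL (th0 t ⟨s0.trans_le st, tt⟩).le))
    ((ip a τ).trans (by rw [ha]; nlinarith [pk 2 (by norm_num)]))
    (by rw [div_le_iff₀ (by positivity), ← hm]; nlinarith [abs_nonneg m])
    ((ip a k).trans (by rw [ha, hk]; linarith))
    ((ip τ k).trans (by rw [hk]; nlinarith [pk 2 (by norm_num)]))
    (fun t h => by
      have s0 := n0 t h
      have e : ‖F t τ‖ ≤ K * K := ((F t).le_opNorm τ).trans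
        (mul_le_mul (F1 t (mm t h)) τ1 τ0.le K0.le)
      rw [hr t (mm t h), abs_div, abs_of_pos (by positivity : 0 < ‖F t a‖ ^ 2),
        div_le_iff₀ (by positivity)]
      refine (abs_real_inner_le_norm _ _).trans ?_
      have e2 : ‖F t τ‖ ≤ K ^ 4 * ‖F t a‖ := e.trans ((le_mul_of_one_le_right (by positivity)
        (n1 t h)).trans (by nlinarith [pk 3 (by norm_num)]))
      nlinarith)
    (fun t h => by
      rw [div_le_iff₀ (by positivity)]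
      nlinarith [one_le_pow₀ (n := 2) (n1 t h), pk 2 (by norm_num), sq_nonneg ‖F t a‖])
    (Di a) (fun t h => ((Di τ t h).div_const _).congr_deriv (add_div _ _ _))
    (fun t h => (Di k t h).congr_deriv (by rw [PioA.pio_perp (F2 t (mm t h)) k0, zero_add]))
    (fun t h => Dr t (mm t h))
    (fun t h => by
      have := (n0 t h).ne'
      have e := G t h a ka
      rw [real_inner_self_eq_norm_sq, Baa] at e
      rw [hr t (mm t h), mul_add, ← mul_assoc, mul_div_cancel₀ _ (pow_ne_zero 2 this)]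
      linarith)
    (fun t h => by
      have := (n0 t h).ne'
      have e := G t h a ka
      have e' := G t h τ kb
      rw [real_inner_self_eq_norm_sq, Baa] at e
      rw [real_inner_self_eq_norm_sq, Btt, Bta, hm, real_inner_comm (F t a)] at e'
      have e3 : ⟪F t a, F t τ⟫ = r t * ‖F t a‖ ^ 2 := by rw [hr t (mm t h)]; field_simp
      have e4 : p t = ‖F t τ‖ ^ 2 - r t ^ 2 * ‖F t a‖ ^ 2 := by rw [hp t (mm t h), e3]; field_simp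
      rw [e3] at e e'
      rw [e4]
      linear_combination e' - r t * e)
    (fun t h => hm ▸ hq t (mm t h)) (Zi a) (by simpa using (Zi τ).div_const (‖τ‖ ^ 2)) (Zi k)
    (fun t h => (abs_real_inner_le_norm _ _).trans (by rw [ha, one_mul]; exact hf' t h))
    (fun t h => by
      rw [abs_div, abs_of_pos (by positivity : 0 < ‖τ‖ ^ 2), div_le_iff₀ (by positivity)]
      refine (abs_real_inner_le_norm _ _).trans ?_
      have e : 1 ≤ K ^ 4 * ‖τ‖ := τ2.trans (mul_le_mul_of_nonneg_right KL τ0.le)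
      have e1 := mul_le_mul_of_nonneg_left (hf' t h) τ0.le
      have e2 := le_mul_of_one_le_right ((mul_nonneg τ0.le (norm_nonneg _)).trans e1) e
      nlinarith)
    (fun t h => (abs_real_inner_le_norm _ _).trans (by rw [hk, one_mul]; exact hf' t h))
  have c0 : 0 ≤ c * th t0 := (norm_nonneg _).trans (hf' t0 ⟨t1.1, le_rfl⟩)
  have L16 : 16 ≤ K ^ 4 := by simpa using (pow_le_pow_left₀ (by norm_num) K2 4).trans' (by norm_num)
  rw [ex (y t0), show K ^ 68 = (K ^ 4) ^ 17 by ring, mul_assoc]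
  generalize K ^ 4 = L at r1 r2 r3 L16 KL
  have pw : ∀ i j : ℕ, i ≤ j → L ^ i * (c * th t0) ≤ L ^ j * (c * th t0) := fun i j ij =>
    mul_le_mul_of_nonneg_right (pow_le_pow_right₀ (by linarith) ij) c0
  refine (norm_add₃_le).trans ?_
  simp only [norm_smul, Real.norm_eq_abs, ha, hk, mul_one]
  have e1 := mul_le_mul r2 (τ1.trans KL) τ0.le (by positivity)
  have e2 : 34 * (L ^ 15 * (c * th t0)) ≤ L ^ 2 * (L ^ 15 * (c * th t0)) :=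
    mul_le_mul_of_nonneg_right (by nlinarith) (by positivity)
  nlinarith [pw 14 15 (by norm_num), pw 2 15 (by norm_num)]

/-- derivative of the shear ratio -/
lemma sr_deriv {F : ℝ → L3} {F1 : L3} {t : ℝ} (a τ : E) (hF : HasDerivAt F F1 t) (n : F t a ≠ 0) :
    HasDerivAt (fun s => ⟪F s a, F s τ⟫ / ‖F s a‖ ^ 2)
      ((2 * (⟪F1 a, F t τ⟫ - ⟪F1 a, F t a⟫ * ⟪F t a, F t τ⟫ / ‖F t a‖ ^ 2) -
        ⟪a, Bop (F t) F1 τ⟫) / ‖F t a‖ ^ 2) t := by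
  have d : ∀ x : E, HasDerivAt (fun s => F s x) (F1 x) t := fun x => by
    simpa using hF.clm_apply (hasDerivAt_const t x)
  have n' : ‖F t a‖ ≠ 0 := norm_ne_zero_iff.2 n
  refine (((d a).inner ℝ (d τ)).fun_div (d a).norm_sq (pow_ne_zero 2 n')).congr_deriv ?_
  simp only [Bop, sub_apply, mul_apply_eq_comp, inner_sub_right,
    ContinuousLinearMap.star_eq_adjoint, ContinuousLinearMap.adjoint_inner_right]
  rw [real_inner_comm (F1 a) (F t a)]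
  field_simp
  ring

/-- from the ideal system with a constant matrix to a nearby curve -/
theorem prp_mop {T K K' δ amin : ℝ} {F G G1 : ℝ → L3} {B : L3} {k : E} {w : ℝ → ℝ}
    (h : Prc T (fun t => Pio (F t) k * B) w K') (K2 : 2 ≤ K) (K0 : 0 < K') (hk : ‖k‖ = 1)
    (B1 : ‖B‖ ≤ K) (F1 : ∀ t ∈ Ioo 0 T, ‖F t‖ ≤ K) (F2 : ∀ t ∈ Ioo 0 T, ∀ x, ‖x‖ ≤ K * ‖F t x‖)
    (G2 : ∀ t ∈ Ioo 0 T, ‖G t‖ ≤ K) (G3 : ∀ t ∈ Ioo 0 T, ∀ x, ‖x‖ ≤ K * ‖G t x‖)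
    (c1 : ∀ t ∈ Ioo 0 T, ‖G t - F t‖ ≤ δ) (c2 : ∀ t ∈ Ioo 0 T, ‖Bop (G t) (G1 t) - B‖ ≤ δ)
    (hδ : 4 * K' * K ^ 10 * δ ≤ 1) (a0 : 0 < amin) (a1 : ∀ t ∈ Ioo 0 T, amin ≤ w t) :
    Prc T (fun t => Mop (G t) (G1 t) k) w (2 * K') := by
  refine h.pert K0 (fun t ht => ?_) fun t0 t1 =>
    ⟨amin, a0, fun t ht => a1 t ⟨ht.1, ht.2.trans_lt t1.2⟩⟩
  have d0 : 0 ≤ δ := (norm_nonneg _).trans (c1 t ht)
  have k0 : k ≠ 0 := norm_pos_iff.1 (by rw [hk]; exact one_pos)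
  have k1 : 1 ≤ K * ‖k‖ := by rw [hk]; linarith
  have l := PioA.pio_lip K2 (G2 t ht) (F1 t ht) (G3 t ht) (F2 t ht) k1 k1 (c1 t ht)
    (by simpa using d0)
  have e : Mop (G t) (G1 t) k - Pio (F t) k * B =
      Pio (G t) k * (Bop (G t) (G1 t) - B) + (Pio (G t) k - Pio (F t) k) * B := by
    simp only [Mop, mul_sub, sub_mul]; abel
  rw [e, le_div_iff₀ (by positivity)]
  have e1 := (norm_add_le _ _).trans (add_le_add (PioA.nmul (PioA.pio_norm (G3 t ht) k0) (c2 t ht))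
    (PioA.nmul l B1))
  have e2 : K ^ 2 * δ ≤ K ^ 10 * δ :=
    mul_le_mul_of_nonneg_right (pow_le_pow_right₀ (by linarith) (by norm_num)) d0
  refine (mul_le_mul_of_nonneg_right e1 (by positivity)).trans ?_
  nlinarith [mul_le_mul_of_nonneg_left e2 K0.le]

end Pool.Agent.Lib.MP_fbbbeb_an.D
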