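import Mathlib
import Pool.Agent.Lib.MP_fbbbeb_an.Cas.Pio
import Pool.Agent.Lib.MP_fbbbeb_an.Cas.Prp

/-! The curve `F (1 + η ⊗ k)`: derivatives, bounds, Cauchy invariants; the equation of a wave. -/

set_option autoImplicit false

noncomputable section

namespace Pool.Agent.Lib.MP_fbbbeb_an.D.MH

open Pool.Agent.Lib.MP_fbbbeb_an.Pub Pool.Agent.Lib.MP_fbbbeb_an.Cas Set Filter Topology
open Pool.Agent.Lib.MP_fbbbeb_an.Cas.PioA
open scoped RealInnerProductSpace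

theorem r1_apply (a b x : E) : r1 a b x = ⟪b, x⟫ • a := by simp [r1]

theorem norm_r1 (a b : E) : ‖r1 a b‖ = ‖a‖ * ‖b‖ := InnerProductSpace.norm_rankOne a b

theorem nr1 {a b : E} {x y : ℝ} (ha : ‖a‖ ≤ x) (hb : ‖b‖ ≤ y) : ‖r1 a b‖ ≤ x * y := by
  rw [norm_r1]
  exact mul_le_mul ha hb (norm_nonneg _) ((norm_nonneg _).trans ha)

theorem r1_sub_left (a a' b : E) : r1 (a - a') b = r1 a b - r1 a' b := by
  ext1 x; simp only [r1_apply, sub_apply, smul_sub]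

theorem r1_add_left (a a' b : E) : r1 (a + a') b = r1 a b + r1 a' b := by
  ext1 x; simp only [r1_apply, add_apply, smul_add]

theorem r1_add_right (a b b' : E) : r1 a (b + b') = r1 a b + r1 a b' := by
  ext1 x; simp only [r1_apply, add_apply, inner_add_left, add_smul]

theorem inner_star (A : L3) (x y : E) : ⟪x, star A y⟫ = ⟪A x, y⟫ := by
  rw [ContinuousLinearMap.star_eq_adjoint, ContinuousLinearMap.adjoint_inner_right]

theorem star_inner (A : L3) (x y : E) : ⟪star A x, y⟫ = ⟪x, A y⟫ := by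
  rw [ContinuousLinearMap.star_eq_adjoint, ContinuousLinearMap.adjoint_inner_left]

theorem star_r1 (a b : E) : star (r1 a b) = r1 b a := by
  ext1 x
  refine ext_inner_left ℝ fun v => ?_
  rw [inner_star, r1_apply, r1_apply, real_inner_smul_left, real_inner_smul_right,
    real_inner_comm b v, mul_comm]

theorem ext_in {A B : L3} (h : ∀ x y, ⟪x, A y⟫ = ⟪x, B y⟫) : A = B := by
  ext1 y
  exact ext_inner_left ℝ fun x => h x y

theorem inner_bop (F F1 : L3) (x y : E) : ⟪x, Bop F F1 y⟫ = ⟪F1 x, F y⟫ - ⟪F x, F1 y⟫ := by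
  rw [Bop, sub_apply, inner_sub_right, mul_apply_eq_comp, mul_apply_eq_comp, inner_star, inner_star]

theorem bop_anti (F F1 : L3) (x y : E) : ⟪x, Bop F F1 y⟫ = -⟪y, Bop F F1 x⟫ := by
  rw [inner_bop, inner_bop, real_inner_comm (F x), real_inner_comm (F1 x)]; ring

theorem H_apply (η k x : E) : (1 + r1 η k : L3) x = x + ⟪k, x⟫ • η := by
  rw [add_apply, r1_apply]; rfl

theorem FH_apply (F : L3) (η k x : E) : (F * (1 + r1 η k)) x = F x + ⟪k, x⟫ • F η := by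
  rw [mul_apply_eq_comp, H_apply, map_add, map_smul]

theorem Fr_apply (F : L3) (η k x : E) : (F * r1 η k) x = ⟪k, x⟫ • F η := by
  rw [mul_apply_eq_comp, r1_apply, map_smul]

theorem H_inv {η k : E} (h : ⟪k, η⟫ = 0) : (1 + r1 η k : L3) * (1 - r1 η k) = 1 := by
  ext1 x
  rw [mul_apply_eq_comp, H_apply, sub_apply, r1_apply, inner_sub_right, real_inner_smul_right, h]
  simp

theorem inv_H {η k : E} (h : ⟪k, η⟫ = 0) : (1 - r1 η k : L3) * (1 + r1 η k) = 1 := by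
  ext1 x
  rw [mul_apply_eq_comp, H_apply, sub_apply, r1_apply, inner_add_right, real_inner_smul_right, h]
  simp

theorem norm_H {η k : E} {x y : ℝ} (ha : ‖η‖ ≤ x) (hb : ‖k‖ ≤ y) :
    ‖(1 + r1 η k : L3)‖ ≤ 1 + x * y :=
  (norm_add_le _ _).trans (add_le_add ContinuousLinearMap.norm_id_le (nr1 ha hb))

/-- lower bound for the product -/
theorem lower_FH {F : L3} {η k : E} {K a b : ℝ} (hF : ∀ x, ‖x‖ ≤ K * ‖F x‖) (h : ⟪k, η⟫ = 0)
    (ha : ‖η‖ ≤ a) (hb : ‖k‖ ≤ b) (x : E) :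
    ‖x‖ ≤ (1 + a * b) * K * ‖(F * (1 + r1 η k)) x‖ := by
  have e : x = (1 - r1 η k : L3) ((1 + r1 η k : L3) x) := by
    rw [← mul_apply_eq_comp, inv_H h]; rfl
  have n : ‖(1 - r1 η k : L3)‖ ≤ 1 + a * b :=
    (norm_sub_le _ _).trans (add_le_add ContinuousLinearMap.norm_id_le (nr1 ha hb))
  rw [mul_apply_eq_comp, mul_assoc]
  conv_lhs => rw [e]
  exact napp n (hF _)

/-- a lower bound survives a small perturbation -/
theorem lower_near {F G : L3} {K δ : ℝ} (hF : ∀ x, ‖x‖ ≤ K * ‖F x‖) (K0 : 0 ≤ K)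
    (h : ‖G - F‖ ≤ δ) (hδ : 2 * K * δ ≤ 1) (x : E) : ‖x‖ ≤ 2 * K * ‖G x‖ := by
  have h1 : ‖(G - F) x‖ ≤ δ * ‖x‖ := napp h le_rfl
  have h2 : ‖F x‖ ≤ ‖G x‖ + ‖(G - F) x‖ := by
    have := norm_sub_le (G x) ((G - F) x)
    rwa [sub_apply, sub_sub_cancel, ← sub_apply] at this
  have h3 := hF x
  have h4 := mul_le_mul_of_nonneg_left (h2.trans (add_le_add le_rfl h1)) K0
  have h5 := mul_le_mul_of_nonneg_right hδ (norm_nonneg x)
  nlinarith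

/-- the Cauchy invariants after the insertion of a wave, exact form -/
theorem bop_mulH {F F1 : L3} {η η1 k p e : E} {s : ℝ}
    (h : (star F * F) η1 - Bop F F1 η - p = s • k + e) :
    Bop (F * (1 + r1 η k)) (F1 * (1 + r1 η k) + F * r1 η1 k) =
      Bop F F1 + r1 k (p + e) - r1 (p + e) k := by
  have h1 : ∀ v, ⟪v, p + e⟫ = ⟪F v, F η1⟫ - (⟪F1 v, F η⟫ - ⟪F v, F1 η⟫) - s * ⟪v, k⟫ := by
    intro v
    have e1 : p + e = (star F * F) η1 - Bop F F1 η - s • k := by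
      linear_combination (norm := module) -h
    rw [e1, inner_sub_right, inner_sub_right, inner_gm, inner_bop, real_inner_smul_right]
  refine ext_in fun x y => ?_
  rw [inner_bop, sub_apply, add_apply (Bop F F1), inner_sub_right, inner_add_right, inner_bop,
    r1_apply, r1_apply, real_inner_smul_right, real_inner_smul_right, real_inner_comm y (p + e),
    h1, h1]
  simp only [add_apply, FH_apply, Fr_apply, inner_add_left, inner_add_right, real_inner_smul_left,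
    real_inner_smul_right]
  rw [real_inner_comm (F η) (F1 y), real_inner_comm (F1 η) (F y), real_inner_comm (F η1) (F y),
    real_inner_comm k x, real_inner_comm k y, real_inner_comm (F η) (F1 η), 
    real_inner_comm (F η) (F η1)]
  ring

theorem hasDerivAt_star {A : ℝ → L3} {A1 : L3} {t : ℝ} (h : HasDerivAt A A1 t) :
    HasDerivAt (fun s => star (A s)) (star A1) t := by
  have := ((ContinuousLinearMap.adjoint : L3 ≃ₗᵢ⋆[ℝ] L3).toContinuousLinearEquiv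
    |>.toContinuousLinearMap.hasFDerivAt (x := A t)).comp_hasDerivAt t h
  exact this

theorem hasDerivAt_r1 {η : ℝ → E} {η1 : E} {t : ℝ} (h : HasDerivAt η η1 t) (k : E) :
    HasDerivAt (fun s => r1 (η s) k) (r1 η1 k) t := by
  have := (((InnerProductSpace.rankOne ℝ (E := E) (F := E)).flip k).hasFDerivAt
    (x := η t)).comp_hasDerivAt t h
  exact this

variable {T : ℝ} {F G : Cv L3} {η : Cv E} {k p : E}

theorem mulH_ok (hF : F.Ok T) (hη : η.Ok T) (k : E) : (mulH F η k).Ok T := by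
  intro t ht
  obtain ⟨a1, a2⟩ := hF t ht
  obtain ⟨b1, b2⟩ := hη t ht
  have c1 := (hasDerivAt_r1 b1 k).const_add 1
  have c2 := hasDerivAt_r1 b2 k
  refine ⟨a1.mul c1, ((a2.mul c1).add (a1.mul c2)).congr_deriv ?_⟩
  simp only [mulH]
  module

/-- the defect operator -/
def Df (F : Cv L3) (t : ℝ) : L3 := star (F.f2 t) * F.f t - star (F.f t) * F.f2 t

theorem hasDerivAt_bop (hF : F.Ok T) {t : ℝ} (ht : t ∈ Ioo 0 T) :
    HasDerivAt (fun s => Bop (F.f s) (F.f1 s)) (Df F t) t := by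
  obtain ⟨a1, a2⟩ := hF t ht
  refine (((hasDerivAt_star a2).mul a1).sub ((hasDerivAt_star a1).mul a2)).congr_deriv ?_
  simp only [Df]
  abel

theorem hasDerivAt_gm (hF : F.Ok T) {t : ℝ} (ht : t ∈ Ioo 0 T) :
    HasDerivAt (fun s => star (F.f s) * F.f s)
      (star (F.f1 t) * F.f t + star (F.f t) * F.f1 t) t :=
  (hasDerivAt_star (hF t ht).1).mul (hF t ht).1

/-- the Cauchy invariants move by at most the defect times the time -/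
theorem bop_sub_le {ε : ℝ} (hF : F.Ok T) (hD : Defect T ε F) {s t : ℝ} (hs : s ∈ Ioo 0 T)
    (ht : t ∈ Ioo 0 T) : ‖Bop (F.f t) (F.f1 t) - Bop (F.f s) (F.f1 s)‖ ≤ ε * |t - s| :=
  (convex_Ioo 0 T).norm_image_sub_le_of_norm_hasDerivWithin_le
    (f := fun s => Bop (F.f s) (F.f1 s)) (f' := Df F)
    (fun _ hx => (hasDerivAt_bop hF hx).hasDerivWithinAt) hD hs ht

theorem perp_deriv {y : ℝ → E} {y1 : E} {t : ℝ} (ht : t ∈ Ioo 0 T) (hy : HasDerivAt y y1 t)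
    (h : ∀ s ∈ Ioo 0 T, ⟪k, y s⟫ = 0) : ⟪k, y1⟫ = 0 := by
  have h1 : HasDerivAt (fun s => ⟪k, y s⟫) ⟪k, y1⟫ t := by
    simpa using (hasDerivAt_const t k).inner ℝ hy
  have h2 : HasDerivAt (fun s => ⟪k, y s⟫) 0 t :=
    (hasDerivAt_const t (0 : ℝ)).congr_of_eventuallyEq
      (eventually_of_mem (Ioo_mem_nhds ht.1 ht.2) h)
  exact h1.unique h2

/-- first order equation of a wave, solved for the derivative -/
theorem eq1 {F F1 : L3} {η η1 k p e : E} {s K : ℝ} (hF : ∀ x, ‖x‖ ≤ K * ‖F x‖) (hk : k ≠ 0)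
    (h1 : ⟪k, η1⟫ = 0) (h : (star F * F) η1 - Bop F F1 η - p = s • k + e) :
    η1 = Mop F F1 k η + Pio F k (p + e) := by
  rw [Mop, mul_apply_eq_comp, ← map_add]
  refine pio_uniq hF hk _ _ s h1 ?_
  linear_combination (norm := module) h

/-- the data of a wave -/
structure Wv (T : ℝ) (F : Cv L3) (k p : E) (η : Cv E) (s : ℝ → ℝ) (e e1 : ℝ → E) : Prop where
  ok : η.Ok T
  zero : Tendsto η.f (𝓝[>] 0) (𝓝 0)
  eq : ∀ t ∈ Ioo 0 T,
    (star (F.f t) * F.f t) (η.f1 t) - Bop (F.f t) (F.f1 t) (η.f t) - p = s t • k + e t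
  perp : ∀ t ∈ Ioo 0 T, ⟪k, η.f t⟫ = 0
  de : ∀ t ∈ Ioo 0 T, HasDerivAt e (e1 t) t

theorem wave_iff {ε : ℝ} {w : ℝ → ℝ} : Wave T ε w F k p η ↔ ∃ s e e1, Wv T F k p η s e e1 ∧
    ∀ t ∈ Ioo 0 T, ‖e t‖ ≤ ε * w t ∧ ‖e1 t‖ ≤ ε * w t :=
  ⟨fun ⟨h1, h2, s, e, e1, h⟩ => ⟨s, e, e1, ⟨h1, h2, fun t ht => (h t ht).1,
      fun t ht => (h t ht).2.1, fun t ht => (h t ht).2.2.1⟩, fun t ht => (h t ht).2.2.2⟩,
    fun ⟨s, e, e1, h, hb⟩ => ⟨h.ok, h.zero, s, e, e1, fun t ht =>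
      ⟨h.eq t ht, h.perp t ht, h.de t ht, hb t ht⟩⟩⟩

variable {s : ℝ → ℝ} {e e1 : ℝ → E}

theorem Wv.perp1 (h : Wv T F k p η s e e1) : ∀ t ∈ Ioo 0 T, ⟪k, η.f1 t⟫ = 0 := fun t ht =>
  perp_deriv ht (h.ok t ht).1 h.perp

theorem Wv.perp2 (h : Wv T F k p η s e e1) : ∀ t ∈ Ioo 0 T, ⟪k, η.f2 t⟫ = 0 := fun t ht =>
  perp_deriv ht (h.ok t ht).2 h.perp1

theorem Wv.eq1 (h : Wv T F k p η s e e1) (hk : k ≠ 0) {t K : ℝ} (ht : t ∈ Ioo 0 T)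
    (hF : ∀ x, ‖x‖ ≤ K * ‖F.f t x‖) :
    η.f1 t = Mop (F.f t) (F.f1 t) k (η.f t) + Pio (F.f t) k (p + e t) :=
  MH.eq1 hF hk (h.perp1 t ht) (h.eq t ht)

/-- second derivative of a wave -/
theorem Wv.eq2 (h : Wv T F k p η s e e1) (hFo : F.Ok T) (hk : k ≠ 0) {t K : ℝ} (ht : t ∈ Ioo 0 T)
    (hF : ∀ x, ‖x‖ ≤ K * ‖F.f t x‖) :
    η.f2 t = Pio (F.f t) k (Df F t (η.f t) - (2 : ℝ) • (star (F.f t) * F.f1 t) (η.f1 t) + e1 t) := by
  have kk : ⟪k, k⟫ ≠ (0 : ℝ) := by simpa using hk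
  have d := (((((hasDerivAt_gm hFo ht).clm_apply (h.ok t ht).2).sub
    ((hasDerivAt_bop hFo ht).clm_apply (h.ok t ht).1)).sub_const p).sub (h.de t ht))
  set v : ℝ → E := fun t => (star (F.f t) * F.f t) (η.f1 t) - Bop (F.f t) (F.f1 t) (η.f t) - p - e t
    with hv
  have hvs : ∀ u ∈ Ioo 0 T, v u = (⟪k, v u⟫ / ⟪k, k⟫) • k := by
    intro u hu
    have : v u = s u • k := by simp only [hv, h.eq u hu]; abel
    rw [this, real_inner_smul_right, mul_div_assoc, div_self kk, mul_one]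
  have d1 : HasDerivAt v _ t := d
  have d2 := ((((hasDerivAt_const t k).inner ℝ d1).div_const ⟪k, k⟫).smul_const k)
  have d3 := d1.unique (d2.congr_of_eventuallyEq
    (eventually_of_mem (Ioo_mem_nhds ht.1 ht.2) hvs))
  obtain ⟨c, d4⟩ : ∃ c : ℝ, _ = c • k := ⟨_, d3⟩
  refine pio_uniq hF hk _ _ c (h.perp2 t ht) ?_
  simp only [Bop, add_apply, sub_apply] at d4
  linear_combination (norm := module) d4

/-- Cauchy invariants of the new curve -/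
theorem Wv.bop (h : Wv T F k p η s e e1) {t : ℝ} (ht : t ∈ Ioo 0 T) :
    Bop ((mulH F η k).f t) ((mulH F η k).f1 t) =
      Bop (F.f t) (F.f1 t) + r1 k (p + e t) - r1 (p + e t) k :=
  bop_mulH (h.eq t ht)

theorem hasDerivAt_r1' {y : ℝ → E} {y1 : E} {t : ℝ} (h : HasDerivAt y y1 t) (k : E) :
    HasDerivAt (fun s => r1 k (y s)) (r1 k y1) t := by
  simpa only [star_r1] using hasDerivAt_star (hasDerivAt_r1 h k)

/-- defect of the new curve, exact form -/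
theorem Wv.df (h : Wv T F k p η s e e1) (hFo : F.Ok T) {t : ℝ} (ht : t ∈ Ioo 0 T) :
    Df (mulH F η k) t = Df F t + r1 k (e1 t) - r1 (e1 t) k := by
  have d0 := (h.de t ht).const_add p
  have d := ((hasDerivAt_bop hFo ht).add (hasDerivAt_r1' d0 k)).sub (hasDerivAt_r1 d0 k)
  exact (hasDerivAt_bop (mulH_ok hFo h.ok k) ht).unique (d.congr_of_eventuallyEq
    (eventually_of_mem (Ioo_mem_nhds ht.1 ht.2) fun u hu => h.bop hu))

theorem Wv.defect (h : Wv T F k p η s e e1) (hFo : F.Ok T) (hk : ‖k‖ ≤ 1) {ε ε' : ℝ}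
    (hD : Defect T ε F) (he : ∀ t ∈ Ioo 0 T, ‖e1 t‖ ≤ ε') : Defect T (ε + 2 * ε') (mulH F η k) := by
  intro t ht
  change ‖Df (mulH F η k) t‖ ≤ _
  rw [h.df hFo ht]
  have h1 : ‖Df F t‖ ≤ ε := hD t ht
  have h2 := nr1 hk (he t ht)
  have h3 := nr1 (he t ht) hk
  have := norm_sub_le (Df F t + r1 k (e1 t)) (r1 (e1 t) k)
  have := norm_add_le (Df F t) (r1 k (e1 t))
  linarith

/-! ### bounds -/

theorem norm_bop {F F1 : L3} {K : ℝ} (h : ‖F‖ ≤ K) (h1 : ‖F1‖ ≤ K) : ‖Bop F F1‖ ≤ 2 * K ^ 2 := by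
  have := (norm_sub_le _ _).trans (add_le_add (nmul ((nstar F1).le.trans h1) h)
    (nmul ((nstar F).le.trans h) h1))
  rw [Bop]
  linarith

theorem bop_lip {F F1 G G1 : L3} {K δ : ℝ} (h : ‖F‖ ≤ K) (h1 : ‖F1‖ ≤ K) (g : ‖G‖ ≤ K)
    (g1 : ‖G1‖ ≤ K) (d : ‖F - G‖ ≤ δ) (d1 : ‖F1 - G1‖ ≤ δ) :
    ‖Bop F F1 - Bop G G1‖ ≤ 4 * K * δ := by
  have e : Bop F F1 - Bop G G1 = (star F1 * F - star G1 * G) - (star F * F1 - star G * G1) := by
    simp only [Bop]; abel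
  rw [e]
  have := (norm_sub_le _ _).trans (add_le_add (smul_diff h1 g d1 d) (smul_diff h g1 d d1))
  linarith

theorem norm_mop {F F1 : L3} {k : E} {K : ℝ} (h : ‖F‖ ≤ K) (h1 : ‖F1‖ ≤ K)
    (lo : ∀ x, ‖x‖ ≤ K * ‖F x‖) (hk : k ≠ 0) : ‖Mop F F1 k‖ ≤ 2 * K ^ 4 := by
  have := nmul (pio_norm lo hk) (norm_bop h h1)
  rw [Mop]
  linarith

theorem mop_lip {F F1 G G1 : L3} {k : E} {K δ : ℝ} (hK : 2 ≤ K) (h : ‖F‖ ≤ K) (h1 : ‖F1‖ ≤ K)
    (g : ‖G‖ ≤ K) (g1 : ‖G1‖ ≤ K) (lo : ∀ x, ‖x‖ ≤ K * ‖F x‖) (lo' : ∀ x, ‖x‖ ≤ K * ‖G x‖)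
    (hk : ‖k‖ = 1) (d : ‖F - G‖ ≤ δ) (d1 : ‖F1 - G1‖ ≤ δ) :
    ‖Pio F k - Pio G k‖ ≤ K ^ 9 * δ ∧ ‖Mop F F1 k - Mop G G1 k‖ ≤ 3 * K ^ 11 * δ := by
  have d0 : 0 ≤ δ := (norm_nonneg _).trans d
  have k0 : k ≠ 0 := by rintro rfl; simp at hk
  have k1 : 1 ≤ K * ‖k‖ := by rw [hk]; linarith
  have l := pio_lip hK h g lo lo' k1 k1 d (by simpa using d0)
  refine ⟨l, ?_⟩
  have e : Mop F F1 k - Mop G G1 k =
      (Pio F k - Pio G k) * Bop F F1 + Pio G k * (Bop F F1 - Bop G G1) := by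
    simp only [Mop, mul_sub, sub_mul]; abel
  rw [e]
  have t1 := nmul l (norm_bop h h1)
  have t2 := nmul (pio_norm lo' k0) (bop_lip h h1 g g1 d d1)
  have t3 := (norm_add_le _ _).trans (add_le_add t1 t2)
  have q : 4 * K ^ 3 ≤ K ^ 11 := by
    have : (2 : ℝ) ^ 8 ≤ K ^ 8 := pow_le_pow_left₀ (by norm_num) hK 8
    have : 0 ≤ K ^ 3 := by positivity
    nlinarith
  have := mul_le_mul_of_nonneg_right q d0
  linarith

/-- bounds for a curve of operators -/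
structure Bd (T K : ℝ) (F : Cv L3) : Prop where
  b0 : ∀ t ∈ Ioo 0 T, ‖F.f t‖ ≤ K
  b1 : ∀ t ∈ Ioo 0 T, ‖F.f1 t‖ ≤ K
  b2 : ∀ t ∈ Ioo 0 T, ‖F.f2 t‖ ≤ K
  lo : ∀ t ∈ Ioo 0 T, ∀ x, ‖x‖ ≤ K * ‖F.f t x‖

theorem Bd.mono {K K' T' : ℝ} (h : Bd T K F) (hK : K ≤ K') (hT : T' ≤ T) : Bd T' K' F :=
  have hs : Ioo 0 T' ⊆ Ioo 0 T := Ioo_subset_Ioo le_rfl hT
  ⟨fun t ht => (h.b0 t (hs ht)).trans hK, fun t ht => (h.b1 t (hs ht)).trans hK,
    fun t ht => (h.b2 t (hs ht)).trans hK, fun t ht x => (h.lo t (hs ht) x).trans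
      (mul_le_mul_of_nonneg_right hK (norm_nonneg _))⟩

theorem le_of_near {X : Type*} [NormedAddCommGroup X] {a b : X} {K δ : ℝ} (h : ‖b‖ ≤ K)
    (d : ‖a - b‖ ≤ δ) : ‖a‖ ≤ K + δ := by
  have := norm_add_le b (a - b)
  rw [add_sub_cancel] at this
  linarith

theorem Bd.near {K δ : ℝ} (h : Bd T K F) (hK : 1 ≤ K) (hn : G.Near T δ F) (hδ : 2 * K * δ ≤ 1) :
    Bd T (2 * K) G := by
  have d1 : δ ≤ K := by nlinarith
  exact ⟨fun t ht => (le_of_near (h.b0 t ht) (hn t ht).1).trans (by linarith),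
    fun t ht => (le_of_near (h.b1 t ht) (hn t ht).2.1).trans (by linarith),
    fun t ht => (le_of_near (h.b2 t ht) (hn t ht).2.2).trans (by linarith),
    fun t ht => lower_near (h.lo t ht) (by linarith) (hn t ht).1 hδ⟩

theorem Bd.df {K : ℝ} (h : Bd T K F) {t : ℝ} (ht : t ∈ Ioo 0 T) : ‖Df F t‖ ≤ 2 * K ^ 2 :=
  norm_bop (h.b0 t ht) (h.b2 t ht)

/-- bounds for the product curve -/
theorem Bd.mulH {K Z : ℝ} (h : Bd T K F) (hk : ‖k‖ ≤ 1) (hp : ∀ t ∈ Ioo 0 T, ⟪k, η.f t⟫ = 0)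
    (hη : ∀ t ∈ Ioo 0 T, ‖η.f t‖ ≤ Z ∧ ‖η.f1 t‖ ≤ Z ∧ ‖η.f2 t‖ ≤ Z) :
    Bd T (K * (1 + 4 * Z)) (mulH F η k) := by
  have pos : ∀ t ∈ Ioo 0 T, 0 ≤ K * Z := fun t ht =>
    mul_nonneg ((norm_nonneg _).trans (h.b0 t ht)) ((norm_nonneg _).trans (hη t ht).1)
  refine ⟨fun t ht => ?_, fun t ht => ?_, fun t ht => ?_, fun t ht x => ?_⟩
  · have := nmul (h.b0 t ht) (norm_H (hη t ht).1 hk)
    have := pos t ht
    simp only [Cas.mulH]
    linarith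
  · have := (norm_add_le _ _).trans (add_le_add (nmul (h.b1 t ht) (norm_H (hη t ht).1 hk))
      (nmul (h.b0 t ht) (nr1 (hη t ht).2.1 hk)))
    have := pos t ht
    simp only [Cas.mulH]
    linarith
  · have t2 : ‖(2 : ℝ) • (F.f1 t * r1 (η.f1 t) k)‖ ≤ 2 * (K * (Z * 1)) := by
      rw [norm_smul, Real.norm_two]
      exact mul_le_mul_of_nonneg_left (nmul (h.b1 t ht) (nr1 (hη t ht).2.1 hk)) zero_le_two
    have := (norm_add_le _ _).trans (add_le_add ((norm_add_le _ _).trans (add_le_add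
      (nmul (h.b2 t ht) (norm_H (hη t ht).1 hk)) t2)) (nmul (h.b0 t ht) (nr1 (hη t ht).2.2 hk)))
    simp only [Cas.mulH]
    linarith
  · refine (lower_FH (h.lo t ht) (hp t ht) (hη t ht).1 hk x).trans
      (mul_le_mul_of_nonneg_right ?_ (norm_nonneg _))
    have := pos t ht
    linarith

theorem mul_near {A A' B B' : L3} {K Z δ ζ : ℝ} (hA : ‖A‖ ≤ K) (hB : ‖B'‖ ≤ Z) (d : ‖A - A'‖ ≤ δ)
    (z : ‖B - B'‖ ≤ ζ) : ‖A * B - A' * B'‖ ≤ K * ζ + δ * Z := by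
  have e : A * B - A' * B' = A * (B - B') + (A - A') * B' := by
    rw [mul_sub, sub_mul]; abel
  rw [e]
  exact (norm_add_le _ _).trans (add_le_add (nmul hA z) (nmul d hB))

theorem r1_near {a a' k : E} {ζ : ℝ} (hk : ‖k‖ ≤ 1) (z : ‖a - a'‖ ≤ ζ) :
    ‖r1 a k - r1 a' k‖ ≤ ζ := by
  rw [← r1_sub_left]
  simpa using nr1 z hk

theorem H_near {a a' k : E} {ζ : ℝ} (hk : ‖k‖ ≤ 1) (z : ‖a - a'‖ ≤ ζ) :
    ‖(1 + r1 a k : L3) - (1 + r1 a' k)‖ ≤ ζ := by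
  rw [add_sub_add_left_eq_sub]
  exact r1_near hk z

/-- closeness of products, values and first derivatives, at one time -/
theorem mulH_near01 {η' : Cv E} {K Z δ ζ t : ℝ} (hk : ‖k‖ ≤ 1) (b0 : ‖F.f t‖ ≤ K)
    (b1 : ‖F.f1 t‖ ≤ K) (z0 : ‖η'.f t‖ ≤ Z) (z1 : ‖η'.f1 t‖ ≤ Z) (d0 : ‖F.f t - G.f t‖ ≤ δ)
    (d1 : ‖F.f1 t - G.f1 t‖ ≤ δ) (c0 : ‖η.f t - η'.f t‖ ≤ ζ) (c1 : ‖η.f1 t - η'.f1 t‖ ≤ ζ) :
    ‖(mulH F η k).f t - (mulH G η' k).f t‖ ≤ K * ζ + δ * (1 + Z) ∧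
      ‖(mulH F η k).f1 t - (mulH G η' k).f1 t‖ ≤ 2 * K * ζ + δ * (1 + 2 * Z) := by
  have t0 := mul_near b0 (norm_H z0 hk) d0 (H_near hk c0)
  have t1 := mul_near b1 (norm_H z0 hk) d1 (H_near hk c0)
  have t2 := mul_near b0 (nr1 z1 hk) d0 (r1_near hk c1)
  refine ⟨by simpa only [mulH, mul_one] using t0, ?_⟩
  simp only [mulH]
  rw [add_sub_add_comm]
  have := (norm_add_le _ _).trans (add_le_add t1 t2)
  linarith

/-- closeness of products in `C²` -/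
theorem mulH_near {η' : Cv E} {K Z δ ζ : ℝ} (hk : ‖k‖ ≤ 1) (h : Bd T K F)
    (hz : ∀ t ∈ Ioo 0 T, ‖η'.f t‖ ≤ Z ∧ ‖η'.f1 t‖ ≤ Z ∧ ‖η'.f2 t‖ ≤ Z) (hn : F.Near T δ G)
    (hc : η.Near T ζ η') : (mulH F η k).Near T (4 * K * ζ + δ * (1 + 4 * Z)) (mulH G η' k) := by
  intro t ht
  obtain ⟨z0, z1, z2⟩ := hz t ht
  obtain ⟨d0, d1, d2⟩ := hn t ht
  obtain ⟨c0, c1, c2⟩ := hc t ht
  have p1 : 0 ≤ K * ζ := mul_nonneg ((norm_nonneg _).trans (h.b0 t ht)) ((norm_nonneg _).trans c0)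
  have p2 : 0 ≤ δ * Z := mul_nonneg ((norm_nonneg _).trans d0) ((norm_nonneg _).trans z0)
  obtain ⟨a0, a1⟩ := mulH_near01 hk (h.b0 t ht) (h.b1 t ht) z0 z1 d0 d1 c0 c1
  refine ⟨by linarith, by linarith, ?_⟩
  have t1 := mul_near (h.b2 t ht) (norm_H z0 hk) d2 (H_near hk c0)
  have t2 := mul_near (h.b1 t ht) (nr1 z1 hk) d1 (r1_near hk c1)
  have t3 := mul_near (h.b0 t ht) (nr1 z2 hk) d0 (r1_near hk c2)
  have t4 := mul_le_mul_of_nonneg_left t2 zero_le_two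
  rw [← Real.norm_two, ← norm_smul, smul_sub, Real.norm_two] at t4
  simp only [mulH]
  rw [add_sub_add_comm, add_sub_add_comm]
  have := (norm_add_le _ _).trans (add_le_add ((norm_add_le _ _).trans (add_le_add t1 t4)) t3)
  linarith

/-! ### size and stability of waves -/

theorem pw_le {K : ℝ} (hK : 2 ≤ K) (c : ℝ) (a b : ℕ) (hc : c ≤ 2 ^ b) : c * K ^ a ≤ K ^ (a + b) := by
  have := pow_le_pow_left₀ zero_le_two hK b
  rw [pow_add, mul_comm]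
  exact mul_le_mul_of_nonneg_left (hc.trans this) (by positivity)

/-- size of a solution of the first order system -/
theorem size01 {y y1 f : ℝ → E} {w : ℝ → ℝ} {M : ℝ → L3} {K L c : ℝ} (hP : Prp T M w K)
    (c0 : 0 ≤ c) (hy : ∀ t ∈ Ioo 0 T, HasDerivAt y (y1 t) t) (h0 : Tendsto y (𝓝[>] 0) (𝓝 0))
    (he : ∀ t ∈ Ioo 0 T, y1 t = M t (y t) + f t) (hf : ∀ t ∈ Ioo 0 T, ‖f t‖ ≤ c * w t)
    (hM : ∀ t ∈ Ioo 0 T, ‖M t‖ ≤ L) :
    ∀ t ∈ Ioo 0 T, ‖y t‖ ≤ K * c * w t ∧ ‖y1 t‖ ≤ (L * K + 1) * c * w t := by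
  intro t ht
  have a := hP y f c c0 (fun u hu => he u hu ▸ hy u hu) h0 hf t ht
  refine ⟨a, ?_⟩
  rw [he t ht]
  have := (norm_add_le _ _).trans (add_le_add (napp (hM t ht) a) (hf t ht))
  linarith

/-- size of a wave in `C²` -/
theorem Wv.size (h : Wv T F k p η s e e1) (hFo : F.Ok T) {K c : ℝ} {w : ℝ → ℝ} (hK : 2 ≤ K)
    (hB : Bd T K F) (hk : k ≠ 0) (hP : Prp T (fun t => Mop (F.f t) (F.f1 t) k) w K) (c0 : 0 ≤ c)
    (hc : ∀ t ∈ Ioo 0 T, ‖p + e t‖ ≤ c * w t ∧ ‖e1 t‖ ≤ c * w t) :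
    ∀ t ∈ Ioo 0 T, ‖η.f t‖ ≤ K ^ 3 * c * w t ∧ ‖η.f1 t‖ ≤ K ^ 9 * c * w t ∧
      ‖η.f2 t‖ ≤ K ^ 15 * c * w t := by
  intro t ht
  obtain ⟨a0, a1⟩ := size01 (c := K ^ 2 * c) (L := 2 * K ^ 4) hP (by positivity)
    (fun u hu => (h.ok u hu).1) h.zero (fun u hu => h.eq1 hk hu (hB.lo u hu))
    (fun u hu => by rw [mul_assoc]; exact napp (pio_norm (hB.lo u hu) hk) (hc u hu).1)
    (fun u hu => norm_mop (hB.b0 u hu) (hB.b1 u hu) (hB.lo u hu) hk) t ht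
  have x0 : 0 ≤ c * w t := (norm_nonneg _).trans (hc t ht).2
  have K1 : 1 ≤ K := by linarith
  have b0 : ‖η.f t‖ ≤ K ^ 3 * (c * w t) := by linarith
  have b1 : ‖η.f1 t‖ ≤ K ^ 9 * (c * w t) := by
    have q1 : 3 * K ^ 7 ≤ K ^ 9 := pw_le hK 3 7 2 (by norm_num)
    have q2 : K ^ 2 ≤ K ^ 7 := pow_le_pow_right₀ K1 (by norm_num)
    have := mul_le_mul_of_nonneg_right (show 2 * K ^ 7 + K ^ 2 ≤ K ^ 9 by linarith) x0
    linarith
  refine ⟨by linarith, by linarith, ?_⟩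
  rw [h.eq2 hFo hk ht (hB.lo t ht)]
  have t1 := napp (hB.df ht) b0
  have t2 := mul_le_mul_of_nonneg_left
    (napp (nmul ((nstar _).le.trans (hB.b0 t ht)) (hB.b1 t ht)) b1) zero_le_two
  rw [← Real.norm_two, ← norm_smul, Real.norm_two] at t2
  have t3 := (norm_add_le _ _).trans (add_le_add ((norm_sub_le _ _).trans (add_le_add t1 t2))
    (hc t ht).2)
  have t4 := napp (pio_norm (hB.lo t ht) hk) t3
  have q1 : 4 * K ^ 13 ≤ K ^ 15 := pw_le hK 4 13 2 (by norm_num)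
  have q2 : 2 * K ^ 7 ≤ K ^ 13 := (pw_le hK 2 7 1 (by norm_num)).trans
    (pow_le_pow_right₀ K1 (by norm_num))
  have q3 : K ^ 2 ≤ K ^ 13 := pow_le_pow_right₀ K1 (by norm_num)
  have := mul_le_mul_of_nonneg_right
    (show 2 * K ^ 7 + 2 * K ^ 13 + K ^ 2 ≤ K ^ 15 by linarith) x0
  linarith

/-- two approximate solutions of the first order equation on nearby curves are close in `C¹` -/
theorem close01 {y y1 z z1 e e' : ℝ → E} {F F1 G G1 : ℝ → L3} {s s' w : ℝ → ℝ} {K Z δ ε : ℝ}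
    (hK : 2 ≤ K) (hk : ‖k‖ = 1) (hP : Prp T (fun t => Mop (F t) (F1 t) k) w K) (Z0 : 0 ≤ Z)
    (d0 : 0 ≤ δ) (e0 : 0 ≤ ε)
    (hF : ∀ t ∈ Ioo 0 T, ‖F t‖ ≤ K ∧ ‖F1 t‖ ≤ K ∧ ∀ x, ‖x‖ ≤ K * ‖F t x‖)
    (hG : ∀ t ∈ Ioo 0 T, ‖G t‖ ≤ K ∧ ‖G1 t‖ ≤ K ∧ ∀ x, ‖x‖ ≤ K * ‖G t x‖)
    (hn : ∀ t ∈ Ioo 0 T, ‖F t - G t‖ ≤ δ ∧ ‖F1 t - G1 t‖ ≤ δ)
    (hy : ∀ t ∈ Ioo 0 T, HasDerivAt y (y1 t) t ∧ ⟪k, y t⟫ = 0 ∧
      (star (F t) * F t) (y1 t) - Bop (F t) (F1 t) (y t) - p = s t • k + e t)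
    (hz : ∀ t ∈ Ioo 0 T, HasDerivAt z (z1 t) t ∧ ⟪k, z t⟫ = 0 ∧
      (star (G t) * G t) (z1 t) - Bop (G t) (G1 t) (z t) - p = s' t • k + e' t)
    (h0 : Tendsto y (𝓝[>] 0) (𝓝 0)) (h0' : Tendsto z (𝓝[>] 0) (𝓝 0))
    (hb : ∀ t ∈ Ioo 0 T, ‖z t‖ ≤ Z * w t ∧ ‖p‖ ≤ Z * w t ∧ ‖e t‖ ≤ ε * w t ∧ ‖e' t‖ ≤ ε * w t) :
    ∀ t ∈ Ioo 0 T, ‖y t - z t‖ ≤ K ^ 14 * (δ * Z + ε) * w t ∧
      ‖y1 t - z1 t‖ ≤ K ^ 20 * (δ * Z + ε) * w t := by
  have k0 : k ≠ 0 := by rintro rfl; simp at hk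
  have K1 : 1 ≤ K := by linarith
  intro t ht
  obtain ⟨a0, a1⟩ := size01 (y := fun t => y t - z t) (y1 := fun t => y1 t - z1 t)
    (f := fun t => (Mop (F t) (F1 t) k - Mop (G t) (G1 t) k) (z t) +
      (Pio (F t) k - Pio (G t) k) p + Pio (F t) k (e t) - Pio (G t) k (e' t))
    (c := K ^ 13 * (δ * Z + ε)) (L := 2 * K ^ 4) hP (by positivity)
    (fun u hu => (hy u hu).1.sub (hz u hu).1) (by simpa using h0.sub h0')
    (fun u hu => by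
      rw [eq1 (hF u hu).2.2 k0 (perp_deriv hu (hy u hu).1 fun v hv => (hy v hv).2.1) (hy u hu).2.2,
        eq1 (hG u hu).2.2 k0 (perp_deriv hu (hz u hu).1 fun v hv => (hz v hv).2.1) (hz u hu).2.2]
      simp only [map_sub, map_add, sub_apply]
      abel)
    (fun u hu => by
      obtain ⟨l1, l2⟩ := mop_lip hK (hF u hu).1 (hF u hu).2.1 (hG u hu).1 (hG u hu).2.1
        (hF u hu).2.2 (hG u hu).2.2 hk (hn u hu).1 (hn u hu).2
      obtain ⟨b1, b2, b3, b4⟩ := hb u hu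
      have t1 := (norm_sub_le _ _).trans (add_le_add ((norm_add_le _ _).trans (add_le_add
        ((norm_add_le _ _).trans (add_le_add (napp l2 b1) (napp l1 b2)))
        (napp (pio_norm (hF u hu).2.2 k0) b3))) (napp (pio_norm (hG u hu).2.2 k0) b4))
      have x1 : 0 ≤ δ * (Z * w u) := mul_nonneg d0 ((norm_nonneg _).trans b1)
      have x2 : 0 ≤ ε * w u := (norm_nonneg _).trans b3
      have q1 : 4 * K ^ 11 ≤ K ^ 13 := pw_le hK 4 11 2 (by norm_num)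
      have q2 : K ^ 9 ≤ K ^ 11 := pow_le_pow_right₀ K1 (by norm_num)
      have q3 : 2 * K ^ 2 ≤ K ^ 13 := (pw_le hK 2 2 1 (by norm_num)).trans
        (pow_le_pow_right₀ K1 (by norm_num))
      have := mul_le_mul_of_nonneg_right (show 3 * K ^ 11 + K ^ 9 ≤ K ^ 13 by linarith) x1
      have := mul_le_mul_of_nonneg_right q3 x2
      linarith)
    (fun u hu => norm_mop (hF u hu).1 (hF u hu).2.1 (hF u hu).2.2 k0) t ht
  refine ⟨by linarith, ?_⟩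
  have x1 : 0 ≤ (δ * Z + ε) * w t := by
    have x1 : 0 ≤ δ * (Z * w t) := mul_nonneg d0 ((norm_nonneg _).trans (hb t ht).1)
    have x2 : 0 ≤ ε * w t := (norm_nonneg _).trans (hb t ht).2.2.1
    linarith
  have q1 : 3 * K ^ 18 ≤ K ^ 20 := pw_le hK 3 18 2 (by norm_num)
  have q2 : K ^ 13 ≤ K ^ 18 := pow_le_pow_right₀ K1 (by norm_num)
  have := mul_le_mul_of_nonneg_right (show 2 * K ^ 18 + K ^ 13 ≤ K ^ 20 by linarith) x1
  linarith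

end Pool.Agent.Lib.MP_fbbbeb_an.D.MH
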