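import Pool.Agent.Lib.MP_fbbbeb_an.D.MDefs
import Pool.Agent.Lib.MP_fbbbeb_an.D.MulH
import Pool.Agent.Lib.MP_fbbbeb_an.D.D1

/-! Size, Lipschitz and continuity bounds of the scalar functions of a curve. -/

noncomputable section

namespace Pool.Agent.Lib.MP_fbbbeb_an.D.MK

open Set Pool.Agent.Lib.MP_fbbbeb_an.Pub Pool.Agent.Lib.MP_fbbbeb_an.Cas
open Pool.Agent.Lib.MP_fbbbeb_an.D.Geo
open scoped RealInnerProductSpace

lemma a0_one : ‖a0‖ = 1 := by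
  have h : ‖(!₂[1, 2, 3] : E)‖ = Real.sqrt 14 := by
    rw [EuclideanSpace.norm_eq]; congr 1; simp [Fin.sum_univ_three]; norm_num
  have p : 0 < Real.sqrt 14 := by positivity
  rw [a0, norm_smul, h, norm_inv, Real.norm_eq_abs, abs_of_pos p, inv_mul_cancel₀ p.ne']

lemma a0_ne : a0 ≠ 0 := fun h => by simpa [h] using a0_one

lemma a0_in : ⟪a0, a0⟫ = 1 := by rw [real_inner_self_eq_norm_sq, a0_one]; norm_num

variable {F F1 G G1 B : L3} {K δ : ℝ} {x y : E}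

lemma app_le (h : ‖F‖ ≤ K) (x : E) : ‖F x‖ ≤ K * ‖x‖ := PioA.napp h le_rfl

lemma app0 (h : ‖F‖ ≤ K) : ‖F a0‖ ≤ K := by simpa [a0_one] using app_le h a0

lemma e_lo (lo : ∀ x, ‖x‖ ≤ K * ‖F x‖) : 1 ≤ K * ‖F a0‖ := a0_one ▸ lo a0

lemma e_ne (lo : ∀ x, ‖x‖ ≤ K * ‖F x‖) : F a0 ≠ 0 := fun h => by
  have := e_lo lo; rw [h] at this; norm_num at this

lemma K_pos (lo : ∀ x, ‖x‖ ≤ K * ‖F x‖) : 0 < K := by
  by_contra q; nlinarith [e_lo lo, norm_nonneg (F a0)]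

lemma rr_eq (F : L3) : rr F = ‖F a0‖ ^ 2 := real_inner_self_eq_norm_sq _

lemma rr_pos (lo : ∀ x, ‖x‖ ≤ K * ‖F x‖) : 0 < rr F := by
  rw [rr_eq]; exact pow_pos (norm_pos_iff.2 (e_ne lo)) 2

lemma rr_lo (lo : ∀ x, ‖x‖ ≤ K * ‖F x‖) : 1 ≤ K ^ 2 * rr F := by
  rw [rr_eq, ← mul_pow]; exact one_le_pow₀ (e_lo lo)

lemma rr_inv (lo : ∀ x, ‖x‖ ≤ K * ‖F x‖) : |(rr F)⁻¹| ≤ K ^ 2 := by
  rw [abs_of_pos (inv_pos.2 (rr_pos lo)), inv_le_iff_one_le_mul₀ (rr_pos lo)]; exact rr_lo lo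

lemma rr_hi (h : ‖F‖ ≤ K) : rr F ≤ K ^ 2 := by
  rw [rr_eq]; exact pow_le_pow_left₀ (norm_nonneg _) (app0 h) 2

lemma pp_comm (F : L3) (x y : E) : pp F x y = pp F y x := Gr_comm _ _ _

lemma pp_nonneg (F : L3) (x : E) : 0 ≤ pp F x x := Gr_nonneg _ _

lemma pp_sq_le (F : L3) (x y : E) : pp F x y ^ 2 ≤ pp F x x * pp F y y := Gr_sq_le _ _ _

lemma pp_add (F : L3) (x y z : E) : pp F x (y + z) = pp F x y + pp F x z := by
  simp only [pp, map_add, Gr_add]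

lemma pp_sub (F : L3) (x y z : E) : pp F x (y - z) = pp F x y - pp F x z := by
  simp only [pp, map_sub, Gr_sub]

lemma pp_smul (F : L3) (x y : E) (c : ℝ) : pp F x (c • y) = c * pp F x y := by
  simp only [pp, map_smul, Gr_smul]

lemma pp_a0 (F : L3) (x : E) : pp F x a0 = 0 := Gr_e _ _

lemma dq_add (F F1 : L3) (x y : E) : dq F F1 (x + y) = dq F F1 x + dq F F1 y := by
  simp only [dq, map_add, Gr_add, add_div]

lemma dq_sub (F F1 : L3) (x y : E) : dq F F1 (x - y) = dq F F1 x - dq F F1 y := by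
  simp only [dq, map_sub, Gr_sub, sub_div]

lemma dq_smul (F F1 : L3) (x : E) (c : ℝ) : dq F F1 (c • x) = c * dq F F1 x := by
  simp only [dq, map_smul, Gr_smul, mul_div_assoc]

lemma dq_a0 (F F1 : L3) : dq F F1 a0 = 0 := by simp only [dq, Gr_e, zero_div]

lemma om_nonneg (F F1 : L3) : 0 ≤ om F F1 := div_nonneg (Gr_nonneg _ _) (sq_nonneg _)

lemma dq_sq_le (F F1 : L3) (x : E) : dq F F1 x ^ 2 ≤ om F F1 * pp F x x := by
  rw [dq, om, div_pow, div_mul_eq_mul_div]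
  exact div_le_div_of_nonneg_right (Gr_sq_le _ _ _) (sq_nonneg _)

lemma pp_lo (lo : ∀ x, ‖x‖ ≤ K * ‖F x‖) (h : ⟪a0, x⟫ = 0) : ‖x‖ ^ 2 ≤ K ^ 2 * pp F x x :=
  Gr_lower lo h

lemma pp_hi (h : ‖F‖ ≤ K) (x y : E) : |pp F x y| ≤ K ^ 2 * ‖x‖ * ‖y‖ :=
  (abs_Gr_le' _ (app_le h x) (app_le h y)).trans_eq (by ring)

lemma dq_hi (h : ‖F‖ ≤ K) (h1 : ‖F1‖ ≤ K) (lo : ∀ x, ‖x‖ ≤ K * ‖F x‖) (x : E) :
    |dq F F1 x| ≤ K ^ 4 * ‖x‖ := by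
  rw [dq, div_eq_mul_inv]
  exact (amul (abs_Gr_le' _ (app0 h1) (app_le h x)) (rr_inv lo)).trans_eq (by ring)

lemma om_hi (h1 : ‖F1‖ ≤ K) (lo : ∀ x, ‖x‖ ≤ K * ‖F x‖) : |om F F1| ≤ K ^ 6 := by
  rw [om, div_eq_mul_inv, ← inv_pow, sq]
  exact (amul (abs_Gr_le' _ (app0 h1) (app0 h1)) (amul (rr_inv lo) (rr_inv lo))).trans_eq (by ring)

lemma mm_hi (h : ‖B‖ ≤ K) (x : E) : |mm B x| ≤ K * ‖x‖ :=
  (abs_real_inner_le_norm _ _).trans (by rw [a0_one, one_mul]; exact app_le h x)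

lemma mm_sub (B B' : L3) (x : E) : mm B x - mm B' x = mm (B - B') x := by
  simp only [mm, sub_apply, inner_sub_right]

lemma mm_lip {B' : L3} (h : ‖B - B'‖ ≤ δ) (x : E) : |mm B x - mm B' x| ≤ δ * ‖x‖ := by
  rw [mm_sub]; exact mm_hi h x

/-- `qc` is `-2 m d` up to the defect -/
lemma qc_eq {ε M : ℝ} (lo : ∀ x, ‖x‖ ≤ K * ‖F x‖) (h : ‖Bop F F1 - B‖ ≤ ε) (hm : |mm B x| ≤ M) :
    |qc F F1 B x + 2 * mm B x * dq F F1 x| ≤ M * (ε * ‖x‖) * K ^ 2 := by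
  rw [show qc F F1 B x + 2 * mm B x * dq F F1 x =
    mm B x * (mm (Bop F F1) x - mm B x) * (rr F)⁻¹ by rw [qc]; ring]
  exact amul (amul hm (mm_lip h x)) (rr_inv lo)

lemma sub_app (d : ‖F - G‖ ≤ δ) (x : E) : ‖F x - G x‖ ≤ δ * ‖x‖ := by
  simpa using app_le d x

lemma rr_lip (h : ‖F‖ ≤ K) (g : ‖G‖ ≤ K) (d : ‖F - G‖ ≤ δ) : |rr F - rr G| ≤ 2 * K * δ := by
  have e1 : |‖F a0‖ - ‖G a0‖| ≤ δ :=
    (abs_norm_sub_norm_le _ _).trans (by simpa [a0_one] using sub_app d a0)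
  rw [rr_eq, rr_eq, sq_sub_sq]
  exact amul (by rw [abs_of_nonneg (by positivity)]; linarith [app0 h, app0 g]) e1

lemma rri_lip (h : ‖F‖ ≤ K) (g : ‖G‖ ≤ K) (lo : ∀ x, ‖x‖ ≤ K * ‖F x‖) (lo' : ∀ x, ‖x‖ ≤ K * ‖G x‖)
    (d : ‖F - G‖ ≤ δ) : |(rr F)⁻¹ - (rr G)⁻¹| ≤ 2 * K ^ 5 * δ := by
  have := rr_pos lo; have := rr_pos lo'
  rw [show (rr F)⁻¹ - (rr G)⁻¹ = (rr G - rr F) * (rr F)⁻¹ * (rr G)⁻¹ by field_simp]
  exact (amul (amul (rr_lip g h (norm_sub_rev G F ▸ d)) (rr_inv lo)) (rr_inv lo')).trans_eq (by ring)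

lemma K_one (h : ‖F‖ ≤ K) (lo : ∀ x, ‖x‖ ≤ K * ‖F x‖) : 1 ≤ K := by
  nlinarith [e_lo lo, app0 h, K_pos lo]

lemma pp_lip (h : ‖F‖ ≤ K) (g : ‖G‖ ≤ K) (lo : ∀ x, ‖x‖ ≤ K * ‖F x‖) (lo' : ∀ x, ‖x‖ ≤ K * ‖G x‖)
    (d : ‖F - G‖ ≤ δ) (x y : E) : |pp F x y - pp G x y| ≤ 10 * K ^ 3 * δ * ‖x‖ * ‖y‖ := by
  have k1 := K_one h lo
  have d0 : 0 ≤ δ := (norm_nonneg _).trans d
  refine (Gr_lip (e_lo lo) (e_lo lo') (by simpa [a0_one] using sub_app d a0) (sub_app d x)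
    (sub_app d y) (app_le g x) (app_le h y) (app_le g y)).trans ?_
  have : K * (δ * ‖x‖ * ‖y‖) ≤ K ^ 3 * (δ * ‖x‖ * ‖y‖) :=
    mul_le_mul_of_nonneg_right (le_self_pow₀ k1 (by norm_num)) (by positivity)
  nlinarith

lemma dq_lip (h : ‖F‖ ≤ K) (_h1 : ‖F1‖ ≤ K) (g : ‖G‖ ≤ K) (g1 : ‖G1‖ ≤ K)
    (lo : ∀ x, ‖x‖ ≤ K * ‖F x‖) (lo' : ∀ x, ‖x‖ ≤ K * ‖G x‖) (d : ‖F - G‖ ≤ δ)
    (d1 : ‖F1 - G1‖ ≤ δ) (x : E) : |dq F F1 x - dq G G1 x| ≤ 12 * K ^ 7 * δ * ‖x‖ := by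
  have k1 := K_one h lo
  have d0 : 0 ≤ δ := (norm_nonneg _).trans d
  have e1 := Gr_lip (e_lo lo) (e_lo lo') (δ := δ) (dx := δ) (by simpa [a0_one] using sub_app d a0)
    (by simpa [a0_one] using sub_app d1 a0) (sub_app d x) (app0 g1) (app_le h x) (app_le g x)
  rw [show dq F F1 x - dq G G1 x = (Gr (F a0) (F1 a0) (F x) - Gr (G a0) (G1 a0) (G x)) * (rr F)⁻¹ +
    Gr (G a0) (G1 a0) (G x) * ((rr F)⁻¹ - (rr G)⁻¹) by rw [dq, dq]; ring]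
  refine (aadd (amul e1 (rr_inv lo)) (amul (abs_Gr_le' _ (app0 g1) (app_le g x))
    (rri_lip h g lo lo' d))).trans ?_
  have a1 : K ^ 3 * (δ * ‖x‖) ≤ K ^ 7 * (δ * ‖x‖) :=
    mul_le_mul_of_nonneg_right (pow_le_pow_right₀ k1 (by norm_num)) (by positivity)
  have a2 : K ^ 5 * (δ * ‖x‖) ≤ K ^ 7 * (δ * ‖x‖) :=
    mul_le_mul_of_nonneg_right (pow_le_pow_right₀ k1 (by norm_num)) (by positivity)
  nlinarith

lemma om_lip (h : ‖F‖ ≤ K) (h1 : ‖F1‖ ≤ K) (g : ‖G‖ ≤ K) (g1 : ‖G1‖ ≤ K)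
    (lo : ∀ x, ‖x‖ ≤ K * ‖F x‖) (lo' : ∀ x, ‖x‖ ≤ K * ‖G x‖) (d : ‖F - G‖ ≤ δ)
    (d1 : ‖F1 - G1‖ ≤ δ) : |om F F1 - om G G1| ≤ 14 * K ^ 9 * δ := by
  have k1 := K_one h lo
  have d0 : 0 ≤ δ := (norm_nonneg _).trans d
  have s1 : ‖F1 a0 - G1 a0‖ ≤ δ := by simpa [a0_one] using sub_app d1 a0
  have e1 := Gr_lip (e_lo lo) (e_lo lo') (δ := δ) (by simpa [a0_one] using sub_app d a0)
    s1 s1 (app0 g1) (app0 h1) (app0 g1)
  rw [show om F F1 - om G G1 = (Gr (F a0) (F1 a0) (F1 a0) - Gr (G a0) (G1 a0) (G1 a0)) *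
    ((rr F)⁻¹ * (rr F)⁻¹) + Gr (G a0) (G1 a0) (G1 a0) * (((rr F)⁻¹ - (rr G)⁻¹) *
      ((rr F)⁻¹ + (rr G)⁻¹)) by rw [om, om]; ring]
  refine (aadd (amul e1 (amul (rr_inv lo) (rr_inv lo))) (amul (abs_Gr_le' _ (app0 g1) (app0 g1))
    (amul (rri_lip h g lo lo' d) (aadd (rr_inv lo) (rr_inv lo'))))).trans ?_
  have a1 : K ^ 5 * δ ≤ K ^ 9 * δ :=
    mul_le_mul_of_nonneg_right (pow_le_pow_right₀ k1 (by norm_num)) d0
  have a2 : K ^ 7 * δ ≤ K ^ 9 * δ :=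
    mul_le_mul_of_nonneg_right (pow_le_pow_right₀ k1 (by norm_num)) d0
  nlinarith

section cont

variable {X : Type*} [TopologicalSpace X] {S : Set X} {A A1 : X → L3} {u v : X → E}

lemma cont_rr (hA : ContinuousOn A S) : ContinuousOn (fun z => rr (A z)) S :=
  (hA.clm_apply continuousOn_const).inner (𝕜 := ℝ) (hA.clm_apply continuousOn_const)

lemma cont_pp (hA : ContinuousOn A S) (hu : ContinuousOn u S) (hv : ContinuousOn v S)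
    (h0 : ∀ z ∈ S, A z a0 ≠ 0) : ContinuousOn (fun z => pp (A z) (u z) (v z)) S :=
  continuousOn_Gr (hA.clm_apply continuousOn_const) (hA.clm_apply hu) (hA.clm_apply hv) h0

lemma cont_dq (hA : ContinuousOn A S) (h1 : ContinuousOn A1 S) (hu : ContinuousOn u S)
    (h0 : ∀ z ∈ S, A z a0 ≠ 0) : ContinuousOn (fun z => dq (A z) (A1 z) (u z)) S :=
  (continuousOn_Gr (hA.clm_apply continuousOn_const) (h1.clm_apply continuousOn_const)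
    (hA.clm_apply hu) h0).div (cont_rr hA) fun z h => inner_self_ne_zero.2 (h0 z h)

lemma cont_om (hA : ContinuousOn A S) (h1 : ContinuousOn A1 S) (h0 : ∀ z ∈ S, A z a0 ≠ 0) :
    ContinuousOn (fun z => om (A z) (A1 z)) S :=
  (continuousOn_Gr (hA.clm_apply continuousOn_const) (h1.clm_apply continuousOn_const)
    (h1.clm_apply continuousOn_const) h0).div ((cont_rr hA).pow 2)
    fun z h => pow_ne_zero 2 (inner_self_ne_zero.2 (h0 z h))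

lemma cont_mm (hA : ContinuousOn A S) (hu : ContinuousOn u S) :
    ContinuousOn (fun z => mm (A z) (u z)) S :=
  continuousOn_const.inner (𝕜 := ℝ) (hA.clm_apply hu)

lemma cont_mb (hA : ContinuousOn A S) (h1 : ContinuousOn A1 S) (hu : ContinuousOn u S) :
    ContinuousOn (fun z => mm (Bop (A z) (A1 z)) (u z)) S := by
  simp only [mm, inner_Bop]
  exact ((h1.clm_apply continuousOn_const).inner (𝕜 := ℝ) (hA.clm_apply hu)).sub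
    ((hA.clm_apply continuousOn_const).inner (𝕜 := ℝ) (h1.clm_apply hu))

lemma cont_qc (hA : ContinuousOn A S) (h1 : ContinuousOn A1 S) (hu : ContinuousOn u S) (B : L3)
    (h0 : ∀ z ∈ S, A z a0 ≠ 0) : ContinuousOn (fun z => qc (A z) (A1 z) B (u z)) S :=
  (cont_mm continuousOn_const hu).neg.mul ((continuousOn_const.mul (cont_dq hA h1 hu h0)).add
    (((cont_mm continuousOn_const hu).sub (cont_mb hA h1 hu)).div (cont_rr hA)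
      fun z h => inner_self_ne_zero.2 (h0 z h)))

end cont

/-- mean value bound on the closed interval -/
lemma lip_of_deriv {V : Type*} [NormedAddCommGroup V] [NormedSpace ℝ V] {g g' : ℝ → V} {T L : ℝ}
    (T0 : 0 < T) (c : ContinuousOn g (Icc 0 T)) (hg : ∀ t ∈ Ioo 0 T, HasDerivAt g (g' t) t)
    (hb : ∀ t ∈ Ioo 0 T, ‖g' t‖ ≤ L) : ∀ s ∈ Icc 0 T, ∀ t ∈ Icc 0 T, ‖g t - g s‖ ≤ L * |t - s| := by
  have L0 : 0 ≤ L := (norm_nonneg _).trans (hb (T / 2) ⟨by linarith, by linarith⟩)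
  have lip : LipschitzOnWith ⟨L, L0⟩ g (Ioo 0 T) :=
    (convex_Ioo 0 T).lipschitzOnWith_of_nnnorm_hasDerivWithin_le
      (fun t h => (hg t h).hasDerivWithinAt) fun t h => hb t h
  have l2 := lip.closure (by rwa [closure_Ioo T0.ne])
  rw [closure_Ioo T0.ne] at l2
  intro s hs t ht
  have := l2.dist_le_mul t ht s hs
  rw [dist_eq_norm, Real.dist_eq] at this
  exact this

variable {ε T : ℝ} {C : Cv L3}

lemma lip0 (h : Crv K ε T C B) : ∀ s ∈ Icc 0 T, ∀ t ∈ Icc 0 T, ‖C.f t - C.f s‖ ≤ K * |t - s| :=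
  lip_of_deriv h.T_pos h.c0 (fun t ht => (h.ok t ht).1) fun t ht => h.b1 t (Ioo_subset_Icc_self ht)

lemma lip1 (h : Crv K ε T C B) : ∀ s ∈ Icc 0 T, ∀ t ∈ Icc 0 T, ‖C.f1 t - C.f1 s‖ ≤ K * |t - s| :=
  lip_of_deriv h.T_pos h.c1 (fun t ht => (h.ok t ht).2) h.b2

lemma Lip_mono {g : ℝ → ℝ} {K' : ℝ} (h : Lip K T g) (hK : K ≤ K') : Lip K' T g :=
  ⟨fun t ht => (h.1 t ht).trans hK, fun s hs t ht =>
    (h.2 s hs t ht).trans (mul_le_mul_of_nonneg_right hK (abs_nonneg _))⟩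

lemma crv_one (h : Crv K ε T C B) : 1 ≤ K :=
  K_one (h.b0 0 ⟨le_rfl, h.T_pos.le⟩) (h.lo 0 ⟨le_rfl, h.T_pos.le⟩)

lemma Lip_pp (h : Crv K ε T C B) {X : ℝ} (hx : ‖x‖ ≤ X) (hy : ‖y‖ ≤ X) :
    Lip (10 * K ^ 4 * X ^ 2) T fun t => pp (C.f t) x y := by
  have k1 := crv_one h
  have xy : ‖x‖ * ‖y‖ ≤ X ^ 2 := by nlinarith [norm_nonneg x, norm_nonneg y]
  refine ⟨fun t ht => (pp_hi (h.b0 t ht) x y).trans ?_, fun s hs t ht =>
    (pp_lip (h.b0 t ht) (h.b0 s hs) (h.lo t ht) (h.lo s hs) (lip0 h s hs t ht) x y).trans ?_⟩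
  · rw [mul_assoc]
    refine mul_le_mul ?_ xy (by positivity) (by positivity)
    nlinarith [pow_le_pow_right₀ k1 (show 2 ≤ 4 by norm_num), pow_pos (one_pos.trans_le k1) 4]
  · calc _ = 10 * K ^ 4 * |t - s| * (‖x‖ * ‖y‖) := by ring
      _ ≤ 10 * K ^ 4 * |t - s| * X ^ 2 := by gcongr
      _ = _ := by ring

lemma Lip_dq (h : Crv K ε T C B) {X : ℝ} (hx : ‖x‖ ≤ X) :
    Lip (12 * K ^ 8 * X) T fun t => dq (C.f t) (C.f1 t) x := by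
  have k1 := crv_one h
  refine ⟨fun t ht => (dq_hi (h.b0 t ht) (h.b1 t ht) (h.lo t ht) x).trans ?_, fun s hs t ht =>
    (dq_lip (h.b0 t ht) (h.b1 t ht) (h.b0 s hs) (h.b1 s hs) (h.lo t ht) (h.lo s hs)
      (lip0 h s hs t ht) (lip1 h s hs t ht) x).trans ?_⟩
  · refine mul_le_mul ?_ hx (by positivity) (by positivity)
    nlinarith [pow_le_pow_right₀ k1 (show 4 ≤ 8 by norm_num), pow_pos (one_pos.trans_le k1) 8]
  · calc _ = 12 * K ^ 8 * |t - s| * ‖x‖ := by ring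
      _ ≤ 12 * K ^ 8 * |t - s| * X := by gcongr
      _ = _ := by ring

lemma Lip_om (h : Crv K ε T C B) : Lip (14 * K ^ 10) T fun t => om (C.f t) (C.f1 t) := by
  have k1 := crv_one h
  refine ⟨fun t ht => (om_hi (h.b1 t ht) (h.lo t ht)).trans ?_, fun s hs t ht =>
    (om_lip (h.b0 t ht) (h.b1 t ht) (h.b0 s hs) (h.b1 s hs) (h.lo t ht) (h.lo s hs)
      (lip0 h s hs t ht) (lip1 h s hs t ht)).trans_eq (by ring)⟩
  nlinarith [pow_le_pow_right₀ k1 (show 6 ≤ 10 by norm_num), pow_pos (one_pos.trans_le k1) 10]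

/-- derivative of `pp` along the curve -/
lemma dp (h : Crv K ε T C B) {X : ℝ} (hx : ‖x‖ ≤ X) (hy : ‖y‖ ≤ X) :
    ∃ p1 : ℝ → ℝ, ∀ t ∈ Ioo 0 T, HasDerivAt (fun t => pp (C.f t) x y) (p1 t) t ∧
      |p1 t| ≤ 10 * K ^ 4 * X ^ 2 := by
  refine ⟨deriv fun t => pp (C.f t) x y, fun t ht => ?_⟩
  have ap : ∀ z, HasDerivAt (fun s => C.f s z) (C.f1 t z) t := fun z => by
    simpa using (h.ok t ht).1.clm_apply (hasDerivAt_const t z)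
  have d := (hasDerivAt_Gr (ap a0) (ap x) (ap y)
    (e_ne (h.lo t (Ioo_subset_Icc_self ht)))).differentiableAt.hasDerivAt
  refine ⟨d, ?_⟩
  have l := Lip_pp h hx hy
  exact d.le_of_lip' ((abs_nonneg _).trans (l.1 t (Ioo_subset_Icc_self ht)))
    ((Ioo_mem_nhds ht.1 ht.2 : _ ∈ nhds t) |> fun q => Filter.mem_of_superset q fun s hs =>
      l.2 t (Ioo_subset_Icc_self ht) s (Ioo_subset_Icc_self hs))

end Pool.Agent.Lib.MP_fbbbeb_an.D.MK
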