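import Mathlib
import Pool.Agent.Lib.MP_fbbbeb_an.D.MKit

/-! Extension of a curve to the closed interval. -/

set_option autoImplicit false

noncomputable section

namespace Pool.Agent.Lib.MP_fbbbeb_an.D

open Set Filter Topology Pool.Agent.Lib.MP_fbbbeb_an.Pub Pool.Agent.Lib.MP_fbbbeb_an.Cas
open Pool.Agent.Lib.MP_fbbbeb_an.D.Geo
open scoped RealInnerProductSpace

namespace Ext

theorem ext {V : Type} [NormedAddCommGroup V] [NormedSpace ℝ V] [CompleteSpace V]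
    {y y' : ℝ → V} {T L : ℝ} (T0 : 0 < T) (hy : ∀ t ∈ Ioo 0 T, HasDerivAt y (y' t) t)
    (hb : ∀ t ∈ Ioo 0 T, ‖y' t‖ ≤ L) :
    ∃ g : ℝ → V, ContinuousOn g (Icc 0 T) ∧ ∀ t ∈ Ioo 0 T, g t = y t := by
  have L0 : 0 ≤ L := (norm_nonneg _).trans (hb (T / 2) ⟨by linarith, by linarith⟩)
  have lip : LipschitzOnWith ⟨L, L0⟩ y (Ioo 0 T) :=
    (convex_Ioo 0 T).lipschitzOnWith_of_nnnorm_hasDerivWithin_le
      (fun t h => (hy t h).hasDerivWithinAt) fun t h => hb t h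
  obtain ⟨y0, l0⟩ := exists_lim T0 hy hb
  have c : Cauchy (𝓝[<] T) := cauchy_nhds.mono nhdsWithin_le_nhds
  obtain ⟨y1, l1⟩ := cauchy_map_iff_exists_tendsto.1 (c.map_of_le lip.uniformContinuousOn
    (le_principal_iff.2 (Ioo_mem_nhdsLT T0)))
  exact ⟨_, continuousOn_Icc_extendFrom_Ioo lip.continuousOn l0 l1, extendFrom_extends lip.continuousOn⟩

theorem le_Icc {V : Type} [NormedAddCommGroup V] {g : ℝ → V} {T c : ℝ} (T0 : 0 < T)
    (hg : ContinuousOn g (Icc 0 T)) (h : ∀ t ∈ Ioo 0 T, ‖g t‖ ≤ c) : ∀ t ∈ Icc 0 T, ‖g t‖ ≤ c := by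
  rw [← closure_Ioo T0.ne] at hg ⊢
  exact fun t ht => le_on_closure h hg.norm continuousOn_const ht

theorem cont_star {A : ℝ → L3} {S : Set ℝ} (h : ContinuousOn A S) :
    ContinuousOn (fun t => star (A t)) S :=
  (ContinuousLinearMap.adjoint : L3 ≃ₗᵢ⋆[ℝ] L3).continuous.comp_continuousOn h

theorem arith {K u v δ : ℝ} (hK : 2 ≤ K) (e0 : 0 ≤ δ) (h : |u - v| ≤ 14 * (2 * K) ^ 9 * δ)
    (hv : 1 ≤ K * v) (hδ : δ * K ^ 24 ≤ 1) : 1 ≤ 2 * K * u := by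
  have k : 14336 * K ^ 10 ≤ K ^ 24 := MH.pw_le hK 14336 10 14 (by norm_num)
  have a := mul_le_mul_of_nonneg_left k e0
  have b := mul_le_mul_of_nonneg_left (abs_le.1 h).1 (show 0 ≤ 2 * K by linarith)
  nlinarith

end Ext

theorem ext0St : Ext0St := by
  intro K ε T F T0 T1 hF hb hD
  obtain ⟨g0, c0, e0⟩ := Ext.ext T0 (fun t h => (hF t h).1) fun t h => (hb t h).1
  obtain ⟨g1, c1, e1⟩ := Ext.ext T0 (fun t h => (hF t h).2) fun t h => (hb t h).2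
  have hm : T / 2 ∈ Ioo 0 T := ⟨by linarith, by linarith⟩
  have ε0 : 0 ≤ ε := (norm_nonneg _).trans (hD _ hm)
  refine ⟨⟨g0, g1, F.f2⟩, fun t ht => ⟨e0 t ht, e1 t ht, rfl⟩, fun t ht => ⟨?_, ?_⟩, c0, c1,
    Ext.le_Icc T0 ?_ fun t ht => ?_⟩
  · simp only [e1 t ht]
    exact (hF t ht).1.congr_of_eventuallyEq (eventually_of_mem (Ioo_mem_nhds ht.1 ht.2) e0)
  · exact (hF t ht).2.congr_of_eventuallyEq (eventually_of_mem (Ioo_mem_nhds ht.1 ht.2) e1)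
  · exact (((Ext.cont_star c1).mul c0).sub ((Ext.cont_star c0).mul c1)).sub continuousOn_const
  · simp only [e0 t ht, e1 t ht]
    refine (MH.bop_sub_le hF hD hm ht).trans (mul_le_of_le_one_right ε0 ?_)
    rw [abs_le]
    constructor <;> linarith [ht.1, ht.2]

theorem extSt : ExtSt := by
  refine ⟨24, fun K ε0 ε T F G B hK h hc hF hD hs => ?_⟩
  have K0 : 0 < K := by linarith
  have T0 := h.T_pos
  have hm : T / 2 ∈ Ioo 0 T := ⟨by linarith, by linarith⟩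
  have e0 : 0 ≤ ε0 := (norm_nonneg _).trans (hc _ hm).1
  have k2 : 2 * K ^ 1 ≤ K ^ 24 := MH.pw_le hK 2 1 23 (by norm_num)
  have k8 : 8 * K ^ 2 ≤ K ^ 24 := MH.pw_le hK 8 2 22 (by norm_num)
  rw [pow_one] at k2
  have s2 : 2 * K * ε0 ≤ 1 := by linarith [mul_le_mul_of_nonneg_right k2 e0]
  have s3 : ε0 ≤ K := by nlinarith
  have n0 : ∀ t ∈ Ioo 0 T, ‖F.f t‖ ≤ 2 * K := fun t ht =>
    (MH.le_of_near (h.b0 t (Ioo_subset_Icc_self ht)) (hc t ht).1).trans (by linarith)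
  have n1 : ∀ t ∈ Ioo 0 T, ‖F.f1 t‖ ≤ 2 * K := fun t ht =>
    (MH.le_of_near (h.b1 t (Ioo_subset_Icc_self ht)) (hc t ht).2.1).trans (by linarith)
  obtain ⟨F', sm, ok, c0, c1, df⟩ := ext0St (2 * K) ε T F T0 h.T_le hF
    (fun t ht => ⟨n1 t ht, (hc t ht).2.2.trans (by linarith)⟩) hD
  have cl : ClI T ε0 F' G := fun t ht =>
    ⟨Ext.le_Icc T0 (c0.sub h.c0) (fun t ht => by rw [Pi.sub_apply, (sm t ht).1]; exact (hc t ht).1) t ht,
      Ext.le_Icc T0 (c1.sub h.c1)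
        (fun t ht => by rw [Pi.sub_apply, (sm t ht).2.1]; exact (hc t ht).2.1) t ht⟩
  have m0 : ∀ t ∈ Icc 0 T, ‖F'.f t‖ ≤ 2 * K := fun t ht =>
    (MH.le_of_near (h.b0 t ht) (cl t ht).1).trans (by linarith)
  have m1 : ∀ t ∈ Icc 0 T, ‖F'.f1 t‖ ≤ 2 * K := fun t ht =>
    (MH.le_of_near (h.b1 t ht) (cl t ht).2).trans (by linarith)
  have lo : ∀ t ∈ Icc 0 T, ∀ x, ‖x‖ ≤ 2 * K * ‖F'.f t x‖ := fun t ht =>
    MH.lower_near (h.lo t ht) K0.le (cl t ht).1 s2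
  refine ⟨F', _, sm, ⟨T0, h.T_le, ok, c0, c1, fun t ht => (m0 t ht).trans k2,
    fun t ht => (m1 t ht).trans k2,
    fun t ht => by rw [(sm t ht).2.2]; exact (hc t ht).2.2.trans (by linarith),
    fun t ht x => (lo t ht x).trans (mul_le_mul_of_nonneg_right k2 (norm_nonneg _)),
    fun x y => by rw [MH.bop_anti, real_inner_comm],
    (MH.norm_bop (n0 _ hm) (n1 _ hm)).trans (by linarith), df, fun t ht => ?_⟩, cl⟩
  exact (Ext.arith hK e0 (MK.om_lip (m0 t ht) (m1 t ht) ((h.b0 t ht).trans (by linarith))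
    ((h.b1 t ht).trans (by linarith)) (lo t ht) (fun x => (h.lo t ht x).trans
      (mul_le_mul_of_nonneg_right (by linarith) (norm_nonneg _))) (cl t ht).1 (cl t ht).2)
    (h.om_lo t ht) hs).trans (mul_le_mul_of_nonneg_right k2 (MK.om_nonneg _ _))

end Pool.Agent.Lib.MP_fbbbeb_an.D
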