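import Mathlib
import Pool.Agent.Lib.MP_fbbbeb_an.D.Mono

/-! From a pack to a level of prescribed size. -/

set_option autoImplicit false

noncomputable section

namespace Pool.Agent.Lib.MP_fbbbeb_an.D

theorem finLev : PrepSt → WavSt → FinSt := by
  rintro ⟨C1, h1⟩ ⟨C2, h2⟩
  refine ⟨C1 + C2 + 1, fun K ε ψ S T t0 H F B τ th f hK hp hψ hS hH => ?_⟩
  have K0 : 0 < K := by linarith
  have K1 : 1 ≤ K := by linarith
  have hc : 0 < H / th t0 := div_pos hH (hp.sp.TH_pos K0)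
  have hq := hp.smul hc
  obtain ⟨k, ν, hf, hd⟩ := h1 K ε ψ S T t0 F B τ _ _ hK hq hψ hS
  obtain ⟨p, η, hw, hdec⟩ := h2 K ε ψ T t0 F B τ k _ _ hK hq hf.k_one hf.k_a hf.k_t
  have a0 : K ≤ K ^ (C1 + C2 + 1) := le_self_pow₀ K1 (by omega)
  have a1 : K ^ C1 ≤ K ^ (C1 + C2 + 1) := pow_le_pow_right₀ K1 (by omega)
  have a2 : K ^ C2 ≤ K ^ (C1 + C2 + 1) := pow_le_pow_right₀ K1 (by omega)
  exact ⟨k, ν, p, η, hq.monoK K0 a0 le_rfl, hf.monoK a1,
    hd.monoK (by positivity) a1 (mul_le_mul_of_nonneg_right a1 hp.crv.eps),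
    hw.monoK (by positivity) a2, hdec⟩

end Pool.Agent.Lib.MP_fbbbeb_an.D
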