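import Mathlib
import Pool.Agent.Lib.MP_fbbbeb_an.Cas.Ev
import Pool.Agent.Lib.MP_fbbbeb_an.D.Mono
import Pool.Agent.Lib.MP_fbbbeb_an.D.MulH

/-! The first pack (D8). -/

set_option autoImplicit false

noncomputable section

namespace Pool.Agent.Lib.MP_fbbbeb_an.D

open Set Pool.Agent.Lib.MP_fbbbeb_an.Pub Pool.Agent.Lib.MP_fbbbeb_an.Cas
open Pool.Agent.Lib.MP_fbbbeb_an.D.Geo
open scoped RealInnerProductSpace

namespace FPk

theorem exists_perp (a u : E) : ∃ w : E, ‖w‖ = 1 ∧ ⟪a, w⟫ = 0 ∧ ⟪u, w⟫ = 0 := by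
  have h : LinearMap.ker ((innerₛₗ ℝ a).prod (innerₛₗ ℝ u)) ≠ ⊥ :=
    LinearMap.ker_ne_bot_of_finrank_lt (by simp)
  obtain ⟨w, hw, h0⟩ := Submodule.exists_mem_ne_zero_of_ne_bot h
  have h1 : ⟪a, w⟫ = 0 := congrArg Prod.fst hw
  have h2 : ⟪u, w⟫ = 0 := congrArg Prod.snd hw
  exact ⟨‖w‖⁻¹ • w, norm_smul_inv_norm h0, by rw [real_inner_smul_right, h1, mul_zero],
    by rw [real_inner_smul_right, h2, mul_zero]⟩

theorem exists_tau {u : E} (hu : u ≠ 0) (ha : ⟪a0, u⟫ = 0) {κ : ℝ} (h0 : 0 ≤ κ) (h1 : κ ≤ 1 / 100) :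
    ∃ τ : E, ⟪a0, τ⟫ = 0 ∧ ⟪u, τ⟫ = ‖u‖ * κ ∧ 1 ≤ ‖τ‖ ∧ ‖τ‖ ≤ 11 / 10 := by
  obtain ⟨w, w1, w2, w3⟩ := exists_perp a0 u
  have n0 : ‖u‖ ≠ 0 := norm_ne_zero_iff.2 hu
  have e : ‖(κ / ‖u‖) • u + w‖ ^ 2 = κ ^ 2 + 1 := by
    rw [norm_add_sq_real, real_inner_smul_left, w3, w1, norm_smul, mul_pow, Real.norm_eq_abs, sq_abs]
    field_simp
    ring
  have n := norm_nonneg ((κ / ‖u‖) • u + w)
  refine ⟨(κ / ‖u‖) • u + w, ?_, ?_, by nlinarith, by nlinarith⟩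
  · rw [inner_add_right, real_inner_smul_right, ha, w2]
    ring
  · rw [inner_add_right, real_inner_smul_right, w3, real_inner_self_eq_norm_sq]
    field_simp
    ring

theorem inner_lip {x x' y y' : E} {a b dx dy : ℝ} (hx : ‖x - x'‖ ≤ dx) (hy : ‖y - y'‖ ≤ dy)
    (ha : ‖x'‖ ≤ a) (hb : ‖y‖ ≤ b) : |⟪x, y⟫ - ⟪x', y'⟫| ≤ dx * b + a * dy := by
  have e : ⟪x, y⟫ - ⟪x', y'⟫ = ⟪x - x', y⟫ + ⟪x', y - y'⟫ := by
    rw [inner_sub_left, inner_sub_right]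
    ring
  rw [e]
  refine (abs_add_le _ _).trans (add_le_add ((abs_real_inner_le_norm _ _).trans ?_)
    ((abs_real_inner_le_norm _ _).trans ?_))
  · exact mul_le_mul hx hb (norm_nonneg _) ((norm_nonneg _).trans hx)
  · exact mul_le_mul ha hy (norm_nonneg _) ((norm_nonneg _).trans ha)

/-- the small parameters -/
structure Par (δ η κ : ℝ) (U : L3) (τ : E) : Prop where
  d0 : 0 < δ
  k0 : 0 < κ
  k1 : κ ≤ 1 / 100
  d1 : 10 ^ 6 * δ ≤ 1
  e0 : 10 ^ 4 * δ ^ 2 ≤ η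
  e1 : 10 ^ 5 * η ≤ δ * κ
  U1 : ‖U‖ ≤ 10
  U2 : 1 / 10 ≤ ‖U a0‖
  U3 : ∀ x, ⟪a0, U x⟫ + ⟪x, U a0⟫ = 0
  t1 : ⟪a0, τ⟫ = 0
  t2 : ⟪U a0, τ⟫ = ‖U a0‖ * κ
  t3 : 1 ≤ ‖τ‖
  t4 : ‖τ‖ ≤ 11 / 10

theorem pt {δ η κ : ℝ} {U G G1 : L3} {τ : E} (h : Par δ η κ U τ) (g0 : ‖G - 1‖ ≤ 11 * δ)
    (g1 : ‖G1 - δ • U‖ ≤ η) :
    ‖G‖ ≤ 2 ∧ ‖G1‖ ≤ 2 ∧ (∀ x, ‖x‖ ≤ 2 * ‖G x‖) ∧ G a0 ≠ 0 ∧ 9 / 10 ≤ pp G τ τ ∧ pp G τ τ ≤ 2 ∧
    9 / 10 * (δ * ‖U a0‖ * κ) ≤ dq G G1 τ ∧ dq G G1 τ ≤ 11 / 10 * (δ * ‖U a0‖ * κ) ∧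
    9 / 10 * (δ * ‖U a0‖) ^ 2 ≤ om G G1 ∧
    |mm (Bop G G1) τ - 2 * (δ * ‖U a0‖ * κ)| ≤ δ * ‖U a0‖ * κ / 100 ∧ 9 / 10 ≤ rr G := by
  obtain ⟨d0, k0, k1, d1, e0, e1, U1, U2, U3, t1, t2, t3, t4⟩ := h
  have a1 := norm_a0
  have η0 : 0 < η := lt_of_lt_of_le (by positivity) e0
  have ηδ : 10 ^ 7 * η ≤ δ := by nlinarith
  have ua : ⟪a0, U a0⟫ = 0 := by linarith [U3 a0]
  have aa : ⟪a0, a0⟫ = 1 := by rw [real_inner_self_eq_norm_sq, a1, one_pow]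
  have gx : ∀ x, ‖G x - x‖ ≤ 11 * δ * ‖x‖ := fun x => (G - 1).le_of_opNorm_le g0 x
  have g1x : ∀ x, ‖G1 x - δ • U x‖ ≤ η * ‖x‖ := fun x => (G1 - δ • U).le_of_opNorm_le g1 x
  have ux : ∀ x, ‖δ • U x‖ ≤ 10 * δ * ‖x‖ := fun x => by
    rw [norm_smul, Real.norm_eq_abs, abs_of_pos d0]
    nlinarith [U.le_of_opNorm_le U1 x]
  have tri : ∀ x y : E, ‖x‖ ≤ ‖y‖ + ‖x - y‖ := fun x y => norm_le_norm_add_norm_sub' x y
  have lo : ∀ x, ‖x‖ ≤ 2 * ‖G x‖ := fun x => by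
    have := tri x (G x)
    rw [norm_sub_rev] at this
    nlinarith [gx x, norm_nonneg x]
  have he : ‖G a0 - a0‖ ≤ 11 * δ := by simpa [a1] using gx a0
  have hv : ‖G1 a0 - δ • U a0‖ ≤ η := by simpa [a1] using g1x a0
  have hu : ‖δ • U a0‖ ≤ 10 * δ := by simpa [a1] using ux a0
  have hy : ‖G τ - τ‖ ≤ 22 * δ := by nlinarith [gx τ]
  have hz : ‖G1 τ - δ • U τ‖ ≤ 2 * η := by nlinarith [g1x τ]
  have ny : ‖G τ‖ ≤ 2 := by linarith [tri (G τ) τ]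
  have nv : ‖G1 a0‖ ≤ 11 * δ := by linarith [tri (G1 a0) (δ • U a0)]
  have nz : ‖G1 τ‖ ≤ 22 * δ := by nlinarith [tri (G1 τ) (δ • U τ), ux τ]
  have ne : ‖G a0‖ ≤ 2 := by linarith [tri (G a0) a0]
  have l1 : 1 ≤ 2 * ‖G a0‖ := by simpa [a1] using lo a0
  have l2 : 1 ≤ 2 * ‖a0‖ := by linarith
  obtain ⟨n, hn⟩ : ∃ n, n = ‖U a0‖ := ⟨_, rfl⟩
  rw [← hn] at U2 t2 ⊢
  obtain ⟨c, hc⟩ : ∃ c, c = δ * n * κ := ⟨_, rfl⟩
  have cη : 10 ^ 4 * η ≤ c := by nlinarith [mul_pos d0 k0]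
  have r1 : |rr G - 1| ≤ 1 / 100 := by
    have := inner_lip he he a1.le ne
    rw [aa] at this
    exact this.trans (by linarith)
  have p1 : |pp G τ τ - ‖τ‖ ^ 2| ≤ 1 / 100 := by
    have := Gr_lip l1 l2 he hy hy (show ‖τ‖ ≤ 2 by linarith) ny (show ‖τ‖ ≤ 2 by linarith)
    rw [show Gr a0 τ τ = ‖τ‖ ^ 2 by
      rw [Gr, real_inner_comm a0 τ, t1, real_inner_self_eq_norm_sq]; ring] at this
    exact this.trans (by linarith)
  have q1 : |Gr (G a0) (G1 a0) (G τ) - c| ≤ c / 100 := by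
    have := Gr_lip l1 l2 he hv hy hu ny (show ‖τ‖ ≤ 2 by linarith)
    rw [show Gr a0 (δ • U a0) τ = c by
      rw [Gr, real_inner_comm a0 τ, t1, real_inner_smul_left, t2, hc]; ring] at this
    exact this.trans (by nlinarith)
  have o1 : |Gr (G a0) (G1 a0) (G1 a0) - (δ * n) ^ 2| ≤ (δ * n) ^ 2 / 100 := by
    have := Gr_lip l1 l2 he hv hv hu nv (show ‖δ • U a0‖ ≤ 11 * δ by linarith)
    rw [show Gr a0 (δ • U a0) (δ • U a0) = (δ * n) ^ 2 by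
      rw [Gr, real_inner_comm a0, real_inner_smul_right a0, ua, real_inner_self_eq_norm_sq,
        norm_smul, Real.norm_eq_abs, abs_of_pos d0, hn]; ring] at this
    refine this.trans ?_
    have b1 : δ ^ 2 / 100 ≤ (δ * n) ^ 2 := by
      have : (δ * (1 / 10)) ^ 2 ≤ (δ * n) ^ 2 := by gcongr
      linarith
    have b2 := mul_le_mul_of_nonneg_left e0 d0.le
    have b3 := mul_le_mul_of_nonneg_left ηδ d0.le
    nlinarith
  have m1 : |mm (Bop G G1) τ - 2 * c| ≤ c / 100 := by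
    have b1 := inner_lip hv hy hu ny
    have b2 := inner_lip he hz a1.le nz
    have b3 : ⟪a0, U τ⟫ = -(n * κ) := by
      have := U3 τ
      rw [real_inner_comm (U a0) τ, t2] at this
      linarith
    rw [real_inner_smul_left, t2] at b1
    rw [real_inner_smul_right, b3] at b2
    rw [mm, inner_Bop, abs_le] at *
    constructor <;> nlinarith
  rw [abs_le] at r1 p1 q1 o1
  have c0 : 0 < c := by linarith
  have r0 : 0 < rr G := by linarith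
  rw [← hc]
  refine ⟨?_, ?_, lo, fun h => by simp [h] at l1; linarith, by nlinarith, by nlinarith, ?_, ?_, ?_,
    m1, by linarith⟩
  · have := norm_le_norm_add_norm_sub' G 1
    rw [norm_one] at this
    linarith
  · have := norm_le_norm_add_norm_sub' G1 (δ • U)
    rw [norm_smul, Real.norm_eq_abs, abs_of_pos d0] at this
    nlinarith
  · rw [dq, le_div_iff₀ r0]
    nlinarith
  · rw [dq, div_le_iff₀ r0]
    nlinarith
  · rw [om, le_div_iff₀ (by positivity)]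
    have b1 : rr G ^ 2 ≤ 11 / 10 := by nlinarith
    nlinarith [sq_nonneg (δ * n)]

theorem q_bd {c m d m' r : ℝ} (c0 : 0 < c) (h1 : |m - 2 * c| ≤ c / 100)
    (h2 : |m' - 2 * c| ≤ c / 100) (d1 : 9 / 10 * c ≤ d) (d2 : d ≤ 11 / 10 * c) (hr : 9 / 10 ≤ r) :
    -(6 * c ^ 2) ≤ -m * (2 * d + (m - m') / r) ∧ -m * (2 * d + (m - m') / r) ≤ -c ^ 2 := by
  rw [abs_le] at h1 h2
  have r0 : 0 < r := by linarith
  have a1 : (m - m') / r ≤ c / 10 := by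
    rw [div_le_iff₀ r0]
    nlinarith
  have a2 : -(c / 10) ≤ (m - m') / r := by
    rw [le_div_iff₀ r0]
    nlinarith
  constructor <;> nlinarith

end FPk

open FPk in
theorem firstPackSt (hE : Ext0St) (hF : FirstSt) : FirstPackSt := by
  obtain ⟨C, hF⟩ := hF
  refine ⟨32 * C + 100, fun l ε U F hl U1 U2 U3 ok near dfc _ => ?_⟩
  have l1 : 100 ≤ l := le_trans (by push_cast; linarith [Nat.cast_nonneg (α := ℝ) C]) hl
  have l0 : 0 < l := by linarith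
  have pw : ∀ {m n : ℕ}, m ≤ n → l ^ m ≤ l ^ n := fun h => pow_le_pow_right₀ (by linarith) h
  have pl : ∀ n : ℕ, (100 : ℝ) ^ n ≤ l ^ n := fun n => pow_le_pow_left₀ (by norm_num) l1 n
  obtain ⟨δ, hδ⟩ : ∃ δ, δ = (l ^ 12)⁻¹ := ⟨_, rfl⟩
  obtain ⟨η, hη⟩ : ∃ η, η = (l ^ 22)⁻¹ := ⟨_, rfl⟩
  obtain ⟨κ, hκ⟩ : ∃ κ, κ = (4 * l ^ 2)⁻¹ := ⟨_, rfl⟩
  rw [← hδ, ← hη] at near
  have d0 : 0 < δ := by rw [hδ]; positivity
  have k0 : 0 < κ := by rw [hκ]; positivity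
  have k1 : κ ≤ 1 / 100 := by
    rw [hκ, one_div]
    exact inv_anti₀ (by norm_num) (by linarith [pl 2])
  have ua : ⟪a0, U a0⟫ = 0 := by linarith [U3 a0]
  obtain ⟨τ, t1, t2, t3, t4⟩ := exists_tau (u := U a0) (fun h => by simp [h] at U2; linarith) ua
    k0.le k1
  have d1 : 10 ^ 6 * δ ≤ 1 := by
    rw [hδ, ← div_eq_mul_inv, div_le_one (by positivity)]
    linarith [pl 12]
  have e0 : 10 ^ 4 * δ ^ 2 ≤ η := by
    have : η = l ^ 2 * δ ^ 2 := by rw [hδ, hη]; field_simp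
    rw [this]
    exact mul_le_mul_of_nonneg_right (by linarith [pl 2]) (by positivity)
  have η0 : 0 < η := by rw [hη]; positivity
  have e1 : 10 ^ 5 * η ≤ δ * κ := by
    have : δ * κ = l ^ 8 / 4 * η := by rw [hδ, hη, hκ]; field_simp
    rw [this]
    exact mul_le_mul_of_nonneg_right (by linarith [pl 8]) η0.le
  have par : Par δ η κ U τ := ⟨d0, k0, k1, d1, e0, e1, U1, U2, U3, t1, t2, t3, t4⟩
  have ηδ : η ≤ δ := by nlinarith
  have nU : ‖δ • U‖ ≤ 10 * δ := by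
    rw [norm_smul, Real.norm_eq_abs, abs_of_pos d0]
    nlinarith
  have f2 : ∀ t ∈ Ioo (0 : ℝ) 1, ‖F.f2 t‖ ≤ 1 := fun t ht => by
    have := (near t ht).2.2
    simp only [sub_zero] at this
    linarith
  obtain ⟨G, same, okG, c0, c1, df⟩ := hE 1 ε 1 F one_pos le_rfl ok (fun t ht => ⟨by
    linarith [norm_le_norm_add_norm_sub' (F.f1 t) (δ • U), (near t ht).2.1], f2 t ht⟩) dfc
  have cl : closure (Ioo (0 : ℝ) 1) = Icc 0 1 := closure_Ioo zero_ne_one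
  have g0 : ∀ t ∈ Icc (0 : ℝ) 1, ‖G.f t - 1‖ ≤ 11 * δ := fun t ht => by
    refine le_on_closure (s := Ioo 0 1) (f := fun t => ‖G.f t - 1‖) (g := fun _ => 11 * δ)
      (fun s hs => ?_) (cl ▸ (c0.sub continuousOn_const).norm) continuousOn_const (cl ▸ ht)
    have a := (near s hs).1
    have b : ‖(s * δ) • U‖ ≤ 10 * δ := by
      rw [mul_smul, norm_smul, Real.norm_eq_abs, abs_of_pos hs.1]
      nlinarith [hs.1, hs.2, norm_nonneg (δ • U)]
    have c := norm_le_norm_add_norm_sub' (F.f s - 1) ((s * δ) • U)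
    rw [sub_sub] at c
    rw [(same s hs).1]
    linarith
  have g1 : ∀ t ∈ Icc (0 : ℝ) 1, ‖G.f1 t - δ • U‖ ≤ η := fun t ht => by
    refine le_on_closure (s := Ioo 0 1) (f := fun t => ‖G.f1 t - δ • U‖) (g := fun _ => η)
      (fun s hs => ?_) (cl ▸ (c1.sub continuousOn_const).norm) continuousOn_const (cl ▸ ht)
    rw [(same s hs).2.1]
    exact (near s hs).2.1
  have A := fun t ht => pt par (g0 t ht) (g1 t ht)
  have hm : (1 / 2 : ℝ) ∈ Ioo (0 : ℝ) 1 := by constructor <;> norm_num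
  have hm' := Ioo_subset_Icc_self hm
  rw [← (same _ hm).1, ← (same _ hm).2.1] at df
  obtain ⟨B, hB⟩ : ∃ B, B = Bop (G.f (1 / 2)) (G.f1 (1 / 2)) := ⟨_, rfl⟩
  obtain ⟨n, hn⟩ : ∃ n, n = ‖U a0‖ := ⟨_, rfl⟩
  have n1 : n ≤ 10 := by
    have := U.le_of_opNorm_le U1 a0
    rwa [norm_a0, mul_one, ← hn] at this
  rw [← hn] at A U2
  obtain ⟨c, hc⟩ : ∃ c, c = δ * n * κ := ⟨_, rfl⟩
  rw [← hc] at A
  have n0 : 0 < n := by linarith
  have cp : 0 < c := by rw [hc]; positivity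
  have cu : c ≤ 1 / 1000 := by
    have : δ * n * κ ≤ δ * 10 * (1 / 100) := by gcongr
    linarith
  have cl1 : 1 ≤ l ^ 16 * c := by
    have a : l ^ 16 * (δ * (1 / 10) * κ) ≤ l ^ 16 * c := by rw [hc]; gcongr
    have b : l ^ 16 * (δ * (1 / 10) * κ) = l ^ 2 / 40 := by rw [hδ, hκ]; field_simp; norm_num
    linarith [pl 2]
  have cl2 : 1 ≤ l ^ 32 * c ^ 2 := by
    have := one_le_pow₀ (n := 2) cl1
    rwa [mul_pow, ← pow_mul] at this
  obtain ⟨-, -, -, -, pB, -, dB1, dB2, oB, mB, -⟩ := A _ hm'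
  rw [← hB] at mB df
  have ce : ContinuousOn (fun t => G.f t a0) (Icc 0 1) := c0.clm_apply continuousOn_const
  have cy : ContinuousOn (fun t => G.f t τ) (Icc 0 1) := c0.clm_apply continuousOn_const
  have cv : ContinuousOn (fun t => G.f1 t a0) (Icc 0 1) := c1.clm_apply continuousOn_const
  have cz : ContinuousOn (fun t => G.f1 t τ) (Icc 0 1) := c1.clm_apply continuousOn_const
  have ne : ∀ t ∈ Icc (0 : ℝ) 1, G.f t a0 ≠ 0 := fun t ht => (A t ht).2.2.2.1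
  have cr : ContinuousOn (fun t => rr (G.f t)) (Icc 0 1) := ce.inner ce
  have r0 : ∀ t ∈ Icc (0 : ℝ) 1, rr (G.f t) ≠ 0 := fun t ht => by
    linarith [(A t ht).2.2.2.2.2.2.2.2.2.2] |> fun h : 0 < rr (G.f t) => h.ne'
  have cq : ContinuousOn (fun t => qc (G.f t) (G.f1 t) B τ) (Icc 0 1) := by
    simp only [qc, dq, mm, inner_Bop]
    exact continuousOn_const.mul ((continuousOn_const.mul ((continuousOn_Gr ce cv cy ne).div cr
      r0)).add ((continuousOn_const.sub ((cv.inner cy).sub (ce.inner cz))).div cr r0))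
  obtain ⟨th, f, sp, h1, h2⟩ := hF (l ^ 32) (fun t => pp (G.f t) τ τ)
    (fun t => qc (G.f t) (G.f1 t) B τ) (by linarith [pl 32]) (continuousOn_Gr ce cy cy ne) cq
    fun t ht => by
      obtain ⟨-, -, -, -, p1, p2, a1, a2, -, a3, a4⟩ := A t ht
      obtain ⟨b1, b2⟩ := q_bd cp mB a3 a1 a2 a4
      refine ⟨by linarith, p2, le_trans (by nlinarith) b1, ?_⟩
      have := mul_le_mul_of_nonneg_left b2 (pow_pos l0 32).le
      exact this.trans (by linarith)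
  obtain ⟨K, hK⟩ : ∃ K, K = l ^ (32 * C + 100) := ⟨_, rfl⟩
  have K1 : l ^ 33 ≤ K := hK ▸ pw (by omega)
  have K2 : 100 ≤ K := by linarith [pw (show 1 ≤ 33 by norm_num), pow_one l]
  have K3 : 2 * l ^ 16 ≤ K := by
    have a : 2 * l ^ 16 ≤ l * l ^ 16 := by gcongr; linarith
    have b : l * l ^ 16 = l ^ 17 := by ring
    linarith [pw (show 17 ≤ 33 by norm_num)]
  have big : ∀ y : ℝ, c / 2 ≤ y → 1 ≤ K * |y| := fun y hy => by
    have : 2 * l ^ 16 * (c / 2) ≤ K * |y| :=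
      mul_le_mul K3 (hy.trans (le_abs_self _)) (by positivity) (by linarith)
    linarith
  rw [abs_le] at mB
  rw [← hK]
  refine ⟨G, B, τ, th, f, same,
    { crv :=
        { T_pos := one_pos
          T_le := le_rfl
          ok := okG
          c0 := c0
          c1 := c1
          b0 := fun t ht => by linarith [(A t ht).1]
          b1 := fun t ht => by linarith [(A t ht).2.1]
          b2 := fun t ht => by rw [(same t ht).2.2]; linarith [f2 t ht]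
          lo := fun t ht x => ((A t ht).2.2.1 x).trans
            (mul_le_mul_of_nonneg_right (by linarith) (norm_nonneg _))
          anti := fun x y => by rw [hB, MH.bop_anti, real_inner_comm]
          bB := by
            rw [hB]
            linarith [MH.norm_bop (A _ hm').1 (A _ hm').2.1]
          dfc := df
          om_lo := fun t ht => ?_ }
      perp := t1
      t_lo := t3
      t_hi := by linarith
      m_lo := big _ (by linarith)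
      sp := sp.monoK (by positivity) (by rw [← pow_mul, hK]; exact pw (by omega))
      md := mul_pos (by linarith) (by linarith)
      d_lo := big _ (by linarith)
      psi := by positivity
      tilt := ?_ }, h1, h2⟩
  · have a := (A t ht).2.2.2.2.2.2.2.2.1
    have b : c ^ 2 ≤ 9 / 10 * (δ * n) ^ 2 := by
      have : (δ * n * κ) ^ 2 ≤ (δ * n * (1 / 100)) ^ 2 := by gcongr
      nlinarith [sq_nonneg (δ * n)]
    have : l ^ 32 * c ^ 2 ≤ K * om (G.f t) (G.f1 t) :=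
      mul_le_mul (by linarith [pw (show 32 ≤ 33 by norm_num)]) (b.trans a) (by positivity)
        (by linarith)
    linarith
  · have e : 1 / (2 * l ^ 2) = 2 * κ := by rw [hκ]; field_simp; norm_num
    rw [e]
    calc _ ≤ (11 / 10 * c) ^ 2 := pow_le_pow_left₀ (by linarith) dB2 2
      _ ≤ (2 * κ) ^ 2 * (9 / 10 * (δ * n) ^ 2) * (9 / 10) := by
          rw [hc]
          nlinarith [sq_nonneg (δ * n * κ)]
      _ ≤ _ := mul_le_mul (mul_le_mul_of_nonneg_left oB (sq_nonneg _)) pB (by norm_num)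
          (mul_nonneg (sq_nonneg _) (le_trans (by positivity) oB))

end Pool.Agent.Lib.MP_fbbbeb_an.D
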