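import Mathlib
import Pool.Agent.Lib.MP_fbbbeb_an.D.Mono
import Pool.Agent.Lib.MP_fbbbeb_an.D.MulH
import Pool.Agent.Lib.MP_fbbbeb_an.Cas.Ev

/-! The growing level on the matrix layer. -/

set_option autoImplicit false

noncomputable section

namespace Pool.Agent.Lib.MP_fbbbeb_an.D

open Set Pool.Agent.Lib.MP_fbbbeb_an.Pub Pool.Agent.Lib.MP_fbbbeb_an.Cas
open scoped RealInnerProductSpace

namespace MGr

/-- the coefficient along `τ` is at most the length of the vector -/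
theorem coef_le {a τ η : E} {α γ : ℝ} (h : η = α • a + γ • τ) (hp : ⟪a, τ⟫ = 0) (h1 : 1 ≤ ‖τ‖) :
    |γ| ≤ ‖η‖ := by
  have e : ⟪η, τ⟫ = γ * ‖τ‖ ^ 2 := by
    rw [h, inner_add_left, real_inner_smul_left, real_inner_smul_left, hp,
      real_inner_self_eq_norm_sq]
    ring
  have h2 := abs_real_inner_le_norm η τ
  rw [e, abs_mul, abs_of_nonneg (sq_nonneg ‖τ‖)] at h2
  have h3 : |γ| * ‖τ‖ ≤ ‖η‖ := by
    have h0 : 0 < ‖τ‖ := by linarith
    refine le_of_mul_le_mul_right ?_ h0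
    nlinarith
  nlinarith [abs_nonneg γ]

/-- a large wave makes the new matrix large -/
theorem wave_le {F G : L3} {η k : E} {K δ : ℝ} (K0 : 0 ≤ K) (lo : ∀ x, ‖x‖ ≤ K * ‖F x‖)
    (hk : ‖k‖ = 1) (hc : ‖G - F * (1 + r1 η k)‖ ≤ δ) : ‖η‖ ≤ 1 + K * (‖G‖ + δ) := by
  have e : (F * (1 + r1 η k)) k = F (k + η) := by
    rw [MH.FH_apply, real_inner_self_eq_norm_sq, hk, map_add]
    simp
  have h1 : ‖F (k + η)‖ ≤ ‖F * (1 + r1 η k)‖ := by
    have := (F * (1 + r1 η k)).le_opNorm k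
    rwa [e, hk, mul_one] at this
  have h2 : ‖F * (1 + r1 η k)‖ ≤ ‖G‖ + δ := by
    have := norm_sub_norm_le (F * (1 + r1 η k)) G
    rw [norm_sub_rev] at hc
    linarith
  have h3 : ‖η‖ ≤ ‖k + η‖ + 1 := by
    have := norm_sub_le (k + η) k
    rwa [add_sub_cancel_left, hk] at this
  have h4 := lo (k + η)
  have h5 := mul_le_mul_of_nonneg_left (h1.trans h2) K0
  linarith

theorem num1 {K A H m : ℝ} (hK : 2 ≤ K) (hA : K ≤ A) (h5 : A * K ^ 5 ≤ H) (h : |m + H| ≤ A) :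
    m ≤ -1 := by
  have h1 := (abs_le.1 h).2
  have h2 : 2 ≤ K ^ 5 := hK.trans (le_self_pow₀ (by linarith) (by norm_num))
  nlinarith

theorem num2 {K A H d n g δ : ℝ} (hK : 2 ≤ K) (hA : K ≤ A) (h5 : A * K ^ 5 ≤ H)
    (hb : H ≤ 2 * A * d) (h3 : d ≤ n * K) (h2 : n ≤ 1 + K * (g + δ)) (d1 : δ ≤ 1) : K ≤ g := by
  by_contra hlt
  push Not at hlt
  have K0 : 0 < K := by linarith
  have h4 : n < 2 * K ^ 2 := by nlinarith
  have h6 : d < 2 * K ^ 3 := by nlinarith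
  have k2 : 4 ≤ K ^ 2 := by nlinarith
  have h7 : 4 * K ^ 3 ≤ K ^ 5 := by nlinarith [pow_pos K0 3]
  nlinarith

theorem num3 {x m n K : ℝ} (hm0 : m ≠ 0) (h1 : |x / m| ≤ n) (hm : |m| ≤ K) : x ≤ n * K :=
  calc x = x / m * m := by field_simp
    _ ≤ |x / m * m| := le_abs_self _
    _ = |x / m| * |m| := abs_mul _ _
    _ ≤ _ := mul_le_mul h1 hm (abs_nonneg _) ((abs_nonneg _).trans h1)

end MGr

theorem mgSt (hN : NwSt) (hG : StepGSt) : MGSt := by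
  obtain ⟨CN, hN⟩ := hN
  obtain ⟨CG, hG⟩ := hG
  obtain ⟨a, ha_def⟩ : ∃ a, a = CN + 1 := ⟨_, rfl⟩
  obtain ⟨C, hC⟩ : ∃ C, C = a * CG + a + 5 := ⟨_, rfl⟩
  refine ⟨C, ?_⟩
  intro K K1 δ εa εn ψ l T t0 F Fn B Bn τ k ν p th f η hK hL hTH hT1 hFn hcl ha hn hδ hl hψ
  have K1' : 1 ≤ K := by linarith
  have K0 : 0 < K := by linarith
  have pK : ∀ {m n : ℕ}, m ≤ n → K ^ m ≤ K ^ n := fun h => pow_le_pow_right₀ K1' h
  have hKC : K ≤ K ^ C := by simpa using pK (show 1 ≤ C by omega)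
  have hKK : K ≤ K1 := hKC.trans (hTH.trans hT1)
  have L1 : 1 ≤ K1 := K1'.trans hKK
  have L0 : 0 < K1 := by linarith
  have pL : ∀ {m n : ℕ}, m ≤ n → K1 ^ m ≤ K1 ^ n := fun h => pow_le_pow_right₀ L1 h
  have e0 : 0 ≤ εa := hL.pack.crv.eps
  have d0 : 0 ≤ δ := e0.trans ha
  have dL : ∀ {m : ℕ}, m ≤ C → δ * K1 ^ m ≤ 1 := fun h =>
    (mul_le_mul_of_nonneg_left (pL h) d0).trans hδ
  have d1 : δ ≤ 1 := by simpa using dL (Nat.zero_le C)
  have TH0 : 0 < th t0 := lt_of_lt_of_le K0 (hKC.trans hTH)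
  obtain ⟨hNw, hcP, hcQ⟩ := hN K K1 δ εa εn ψ 1 T t0 F Fn B Bn τ k ν p th f η hK hKK hL hT1 hFn hcl
    ha hn (dL (by omega))
  obtain ⟨hnw, hperp, hlo, hhi⟩ := hNw (th t0) (by rw [abs_of_pos TH0]; linarith)
  have hKa : K ≤ K ^ a := by simpa using pK (show 1 ≤ a by omega)
  have hLa : K1 ≤ K1 ^ a := by simpa using pL (show 1 ≤ a by omega)
  have hx : (dat T t0 F B τ ν th f).Ok (K ^ a) (K1 ^ a * δ) ψ 1 :=
    hL.dat.monoK K0 hKa (mul_le_mul (hKK.trans hLa) ha e0 (by positivity))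
  have hnw' := hnw.monoK (K' := K ^ a) (K1' := K1 ^ a) (ε' := K1 ^ a * δ) (pK (by omega))
    (by positivity) (pL (by omega)) (mul_le_mul_of_nonneg_right (pL (by omega)) d0)
  have hmap : MapsTo (fun t : ℝ => ((th t0, t) : ℝ × ℝ)) (Icc 0 T) (univ ×ˢ Icc 0 T) :=
    fun t ht => ⟨mem_univ _, ht⟩
  have hcont : ContinuousOn (fun t : ℝ => ((th t0, t) : ℝ × ℝ)) (Icc 0 T) := by fun_prop
  have hcP' : ContinuousOn (fun t => pp (Fn.f t) (tn B τ ν th (th t0)) (tn B τ ν th (th t0)))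
      (Icc 0 T) := by simpa only [Function.comp_def] using hcP.comp hcont hmap
  have hcQ' : ContinuousOn (fun t => qc (Fn.f t) (Fn.f1 t) Bn (tn B τ ν th (th t0)))
      (Icc 0 T) := by simpa only [Function.comp_def] using hcQ.comp hcont hmap
  have hε : K1 ^ a * δ * (K ^ a) ^ CG ≤ 1 := by
    have h1 : (K ^ a) ^ CG ≤ (K1 ^ a) ^ CG := by gcongr
    have h2 : K1 ^ a * δ * (K1 ^ a) ^ CG = δ * K1 ^ (a * CG + a) := by ring
    calc _ ≤ K1 ^ a * δ * (K1 ^ a) ^ CG := mul_le_mul_of_nonneg_left h1 (by positivity)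
      _ ≤ 1 := by rw [h2]; exact dL (by omega)
  obtain ⟨s, t1, Tn, Th, Fl, hsp, hs1, hs2, hTn, hTs, hTh, hD, hD1, hD2, hbig⟩ :=
    hG (dat T t0 F B τ ν th f) (K ^ a) (K1 ^ a) (K1 ^ a * δ) ψ l _ _ _ _ _ (hK.trans hKa) hx hnw'
      hcP' hcQ'
      (by rw [← pow_mul]; exact (pK (by omega)).trans hTH) (hT1.trans hLa) hε hl hψ
  have M0 : 0 < (K1 ^ a) ^ CG := by positivity
  have hM : (K1 ^ a) ^ CG ≤ K1 ^ C := by rw [← pow_mul]; exact pL (by omega)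
  have hLC : K1 ≤ K1 ^ C := by simpa using pL (show 1 ≤ C by omega)
  have hia : 1 / K ^ a ≤ 1 / K := one_div_le_one_div_of_le K0 hKa
  have hiM : 2 / K1 ^ C ≤ 2 / (K1 ^ a) ^ CG := div_le_div_of_nonneg_left (by norm_num) M0 hM
  have h5 : K ^ a * K ^ 5 ≤ th t0 := by
    rw [← pow_add]
    exact (pK (by omega)).trans hTH
  have hmn : mm Bn (tn B τ ν th (th t0)) ≤ -1 := MGr.num1 hK hKa h5 hnw'.m_eq
  have hTn' : Tn ≤ T := hTn
  have hs1' : t0 - 1 / K ^ a < s := hs1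
  refine ⟨s, t1, Tn, tn B τ ν th (th t0), Th, Fl, ?_, by linarith, by linarith, hTn', by linarith,
    hTh, ?_⟩
  · refine ⟨(hFn.restrict (hsp.T_pos M0) hTn').monoK L0 hLC le_rfl, hperp, hlo,
      hhi.trans (pL (by omega)), ?_, hsp.monoK M0 hM, mul_pos_of_neg_of_neg (by linarith) hD,
      one_le_mono hD1 M0 hM, by linarith [hL.pack.psi], hD2⟩
    rw [abs_of_neg (by linarith)]
    exact one_le_mul_of_one_le_of_one_le (L1.trans hLC) (by linarith)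
  · have hsm : s ∈ Icc 0 T := by
      have h1 := hL.pack.sp.inv_le K0
      have h2 := hsp.t0_lt M0
      have h3 : 0 < 2 / (K1 ^ a) ^ CG := by positivity
      exact ⟨by linarith, by linarith⟩
    obtain ⟨α, hα⟩ := hL.dec.2 s hsm
    have h1 := MGr.coef_le hα hL.pack.perp hL.pack.t_lo
    have h2 := MGr.wave_le K0.le (hL.pack.crv.lo s hsm) hL.frm.k_one (hcl s hsm).1
    have hm : |mm B τ| ≤ K := hL.dat.m_hi
    have hm0 : mm B τ ≠ 0 := by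
      intro h
      have := hL.pack.m_lo
      rw [h] at this
      norm_num at this
    exact MGr.num2 hK hKa h5 hbig (MGr.num3 hm0 h1 hm) h2 d1

end Pool.Agent.Lib.MP_fbbbeb_an.D
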