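import Pool.Agent.Lib.MP_fbbbeb_an.D.MDefs
import Pool.Agent.Lib.MP_fbbbeb_an.D.MulH

/-! The ideal new curve `F (1 + η ⊗ k)` is again a curve with almost constant Cauchy invariants. -/

set_option autoImplicit false

noncomputable section

namespace Pool.Agent.Lib.MP_fbbbeb_an.D

open Set Pool.Agent.Lib.MP_fbbbeb_an.Pub Pool.Agent.Lib.MP_fbbbeb_an.Cas
open Pool.Agent.Lib.MP_fbbbeb_an.D.Geo Pool.Agent.Lib.MP_fbbbeb_an.D.MH
open Pool.Agent.Lib.MP_fbbbeb_an.Cas.PioA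
open scoped RealInnerProductSpace

namespace MMu

theorem cont_r1 {S : Set ℝ} {y : ℝ → E} (h : ContinuousOn y S) (k : E) :
    ContinuousOn (fun t => r1 (y t) k) S := by
  have h1 : Continuous fun a : E => r1 a k :=
    ((InnerProductSpace.rankOne ℝ (E := E) (F := E)).flip k).continuous
  exact h1.comp_continuousOn h

theorem f_a0 (F : Cv L3) (η : Cv E) {k : E} (hk : ⟪k, a0⟫ = 0) (t : ℝ) :
    (mulH F η k).f t a0 = F.f t a0 := by
  simp only [mulH, FH_apply, hk, zero_smul, add_zero]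

theorem f1_a0 (F : Cv L3) (η : Cv E) {k : E} (hk : ⟪k, a0⟫ = 0) (t : ℝ) :
    (mulH F η k).f1 t a0 = F.f1 t a0 := by
  simp only [mulH, add_apply, FH_apply, Fr_apply, hk, zero_smul, add_zero]

theorem om_mulH (F : Cv L3) (η : Cv E) {k : E} (hk : ⟪k, a0⟫ = 0) (t : ℝ) :
    om ((mulH F η k).f t) ((mulH F η k).f1 t) = om (F.f t) (F.f1 t) := by
  simp only [om, rr, f_a0 F η hk, f1_a0 F η hk]

theorem om_nonneg (F F1 : L3) : 0 ≤ om F F1 := div_nonneg (Gr_nonneg _ _) (sq_nonneg _)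

theorem bx_anti {B : L3} (h : ∀ x y, ⟪x, B y⟫ = -⟪B x, y⟫) (k p x y : E) :
    ⟪x, Bx B k p y⟫ = -⟪Bx B k p x, y⟫ := by
  simp only [Bx, sub_apply, add_apply, r1_apply,
    inner_sub_right, inner_add_right, inner_sub_left, inner_add_left, real_inner_smul_left,
    real_inner_smul_right, h x y]
  rw [real_inner_comm k x, real_inner_comm p x]
  ring

/-- exact form of the new defect -/
theorem bop_bx {F F1 B : L3} {η η1 k p : E} {K : ℝ} (lo : ∀ x, ‖x‖ ≤ K * ‖F x‖)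
    (h : η1 = Pio F k (B η + p)) :
    Bop (F * (1 + r1 η k)) (F1 * (1 + r1 η k) + F * r1 η1 k) - Bx B k p =
      (Bop F F1 - B) - r1 k ((Bop F F1 - B) η) + r1 ((Bop F F1 - B) η) k := by
  obtain ⟨s, hs⟩ := pio_eq lo k (B η + p)
  have e1 : (star F * F) η1 - Bop F F1 η - p = s • k + -((Bop F F1 - B) η) := by
    rw [h, hs, sub_apply]
    abel
  rw [bop_mulH e1, Bx]
  ext x : 1
  simp only [sub_apply, add_apply, r1_apply,
    inner_add_left, inner_neg_left]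
  module

end MMu

open MMu in
theorem mulSt : MulSt := by
  refine ⟨6, fun K ε T F B k p η w hK hF hη hw hk ha => ?_⟩
  have K0 : 0 ≤ K := by linarith
  have hk1 : ‖k‖ ≤ 1 := hk.le
  have hs : Ioo 0 T ⊆ Icc 0 T := Ioo_subset_Icc_self
  have bz : ∀ t ∈ Icc 0 T, K * w t ≤ K ^ 2 := fun t ht => by nlinarith [hw t ht]
  have z0 : ∀ t ∈ Icc 0 T, ‖η.f t‖ ≤ K ^ 2 := fun t ht => (hη.b0 t ht).trans (bz t ht)
  have z1 : ∀ t ∈ Icc 0 T, ‖η.f1 t‖ ≤ K ^ 2 := fun t ht => (hη.b1 t ht).trans (bz t ht)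
  have z2 : ∀ t ∈ Ioo 0 T, ‖η.f2 t‖ ≤ K ^ 2 := fun t ht => (hη.b2 t ht).trans (bz t (hs ht))
  have h0 : (0 : ℝ) ∈ Icc 0 T := ⟨le_rfl, hF.T_pos.le⟩
  have zp : ‖p‖ ≤ K ^ 2 := (hη.bp 0 h0).trans (bz 0 h0)
  have k2 : 4 ≤ K ^ 2 := by nlinarith
  have k3 : 2 * K ^ 2 ≤ K ^ 3 := by nlinarith
  have kk : K ≤ K ^ 2 := by nlinarith
  have k6 : 8 * K ^ 3 ≤ K ^ 6 := by
    have : (8 : ℝ) ≤ K ^ 3 := by linarith
    nlinarith
  have e0 : 0 ≤ ε := (norm_nonneg _).trans (hF.dfc 0 h0)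
  refine ⟨hF.T_pos, hF.T_le, mulH_ok hF.ok hη.ok k, ?_, ?_, fun t ht => ?_, fun t ht => ?_,
    fun t ht => ?_, fun t ht x => ?_, bx_anti hF.anti k p, ?_, fun t ht => ?_, fun t ht => ?_⟩
  · exact hF.c0.mul (continuousOn_const.add (cont_r1 hη.c0 k))
  · exact (hF.c1.mul (continuousOn_const.add (cont_r1 hη.c0 k))).add (hF.c0.mul (cont_r1 hη.c1 k))
  · have := nmul (hF.b0 t ht) (norm_H (z0 t ht) hk1)
    simp only [Cas.mulH]
    nlinarith
  · have := (norm_add_le _ _).trans (add_le_add (nmul (hF.b1 t ht) (norm_H (z0 t ht) hk1))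
      (nmul (hF.b0 t ht) (nr1 (z1 t ht) hk1)))
    simp only [Cas.mulH]
    nlinarith
  · have t2 : ‖(2 : ℝ) • (F.f1 t * r1 (η.f1 t) k)‖ ≤ 2 * (K * (K ^ 2 * 1)) := by
      rw [norm_smul, Real.norm_two]
      exact mul_le_mul_of_nonneg_left (nmul (hF.b1 t (hs ht)) (nr1 (z1 t (hs ht)) hk1)) zero_le_two
    have := (norm_add_le _ _).trans (add_le_add ((norm_add_le _ _).trans (add_le_add
      (nmul (hF.b2 t ht) (norm_H (z0 t (hs ht)) hk1)) t2))
      (nmul (hF.b0 t (hs ht)) (nr1 (z2 t ht) hk1)))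
    simp only [Cas.mulH]
    nlinarith
  · refine (lower_FH (hF.lo t ht) (hη.perp t ht) (z0 t ht) hk1 x).trans
      (mul_le_mul_of_nonneg_right ?_ (norm_nonneg _))
    nlinarith
  · have := (norm_sub_le _ _).trans (add_le_add ((norm_add_le _ _).trans
      (add_le_add hF.bB (nr1 hk1 zp))) (nr1 zp hk1))
    simp only [Bx]
    nlinarith
  · have e1 := bop_bx (F1 := F.f1 t) (hF.lo t ht) (hη.eqn t ht)
    have a1 := napp (hF.dfc t ht) (z0 t ht)
    have := (norm_add_le _ _).trans (add_le_add ((norm_sub_le _ _).trans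
      (add_le_add (hF.dfc t ht) (nr1 hk1 a1))) (nr1 a1 hk1))
    rw [← e1] at this
    refine this.trans ?_
    have : 1 + 2 * K ^ 2 ≤ K ^ 6 := by nlinarith
    nlinarith
  · rw [om_mulH F η ha]
    refine (hF.om_lo t ht).trans (mul_le_mul_of_nonneg_right ?_ (om_nonneg _ _))
    nlinarith

end Pool.Agent.Lib.MP_fbbbeb_an.D
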