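import Mathlib
import Pool.Agent.Lib.MP_fbbbeb_an.D.MDefs
import Pool.Agent.Lib.MP_fbbbeb_an.D.MulH

/-! The true wave is close to the ideal wave. -/

set_option autoImplicit false

noncomputable section

namespace Pool.Agent.Lib.MP_fbbbeb_an.D

open Set Filter Topology Pool.Agent.Lib.MP_fbbbeb_an.Pub Pool.Agent.Lib.MP_fbbbeb_an.Cas
open Pool.Agent.Lib.MP_fbbbeb_an.Cas.PioA Pool.Agent.Lib.MP_fbbbeb_an.D.MH
open scoped RealInnerProductSpace

theorem nearSt : NearSt := by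
  refine ⟨48, fun K δ T T' F G Fn B k p η ηi th w hK hG hI hT hw hk hF hcl hP hW hn hδ t ht => ?_⟩
  have K1 : 1 ≤ K := by linarith
  have K0 : 0 < K := by linarith
  have pw : ∀ {a b : ℕ}, a ≤ b → K ^ a ≤ K ^ b := fun h => pow_le_pow_right₀ K1 h
  have pl : ∀ (c : ℝ) (a b n : ℕ), a + b = n → c ≤ 2 ^ b → c * K ^ a ≤ K ^ n :=
    fun c a b n h hc => h ▸ pw_le hK c a b hc
  have k0 : k ≠ 0 := by rintro rfl; simp at hk
  have sub : ∀ u ∈ Ioo 0 T', u ∈ Ioo 0 T := fun u hu => ⟨hu.1, hu.2.trans_le hT⟩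
  have sub' : ∀ u ∈ Ioo 0 T', u ∈ Icc 0 T := fun u hu => Ioo_subset_Icc_self (sub u hu)
  have d0 : 0 ≤ δ := (norm_nonneg _).trans (hcl t ht).1
  have KK : 2 * K ≤ K ^ 2 := by nlinarith
  have K2 : 2 ≤ K ^ 2 := by linarith
  have KL : K ≤ K ^ 2 := by linarith
  have d2 : 2 * K * δ ≤ 1 := by
    have := mul_le_mul_of_nonneg_left (KK.trans (pw (by norm_num : 2 ≤ 48))) d0
    linarith
  have d1 : δ ≤ 1 := by nlinarith
  have tw : ∀ u ∈ Ioo 0 T', K * th u ≤ K ^ 2 * w u := fun u hu => by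
    have := mul_le_mul_of_nonneg_left (hw u hu).1 K0.le
    linarith
  have w0 : ∀ u ∈ Ioo 0 T', 0 ≤ w u := fun u hu =>
    nonneg_of_mul_nonneg_right (((norm_nonneg _).trans (hI.b0 u (sub' u hu))).trans (tw u hu))
      (by positivity)
  have hB : Bd T' (K ^ 2) F :=
    ⟨fun u hu => (le_of_near (hG.b0 u (sub' u hu)) (hcl u hu).1).trans (by linarith),
      fun u hu => (le_of_near (hG.b1 u (sub' u hu)) (hcl u hu).2.1).trans (by linarith),
      fun u hu => (hcl u hu).2.2.trans KL,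
      fun u hu x => (lower_near (hG.lo u (sub' u hu)) K0.le (hcl u hu).1 d2 x).trans
        (mul_le_mul_of_nonneg_right KK (norm_nonneg _))⟩
  have hP2 := hP.mono KL
  obtain ⟨s, e, e1, hv, he⟩ := wave_iff.1 hW
  have hs : ∀ u ∈ Ioo 0 T', ∃ c : ℝ, (star (G.f u) * G.f u) (ηi.f1 u) -
      Bop (G.f u) (G.f1 u) (ηi.f u) - p = c • k + (B - Bop (G.f u) (G.f1 u)) (ηi.f u) := by
    intro u hu
    obtain ⟨c, hc⟩ := (pioSt.1 (G.f u) k K K0 (hG.lo u (sub' u hu)) k0).2.1 (B (ηi.f u) + p)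
    refine ⟨c, ?_⟩
    rw [hI.eqn u (sub' u hu), hc, sub_apply]
    abel
  choose! s' hs' using hs
  have z0 : Tendsto ηi.f (𝓝[>] 0) (𝓝 0) := by
    have := (hI.c0 0 ⟨le_rfl, hG.T_pos.le⟩).tendsto
    rw [hI.zero] at this
    exact this.mono_left (nhdsWithin_le_iff.2 (Icc_mem_nhdsGT hG.T_pos))
  obtain ⟨c0, c1⟩ := close01 (T := T') (k := k) (p := p) (y := η.f) (y1 := η.f1) (z := ηi.f)
    (z1 := ηi.f1) (e := e) (e' := fun u => (B - Bop (G.f u) (G.f1 u)) (ηi.f u)) (F := F.f)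
    (F1 := F.f1) (G := G.f) (G1 := G.f1) (s := s) (s' := s') (w := w) (Z := K ^ 2) (δ := δ)
    (ε := δ * K ^ 2) K2 hk hP2 (by positivity) d0 (by positivity)
    (fun u hu => ⟨hB.b0 u hu, hB.b1 u hu, hB.lo u hu⟩)
    (fun u hu => ⟨(hG.b0 u (sub' u hu)).trans KL, (hG.b1 u (sub' u hu)).trans KL, fun x =>
      (hG.lo u (sub' u hu) x).trans (mul_le_mul_of_nonneg_right KL (norm_nonneg _))⟩)
    (fun u hu => ⟨(hcl u hu).1, (hcl u hu).2.1⟩)
    (fun u hu => ⟨(hv.ok u hu).1, hv.perp u hu, hv.eq u hu⟩)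
    (fun u hu => ⟨(hI.ok u (sub u hu)).1, hI.perp u (sub' u hu), hs' u hu⟩) hv.zero z0
    (fun u hu => ⟨(hI.b0 u (sub' u hu)).trans (tw u hu), (hI.bp u (sub' u hu)).trans (tw u hu),
      (he u hu).1.trans (mul_le_mul_of_nonneg_right (le_mul_of_one_le_right d0 (by linarith))
        (w0 u hu)), by
      rw [mul_assoc]
      exact napp (by rw [norm_sub_rev]; exact hG.dfc u (sub' u hu))
        ((hI.b0 u (sub' u hu)).trans (tw u hu))⟩) t ht
  have x1 : (δ * K ^ 2 + δ * K ^ 2) * w t ≤ K ^ 4 * δ := by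
    have h1 := mul_le_mul_of_nonneg_left (hw t ht).2 (show 0 ≤ δ * K ^ 2 + δ * K ^ 2 by positivity)
    have h2 := mul_le_mul_of_nonneg_right (pl 2 3 1 4 rfl (by norm_num)) d0
    linarith
  have c0' : ‖η.f t - ηi.f t‖ ≤ K ^ 44 * δ := by
    have h1 := mul_le_mul_of_nonneg_left x1 (show 0 ≤ (K ^ 2) ^ 14 by positivity)
    have h2 := mul_le_mul_of_nonneg_right (pw (by norm_num : 32 ≤ 44)) d0
    linarith
  have c1' : ‖η.f1 t - ηi.f1 t‖ ≤ K ^ 44 * δ := by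
    have h1 := mul_le_mul_of_nonneg_left x1 (show 0 ≤ (K ^ 2) ^ 20 by positivity)
    linarith
  have t3 : K * th t ≤ K ^ 3 := by
    have := mul_le_mul_of_nonneg_left (hw t ht).2 (show 0 ≤ K ^ 2 by positivity)
    linarith [tw t ht]
  obtain ⟨a0, a1⟩ := mulH_near01 (F := F) (G := G) (η := η) (η' := ηi) hk.le (hB.b0 t ht)
    (hB.b1 t ht) ((hI.b0 t (sub' t ht)).trans t3) ((hI.b1 t (sub' t ht)).trans t3) (hcl t ht).1
    (hcl t ht).2.1 c0' c1'
  obtain ⟨n0, n1, n2⟩ := hn t ht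
  have q : (2 * K ^ 46 + 2 + 2 * K ^ 3) * δ ≤ K ^ 48 * δ := by
    refine mul_le_mul_of_nonneg_right ?_ d0
    have h1 := pl 4 46 2 48 rfl (by norm_num)
    have h2 := pl 2 3 1 4 rfl (by norm_num)
    have h3 := pw (by norm_num : 4 ≤ 46)
    have h4 := pw (by norm_num : 2 ≤ 46)
    linarith
  have p1 : 0 ≤ K ^ 46 * δ := by positivity
  have p2 : 0 ≤ K ^ 3 * δ := by positivity
  refine ⟨(norm_sub_le_norm_sub_add_norm_sub _ _ _).trans ((add_le_add n0 a0).trans (by linarith)),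
    (norm_sub_le_norm_sub_add_norm_sub _ _ _).trans ((add_le_add n1 a1).trans (by linarith)), ?_⟩
  have sz := hv.size hF (c := 2 * K ^ 2) K2 hB k0 hP2 (by positivity) fun u hu => by
    have h1 := (hI.bp u (sub' u hu)).trans (tw u hu)
    have h2 : δ * w u ≤ K ^ 2 * w u := mul_le_mul_of_nonneg_right (by linarith) (w0 u hu)
    have h3 : 0 ≤ K ^ 2 * w u := mul_nonneg (by positivity) (w0 u hu)
    exact ⟨(norm_add_le _ _).trans (by linarith [(he u hu).1]), by linarith [(he u hu).2]⟩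
  have hZ : ∀ u ∈ Ioo 0 T', ‖η.f u‖ ≤ K ^ 34 ∧ ‖η.f1 u‖ ≤ K ^ 34 ∧ ‖η.f2 u‖ ≤ K ^ 34 := by
    intro u hu
    obtain ⟨b0, b1, b2⟩ := sz u hu
    have h1 : 2 * K ^ 2 * w u ≤ K ^ 4 := by
      have := mul_le_mul_of_nonneg_left (hw u hu).2 (show 0 ≤ 2 * K ^ 2 by positivity)
      have := pl 2 3 1 4 rfl (by norm_num)
      linarith
    have h2 := mul_le_mul_of_nonneg_left h1 (show 0 ≤ (K ^ 2) ^ 3 by positivity)
    have h3 := mul_le_mul_of_nonneg_left h1 (show 0 ≤ (K ^ 2) ^ 9 by positivity)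
    have h4 := mul_le_mul_of_nonneg_left h1 (show 0 ≤ (K ^ 2) ^ 15 by positivity)
    have h5 := pw (by norm_num : 10 ≤ 34)
    have h6 := pw (by norm_num : 22 ≤ 34)
    exact ⟨by linarith, by linarith, by linarith⟩
  have m2 := (hB.mulH hk.le hv.perp hZ).b2 t ht
  have h1 := pl 6 36 3 39 rfl (by norm_num)
  have h2 := pw (by norm_num : 2 ≤ 36)
  have h3 := pw (by norm_num : 39 ≤ 48)
  exact (le_of_near m2 n2).trans (by linarith)

end Pool.Agent.Lib.MP_fbbbeb_an.D
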