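import Mathlib
import Pool.Agent.Lib.MP_fbbbeb_an.D.MDefs
import Pool.Agent.Lib.MP_fbbbeb_an.D.MMul
import Pool.Agent.Lib.MP_fbbbeb_an.D.Mono
import Pool.Agent.Lib.MP_fbbbeb_an.Cas.Ev

/-! The coefficients of the next level. -/

set_option autoImplicit false

noncomputable section

namespace Pool.Agent.Lib.MP_fbbbeb_an.D

open Set Pool.Agent.Lib.MP_fbbbeb_an.Pub Pool.Agent.Lib.MP_fbbbeb_an.Cas
open Pool.Agent.Lib.MP_fbbbeb_an.D.Geo Pool.Agent.Lib.MP_fbbbeb_an.Cas.PioA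
open scoped RealInnerProductSpace

namespace MNw

theorem quot {A r r' N N' u v w : ℝ} (hA : 0 < A) (hr : 1 ≤ A * r) (hr' : 1 ≤ A * r')
    (hu : |N - N'| ≤ u) (hv : |N'| ≤ v) (hw : |r - r'| ≤ w) :
    |N / r - N' / r'| ≤ A * u + A * A * v * w := by
  have r0 : 0 < r := pos_of_mul_pos_left' hr hA
  have r0' : 0 < r' := pos_of_mul_pos_left' hr' hA
  have i1 : r⁻¹ ≤ A := by rw [inv_le_iff_one_le_mul₀ r0]; exact hr
  have i2 : r'⁻¹ ≤ A := by rw [inv_le_iff_one_le_mul₀ r0']; exact hr'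
  have e : N / r - N' / r' = r⁻¹ * (N - N') - r⁻¹ * r'⁻¹ * N' * (r - r') := by field_simp; ring
  rw [e]
  refine (abs_sub _ _).trans (add_le_add ?_ ?_)
  · rw [abs_mul, abs_of_pos (inv_pos.2 r0)]
    exact mul_le_mul i1 hu (abs_nonneg _) hA.le
  · rw [abs_mul, abs_mul, abs_of_pos (mul_pos (inv_pos.2 r0) (inv_pos.2 r0'))]
    have v0 : 0 ≤ v := (abs_nonneg _).trans hv
    gcongr
where pos_of_mul_pos_left' {A r : ℝ} (h : 1 ≤ A * r) (hA : 0 < A) : 0 < r := by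
        by_contra hc
        have := mul_nonpos_of_nonneg_of_nonpos hA.le (not_lt.1 hc)
        linarith

theorem rr_eq (F : L3) : rr F = ‖F a0‖ ^ 2 := real_inner_self_eq_norm_sq _

theorem rr_lo {F : L3} {R : ℝ} (h : 1 ≤ R * ‖F a0‖) : 1 ≤ R ^ 2 * rr F := by
  rw [rr_eq, ← mul_pow]; exact one_le_pow₀ h

theorem div_le {N r v R : ℝ} (hR : 0 < R) (hr : 1 ≤ R * r) (hv : |N| ≤ v) : |N / r| ≤ R * v := by
  have := quot (N' := 0) (r' := r) (v := 0) (w := 0) hR hr hr (by simpa using hv) (by simp) (by simp)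
  simpa using this

theorem ap0 {F : L3} {a : ℝ} (h : ‖F‖ ≤ a) : ‖F a0‖ ≤ a := by
  simpa using napp h norm_a0.le

theorem mm_le {B : L3} {x : E} {a b : ℝ} (h : ‖B‖ ≤ a) (hx : ‖x‖ ≤ b) : |mm B x| ≤ a * b := by
  have := abs_real_inner_le_norm a0 (B x)
  rw [norm_a0, one_mul] at this
  exact this.trans (napp h hx)

theorem mm_sub (B B' : L3) (x : E) : mm B x - mm B' x = mm (B - B') x := by
  simp only [mm, sub_apply, inner_sub_right]

theorem up {R δ x : ℝ} (hR : 32 ≤ R) (hδ : 0 ≤ δ) (n : ℕ) (h : x ≤ 32 * (R ^ n * δ)) :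
    x ≤ R ^ (n + 1) * δ := by
  have : 0 ≤ R ^ n * δ := by positivity
  calc x ≤ R * (R ^ n * δ) := h.trans (mul_le_mul_of_nonneg_right hR this)
    _ = _ := by ring

theorem pert {F F1 G G1 : L3} {x : E} {R δ : ℝ} (hR : 32 ≤ R) (hF : ‖F‖ ≤ R) (hF1 : ‖F1‖ ≤ R)
    (hG : ‖G‖ ≤ R) (hG1 : ‖G1‖ ≤ R) (hx : ‖x‖ ≤ R) (lF : 1 ≤ R * ‖F a0‖) (lG : 1 ≤ R * ‖G a0‖)
    (d0 : ‖F - G‖ ≤ δ) (d1 : ‖F1 - G1‖ ≤ δ) :
    |pp F x x - pp G x x| ≤ R ^ 11 * δ ∧ |dq F F1 x - dq G G1 x| ≤ R ^ 11 * δ ∧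
      |om F F1 - om G G1| ≤ R ^ 11 * δ ∧ ‖Bop F F1 - Bop G G1‖ ≤ R ^ 2 * δ := by
  have δ0 : 0 ≤ δ := (norm_nonneg _).trans d0
  have R1 : 1 ≤ R := by linarith
  have R0 : 0 < R := by linarith
  have pw : ∀ {a b : ℕ}, a ≤ b → R ^ a * δ ≤ R ^ b * δ := fun h =>
    mul_le_mul_of_nonneg_right (pow_le_pow_right₀ R1 h) δ0
  have nn : ∀ a : ℕ, 0 ≤ R ^ a * δ := fun a => by positivity
  have e0 : ‖F a0 - G a0‖ ≤ δ := by rw [← sub_apply]; exact ap0 d0
  have e1 : ‖F1 a0 - G1 a0‖ ≤ δ := by rw [← sub_apply]; exact ap0 d1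
  have ex : ‖F x - G x‖ ≤ δ * R := by rw [← sub_apply]; exact napp d0 hx
  have fx := napp hF hx
  have gx := napp hG hx
  have hw : |rr F - rr G| ≤ 2 * R * δ := by
    rw [rr_eq, rr_eq, sq_sub_sq, abs_mul]
    refine mul_le_mul ?_ ((abs_norm_sub_norm_le _ _).trans e0) (abs_nonneg _) (by positivity)
    rw [abs_of_nonneg (by positivity)]
    linarith [ap0 hF, ap0 hG]
  have A0 : 0 < R ^ 2 := by positivity
  refine ⟨?_, ?_, ?_, ?_⟩
  · have h := Gr_lip lF lG e0 ex ex gx fx gx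
    refine (up hR δ0 5 (h.trans ?_)).trans (pw (by norm_num))
    have := pw (a := 3) (b := 5) (by norm_num)
    have := nn 5
    linarith
  · have h := quot A0 (rr_lo lF) (rr_lo lG) (Gr_lip lF lG e0 e1 ex (ap0 hG1) fx gx)
      (abs_Gr_le' _ (ap0 hG1) gx) hw
    refine (up hR δ0 8 (h.trans ?_)).trans (pw (by norm_num))
    have := pw (a := 4) (b := 8) (by norm_num)
    have := pw (a := 6) (b := 8) (by norm_num)
    have := nn 8
    linarith
  · have h := quot A0 (rr_lo lF) (rr_lo lG)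
      (Gr_lip lF lG e0 e1 e1 (ap0 hG1) (ap0 hF1) (ap0 hG1)) (abs_Gr_le' _ (ap0 hG1) (ap0 hG1)) hw
    have h2 := quot A0 (rr_lo lF) (rr_lo lG) h
      (div_le A0 (rr_lo lG) (abs_Gr_le' (G a0) (ap0 hG1) (ap0 hG1))) hw
    simp only [div_div, ← sq] at h2
    refine (up hR δ0 9 (h2.trans ?_)).trans (pw (by norm_num))
    have := pw (a := 5) (b := 9) (by norm_num)
    have := pw (a := 7) (b := 9) (by norm_num)
    have := nn 9
    linarith
  · have e : Bop F F1 - Bop G G1 = (star (F1 - G1) * F + star G1 * (F - G)) -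
        (star (F - G) * F1 + star G * (F1 - G1)) := by
      simp only [Bop, star_sub', sub_mul, mul_sub]; abel
    rw [e]
    have a1 := nmul ((nstar _).trans_le d1) hF
    have a2 := nmul ((nstar _).trans_le hG1) d0
    have a3 := nmul ((nstar _).trans_le d0) hF1
    have a4 := nmul ((nstar _).trans_le hG) d1
    refine up hR δ0 1 ((norm_sub_le _ _).trans
      ((add_le_add (norm_add_le _ _) (norm_add_le _ _)).trans ?_))
    have := nn 1
    linarith

theorem q_bd {F F1 B : L3} {x : E} {R ε : ℝ} (hR : 32 ≤ R) (hF : ‖F‖ ≤ R) (hF1 : ‖F1‖ ≤ R)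
    (hB : ‖B‖ ≤ R) (hx : ‖x‖ ≤ R) (lF : 1 ≤ R * ‖F a0‖) (hd : ‖Bop F F1 - B‖ ≤ ε) (h1 : ε ≤ 1) :
    |qc F F1 B x + 2 * mm B x * dq F F1 x| ≤ R ^ 5 * ε ∧ |qc F F1 B x| ≤ R ^ 8 := by
  have ε0 : 0 ≤ ε := (norm_nonneg _).trans hd
  have R0 : 0 < R := by linarith
  have A0 : 0 < R ^ 2 := by positivity
  have m1 := mm_le hB hx
  have m2 : |(mm B x - mm (Bop F F1) x) / rr F| ≤ R ^ 2 * (ε * R) :=
    div_le A0 (rr_lo lF) (by rw [abs_sub_comm, mm_sub]; exact mm_le hd hx)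
  have m3 : |dq F F1 x| ≤ R ^ 2 * (R * (R * R)) :=
    div_le A0 (rr_lo lF) (abs_Gr_le' _ (ap0 hF1) (napp hF hx))
  have e : qc F F1 B x + 2 * mm B x * dq F F1 x = -(mm B x * ((mm B x - mm (Bop F F1) x) / rr F)) := by
    rw [qc]; ring
  have k1 : |qc F F1 B x + 2 * mm B x * dq F F1 x| ≤ R ^ 5 * ε := by
    rw [e, abs_neg, abs_mul]
    exact (mul_le_mul m1 m2 (abs_nonneg _) (by positivity)).trans_eq (by ring)
  refine ⟨k1, ?_⟩
  have k2 : |mm B x * dq F F1 x| ≤ R ^ 7 := by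
    rw [abs_mul]
    exact (mul_le_mul m1 m3 (abs_nonneg _) (by positivity)).trans_eq (by ring)
  have k3 : R ^ 5 * ε ≤ R ^ 7 :=
    (mul_le_of_le_one_right (by positivity) h1).trans (pow_le_pow_right₀ (by linarith) (by norm_num))
  have k4 : 3 * R ^ 7 ≤ R ^ 8 := by
    simpa using up hR zero_le_one 7 (x := 3 * R ^ 7) (by have := pow_pos R0 7; linarith)
  have k5 := pow_pos R0 7
  rw [mul_assoc] at k1
  obtain ⟨a1, a2⟩ := abs_le.1 k1
  obtain ⟨b1, b2⟩ := abs_le.1 k2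
  rw [abs_le]
  constructor <;> linarith

end MNw

open MNw in
theorem nwSt0 : NwSt := by
  refine ⟨70, ?_⟩
  intro K K1 δ εa εn ψ S T t0 F Fn B Bn τ k ν p th f η hK hK1 hL hth hC hcl ha hn hδ
  have K0 : 0 < K := by linarith
  have K12 : 2 ≤ K1 := hK.trans hK1
  have K11 : 1 ≤ K1 := by linarith
  have K10 : 0 < K1 := by linarith
  have cF := hL.pack.crv
  have sp := hL.pack.sp
  have δ0 : 0 ≤ δ := hC.eps.trans hn
  obtain ⟨R, hR⟩ : ∃ R : ℝ, R = K1 ^ 5 := ⟨_, rfl⟩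
  have R32 : 32 ≤ R := by
    rw [hR]; exact le_trans (by norm_num) (pow_le_pow_left₀ (by norm_num) K12 5)
  have c3 : K1 ≤ K1 ^ 3 := le_self_pow₀ K11 (by norm_num)
  have R4 : 4 * K1 ^ 3 ≤ R := by
    have : 4 ≤ K1 ^ 2 := by nlinarith
    calc 4 * K1 ^ 3 ≤ K1 ^ 2 * K1 ^ 3 := mul_le_mul_of_nonneg_right this (by positivity)
      _ = R := by rw [hR]; ring
  have KR : K1 ≤ R := by linarith
  have Rp : ∀ {n : ℕ}, n ≤ 14 → R ^ n ≤ K1 ^ 70 := fun h => by
    rw [hR, ← pow_mul]; exact pow_le_pow_right₀ K11 (by omega)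
  have Rd : ∀ {n : ℕ}, n ≤ 14 → R ^ n * δ ≤ K1 ^ 70 * δ := fun h =>
    mul_le_mul_of_nonneg_right (Rp h) δ0
  have Rd1 : ∀ {n : ℕ}, n ≤ 14 → R ^ n * δ ≤ 1 := fun h => (Rd h).trans (by linarith)
  have δ1 : δ ≤ 1 := by simpa using Rd1 (n := 0) (by norm_num)
  have z0 : (0 : ℝ) ∈ Icc 0 T := ⟨le_rfl, cF.T_pos.le⟩
  have m0 : mm B τ ≠ 0 := fun h => by have := hL.pack.m_lo; rw [h] at this; norm_num at this
  have th0 : 0 < th 0 := sp.pos 0 z0
  have th1 : th 0 ≤ K1 := by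
    have h1 := sp.drop
    have h2 : 0 ≤ 1 / K * th t0 := (mul_pos (one_div_pos.2 K0) (sp.TH_pos K0)).le
    linarith
  have lF : ∀ t ∈ Icc 0 T, 1 ≤ R * ‖Fn.f t a0‖ := fun t ht => by
    have := hC.lo t ht a0
    rw [norm_a0] at this
    exact this.trans (mul_le_mul_of_nonneg_right KR (norm_nonneg _))
  have lG : ∀ t ∈ Icc 0 T, 1 ≤ R * ‖(mulH F η k).f t a0‖ := fun t ht => by
    have := cF.lo t ht a0
    rw [norm_a0] at this
    rw [MMu.f_a0 F η hL.frm.k_a]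
    exact this.trans (mul_le_mul_of_nonneg_right (hK1.trans KR) (norm_nonneg _))
  have near : ∀ {X Y : L3}, ‖X‖ ≤ K1 → ‖X - Y‖ ≤ δ → ‖Y‖ ≤ R := fun {X Y} h1 h2 => by
    have := norm_sub_le X (X - Y)
    rw [sub_sub_cancel] at this
    linarith
  have ne0 : ∀ t ∈ Icc 0 T, Fn.f t a0 ≠ 0 := fun t ht h => by
    have := lF t ht; rw [h] at this; norm_num at this
  refine ⟨fun L hLb => ?_, ?_, ?_⟩
  · obtain ⟨x, hx⟩ : ∃ x, x = tn B τ ν th L := ⟨_, rfl⟩
    rw [← hx]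
    have kx : ⟪k, x⟫ = 1 := by
      rw [hx, tn, inner_sub_right, real_inner_smul_right, hL.frm.k_n, hL.frm.k_t]; ring
    have ax : ⟪a0, x⟫ = 0 := by
      rw [hx, tn, inner_sub_right, real_inner_smul_right, hL.frm.n_a, hL.pack.perp]; ring
    have x1 : 1 ≤ ‖x‖ := by
      have := abs_real_inner_le_norm k x
      rwa [kx, hL.frm.k_one, abs_one, one_mul] at this
    have xR : ‖x‖ ≤ R := by
      have h1 : |(L - th 0) / mm B τ| ≤ K * (3 * K1) := by
        rw [abs_div]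
        refine (le_abs_self _).trans (div_le K0 hL.pack.m_lo ?_)
        rw [abs_abs]
        have := abs_sub L (th 0)
        rw [abs_of_pos th0] at this
        linarith
      have h2 : ‖((L - th 0) / mm B τ) • τ‖ ≤ K1 * (3 * K1) * K1 := by
        rw [norm_smul, Real.norm_eq_abs]
        exact mul_le_mul (h1.trans (mul_le_mul_of_nonneg_right hK1 (by positivity)))
          (hL.pack.t_hi.trans hK1) (norm_nonneg _) (by positivity)
      have h3 := norm_sub_le ν (((L - th 0) / mm B τ) • τ)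
      have h4 := hL.frm.n_hi
      rw [hx, tn]
      linarith
    have gx : ∀ t ∈ Icc 0 T, ∃ α : ℝ, (mulH F η k).f t x =
        F.f t ν - ((L - th t) / mm B τ) • F.f t τ + α • F.f t a0 := fun t ht => by
      obtain ⟨α, hα⟩ := hL.dec.2 t ht
      refine ⟨α, ?_⟩
      show (F.f t * (1 + r1 (η.f t) k)) x = _
      rw [MH.FH_apply, kx, one_smul, hα, hx, tn]
      simp only [map_sub, map_add, map_smul]
      have e : (L - th t) / mm B τ = (L - th 0) / mm B τ - (th t - th 0) / mm B τ := by ring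
      rw [e, sub_smul]
      abel
    have pt := fun t (ht : t ∈ Icc 0 T) => pert R32 ((hC.b0 t ht).trans KR) ((hC.b1 t ht).trans KR)
      (near (hC.b0 t ht) (hcl t ht).1) (near (hC.b1 t ht) (hcl t ht).2) xR (lF t ht) (lG t ht)
      (hcl t ht).1 (hcl t ht).2
    have qt := fun t (ht : t ∈ Icc 0 T) => q_bd R32 ((hC.b0 t ht).trans KR) ((hC.b1 t ht).trans KR)
      (hC.bB.trans KR) xR (lF t ht) ((hC.dfc t ht).trans hn) δ1
    refine ⟨⟨fun t ht => ?_, fun t ht => ?_, fun t ht => (qt t ht).1.trans (Rd (by norm_num)),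
      fun t ht => ?_, ?_, fun t ht => ?_, fun t ht => ?_,
      fun t ht => (qt t ht).2.trans (Rp (by norm_num))⟩, ax, x1,
      xR.trans (by simpa using Rp (n := 1) (by norm_num))⟩
    · obtain ⟨α, hα⟩ := gx t ht
      refine le_of_eq_of_le ?_ ((pt t ht).1.trans (Rd (by norm_num)))
      congr 2
      simp only [pp, dat, Dat.lam, hα, MMu.f_a0 F η hL.frm.k_a, Gr_add, add_Gr, Gr_sub, sub_Gr,
        Gr_smul, smul_Gr, Gr_e, e_Gr, Gr_comm (F.f t a0) (F.f t ν) (F.f t τ)]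
      ring
    · obtain ⟨α, hα⟩ := gx t ht
      refine le_of_eq_of_le ?_ ((pt t ht).2.1.trans (Rd (by norm_num)))
      congr 2
      simp only [dq, rr, dat, Dat.lam, hα, MMu.f_a0 F η hL.frm.k_a, MMu.f1_a0 F η hL.frm.k_a,
        Gr_add, Gr_sub, Gr_smul, Gr_e]
      ring
    · refine le_of_eq_of_le ?_ ((pt t ht).2.2.1.trans (Rd (by norm_num)))
      rw [MMu.om_mulH F η hL.frm.k_a]
      rfl
    · have e1 : mm (Bx B k p) x + L = mm B ν := by
        have h1 : ⟪a0, k⟫ = 0 := by rw [real_inner_comm]; exact hL.frm.k_a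
        have h2 : ⟪a0, p⟫ = th 0 := by rw [real_inner_comm]; exact hL.dec.1
        have h3 : mm B x = mm B ν - (L - th 0) := by
          rw [hx, tn]
          simp only [mm, map_sub, map_smul, inner_sub_right, real_inner_smul_right]
          rw [show ⟪a0, B τ⟫ = mm B τ from rfl]
          field_simp
        have h4 : mm (Bx B k p) x = mm B x - th 0 := by
          simp only [mm, Bx, sub_apply, add_apply, MH.r1_apply, inner_sub_right, inner_add_right,
            real_inner_smul_right, kx, h1, h2]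
          ring
        rw [h4, h3]; ring
      have e2 : ‖Bop ((mulH F η k).f 0) ((mulH F η k).f1 0) - Bx B k p‖ ≤ δ := by
        have h := MMu.bop_bx (F1 := F.f1 0) (cF.lo 0 z0) (hL.iw.eqn 0 z0)
        have h0 : ∀ y : E, r1 y 0 = 0 ∧ r1 0 y = 0 := fun y => by
          constructor <;> (ext1 v; simp [MH.r1_apply])
        have h2 : Bop ((mulH F η k).f 0) ((mulH F η k).f1 0) - Bx B k p =
            Bop (F.f 0) (F.f1 0) - B := by
          refine h.trans ?_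
          rw [hL.iw.zero, map_zero, (h0 k).1, (h0 k).2, sub_zero, add_zero]
        rw [h2]
        exact (cF.dfc 0 z0).trans ha
      have e3 : ‖Bn - Bx B k p‖ ≤ R ^ 3 * δ := by
        have h1 := (hC.dfc 0 z0).trans hn
        have h2 := (pt 0 z0).2.2.2
        have h3 := norm_sub_le_norm_sub_add_norm_sub Bn (Bop (Fn.f 0) (Fn.f1 0)) (Bx B k p)
        have h4 := norm_sub_le_norm_sub_add_norm_sub (Bop (Fn.f 0) (Fn.f1 0))
          (Bop ((mulH F η k).f 0) ((mulH F η k).f1 0)) (Bx B k p)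
        rw [norm_sub_rev] at h1
        have h5 : δ ≤ R ^ 2 * δ := le_mul_of_one_le_left δ0 (one_le_pow₀ (by linarith))
        exact up R32 δ0 2 (by linarith)
      have e4 : |mm Bn x - mm (Bx B k p) x| ≤ 1 := by
        rw [mm_sub]
        exact (mm_le e3 xR).trans (le_of_eq_of_le (by ring) (Rd1 (n := 4) (by norm_num)))
      have e5 := mm_le cF.bB hL.frm.n_hi
      have e6 : K ^ 3 ≤ K ^ 70 := pow_le_pow_right₀ (by linarith) (by norm_num)
      have e7 : K * K + 1 ≤ K ^ 3 := by nlinarith [mul_le_mul hK hK (by norm_num) K0.le]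
      obtain ⟨a1, a2⟩ := abs_le.1 e4
      obtain ⟨b1, b2⟩ := abs_le.1 e5
      rw [abs_le]
      constructor <;> linarith
    · have h1 := Gr_lower (hC.lo t ht) ax
      have h2 : K1 ^ 2 ≤ K1 ^ 70 := pow_le_pow_right₀ K11 (by norm_num)
      exact (one_le_pow₀ x1).trans (h1.trans (mul_le_mul_of_nonneg_right h2 (Gr_nonneg _ _)))
    · have h1 := napp ((hC.b0 t ht).trans KR) xR
      exact (le_abs_self _).trans ((abs_Gr_le' _ h1 h1).trans
        (le_of_eq_of_le (by ring) (Rp (n := 4) (by norm_num))))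
  all_goals
    have cf : ContinuousOn (fun z : ℝ × ℝ => Fn.f z.2) (univ ×ˢ Icc 0 T) :=
      hC.c0.comp continuousOn_snd fun z hz => hz.2
    have cf1 : ContinuousOn (fun z : ℝ × ℝ => Fn.f1 z.2) (univ ×ˢ Icc 0 T) :=
      hC.c1.comp continuousOn_snd fun z hz => hz.2
    have cx : ContinuousOn (fun z : ℝ × ℝ => tn B τ ν th z.1) (univ ×ˢ Icc 0 T) := by
      unfold tn; fun_prop
    have ce := cf.clm_apply (continuousOn_const (c := a0))
    have ce1 := cf1.clm_apply (continuousOn_const (c := a0))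
    have cy := cf.clm_apply cx
    have cy1 := cf1.clm_apply cx
  · exact continuousOn_Gr ce cy cy fun z hz => ne0 _ hz.2
  · have cr : ContinuousOn (fun z : ℝ × ℝ => rr (Fn.f z.2)) (univ ×ˢ Icc 0 T) :=
      ce.inner (𝕜 := ℝ) ce
    have r0 : ∀ z ∈ (univ ×ˢ Icc 0 T : Set (ℝ × ℝ)), rr (Fn.f z.2) ≠ 0 := fun z hz =>
      inner_self_ne_zero.2 (ne0 _ hz.2)
    have cm : ContinuousOn (fun z : ℝ × ℝ => mm Bn (tn B τ ν th z.1)) (univ ×ˢ Icc 0 T) :=
      continuousOn_const.inner (𝕜 := ℝ) (continuousOn_const.clm_apply cx)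
    have cb : ContinuousOn (fun z : ℝ × ℝ => mm (Bop (Fn.f z.2) (Fn.f1 z.2)) (tn B τ ν th z.1))
        (univ ×ˢ Icc 0 T) := by
      simp only [mm, inner_Bop]
      exact (ce1.inner (𝕜 := ℝ) cy).sub (ce.inner (𝕜 := ℝ) cy1)
    exact cm.neg.mul ((continuousOn_const.mul
      ((continuousOn_Gr ce ce1 cy fun z hz => ne0 _ hz.2).div cr r0)).add ((cm.sub cb).div cr r0))

theorem nwSt (_h : MulSt) : NwSt := nwSt0

end Pool.Agent.Lib.MP_fbbbeb_an.D
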