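import Mathlib
import Pool.Agent.Lib.MP_fbbbeb_an.D.Mono

/-! Choice of the frame of the next level and the scalar data of a pack. -/

set_option autoImplicit false

noncomputable section

namespace Pool.Agent.Lib.MP_fbbbeb_an.D

open Set Pool.Agent.Lib.MP_fbbbeb_an.Pub Pool.Agent.Lib.MP_fbbbeb_an.Cas
open Pool.Agent.Lib.MP_fbbbeb_an.D.Geo
open scoped RealInnerProductSpace

namespace Pe

theorem a0_one : ‖a0‖ = 1 := by
  have h : ‖(!₂[1, 2, 3] : E)‖ = Real.sqrt 14 := by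
    rw [EuclideanSpace.norm_eq]
    congr 1
    simp [Fin.sum_univ_three]
    norm_num
  rw [a0, norm_smul, h, norm_inv, Real.norm_eq_abs, abs_of_pos (by positivity)]
  exact inv_mul_cancel₀ (by positivity)

theorem exists_perp (a b : E) : ∃ k : E, ‖k‖ = 1 ∧ ⟪k, a⟫ = 0 ∧ ⟪k, b⟫ = 0 := by
  classical
  have h1 : Module.finrank ℝ (Submodule.span ℝ (({a, b} : Finset E) : Set E)) ≤ 2 :=
    (finrank_span_finset_le_card _).trans Finset.card_le_two
  have h2 := Submodule.finrank_add_finrank_orthogonal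
    (Submodule.span ℝ (({a, b} : Finset E) : Set E))
  rw [finrank_euclideanSpace_fin] at h2
  have h3 : (Submodule.span ℝ (({a, b} : Finset E) : Set E))ᗮ ≠ ⊥ := fun h => by
    rw [h, finrank_bot] at h2
    omega
  obtain ⟨v, hv, v0⟩ := Submodule.exists_mem_ne_zero_of_ne_bot h3
  rw [Submodule.mem_orthogonal'] at hv
  refine ⟨‖v‖⁻¹ • v, norm_smul_inv_norm v0, ?_, ?_⟩
  · rw [real_inner_smul_left, hv a (Submodule.subset_span (by simp)), mul_zero]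
  · rw [real_inner_smul_left, hv b (Submodule.subset_span (by simp)), mul_zero]

theorem lip_icc {V : Type} [NormedAddCommGroup V] [NormedSpace ℝ V] {y y1 : ℝ → V} {T K : ℝ}
    (hT : 0 < T) (hK : 0 ≤ K) (hc : ContinuousOn y (Icc 0 T))
    (hd : ∀ t ∈ Ioo 0 T, HasDerivAt y (y1 t) t) (hb : ∀ t ∈ Ioo 0 T, ‖y1 t‖ ≤ K) :
    ∀ s ∈ Icc 0 T, ∀ t ∈ Icc 0 T, ‖y t - y s‖ ≤ K * |t - s| := by
  have lip : LipschitzOnWith ⟨K, hK⟩ y (Ioo 0 T) :=
    (convex_Ioo 0 T).lipschitzOnWith_of_nnnorm_hasDerivWithin_le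
      (fun t h => (hd t h).hasDerivWithinAt) fun t h => hb t h
  have l2 := LipschitzOnWith.closure (by rw [closure_Ioo hT.ne]; exact hc) lip
  rw [closure_Ioo hT.ne] at l2
  intro s hs t ht
  have := l2.dist_le_mul t ht s hs
  rw [dist_eq_norm, Real.dist_eq] at this
  exact this

/-- bounded and Lipschitz vector curve -/
def VL (R T : ℝ) (x : ℝ → E) : Prop :=
  (∀ t ∈ Icc 0 T, ‖x t‖ ≤ R) ∧ ∀ s ∈ Icc 0 T, ∀ t ∈ Icc 0 T, ‖x t - x s‖ ≤ R * |t - s|

theorem vl_apply {G : ℝ → L3} {K T R : ℝ} {v : E} (hb : ∀ t ∈ Icc 0 T, ‖G t‖ ≤ K)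
    (hl : ∀ s ∈ Icc 0 T, ∀ t ∈ Icc 0 T, ‖G t - G s‖ ≤ K * |t - s|) (hv : K * ‖v‖ ≤ R) :
    VL R T fun t => G t v := by
  refine ⟨fun t ht => ((G t).le_opNorm v).trans
    ((mul_le_mul_of_nonneg_right (hb t ht) (norm_nonneg _)).trans hv), fun s hs t ht => ?_⟩
  have h := ((G t - G s).le_opNorm v).trans
    (mul_le_mul_of_nonneg_right (hl s hs t ht) (norm_nonneg _))
  rw [ContinuousLinearMap.sub_apply, mul_right_comm] at h
  exact h.trans (mul_le_mul_of_nonneg_right hv (abs_nonneg _))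

theorem lip_Gr {e x y : ℝ → E} {K T R : ℝ} (hK : 1 ≤ K) (he : VL K T e)
    (h0 : ∀ t ∈ Icc 0 T, 1 ≤ K * ‖e t‖) (hx : VL R T x) (hy : VL R T y) :
    Lip (10 * K ^ 2 * R ^ 2) T fun t => Gr (e t) (x t) (y t) := by
  have hK2 : 1 ≤ K ^ 2 := one_le_pow₀ hK
  have h1 : R ^ 2 ≤ K ^ 2 * R ^ 2 := le_mul_of_one_le_left (sq_nonneg R) hK2
  refine ⟨fun t ht => (abs_Gr_le' _ (hx.1 t ht) (hy.1 t ht)).trans (by nlinarith [sq_nonneg R]),
    fun s hs t ht => ?_⟩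
  refine (Gr_lip (h0 t ht) (h0 s hs) (he.2 s hs t ht) (hx.2 s hs t ht) (hy.2 s hs t ht)
    (hx.1 s hs) (hy.1 t ht) (hy.1 s hs)).trans ?_
  have := mul_le_mul_of_nonneg_right h1 (abs_nonneg (t - s))
  nlinarith

theorem lip_mul {g h : ℝ → ℝ} {a b T : ℝ} (ha : 0 ≤ a) (hb : 0 ≤ b) (hg : Lip a T g)
    (hh : Lip b T h) : Lip (2 * a * b) T fun t => g t * h t := by
  refine ⟨fun t ht => ?_, fun s hs t ht => ?_⟩
  · rw [abs_mul]
    have := mul_le_mul (hg.1 t ht) (hh.1 t ht) (abs_nonneg _) ha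
    nlinarith [mul_nonneg ha hb]
  · have e : g t * h t - g s * h s = (g t - g s) * h t + g s * (h t - h s) := by ring
    rw [e]
    refine (abs_add_le _ _).trans ?_
    rw [abs_mul, abs_mul]
    have a1 := mul_le_mul (hg.2 s hs t ht) (hh.1 t ht) (abs_nonneg _) (by positivity)
    have a2 := mul_le_mul (hg.1 s hs) (hh.2 s hs t ht) (abs_nonneg _) ha
    nlinarith

theorem lip_inv {e : ℝ → E} {K T : ℝ} (hK : 1 ≤ K) (he : VL K T e)
    (h0 : ∀ t ∈ Icc 0 T, 1 ≤ K * ‖e t‖) : Lip (2 * K ^ 6) T fun t => (⟪e t, e t⟫)⁻¹ := by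
  have hK0 : 0 < K := by linarith
  have lo : ∀ t ∈ Icc 0 T, 1 ≤ K ^ 2 * ⟪e t, e t⟫ := fun t ht => by
    rw [real_inner_self_eq_norm_sq, ← mul_pow]
    exact one_le_pow₀ (h0 t ht)
  have pos : ∀ t ∈ Icc 0 T, 0 < ⟪e t, e t⟫ := fun t ht => by
    by_contra hn
    nlinarith [lo t ht, mul_nonneg (sq_nonneg K) (neg_nonneg.2 (not_lt.1 hn))]
  have bd : ∀ t ∈ Icc 0 T, (⟪e t, e t⟫)⁻¹ ≤ K ^ 2 := fun t ht => by
    rw [inv_le_iff_one_le_mul₀ (pos t ht)]
    exact lo t ht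
  have h26 : K ^ 2 ≤ K ^ 6 := pow_le_pow_right₀ hK (by norm_num)
  refine ⟨fun t ht => ?_, fun s hs t ht => ?_⟩
  · rw [abs_of_pos (inv_pos.2 (pos t ht))]
    linarith [bd t ht, sq_nonneg K]
  · have e1 : (⟪e t, e t⟫)⁻¹ - (⟪e s, e s⟫)⁻¹ =
        -(⟪e t - e s, e t⟫ + ⟪e s, e t - e s⟫) * ((⟪e t, e t⟫)⁻¹ * (⟪e s, e s⟫)⁻¹) := by
      have p1 := (pos t ht).ne'
      have p2 := (pos s hs).ne'
      rw [inner_sub_left, inner_sub_right]
      field_simp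
      ring
    have b1 := (abs_real_inner_le_norm (e t - e s) (e t)).trans
      (mul_le_mul (he.2 s hs t ht) (he.1 t ht) (norm_nonneg _) (by positivity))
    have b2 := (abs_real_inner_le_norm (e s) (e t - e s)).trans
      (mul_le_mul (he.1 s hs) (he.2 s hs t ht) (norm_nonneg _) hK0.le)
    have b3 := mul_le_mul (bd t ht) (bd s hs) (inv_pos.2 (pos s hs)).le (sq_nonneg K)
    rw [e1, abs_mul, abs_neg, abs_of_pos (mul_pos (inv_pos.2 (pos t ht)) (inv_pos.2 (pos s hs)))]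
    have b4 := (abs_add_le _ _).trans (add_le_add b1 b2)
    refine (mul_le_mul b4 b3 (mul_pos (inv_pos.2 (pos t ht)) (inv_pos.2 (pos s hs))).le
      (by positivity)).trans (le_of_eq (by ring))

theorem core {K ε ψ S T t0 : ℝ} {F : Cv L3} {B : L3} {τ k ν : E} {th f : ℝ → ℝ} (hK : 2 ≤ K)
    (h : Pack K ε ψ T t0 F B τ th f) (hψ : ψ ≤ 1 / 2) (hS : S = 1 ∨ S = -1) (hk : ‖k‖ = 1)
    (kn : ⟪k, ν⟫ = 1) (na : ⟪a0, ν⟫ = 0) (nb : ‖ν‖ ≤ K ^ 6) (hb : pp (F.f t0) τ ν = 0)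
    (hs : 0 ≤ S * dq (F.f t0) (F.f1 t0) ν) :
    (dat T t0 F B τ ν th f).Ok (K ^ 36) (K ^ 36 * ε) ψ S := by
  have c := h.crv
  have hK1 : (1 : ℝ) ≤ K := by linarith
  have hK0 : (0 : ℝ) < K := by linarith
  have pw : ∀ a b : ℕ, a ≤ b → K ^ a ≤ K ^ b := fun a b hab => pow_le_pow_right₀ hK1 hab
  have hKK : K ≤ K ^ 36 := le_self_pow₀ hK1 (by norm_num)
  have ht0 := h.sp.t0_mem hK0
  have l0 := lip_icc c.T_pos hK0.le c.c0 (fun t ht => (c.ok t ht).1)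
    fun t ht => c.b1 t (Ioo_subset_Icc_self ht)
  have l1 := lip_icc c.T_pos hK0.le c.c1 (fun t ht => (c.ok t ht).2) c.b2
  have h0 : ∀ t ∈ Icc 0 T, 1 ≤ K * ‖F.f t a0‖ := fun t ht => by
    simpa [a0_one] using c.lo t ht a0
  have e0 : ∀ t ∈ Icc 0 T, F.f t a0 ≠ 0 := fun t ht q => by
    have := h0 t ht
    rw [q, norm_zero] at this
    linarith
  have ve : VL K T fun t => F.f t a0 := vl_apply c.b0 l0 (by simp [a0_one])
  have k7 : K * K ^ 6 = K ^ 7 := by ring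
  have t6 : ‖τ‖ ≤ K ^ 6 := h.t_hi.trans (le_self_pow₀ hK1 (by norm_num))
  have vτ : VL (K ^ 7) T fun t => F.f t τ :=
    vl_apply c.b0 l0 (k7 ▸ mul_le_mul_of_nonneg_left t6 hK0.le)
  have vν : VL (K ^ 7) T fun t => F.f t ν :=
    vl_apply c.b0 l0 (k7 ▸ mul_le_mul_of_nonneg_left nb hK0.le)
  have v1 : VL (K ^ 7) T fun t => F.f1 t a0 :=
    vl_apply c.b1 l1 (by simpa [a0_one] using le_self_pow₀ hK1 (by norm_num))
  have h4 : (16 : ℝ) ≤ K ^ 4 := by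
    have := pow_le_pow_left₀ (by norm_num : (0 : ℝ) ≤ 2) hK 4
    norm_num at this
    exact this
  have h2 : (4 : ℝ) ≤ K ^ 2 := by nlinarith
  have g20 : ∀ {x y : ℝ → E}, VL (K ^ 7) T x → VL (K ^ 7) T y →
      Lip (K ^ 20) T fun t => Gr (F.f t a0) (x t) (y t) := fun hx hy =>
    (lip_Gr hK1 ve h0 hx hy).monoK (by
      have := mul_le_mul_of_nonneg_right h4 (by positivity : 0 ≤ K ^ 16)
      have a : 0 ≤ K ^ 16 := by positivity
      nlinarith)
  have li := lip_inv hK1 ve h0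
  have up : ∀ {g : ℝ → ℝ} (n : ℕ), Lip (K ^ n) T g →
      Lip (K ^ (n + 8)) T fun t => g t * (⟪F.f t a0, F.f t a0⟫)⁻¹ := fun n hg =>
    (lip_mul (by positivity) (by positivity) hg li).monoK (by
      have := mul_le_mul_of_nonneg_right h2 (by positivity : 0 ≤ K ^ (n + 6))
      calc 2 * K ^ n * (2 * K ^ 6) = 4 * K ^ (n + 6) := by ring
        _ ≤ K ^ 2 * K ^ (n + 6) := this
        _ = K ^ (n + 8) := by ring)
  have rpos : ∀ t ∈ Icc 0 T, 0 < rr (F.f t) := fun t ht =>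
    real_inner_self_nonneg.lt_of_ne' (inner_self_ne_zero.2 (e0 t ht))
  have m2 : |mm B τ| ≤ K ^ 2 := by
    refine (abs_real_inner_le_norm _ _).trans ?_
    rw [a0_one, one_mul, sq]
    exact (B.le_opNorm τ).trans (mul_le_mul c.bB h.t_hi (norm_nonneg _) hK0.le)
  have n1 : 1 ≤ ‖ν‖ := by
    have := real_inner_le_norm k ν
    rwa [kn, hk, one_mul] at this
  have alo : 1 ≤ K ^ 2 * pp (F.f t0) ν ν := (one_le_pow₀ n1).trans (Gr_lower (c.lo t0 ht0) na)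
  have apos : 0 < pp (F.f t0) ν ν := by
    by_contra hn
    nlinarith [mul_nonneg (sq_nonneg K) (neg_nonneg.2 (not_lt.1 hn))]
  have ppos : 0 < pp (F.f t0) τ τ := h.sp.sys.pos t0 ht0
  have omeq : om (F.f t0) (F.f1 t0) = dq (F.f t0) (F.f1 t0) ν ^ 2 / pp (F.f t0) ν ν +
      dq (F.f t0) (F.f1 t0) τ ^ 2 / pp (F.f t0) τ τ := by
    have py := pyth (e0 t0 ht0) ppos apos hb (F.f1 t0 a0)
    have r0 := (rpos t0 ht0).ne'
    have a1 := apos.ne'
    have p1 := ppos.ne'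
    simp only [om, dq, pp] at *
    field_simp
    linarith
  refine ⟨h.sp.monoK hK0 hKK, one_le_mono h.m_lo hK0 hKK, m2.trans (pw 2 36 (by norm_num)), ?_,
    (g20 vτ vτ).monoK (pw 20 36 (by norm_num)), (g20 vν vν).monoK (pw 20 36 (by norm_num)),
    (g20 vτ vν).monoK (pw 20 36 (by norm_num)), ?_, ?_, ?_,
    one_le_mono alo (by positivity) (pw 2 36 (by norm_num)), fun t ht => ?_, hb, h.md,
    one_le_mono h.d_lo hK0 hKK, hS, ?_, omeq, h.psi, h.tilt⟩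
  · refine ⟨_, fun t ht => ⟨hasDerivAt_Gr (e1 := F.f1 t a0) (x1 := F.f1 t τ) (y1 := F.f1 t τ)
      (by simpa using (c.ok t ht).1.clm_apply (hasDerivAt_const t a0))
      (by simpa using (c.ok t ht).1.clm_apply (hasDerivAt_const t τ))
      (by simpa using (c.ok t ht).1.clm_apply (hasDerivAt_const t τ))
      (e0 t (Ioo_subset_Icc_self ht)), ?_⟩⟩
    have ht' := Ioo_subset_Icc_self ht
    have x0 := vτ.1 t ht'
    have x1 : ‖F.f1 t τ‖ ≤ K ^ 7 := (vl_apply c.b1 l1 (k7 ▸ mul_le_mul_of_nonneg_left t6 hK0.le)).1 t ht'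
    have y1 := abs_Gr_le' (F.f t a0) x1 x0
    have y2 := abs_Gr_le' (F.f t a0) x0 x1
    have y3 := abs_Gr_le' (F.f t a0) (v1.1 t ht') x0
    have y4 := (abs_sr_le (x := F.f t τ) (h0 t ht')).trans (mul_le_mul_of_nonneg_left x0 hK0.le)
    have y5 := mul_le_mul y4 y3 (abs_nonneg _) (by positivity)
    rw [← abs_mul] at y5
    have z1 : K ^ 7 * K ^ 7 ≤ K ^ 22 := by rw [← pow_add]; exact pw _ _ (by norm_num)
    have z2 : K * K ^ 7 * (K ^ 7 * K ^ 7) = K ^ 22 := by ring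
    have z3 : 4 * K ^ 22 ≤ K ^ 36 := (mul_le_mul_of_nonneg_right h2 (by positivity)).trans
      (by rw [← pow_add]; exact pw _ _ (by norm_num))
    rw [abs_le] at y1 y2 y5 ⊢
    constructor <;> linarith [y1.1, y1.2, y2.1, y2.2, y5.1, y5.2]
  · exact (up 20 (g20 v1 vν)).monoK (pw 28 36 (by norm_num))
  · exact (up 20 (g20 v1 vτ)).monoK (pw 28 36 (by norm_num))
  · have := up 28 (up 20 (g20 v1 v1))
    simpa only [dat, om, rr, div_eq_mul_inv, sq, mul_inv, mul_assoc] using this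
  · have e : qc (F.f t) (F.f1 t) B τ + 2 * mm B τ * dq (F.f t) (F.f1 t) τ =
        mm B τ * ⟪a0, (Bop (F.f t) (F.f1 t) - B) τ⟫ * (rr (F.f t))⁻¹ := by
      simp only [qc, mm, ContinuousLinearMap.sub_apply, inner_sub_right]
      ring
    have b1 : |⟪a0, (Bop (F.f t) (F.f1 t) - B) τ⟫| ≤ ε * K := by
      refine (abs_real_inner_le_norm _ _).trans ?_
      rw [a0_one, one_mul]
      exact (ContinuousLinearMap.le_opNorm _ τ).trans
        (mul_le_mul (c.dfc t ht) h.t_hi (norm_nonneg _) c.eps)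
    have b2 : |(rr (F.f t))⁻¹| ≤ 2 * K ^ 6 := li.1 t ht
    have he := c.eps
    show |qc (F.f t) (F.f1 t) B τ + 2 * mm B τ * dq (F.f t) (F.f1 t) τ| ≤ K ^ 36 * ε
    rw [e, abs_mul, abs_mul]
    refine (mul_le_mul (mul_le_mul m2 b1 (abs_nonneg _) (sq_nonneg K)) b2 (abs_nonneg _)
      (by positivity)).trans ?_
    have z : 2 * K ^ 9 ≤ K ^ 36 := (mul_le_mul_of_nonneg_right hK (by positivity)).trans
      (by rw [← pow_succ']; exact pw _ _ (by norm_num))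
    calc K ^ 2 * (ε * K) * (2 * K ^ 6) = 2 * K ^ 9 * ε := by ring
      _ ≤ _ := mul_le_mul_of_nonneg_right z he
  · refine one_le_mono (K := K ^ 2) ?_ (by positivity) (pw 2 36 (by norm_num))
    show 1 ≤ K ^ 2 * (S * dq (F.f t0) (F.f1 t0) ν)
    have o1 := c.om_lo t0 ht0
    have tl := h.tilt
    have hψ0 := h.psi
    generalize dq (F.f t0) (F.f1 t0) ν = cc at *
    generalize dq (F.f t0) (F.f1 t0) τ = d at *
    generalize om (F.f t0) (F.f1 t0) = o at *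
    generalize pp (F.f t0) ν ν = a at *
    generalize pp (F.f t0) τ τ = p at *
    have o0 : 0 < o := by
      by_contra hn
      nlinarith [mul_nonneg hK0.le (neg_nonneg.2 (not_lt.1 hn))]
    have q1 : d ^ 2 / p ≤ 1 / 4 * o := by
      rw [div_le_iff₀ ppos]
      have : ψ ^ 2 ≤ 1 / 4 := by nlinarith
      exact tl.trans (mul_le_mul_of_nonneg_right (mul_le_mul_of_nonneg_right this o0.le) ppos.le)
    have q2 : 3 / 4 * o * a ≤ cc ^ 2 := by
      rw [← le_div_iff₀ apos]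
      linarith
    have q3 : 1 ≤ K * o * (K ^ 2 * a) := one_le_mul_of_one_le_of_one_le o1 alo
    have q4 : (S * cc) ^ 2 = cc ^ 2 := by rcases hS with rfl | rfl <;> ring
    have q5 : 1 ≤ (K ^ 2 * (S * cc)) ^ 2 := by
      rw [mul_pow, q4]
      have r1 := mul_le_mul_of_nonneg_left q2 (by positivity : 0 ≤ K ^ 4)
      have r2 := mul_le_mul_of_nonneg_left q3 hK0.le
      nlinarith
    exact (one_le_sq_iff₀ (mul_nonneg (sq_nonneg K) hs)).1 q5

end Pe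

open Pe in
theorem prepSt : PrepSt := by
  refine ⟨36, fun K ε ψ S T t0 F B τ th f hK h hψ hS => ?_⟩
  have hK1 : (1 : ℝ) ≤ K := by linarith
  have hK0 : (0 : ℝ) < K := by linarith
  have ht0 := h.sp.t0_mem hK0
  have ppos : 0 < pp (F.f t0) τ τ := h.sp.sys.pos t0 ht0
  have plo : 1 ≤ K * pp (F.f t0) τ τ := h.sp.p_lo t0 ht0
  have main : ∀ k : E, ‖k‖ = 1 → ⟪k, a0⟫ = 0 → ⟪k, τ⟫ = 0 → 0 ≤ S * dq (F.f t0) (F.f1 t0)
      (k - (pp (F.f t0) τ k / pp (F.f t0) τ τ) • τ) → ∃ k ν : E, Frm (K ^ 36) τ k ν ∧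
      (dat T t0 F B τ ν th f).Ok (K ^ 36) (K ^ 36 * ε) ψ S := by
    intro k k1 ka kt hs
    have kn : ⟪k, k - (pp (F.f t0) τ k / pp (F.f t0) τ τ) • τ⟫ = 1 := by
      rw [inner_sub_right, real_inner_smul_right, kt, real_inner_self_eq_norm_sq, k1]
      ring
    have na : ⟪a0, k - (pp (F.f t0) τ k / pp (F.f t0) τ τ) • τ⟫ = 0 := by
      rw [inner_sub_right, real_inner_smul_right, h.perp, real_inner_comm, ka]
      ring
    have nb : ‖k - (pp (F.f t0) τ k / pp (F.f t0) τ τ) • τ‖ ≤ K ^ 6 := by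
      have b0 := h.crv.b0 t0 ht0
      have x1 : ‖F.f t0 τ‖ ≤ K * K :=
        ((F.f t0).le_opNorm τ).trans (mul_le_mul b0 h.t_hi (norm_nonneg _) hK0.le)
      have x2 : ‖F.f t0 k‖ ≤ K := by simpa [k1] using (F.f t0).le_of_opNorm_le b0 k
      have x3 : |pp (F.f t0) τ k| ≤ K * K * K := abs_Gr_le' _ x1 x2
      have x4 : |pp (F.f t0) τ k / pp (F.f t0) τ τ| ≤ K ^ 4 := by
        rw [abs_div, abs_of_pos ppos, div_le_iff₀ ppos]
        have := mul_le_mul_of_nonneg_left plo (by positivity : 0 ≤ K ^ 3)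
        nlinarith
      refine (norm_sub_le _ _).trans ?_
      rw [k1, norm_smul, Real.norm_eq_abs]
      have x5 := mul_le_mul x4 h.t_hi (norm_nonneg _) (by positivity)
      have x6 : 1 ≤ K ^ 5 := one_le_pow₀ hK1
      have x7 := mul_le_mul_of_nonneg_right hK (by positivity : 0 ≤ K ^ 5)
      nlinarith
    have hb : pp (F.f t0) τ (k - (pp (F.f t0) τ k / pp (F.f t0) τ τ) • τ) = 0 := by
      have := ppos.ne'
      simp only [pp, map_sub, map_smul, Gr_sub, Gr_smul] at *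
      field_simp
      ring
    exact ⟨k, _, ⟨k1, ka, kt, kn, na, nb.trans (pow_le_pow_right₀ hK1 (by norm_num))⟩,
      core hK h hψ hS k1 kn na nb hb hs⟩
  obtain ⟨k, k1, ka, kt⟩ := exists_perp a0 τ
  rcases le_total 0 (S * dq (F.f t0) (F.f1 t0) (k - (pp (F.f t0) τ k / pp (F.f t0) τ τ) • τ))
    with hs | hs
  · exact main k k1 ka kt hs
  · refine main (-k) (by rw [norm_neg, k1]) (by rw [inner_neg_left, ka, neg_zero])
      (by rw [inner_neg_left, kt, neg_zero]) ?_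
    have e : dq (F.f t0) (F.f1 t0) (-k - (pp (F.f t0) τ (-k) / pp (F.f t0) τ τ) • τ) =
        -dq (F.f t0) (F.f1 t0) (k - (pp (F.f t0) τ k / pp (F.f t0) τ τ) • τ) := by
      simp only [dq, pp, map_sub, map_smul, map_neg, Gr_sub, Gr_smul, Gr_neg]
      ring
    rw [e]
    linarith

end Pool.Agent.Lib.MP_fbbbeb_an.D
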