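import Mathlib
import Pool.Agent.Lib.MP_fbbbeb_an.D.MDefs
import Pool.Agent.Lib.MP_fbbbeb_an.D.Mono
import Pool.Agent.Lib.MP_fbbbeb_an.D.D1
import Pool.Agent.Lib.MP_fbbbeb_an.D.MulH

/-! The a priori bound for a pack and for nearby curves. -/

set_option autoImplicit false

noncomputable section

namespace Pool.Agent.Lib.MP_fbbbeb_an.D

open Set Pool.Agent.Lib.MP_fbbbeb_an.Pub Pool.Agent.Lib.MP_fbbbeb_an.Cas
open Pool.Agent.Lib.MP_fbbbeb_an.D.Geo
open scoped RealInnerProductSpace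

namespace MPrp

theorem norm_a0 : ‖a0‖ = 1 := by
  have h : (0 : ℝ) < √14 := Real.sqrt_pos.2 (by norm_num)
  have h2 : ‖(!₂[1, 2, 3] : E)‖ = √14 := by
    rw [EuclideanSpace.norm_eq]
    congr 1
    simp [Fin.sum_univ_three]
    norm_num
  rw [a0, norm_smul, h2, norm_inv, Real.norm_of_nonneg h.le, inv_mul_cancel₀ h.ne']

end MPrp

theorem prpLevSt : PrpLevSt := by
  refine ⟨68, fun K ε ψ T t0 F B τ k th f hK h hk ka kt => ?_⟩
  have K0 : 0 < K := by linarith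
  obtain ⟨a, a0', ha⟩ := h.sp.amin K0
  have sub : ∀ t ∈ Ioo 0 T, t ∈ Icc 0 T := fun t ht => Ioo_subset_Icc_self ht
  have ne : ∀ t ∈ Ioo 0 T, F.f t a0 ≠ 0 := fun t ht h0 => by
    have := h.crv.lo t (sub t ht) a0
    rw [h0, norm_zero, mul_zero, MPrp.norm_a0] at this
    linarith
  refine d1 (m := mm B τ) (amin := a) (a := a0) (τ := τ)
    (p := fun t => pp (F.f t) τ τ) (q := fun t => qc (F.f t) (F.f1 t) B τ)
    (r := fun s => ⟪F.f s τ, F.f s a0⟫ / ⟪F.f s a0, F.f s a0⟫)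
    (r' := fun t => (2 * Gr (F.f t a0) (F.f1 t a0) (F.f t τ) - ⟪a0, Bop (F.f t) (F.f1 t) τ⟫) /
      ⟪F.f t a0, F.f t a0⟫) (fl := f) hK (by linarith [h.crv.T_le]) MPrp.norm_a0 hk h.perp ka kt
    h.t_hi (by nlinarith [h.t_lo]) h.crv.anti h.crv.bB rfl h.m_lo
    (fun t ht => h.crv.b0 t (sub t ht)) (fun t ht => h.crv.lo t (sub t ht)) (fun t _ => ?_)
    (fun t ht => hasDerivAt_sr (h.crv.ok t ht).1 a0 τ (ne t ht)) (fun t _ => ?_) (fun t _ => ?_)
    (fun t ht => h.sp.sys.dTh t (sub t ht)) (fun t ht => h.sp.sys.dFl t (sub t ht)) a0'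
    (fun t ht => ha t (sub t ht)) (fun t ht => h.sp.f_bd t (sub t ht))
    fun s t hs hst ht => h.sp.qmono s ⟨hs.le, hst.trans ht.le⟩ t ⟨hs.le.trans hst, ht.le⟩ hst
  · simp only [real_inner_self_eq_norm_sq]
    rw [real_inner_comm]
  · simp only [pp, Gr, real_inner_self_eq_norm_sq]
    rw [real_inner_comm (F.f t τ) (F.f t a0)]
    ring
  · simp only [qc, dq, rr, mm, real_inner_self_eq_norm_sq]
    ring

theorem prpNearSt : PrpNearSt := by
  refine ⟨40, fun K δ T T' amin F G B k w hK h hT hP hc hδ hk a0' ha => ?_⟩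
  have K0 : 0 < K := by linarith
  have K1 : 1 ≤ K := by linarith
  have d0 : 0 ≤ δ := h.eps
  have sub : ∀ t ∈ Ioo 0 T', t ∈ Icc 0 T := fun t ht => ⟨ht.1.le, ht.2.le.trans hT⟩
  have pw : ∀ (c : ℝ) (a b : ℕ), c ≤ 2 ^ b → a + b ≤ 40 → c * K ^ a * δ ≤ 1 := fun c a b h1 h2 => by
    refine le_trans (mul_le_mul_of_nonneg_right ((MH.pw_le hK c a b h1).trans
      (pow_le_pow_right₀ K1 h2)) d0) ?_
    rwa [mul_comm]
  have d1 : δ ≤ K := by
    have := pw 1 0 0 (by norm_num) (by norm_num)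
    linarith
  have d2 : 2 * K * δ ≤ 1 := by simpa using pw 2 1 1 (by norm_num) (by norm_num)
  have f0 : ∀ t ∈ Ioo 0 T', ‖F.f t‖ ≤ 2 * K := fun t ht => by
    have := MH.le_of_near (h.b0 t (sub t ht)) (hc t ht).1
    linarith
  have f1 : ∀ t ∈ Ioo 0 T', ‖F.f1 t‖ ≤ 2 * K := fun t ht => by
    have := MH.le_of_near (h.b1 t (sub t ht)) (hc t ht).2.1
    linarith
  refine Prp.of_prc (prp_mop (K := 2 * K) (δ := 9 * K * δ) hP (by linarith) K0 hk
    (h.bB.trans (by linarith)) (fun t ht => (h.b0 t (sub t ht)).trans (by linarith))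
    (fun t ht x => (h.lo t (sub t ht) x).trans
      (mul_le_mul_of_nonneg_right (by linarith) (norm_nonneg _))) f0
    (fun t ht => MH.lower_near (h.lo t (sub t ht)) K0.le (hc t ht).1 d2)
    (fun t ht => (hc t ht).1.trans (by nlinarith)) (fun t ht => ?_) ?_ a0' ha)
  · have e1 := MH.bop_lip (f0 t ht) (f1 t ht) ((h.b0 t (sub t ht)).trans (by linarith))
      ((h.b1 t (sub t ht)).trans (by linarith)) (hc t ht).1 (hc t ht).2.1
    have e2 := h.dfc t (sub t ht)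
    have e3 := norm_sub_le_norm_sub_add_norm_sub (Bop (F.f t) (F.f1 t)) (Bop (G.f t) (G.f1 t)) B
    nlinarith
  · exact le_of_eq_of_le (by ring) (pw (36 * 2 ^ 10) 12 16 (by norm_num) (by norm_num))

end Pool.Agent.Lib.MP_fbbbeb_an.D
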