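import Mathlib
import Pool.Agent.Lib.MP_fbbbeb_an.D.Mono

/-! The first level of the ODE cascade. -/

set_option autoImplicit false

noncomputable section

namespace Pool.Agent.Lib.MP_fbbbeb_an.D

open Set Pool.Agent.Lib.MP_fbbbeb_an.Pub Pool.Agent.Lib.MP_fbbbeb_an.Cas

/-- a weight between one half and one can be replaced by the constant weight -/
theorem MStart.prc_one {M : ℝ → E →L[ℝ] E} {th : ℝ → ℝ} {K K' : ℝ} (h : Prc 1 M th K)
    (hth : ∀ t ∈ Icc (0 : ℝ) 1, 1 / 2 ≤ th t ∧ th t ≤ 1) (hK : 0 ≤ K) (hK' : 2 * K ≤ K') :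
    Prc 1 M w1 K' := by
  intro y f c t0 ht0 hy h0 hf
  simp only [w1, mul_one] at hf ⊢
  have hc : 0 ≤ c := (norm_nonneg _).trans (hf t0 ⟨ht0.1, le_rfl⟩)
  have := h y f (2 * c) t0 ht0 hy h0 fun t ht => by
    have := (hth t ⟨ht.1.le, ht.2.trans ht0.2.le⟩).1
    nlinarith [hf t ht]
  have h2 := (hth t0 ⟨ht0.1.le, ht0.2.le⟩).2
  have h3 : K * (2 * c) * th t0 ≤ K * (2 * c) := mul_le_of_le_one_right (by positivity) h2
  nlinarith

theorem startKSt : FirstPackSt → FinSt → PrpLevSt → PrpNearSt → NearSt → StartKSt := by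
  rintro ⟨C1, h1⟩ ⟨C2, h2⟩ ⟨C3, h3⟩ ⟨C4, h4⟩ ⟨C5, h5⟩ C0
  obtain ⟨a, ha⟩ : ∃ a, a = C1 + 1 := ⟨_, rfl⟩
  obtain ⟨m, hm⟩ : ∃ m, m = a * C2 + a + 2 := ⟨_, rfl⟩
  obtain ⟨n, hn⟩ : ∃ n, n = a * C3 + 1 + m + m * C0 := ⟨_, rfl⟩
  obtain ⟨C, hC⟩ : ∃ C, C = n * C4 + (n + 1) * C5 + (n + 1) + C1 + 2 := ⟨_, rfl⟩
  refine ⟨C, fun l ε U F hl hU hU0 hUa hF hN hD hε => ?_⟩
  have l2 : 2 ≤ l := le_trans (by exact_mod_cast (show 2 ≤ C by omega)) hl
  have l1 : 1 ≤ l := by linarith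
  have l0 : 0 < l := by linarith
  have pw : ∀ {i j : ℕ}, i ≤ j → l ^ i ≤ l ^ j := fun h => pow_le_pow_right₀ l1 h
  have two : ∀ {i : ℕ}, 1 ≤ i → 2 ≤ l ^ i := fun h => l2.trans (le_self_pow₀ l1 (by omega))
  have dbl : ∀ {i j : ℕ}, i + 1 ≤ j → 2 * l ^ i ≤ l ^ j := fun {i j} h =>
    le_trans (by rw [pow_succ']; exact mul_le_mul_of_nonneg_right l2 (by positivity)) (pw h)
  have e0 : 0 ≤ ε := (norm_nonneg _).trans (hD (1 / 2) ⟨by norm_num, by norm_num⟩)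
  have sm : ∀ {i : ℕ}, i ≤ C → ε * l ^ i ≤ 1 := fun h =>
    (mul_le_mul_of_nonneg_left (pw h) e0).trans hε
  obtain ⟨G, B, τ, th, f, hS, hP, ht, hth⟩ := h1 l ε U F
    (le_trans (by exact_mod_cast (show C1 ≤ C by omega)) hl) hU hU0 hUa hF hN hD (sm (by omega))
  have hP' := hP.monoK (by positivity) (pw (show C1 ≤ a by omega)) le_rfl
  have hψ : 1 / (2 * l ^ 2) ≤ 1 / 2 :=
    one_div_le_one_div_of_le (by norm_num) (by nlinarith [one_le_pow₀ (n := 2) l1])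
  obtain ⟨k, ν, p, ηi, hL⟩ := h2 (l ^ a) ε _ 1 1 (1 / 2) (l ^ (m * C0)) G B τ th f (two (by omega))
    hP' hψ (Or.inl rfl) (by positivity)
  simp only [ht, div_one] at hL
  rw [← pow_mul] at hL
  have hL' := hL.monoK (by positivity) (pw (show a * C2 ≤ m by omega)) le_rfl
  have hk := hL'.frm
  have q1 := h3 (l ^ a) ε _ 1 (1 / 2) G B τ k th f (two (by omega)) hP' hk.k_one hk.k_a hk.k_t
  rw [← pow_mul] at q1
  have q2 := MStart.prc_one q1 hth (by positivity) (dbl (show a * C3 + 1 ≤ n by omega))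
  have c1 : Crv (l ^ n) ε 1 G B := hL'.pack.crv.monoK (by positivity) (pw (by omega)) le_rfl
  have c2 : Crv (l ^ (n + 1)) ε 1 G B := c1.monoK (by positivity) (pw (by omega)) le_rfl
  have q3 := h4 (l ^ n) ε 1 1 1 F G B k w1 (two (by omega)) c1 le_rfl q2 (hS.cl c1)
    (by rw [← pow_mul]; exact sm (by omega)) hk.k_one one_pos (fun _ _ => le_rfl)
  have q4 : Prp 1 (fun t => Mop (F.f t) (F.f1 t) k) w1 (l ^ (n + 1)) :=
    fun y g c hc hy h0 hg t ht => (q3 y g c hc hy h0 hg t ht).trans (by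
      simp only [w1, mul_one]
      exact mul_le_mul_of_nonneg_right (dbl le_rfl) hc)
  refine ⟨k, p, hk.k_one, hk.k_a, ?_, fun η hW Fn hFn => ?_⟩
  · have := hL'.iw.bp (1 / 2) ⟨by norm_num, by norm_num⟩
    simp only [ht, mul_one] at this
    rw [← pow_add] at this
    exact this.trans (pw (by omega))
  have q5 := h5 (l ^ (n + 1)) ε 1 1 F G Fn B k p η ηi _ w1 (two (by omega)) c2
    (hL'.iw.monoK (by positivity) (pw (by omega))) le_rfl
    (fun t ht => by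
      simp only [w1, mul_one]
      refine ⟨le_trans (mul_le_of_le_one_right (by positivity) (hth t ⟨ht.1.le, ht.2.le⟩).2)
        (pw (by omega)), one_le_pow₀ l1⟩)
    hk.k_one hF (hS.cl c2) q4 hW hFn (by rw [← pow_mul]; exact sm (by omega))
  rw [← pow_mul] at q5
  have e1 : ε ≤ l ^ C * ε := le_mul_of_one_le_left e0 (one_le_pow₀ l1)
  refine ⟨l ^ m, 1 / (2 * l ^ 2), 1 / 2, G, B, τ, _, _, k, ν, p, ηi, le_self_pow₀ l1 (by omega),
    pw (by omega), ?_, ?_, le_of_eq (by field_simp), ?_,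
    hL'.monoK (by positivity) le_rfl e1,
    q5.monoK le_rfl (pw (by omega)) (mul_le_mul_of_nonneg_right (pw (by omega)) e0)⟩
  · simp only [ht, mul_one]; rw [← pow_mul]
  · simp only [ht, mul_one]; exact pw (by omega)
  · have h4' : (4 : ℝ) ≤ l ^ m := le_trans (by nlinarith) (pw (show 2 ≤ m by omega))
    have := one_div_le_one_div_of_le (by norm_num) h4'
    linarith

end Pool.Agent.Lib.MP_fbbbeb_an.D
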