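import Mathlib
import Pool.Agent.Lib.MP_fbbbeb_an.D.Mono

/-! The ODE cascade with one size parameter, from the statements with separate sizes. -/

set_option autoImplicit false

noncomputable section

namespace Pool.Agent.Lib.MP_fbbbeb_an.D

open Set Pool.Agent.Lib.MP_fbbbeb_an.Pub Pool.Agent.Lib.MP_fbbbeb_an.Cas
open scoped RealInnerProductSpace

namespace OdeA

theorem prp_mono {T K K' : ℝ} {M : ℝ → L3} {w : ℝ → ℝ} (h : Prp T M w K) (hK : K ≤ K')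
    (hw : ∀ t ∈ Ioo 0 T, 0 ≤ w t) : Prp T M w K' := fun y f c hc h1 h2 h3 t ht =>
  (h y f c hc h1 h2 h3 t ht).trans
    (mul_le_mul_of_nonneg_right (mul_le_mul_of_nonneg_right hK hc) (hw t ht))

theorem inv_mul_le {l : ℝ} {a b : ℕ} (hl : 1 ≤ l) (h : a ≤ b) : (l ^ b)⁻¹ * l ^ a ≤ 1 := by
  have h0 : 0 < l ^ b := by positivity
  rw [inv_mul_le_iff₀ h0, mul_one]
  exact pow_le_pow_right₀ hl h

theorem mul_inv_le {l : ℝ} {a b c : ℕ} (hl : 1 ≤ l) (h : a + b ≤ c) :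
    l ^ a * (l ^ c)⁻¹ ≤ (l ^ b)⁻¹ := by
  have h0 : 0 < l ^ b := by positivity
  have h1 : 0 < l ^ c := by positivity
  rw [mul_inv_le_iff₀ h1, ← div_eq_inv_mul, le_div_iff₀ h0, ← pow_add]
  exact pow_le_pow_right₀ hl h

end OdeA

open OdeA

theorem odeSt (hS : StartKSt) (hC : CycKSt) : OdeSt := by
  obtain ⟨C0, C2, hc⟩ := hC
  obtain ⟨C1, hs⟩ := hS C0
  obtain ⟨D, hD⟩ : ∃ D : ℕ, D = C1 + C2 := ⟨_, rfl⟩
  obtain ⟨Q, hQ⟩ : ∃ Q : ℕ, Q = D * C2 := ⟨_, rfl⟩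
  obtain ⟨C, hCd⟩ : ∃ C : ℕ, C = 100 + D + Q := ⟨_, rfl⟩
  have hl100 : ∀ l : ℝ, (C : ℝ) ≤ l → 100 ≤ l := fun l h => by
    have : ((100 : ℕ) : ℝ) ≤ (C : ℝ) := Nat.cast_le.2 (by omega)
    exact le_trans (by simpa using this) h
  refine ⟨fun l T s F => Rdy C0 (l ^ D) l (l ^ Q)⁻¹ T s F, C, ?_, ?_⟩
  · intro l U F hl h1 h2 h3 h4 h5 h6
    have l100 := hl100 l hl
    have l1 : 1 ≤ l := by linarith
    have hC1 : (C1 : ℝ) ≤ l := le_trans (Nat.cast_le.2 (by omega)) hl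
    obtain ⟨k, p, a1, a2, a3, a4⟩ := hs l (l ^ C)⁻¹ U F hC1 h1 h2 h3 h4 h5 h6
      (inv_mul_le l1 (by omega))
    refine ⟨k, p, a1, a2, a3.trans (pow_le_pow_right₀ l1 (by omega)), fun η hη Fn _ hn => ?_⟩
    exact (a4 η hη Fn hn).monoK (by linarith) (pow_le_pow_right₀ l1 (by omega))
      (mul_inv_le l1 (by omega))
  · intro l l' T s0 F hl hl' _ hF hP hd
    have l100 := hl100 l hl
    have l1 : 1 ≤ l := by linarith
    have hlC : l ≤ l ^ C := le_self_pow₀ l1 (by omega)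
    have l1' : 1 ≤ l' := by linarith
    have e1 : (l ^ D) ^ C2 = l ^ Q := by rw [← pow_mul, hQ]
    have e2 : (l ^ D) ^ C2 ≤ l ^ C := by rw [e1]; exact pow_le_pow_right₀ l1 (by omega)
    have e3 : l' ^ C2 ≤ l' ^ C := pow_le_pow_right₀ l1' (by omega)
    obtain ⟨T', s, amin, Aw, k2, p2, k3, p3, b1, b2, b3, b4, b5, b6, b7, b8, b9, b10, b11, b12,
      b13⟩ := hc (l ^ D) l' l (l ^ Q)⁻¹ (l' ^ C)⁻¹ T s0 F l100 (e2.trans hl')
      (by rw [e1]; exact inv_mul_le l1 le_rfl) (inv_mul_le l1' (by omega)) hF hP hd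
    have hw : ∀ t ∈ Ioo 0 T', 0 ≤ Aw t := fun t ht => b9.le.trans (b10 t ht).1
    refine ⟨T', s, amin, Aw, k2, p2, k3, p3, b1, b2, b3, b4, b5, b6, b7, b8, b9, ?_, b11,
      prp_mono b12 e2 hw, ?_⟩
    · intro t ht
      obtain ⟨c1, c2, c3, c4, c5⟩ := b10 t ht
      refine ⟨c1, c2.trans e2, fun h => (c3 h).trans ?_,
        c4.trans (mul_le_mul_of_nonneg_right e2 (hw t ht)),
        c5.trans (mul_le_mul_of_nonneg_right e3 (hw t ht))⟩
      exact mul_le_mul (by linarith) (Real.exp_le_exp.2 (by linarith)) (Real.exp_pos _).le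
        (by linarith)
    · intro η2 h2 F2 hF2 hn2
      obtain ⟨d1, d2⟩ := b13 η2 h2 F2 hF2 hn2
      refine ⟨prp_mono d1 e3 hw, fun η3 h3 Fn _ hn => ?_⟩
      exact (d2 η3 h3 Fn hn).monoK (by linarith) (pow_le_pow_right₀ l1' (by omega))
        (mul_inv_le l1' (by omega))

end Pool.Agent.Lib.MP_fbbbeb_an.D
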