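import Mathlib
import Pool.Agent.Lib.MP_fbbbeb_an.D.SDefs

/-! Start value of the Riccati comparison at the left end of the window. -/

set_option autoImplicit false

noncomputable section

namespace Pool.Agent.Lib.MP_fbbbeb_an.D

open Set Pool.Agent.Lib.MP_fbbbeb_an.Ric

theorem entSt (hT : TurnSt) : EntSt := by
  obtain ⟨C, hC⟩ := hT
  refine ⟨C + 4, fun x K K2 ε ψ S L τ Th Fl hK hx hε hτ hτK hK2 hA => ?_⟩
  have sp := hx.sp
  have hK0 : 0 < K := by linarith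
  have hK1 : 1 ≤ K := by linarith
  have kC : 1 ≤ K ^ C := one_le_pow₀ hK1
  have k4 : 1 ≤ K ^ 4 := one_le_pow₀ hK1
  have c1 : K ^ C ≤ K ^ (C + 4) := pow_le_pow_right₀ hK1 (by omega)
  have c2 : K ^ 4 ≤ K ^ (C + 4) := pow_le_pow_right₀ hK1 (by omega)
  have c3 : K ≤ K ^ (C + 4) := le_self_pow₀ hK1 (by omega)
  have iK : 0 < 1 / K := by positivity
  have t0 : 0 < x.t0 := by
    by_contra h
    nlinarith [sp.t_lo]
  have m0 : x.t0 ∈ Icc 0 x.T := ⟨t0.le, by linarith [sp.t_hi]⟩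
  have hτ0 : τ ≤ x.t0 := by
    have : K * τ ≤ K * x.t0 := by nlinarith [sp.t_lo]
    exact le_of_mul_le_mul_left this hK0
  have ms : -τ + x.t0 ∈ Icc 0 x.T := ⟨by linarith, by linarith [m0.2]⟩
  have ms' : -τ + x.t0 ∈ Icc 0 (-τ + x.t0) := ⟨ms.1, le_rfl⟩
  have e0 : 0 ≤ ε := (abs_nonneg _).trans (hx.q_eq _ m0)
  obtain ⟨-, -, tf, -⟩ := hC x K ε ψ S τ hK hx (by nlinarith) (by nlinarith) (-τ) ⟨le_rfl, by linarith⟩
  have hle : x.th (-τ + x.t0) ≤ x.TH := sp.mono _ ms x.t0 ⟨by linarith, le_rfl⟩ (by linarith)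
  have hp := hx.lp.2 _ ms _ m0
  have pl := sp.p_lo _ ms
  have p0 := sp.sys.pos _ m0
  have ps := sp.sys.pos _ ms
  have h1 := hA.dl _ ms'
  have h2 := hA.w _ ms'
  have h3 := hA.g _ ms'
  have thp := sp.pos _ ms
  have THp : 0 < x.TH := sp.pos _ m0
  have a0 : 0 < x.a x.t0 := by
    by_contra h
    nlinarith [hx.a_lo]
  have mm : 0 < |x.m| := by
    by_contra h
    nlinarith [hx.m_lo]
  unfold Dat.Sig Dat.S1
  set s := -τ + x.t0 with hs
  set Δ := L - x.th s with hΔ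
  have K2p : 2 ≤ K2 := by
    have a : τ * 2 ≤ τ * K2 := by nlinarith
    exact le_of_mul_le_mul_left a hτ
  have Δp : 0 < Δ := by
    by_contra h
    nlinarith
  have Tp : 0 < Th s := by
    have a : |Δ * Th s - x.th s| ≤ x.th s / 2 := by nlinarith [abs_nonneg (Δ * Th s - x.th s)]
    have b : 0 < Δ * Th s := by linarith [(abs_le.1 a).1]
    exact (mul_pos_iff_of_pos_left Δp).1 b
  refine ⟨Tp, ?_⟩
  have f1 : τ * x.TH ≤ K ^ C * x.f s := by
    have a : τ * (τ * x.TH) ≤ τ * (K ^ C * x.f s) := by nlinarith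
    exact le_of_mul_le_mul_left a hτ
  have fp : 0 < x.f s := by
    by_contra h
    nlinarith [mul_pos hτ THp]
  have f2 : x.TH ≤ K2 * x.f s := by
    have a : τ * x.TH ≤ τ * (K2 * x.f s) := by nlinarith
    exact le_of_mul_le_mul_left a hτ
  have g1 : x.f s * Th s ≤ x.m ^ 2 * Fl s / Δ := by
    have a : K2 * |x.m ^ 2 * Fl s / Δ - x.f s * Th s - x.f s| ≤ K2 * x.f s := by linarith
    have b := le_of_mul_le_mul_left a (by linarith)
    linarith [(abs_le.1 b).1]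
  have p1 : 3 / 4 * x.p x.t0 ≤ x.p s := by
    have e : |x.t0 - s| = τ := by rw [hs, show x.t0 - (-τ + x.t0) = τ by ring, abs_of_pos hτ]
    rw [e] at hp
    have a : τ * K ^ 4 ≤ 1 := by nlinarith
    have b : 4 * (K ^ 2 * τ) ≤ 1 := by
      have : 4 ≤ K ^ 2 := by nlinarith
      nlinarith [mul_pos (pow_pos hK0 2) hτ]
    have c : K * τ ≤ K * τ * (K * x.p s) := le_mul_of_one_le_right (by positivity) pl
    have d : K * τ * (K * x.p s) ≤ x.p s / 4 := by nlinarith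
    linarith [(abs_le.1 hp).2]
  have kp2 : x.kp * x.kp = x.p x.t0 / x.a x.t0 := Real.mul_self_sqrt (by positivity)
  have m2 : |x.m| * |x.m| = x.m ^ 2 := by rw [abs_mul_abs_self, sq]
  have m3 : 0 < x.m ^ 2 := by rw [← m2]; positivity
  have g2 : Δ * (x.f s * Th s) / x.m ^ 2 ≤ Fl s := by
    rw [le_div_iff₀ Δp] at g1
    rw [div_le_iff₀ m3]
    linarith
  have e : 3 / 4 * (Δ / |x.m| * x.kp * -(-(x.f s / x.p s) / |x.m| * x.kp)) * Th s =
      (3 / 4 * x.p x.t0 / x.p s) * (Δ * (x.f s * Th s) / x.m ^ 2) / x.a x.t0 := by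
    have : Δ / |x.m| * x.kp * -(-(x.f s / x.p s) / |x.m| * x.kp) =
        Δ * (x.f s / x.p s) * (x.kp * x.kp) / (|x.m| * |x.m|) := by field_simp
    rw [this, kp2, m2]
    field_simp
  rw [e]
  refine div_le_div_of_nonneg_right (le_trans ?_ g2) a0.le
  exact mul_le_of_le_one_left (by positivity) ((div_le_one ps).2 p1)

end Pool.Agent.Lib.MP_fbbbeb_an.D
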