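import Mathlib

/-! Linear ODE kit: existence on a compact interval, Gronwall closeness, joint continuity in a
parameter, the two by two scalar system, shooting and first zero lemmas. -/

namespace Pool.Agent.Lib.MP_fbbbeb_an.Lin

open Set Filter Topology

variable {V : Type*} [NormedAddCommGroup V] [NormedSpace ℝ V]

theorem gronwall_le {δ K ε x : ℝ} (hK : 0 ≤ K) (hε : 0 ≤ ε) :
    gronwallBound δ K ε x ≤ (δ + ε * x) * Real.exp (K * x) := by
  rcases hK.eq_or_lt with rfl | hK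
  · simp [gronwallBound_K0]
  · rw [gronwallBound_of_K_ne_0 hK.ne']
    have h1 : Real.exp (K * x) - 1 ≤ K * x * Real.exp (K * x) := by
      have h2 := Real.add_one_le_exp (-(K * x))
      have h3 : Real.exp (-(K * x)) * Real.exp (K * x) = 1 := by rw [← Real.exp_add]; simp
      nlinarith [Real.exp_pos (K * x)]
    have h4 : ε / K * (Real.exp (K * x) - 1) ≤ ε / K * (K * x * Real.exp (K * x)) :=
      mul_le_mul_of_nonneg_left h1 (by positivity)
    have h5 : ε / K * (K * x * Real.exp (K * x)) = ε * x * Real.exp (K * x) := by field_simp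
    show δ * Real.exp (K * x) + ε / K * (Real.exp (K * x) - 1) ≤ _
    linarith

/-- Gronwall bound for `u' = M u + O(ε)`. -/
theorem norm_le {a b K δ ε : ℝ} {u u' : ℝ → V} (hu : ∀ t ∈ Icc a b, HasDerivAt u (u' t) t)
    (hK : 0 ≤ K) (hε : 0 ≤ ε) (hb : ∀ t ∈ Icc a b, ‖u' t‖ ≤ K * ‖u t‖ + ε) (h0 : ‖u a‖ ≤ δ) :
    ∀ t ∈ Icc a b, ‖u t‖ ≤ (δ + ε * (b - a)) * Real.exp (K * (b - a)) := by
  intro t ht
  have h1 := norm_le_gronwallBound_of_norm_deriv_right_le (f := u) (f' := u')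
    (fun s hs => (hu s hs).continuousAt.continuousWithinAt)
    (fun s hs => (hu s (Ico_subset_Icc_self hs)).hasDerivWithinAt) h0
    (fun s hs => hb s (Ico_subset_Icc_self hs)) t ht
  refine (h1.trans (gronwall_le hK hε)).trans ?_
  have hδ : 0 ≤ δ := (norm_nonneg _).trans h0
  have h2 : t - a ≤ b - a := by linarith [ht.2]
  have h3 : 0 ≤ t - a := sub_nonneg.2 ht.1
  have h4 : 0 ≤ b - a := h3.trans h2
  gcongr

/-- Two linear systems with close data have close solutions. -/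
theorem close {a b K δ e1 e2 Z : ℝ} {M N : ℝ → V →L[ℝ] V} {f g y z : ℝ → V}
    (hy : ∀ t ∈ Icc a b, HasDerivAt y (M t (y t) + f t) t)
    (hz : ∀ t ∈ Icc a b, HasDerivAt z (N t (z t) + g t) t)
    (hK : ∀ t ∈ Icc a b, ‖M t‖ ≤ K) (h1 : ∀ t ∈ Icc a b, ‖M t - N t‖ ≤ e1)
    (h2 : ∀ t ∈ Icc a b, ‖f t - g t‖ ≤ e2) (hZ : ∀ t ∈ Icc a b, ‖z t‖ ≤ Z)
    (h0 : ‖y a - z a‖ ≤ δ) :
    ∀ t ∈ Icc a b, ‖y t - z t‖ ≤ (δ + (e1 * Z + e2) * (b - a)) * Real.exp (K * (b - a)) := by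
  intro t ht
  have a1 : 0 ≤ e1 := (norm_nonneg _).trans (h1 t ht)
  have a2 : 0 ≤ e2 := (norm_nonneg _).trans (h2 t ht)
  have a3 : 0 ≤ Z := (norm_nonneg _).trans (hZ t ht)
  refine norm_le (u := fun s => y s - z s) (fun s hs => (hy s hs).sub (hz s hs))
    ((norm_nonneg _).trans (hK t ht)) (by positivity) (fun s hs => ?_) h0 t ht
  have e : M s (y s) + f s - (N s (z s) + g s) =
      M s (y s - z s) + ((M s - N s) (z s) + (f s - g s)) := by
    simp only [map_sub, sub_apply]; abel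
  rw [e]
  refine (norm_add_le _ _).trans (add_le_add ?_ ((norm_add_le _ _).trans (add_le_add ?_ (h2 s hs))))
  · exact ((M s).le_opNorm _).trans (mul_le_mul_of_nonneg_right (hK s hs) (norm_nonneg _))
  · exact ((M s - N s).le_opNorm _).trans (mul_le_mul (h1 s hs) (hZ s hs) (norm_nonneg _) a1)

/-- Uniqueness. -/
theorem uniq {a b : ℝ} {M : ℝ → V →L[ℝ] V} {f y z : ℝ → V} (hM : ContinuousOn M (Icc a b))
    (hy : ∀ t ∈ Icc a b, HasDerivAt y (M t (y t) + f t) t)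
    (hz : ∀ t ∈ Icc a b, HasDerivAt z (M t (z t) + f t) t) (h0 : y a = z a) :
    ∀ t ∈ Icc a b, y t = z t := by
  intro t ht
  obtain ⟨K, hK⟩ := isCompact_Icc.exists_bound_of_continuousOn hM
  obtain ⟨Z, hZ⟩ := (isCompact_Icc (a := a) (b := b)).exists_bound_of_continuousOn (f := z)
    fun s hs => (hz s hs).continuousAt.continuousWithinAt
  have := close (δ := 0) (e1 := 0) (e2 := 0) hy hz hK (by simp) (by simp) hZ (by simp [h0]) t ht
  simpa [sub_eq_zero] using this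

/-- Derivative of the right hand side along a solution. -/
theorem hasDerivAt_rhs {M : ℝ → V →L[ℝ] V} {M' : V →L[ℝ] V} {f y : ℝ → V} {f' : V} {t : ℝ}
    (hM : HasDerivAt M M' t) (hf : HasDerivAt f f' t) (hy : HasDerivAt y (M t (y t) + f t) t) :
    HasDerivAt (fun s => M s (y s) + f s) (M' (y t) + M t (M t (y t) + f t) + f') t :=
  (hM.clm_apply hy).add hf

/-- Existence on a compact interval. -/
theorem exists_sol0 [CompleteSpace V] {a b : ℝ} (hab : a ≤ b) {M : ℝ → V →L[ℝ] V} {f : ℝ → V}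
    (hM : ContinuousOn M (Icc a b)) (hf : ContinuousOn f (Icc a b)) (y0 : V) :
    ∃ y : ℝ → V, y a = y0 ∧ Continuous y ∧ ∀ t ∈ Icc a b, HasDerivAt y (M t (y t) + f t) t := by
  obtain ⟨K, hK⟩ := isCompact_Icc.exists_bound_of_continuousOn hM
  have K0 : 0 ≤ K := (norm_nonneg _).trans (hK a (left_mem_Icc.2 hab))
  have cM : Continuous fun s : Icc a b => M s := continuousOn_iff_continuous_domRestrict.1 hM
  have cf : Continuous fun s : Icc a b => f s := continuousOn_iff_continuous_domRestrict.1 hf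
  let H : C(Icc a b, V) → Icc a b → V := fun z s =>
    M s (Real.exp (2 * K * (s - a)) • z s) + f s
  have cH : ∀ z, Continuous (H z) := fun z =>
    (cM.clm_apply (Continuous.smul (by fun_prop) z.continuous)).add cf
  let G : C(Icc a b, V) → ℝ → V := fun z s => H z (projIcc a b hab s)
  have cG : ∀ z, Continuous (G z) := fun z => (cH z).comp continuous_projIcc
  let Y : C(Icc a b, V) → ℝ → V := fun z t => y0 + ∫ s in a..t, G z s
  have dY : ∀ z t, HasDerivAt (Y z) (G z t) t := fun z t =>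
    ((cG z).integral_hasStrictDerivAt a t).hasDerivAt.const_add y0
  have cY : ∀ z, Continuous (Y z) := fun z =>
    continuous_iff_continuousAt.2 fun t => (dY z t).continuousAt
  let T : C(Icc a b, V) → C(Icc a b, V) := fun z =>
    ⟨fun t => Real.exp (-(2 * K * (t - a))) • Y z t,
      Continuous.smul (by fun_prop) ((cY z).comp continuous_subtype_val)⟩
  have hT : ContractingWith (1 / 2) T := by
    refine ⟨by norm_num, LipschitzWith.of_dist_le_mul fun z w => ?_⟩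
    refine (ContinuousMap.dist_le (by positivity)).2 fun t => ?_
    have key : ∀ s ∈ Icc a b, ‖Y z s - Y w s‖ ≤ dist z w / 2 * Real.exp (2 * K * (s - a)) := by
      refine image_norm_le_of_norm_deriv_right_le_deriv_boundary (f := fun s => Y z s - Y w s)
        (f' := fun s => G z s - G w s) ((cY z).sub (cY w)).continuousOn
        (fun s _ => ((dY z s).sub (dY w s)).hasDerivWithinAt)
        (B := fun s => dist z w / 2 * Real.exp (2 * K * (s - a)))
        (B' := fun s => dist z w / 2 * (Real.exp (2 * K * (s - a)) * (2 * K * 1))) ?_ ?_ ?_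
      · simp only [Y, intervalIntegral.integral_same, sub_self, norm_zero]; positivity
      · exact fun s => ((((hasDerivAt_id s).sub_const a).const_mul (2 * K)).exp).const_mul _
      · intro s hs
        have hs' : s ∈ Icc a b := Ico_subset_Icc_self hs
        have e : G z s - G w s = M s (Real.exp (2 * K * (s - a)) • (z ⟨s, hs'⟩ - w ⟨s, hs'⟩)) := by
          simp only [G, H, projIcc_of_mem hab hs', smul_sub, map_sub]; abel
        rw [e]
        refine ((M s).le_opNorm _).trans ?_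
        rw [norm_smul, Real.norm_of_nonneg (Real.exp_pos _).le, ← dist_eq_norm]
        have h1 := ContinuousMap.dist_apply_le_dist (f := z) (g := w) ⟨s, hs'⟩
        calc _ ≤ K * (Real.exp (2 * K * (s - a)) * dist z w) := by gcongr; exact hK s hs'
          _ = _ := by ring
    have h2 := key t t.2
    show dist (Real.exp (-(2 * K * (t - a))) • Y z t) (Real.exp (-(2 * K * (t - a))) • Y w t) ≤ _
    rw [dist_eq_norm, ← smul_sub, norm_smul, Real.norm_of_nonneg (Real.exp_pos _).le]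
    have h3 : Real.exp (-(2 * K * (t - a))) * Real.exp (2 * K * (t - a)) = 1 := by
      rw [← Real.exp_add]; simp
    calc _ ≤ Real.exp (-(2 * K * (t - a))) * (dist z w / 2 * Real.exp (2 * K * (t - a))) := by
          gcongr
      _ = dist z w / 2 * (Real.exp (-(2 * K * (t - a))) * Real.exp (2 * K * (t - a))) := by ring
      _ = _ := by rw [h3]; push_cast; ring
  obtain ⟨z, hz⟩ : ∃ z, T z = z := ⟨_, hT.fixedPoint_isFixedPt⟩
  refine ⟨Y z, by simp [Y], cY z, fun t ht => (dY z t).congr_deriv ?_⟩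
  have h1 : z ⟨t, ht⟩ = Real.exp (-(2 * K * (t - a))) • Y z t := by
    conv_lhs => rw [← hz]
    rfl
  simp only [G, H, projIcc_of_mem hab ht, h1, smul_smul]
  rw [← Real.exp_add]; simp

/-- Solutions depend continuously on a parameter. -/
theorem continuousOn_sol {X : Type*} [TopologicalSpace X] {S : Set X} {a b : ℝ}
    {M : X → ℝ → V →L[ℝ] V} {f y : X → ℝ → V}
    (hM : ContinuousOn (fun p : X × ℝ => M p.1 p.2) (S ×ˢ Icc a b))
    (hf : ContinuousOn (fun p : X × ℝ => f p.1 p.2) (S ×ˢ Icc a b))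
    (h0 : ContinuousOn (fun x => y x a) S)
    (hy : ∀ x ∈ S, ∀ t ∈ Icc a b, HasDerivAt (y x) (M x t (y x t) + f x t) t) :
    ContinuousOn (fun p : X × ℝ => y p.1 p.2) (S ×ˢ Icc a b) := by
  rintro ⟨x0, t0⟩ ⟨hx0, ht0⟩
  have hab : 0 ≤ b - a := sub_nonneg.2 (ht0.1.trans ht0.2)
  have sl : ∀ {W : Type _} [NormedAddCommGroup W] {F : X → ℝ → W},
      ContinuousOn (fun p : X × ℝ => F p.1 p.2) (S ×ˢ Icc a b) → ∀ e > 0,
      ∀ᶠ x in 𝓝[S] x0, ∀ t ∈ Icc a b, ‖F x t - F x0 t‖ ≤ e := by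
    intro W _ F hF e he
    obtain ⟨v, hv, h⟩ := isCompact_Icc.mem_uniformity_of_prod (f := F) hF hx0
      (Metric.dist_mem_uniformity he)
    filter_upwards [hv] with x hx t ht
    rw [← dist_eq_norm]; exact (h x hx t ht).le
  obtain ⟨K, hK⟩ := (isCompact_Icc (a := a) (b := b)).exists_bound_of_continuousOn (f := M x0)
    (hM.comp (f := fun t => (x0, t)) (by fun_prop) fun t ht => ⟨hx0, ht⟩)
  obtain ⟨Z, hZ⟩ := (isCompact_Icc (a := a) (b := b)).exists_bound_of_continuousOn (f := y x0)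
    fun s hs => (hy x0 hx0 s hs).continuousAt.continuousWithinAt
  have Z0 : 0 ≤ Z := (norm_nonneg _).trans (hZ t0 ht0)
  rw [ContinuousWithinAt, Metric.tendsto_nhds]
  intro ε hε
  set c := (1 + (Z + 1) * (b - a)) * Real.exp ((K + 1) * (b - a)) with hc
  have c0 : 0 < c := by positivity
  set e := min 1 (ε / 2 / c) with he
  have e0 : 0 < e := by positivity
  have e1 : e * c ≤ ε / 2 := (le_div_iff₀ c0).1 (min_le_right _ _)
  have h1 : ∀ᶠ x in 𝓝[S] x0, ∀ t ∈ Icc a b, ‖y x t - y x0 t‖ ≤ ε / 2 := by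
    have h2 : ∀ᶠ x in 𝓝[S] x0, dist (y x a) (y x0 a) < e := Metric.tendsto_nhds.1 (h0 x0 hx0) e e0
    filter_upwards [sl hM e e0, sl hf e e0, h2, self_mem_nhdsWithin] with x m1 m2 m3 hx t ht
    refine (close (K := K + 1) (δ := e) (hy x hx) (hy x0 hx0) (fun s hs => ?_) m1 m2 hZ
      (by rw [← dist_eq_norm]; exact m3.le) t ht).trans (le_trans (le_of_eq ?_) e1)
    · have := norm_add_le (M x0 s) (M x s - M x0 s)
      rw [add_sub_cancel] at this
      linarith [hK s hs, m1 s hs, min_le_left 1 (ε / 2 / c)]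
    · rw [hc]; ring
  have h3 : ∀ᶠ t in 𝓝[Icc a b] t0, dist (y x0 t) (y x0 t0) < ε / 2 :=
    Metric.tendsto_nhds.1 (hy x0 hx0 t0 ht0).continuousAt.continuousWithinAt _ (half_pos hε)
  rw [nhdsWithin_prod_eq]
  filter_upwards [h1.prod_mk (h3.and self_mem_nhdsWithin)] with p hp
  have h4 := hp.1 p.2 hp.2.2
  rw [← dist_eq_norm] at h4
  linarith [dist_triangle (y p.1 p.2) (y x0 p.2) (y x0 t0), hp.2.1]

/-- Existence with a parameter, jointly continuous. -/
theorem exists_sol [CompleteSpace V] {X : Type*} [TopologicalSpace X] {S : Set X} {a b : ℝ}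
    (hab : a ≤ b) {M : X → ℝ → V →L[ℝ] V} {f : X → ℝ → V} {y0 : X → V}
    (hM : ContinuousOn (fun p : X × ℝ => M p.1 p.2) (S ×ˢ Icc a b))
    (hf : ContinuousOn (fun p : X × ℝ => f p.1 p.2) (S ×ˢ Icc a b)) (h0 : ContinuousOn y0 S) :
    ∃ y : X → ℝ → V, ContinuousOn (fun p : X × ℝ => y p.1 p.2) (S ×ˢ Icc a b) ∧
      ∀ x ∈ S, y x a = y0 x ∧ Continuous (y x) ∧
        ∀ t ∈ Icc a b, HasDerivAt (y x) (M x t (y x t) + f x t) t := by
  have h : ∀ x, ∃ y : ℝ → V, x ∈ S → y a = y0 x ∧ Continuous y ∧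
      ∀ t ∈ Icc a b, HasDerivAt y (M x t (y t) + f x t) t := fun x => by
    by_cases hx : x ∈ S
    · obtain ⟨y, hy⟩ := exists_sol0 hab (M := M x) (f := f x)
        (hM.comp (f := fun t => (x, t)) (by fun_prop) fun t ht => ⟨hx, ht⟩)
        (hf.comp (f := fun t => (x, t)) (by fun_prop) fun t ht => ⟨hx, ht⟩) (y0 x)
      exact ⟨y, fun _ => hy⟩
    · exact ⟨0, fun h => absurd h hx⟩
  choose y hy using h
  exact ⟨y, continuousOn_sol hM hf (h0.congr fun x hx => (hy x hx).1) fun x hx => (hy x hx).2.2, hy⟩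

/-- The matrix of the scalar system `Th' = Fl / P`, `Fl' = Q Th`. -/
noncomputable def mat (P Q : ℝ) : ℝ × ℝ →L[ℝ] ℝ × ℝ :=
  P⁻¹ • (ContinuousLinearMap.inl ℝ ℝ ℝ ∘L ContinuousLinearMap.snd ℝ ℝ ℝ) +
    Q • (ContinuousLinearMap.inr ℝ ℝ ℝ ∘L ContinuousLinearMap.fst ℝ ℝ ℝ)

theorem mat_apply (P Q : ℝ) (v : ℝ × ℝ) : mat P Q v = (v.2 / P, Q * v.1) := by
  simp [mat, div_eq_inv_mul]

/-- The scalar system with a parameter and forcing. -/
theorem exists_scalarF {X : Type*} [TopologicalSpace X] {S : Set X} {a b : ℝ} (hab : a ≤ b)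
    {P Q g h : X → ℝ → ℝ} {u0 v0 : X → ℝ}
    (hP : ContinuousOn (fun p : X × ℝ => P p.1 p.2) (S ×ˢ Icc a b))
    (hQ : ContinuousOn (fun p : X × ℝ => Q p.1 p.2) (S ×ˢ Icc a b))
    (hg : ContinuousOn (fun p : X × ℝ => g p.1 p.2) (S ×ˢ Icc a b))
    (hh : ContinuousOn (fun p : X × ℝ => h p.1 p.2) (S ×ˢ Icc a b))
    (hP0 : ∀ x ∈ S, ∀ t ∈ Icc a b, P x t ≠ 0) (hu : ContinuousOn u0 S) (hv : ContinuousOn v0 S) :
    ∃ Th Fl : X → ℝ → ℝ, ContinuousOn (fun p : X × ℝ => Th p.1 p.2) (S ×ˢ Icc a b) ∧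
      ContinuousOn (fun p : X × ℝ => Fl p.1 p.2) (S ×ˢ Icc a b) ∧
      ∀ x ∈ S, Th x a = u0 x ∧ Fl x a = v0 x ∧ Continuous (Th x) ∧ Continuous (Fl x) ∧
        ∀ t ∈ Icc a b, HasDerivAt (Th x) (Fl x t / P x t + g x t) t ∧
          HasDerivAt (Fl x) (Q x t * Th x t + h x t) t := by
  obtain ⟨y, hc, hy⟩ := exists_sol (V := ℝ × ℝ) (S := S) hab (M := fun x t => mat (P x t) (Q x t))
    (f := fun x t => (g x t, h x t)) (y0 := fun x => (u0 x, v0 x))
    (((hP.inv₀ fun p hp => hP0 p.1 hp.1 p.2 hp.2).smul continuousOn_const).add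
      (hQ.smul continuousOn_const)) (hg.prodMk hh) (hu.prodMk hv)
  refine ⟨fun x t => (y x t).1, fun x t => (y x t).2, continuous_fst.comp_continuousOn hc,
    continuous_snd.comp_continuousOn hc, fun x hx => ?_⟩
  obtain ⟨h1, h2, h3⟩ := hy x hx
  refine ⟨by simp [h1], by simp [h1], h2.fst, h2.snd, fun t ht => ⟨?_, ?_⟩⟩
  · exact ((ContinuousLinearMap.fst ℝ ℝ ℝ).hasFDerivAt.comp_hasDerivAt t (h3 t ht)).congr_deriv
      (by simp [mat_apply])
  · exact ((ContinuousLinearMap.snd ℝ ℝ ℝ).hasFDerivAt.comp_hasDerivAt t (h3 t ht)).congr_deriv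
      (by simp [mat_apply])

/-- The scalar system with a parameter. -/
theorem exists_scalar {X : Type*} [TopologicalSpace X] {S : Set X} {a b : ℝ} (hab : a ≤ b)
    {P Q : X → ℝ → ℝ} {u0 v0 : X → ℝ}
    (hP : ContinuousOn (fun p : X × ℝ => P p.1 p.2) (S ×ˢ Icc a b))
    (hQ : ContinuousOn (fun p : X × ℝ => Q p.1 p.2) (S ×ˢ Icc a b))
    (hP0 : ∀ x ∈ S, ∀ t ∈ Icc a b, P x t ≠ 0) (hu : ContinuousOn u0 S) (hv : ContinuousOn v0 S) :
    ∃ Th Fl : X → ℝ → ℝ, ContinuousOn (fun p : X × ℝ => Th p.1 p.2) (S ×ˢ Icc a b) ∧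
      ContinuousOn (fun p : X × ℝ => Fl p.1 p.2) (S ×ˢ Icc a b) ∧
      ∀ x ∈ S, Th x a = u0 x ∧ Fl x a = v0 x ∧ Continuous (Th x) ∧ Continuous (Fl x) ∧
        ∀ t ∈ Icc a b, HasDerivAt (Th x) (Fl x t / P x t) t ∧
          HasDerivAt (Fl x) (Q x t * Th x t) t := by
  simpa using exists_scalarF (g := fun _ _ => 0) (h := fun _ _ => 0) hab hP hQ continuousOn_const
    continuousOn_const hP0 hu hv

/-- The scalar system without a parameter. -/
theorem exists_scalar0 {a b : ℝ} (hab : a ≤ b) {P Q : ℝ → ℝ} (hP : ContinuousOn P (Icc a b))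
    (hQ : ContinuousOn Q (Icc a b)) (hP0 : ∀ t ∈ Icc a b, P t ≠ 0) (u0 v0 : ℝ) :
    ∃ Th Fl : ℝ → ℝ, Th a = u0 ∧ Fl a = v0 ∧ Continuous Th ∧ Continuous Fl ∧
      ∀ t ∈ Icc a b, HasDerivAt Th (Fl t / P t) t ∧ HasDerivAt Fl (Q t * Th t) t := by
  obtain ⟨Th, Fl, -, -, h⟩ := exists_scalar (X := Unit) (S := univ) hab (P := fun _ => P)
    (Q := fun _ => Q) (u0 := fun _ => u0) (v0 := fun _ => v0)
    (hP.comp continuousOn_snd fun p hp => hp.2) (hQ.comp continuousOn_snd fun p hp => hp.2)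
    (fun _ _ => hP0) continuousOn_const continuousOn_const
  exact ⟨Th (), Fl (), h () trivial⟩

/-- First zero of a continuous function that starts positive. -/
theorem first_zero {a b : ℝ} {g : ℝ → ℝ} (hg : ContinuousOn g (Icc a b)) (h0 : 0 < g a)
    (h1 : ∃ t ∈ Icc a b, g t ≤ 0) : ∃ t0 ∈ Ioc a b, g t0 = 0 ∧ ∀ t ∈ Ico a t0, 0 < g t := by
  have hc : IsCompact (Icc a b ∩ g ⁻¹' Iic 0) :=
    isCompact_Icc.of_isClosed_subset (hg.preimage_isClosed_of_isClosed isClosed_Icc isClosed_Iic)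
      inter_subset_left
  obtain ⟨t0, ⟨ht0, hg0⟩, hmin⟩ := hc.exists_isLeast (h1.imp fun t ht => ⟨ht.1, ht.2⟩)
  have hpos : ∀ t ∈ Ico a t0, 0 < g t := fun t ht => not_le.1 fun h =>
    absurd (hmin ⟨⟨ht.1, ht.2.le.trans ht0.2⟩, h⟩) (not_le.2 ht.2)
  obtain ⟨t1, ht1, hz⟩ := intermediate_value_Icc' ht0.1 (hg.mono (Icc_subset_Icc_right ht0.2))
    (show (0 : ℝ) ∈ Icc (g t0) (g a) from ⟨hg0, h0.le⟩)
  have e : t1 = t0 := ht1.2.eq_or_lt.resolve_right fun h => (hpos t1 ⟨ht1.1, h⟩).ne' hz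
  subst e
  exact ⟨t1, ⟨ht0.1.lt_of_ne fun h => h0.ne' (h ▸ hz), ht0.2⟩, hz, hpos⟩

/-- Shooting: the minimum of `g x` over `[s, te x]` passes through zero. -/
theorem shoot {X : Type*} [TopologicalSpace X] {S : Set X} (hS : IsPreconnected S) {s b : ℝ}
    {te : X → ℝ} {g : X → ℝ → ℝ} (hte : ContinuousOn te S) (hm : ∀ x ∈ S, te x ∈ Icc s b)
    (hg : ContinuousOn (fun p : X × ℝ => g p.1 p.2) (S ×ˢ Icc s b)) {x0 x1 : X} (hx0 : x0 ∈ S)
    (hx1 : x1 ∈ S) (h0 : ∀ t ∈ Icc s (te x0), 0 ≤ g x0 t) (h1 : ∃ t ∈ Icc s (te x1), g x1 t ≤ 0) :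
    ∃ x ∈ S, (∀ t ∈ Icc s (te x), 0 ≤ g x t) ∧ ∃ t ∈ Icc s (te x), g x t = 0 := by
  have hmem : ∀ x ∈ S, ∀ t : Icc s b, min (t : ℝ) (te x) ∈ Icc s (te x) := fun x hx t =>
    ⟨le_min t.2.1 (hm x hx).1, min_le_right _ _⟩
  let F : S → Icc s b → ℝ := fun x t => g x (min (t : ℝ) (te x))
  have cte : Continuous fun x : S => te x := continuousOn_iff_continuous_domRestrict.1 hte
  have cF : Continuous ↿F := hg.comp_continuous
    (f := fun p : S × Icc s b => ((p.1 : X), min (p.2 : ℝ) (te p.1)))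
    ((continuous_subtype_val.comp continuous_fst).prodMk
      ((continuous_subtype_val.comp continuous_snd).min (cte.comp continuous_fst)))
    fun p => ⟨p.1.2, (hmem _ p.1.2 p.2).1, (min_le_left _ _).trans p.2.2.2⟩
  have cm := (isCompact_univ (X := Icc s b)).continuous_sInf cF
  have : Nonempty (Icc s b) := ⟨⟨_, hm x0 hx0⟩⟩
  have ex : ∀ x : S, ∃ t ∈ Icc s (te x), sInf (F x '' univ) = g x t ∧
      ∀ u ∈ Icc s (te x), g x t ≤ g x u := fun x => by
    obtain ⟨t, -, h2, h3⟩ := (isCompact_univ (X := Icc s b)).exists_sInf_image_eq_and_le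
      univ_nonempty (f := F x) (cF.comp (Continuous.prodMk_right x)).continuousOn
    refine ⟨_, hmem _ x.2 t, h2, fun u hu => ?_⟩
    have := h3 ⟨u, hu.1, hu.2.trans (hm x x.2).2⟩ trivial
    simpa only [F, min_eq_left hu.2] using this
  have : PreconnectedSpace S := isPreconnected_iff_preconnectedSpace.1 hS
  obtain ⟨x, hx⟩ := intermediate_value_univ (⟨x1, hx1⟩ : S) ⟨x0, hx0⟩ cm
    (show (0 : ℝ) ∈ Icc _ _ from ⟨by
      obtain ⟨t, -, h2, h3⟩ := ex ⟨x1, hx1⟩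
      obtain ⟨u, hu, h4⟩ := h1
      exact h2.trans_le ((h3 u hu).trans h4), by
      obtain ⟨t, ht, h2, -⟩ := ex ⟨x0, hx0⟩
      exact (h0 t ht).trans h2.ge⟩)
  obtain ⟨t, ht, h2, h3⟩ := ex x
  have hz : g x t = 0 := h2.symm.trans hx
  exact ⟨x, x.2, fun u hu => hz ▸ h3 u hu, t, ht, hz⟩

/-- A nonnegative function cannot vanish with negative derivative before the right end. -/
theorem pos_of_deriv_neg {s e : ℝ} {g : ℝ → ℝ} (h0 : ∀ t ∈ Icc s e, 0 ≤ g t)
    (hd : ∀ t ∈ Ico s e, g t = 0 → ∃ d < 0, HasDerivAt g d t) : ∀ t ∈ Ico s e, 0 < g t := by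
  intro t ht
  refine (h0 t (Ico_subset_Icc_self ht)).lt_of_ne fun hz => ?_
  obtain ⟨d, hd0, hdt⟩ := hd t ht hz.symm
  have h1 : ∀ᶠ u in 𝓝[>] t, slope g t u < 0 :=
    (hdt.hasDerivWithinAt (s := Ioi t)).limsup_slope_le' (by simp) hd0
  obtain ⟨u, hu1, hu2⟩ := (h1.and (Ioo_mem_nhdsGT ht.2)).exists
  rw [slope_def_field, ← hz, sub_zero, div_neg_iff] at hu1
  have := h0 u ⟨ht.1.trans hu2.1.le, hu2.2.le⟩
  rcases hu1 with h | h <;> linarith [h.1, h.2, hu2.1]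

/-- Shooting with the zero at the end point. -/
theorem shoot_end {X : Type*} [TopologicalSpace X] {S : Set X} (hS : IsPreconnected S) {s b : ℝ}
    {te : X → ℝ} {g : X → ℝ → ℝ} (hte : ContinuousOn te S) (hm : ∀ x ∈ S, te x ∈ Icc s b)
    (hg : ContinuousOn (fun p : X × ℝ => g p.1 p.2) (S ×ˢ Icc s b)) {x0 x1 : X} (hx0 : x0 ∈ S)
    (hx1 : x1 ∈ S) (h0 : ∀ t ∈ Icc s (te x0), 0 ≤ g x0 t) (h1 : ∃ t ∈ Icc s (te x1), g x1 t ≤ 0)
    (hd : ∀ x ∈ S, (∀ t ∈ Icc s (te x), 0 ≤ g x t) →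
      ∀ t ∈ Ico s (te x), g x t = 0 → ∃ d < 0, HasDerivAt (g x) d t) :
    ∃ x ∈ S, (∀ t ∈ Ico s (te x), 0 < g x t) ∧ g x (te x) = 0 := by
  obtain ⟨x, hx, h2, t, ht, hz⟩ := shoot hS hte hm hg hx0 hx1 h0 h1
  have h3 := pos_of_deriv_neg h2 (hd x hx h2)
  have e : t = te x := ht.2.eq_or_lt.resolve_right fun h => (h3 t ⟨ht.1, h⟩).ne' hz
  exact ⟨x, hx, h3, e ▸ hz⟩

end Pool.Agent.Lib.MP_fbbbeb_an.Lin
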