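import Mathlib
import Pool.Agent.Lib.MP_fbbbeb_an.D.SDefs
import Pool.Agent.Lib.MP_fbbbeb_an.D.Lin

/-! The first level of the scalar cascade. -/

set_option autoImplicit false

noncomputable section

namespace Pool.Agent.Lib.MP_fbbbeb_an.D

open Set Pool.Agent.Lib.MP_fbbbeb_an.Ric

namespace First

theorem exists_mid {p q : ℝ → ℝ} (hp : ContinuousOn p (Icc 0 1)) (hq : ContinuousOn q (Icc 0 1))
    (h0 : ∀ t ∈ Icc (0 : ℝ) 1, 0 < p t) :
    ∃ th f : ℝ → ℝ, Sys 0 1 p q th f ∧ th (1 / 2) = 1 ∧ f (1 / 2) = 0 := by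
  obtain ⟨u, v, u0, v0, -, -, h1⟩ :=
    Lin.exists_scalar0 zero_le_one hp hq (fun t ht => (h0 t ht).ne') 1 0
  obtain ⟨x, y, x0, y0, -, -, h2⟩ :=
    Lin.exists_scalar0 zero_le_one hp hq (fun t ht => (h0 t ht).ne') 0 1
  have hW : ∀ t ∈ Icc (0 : ℝ) 1, HasDerivAt (fun t => u t * y t - x t * v t) 0 t := fun t ht =>
    (((h1 t ht).1.mul (h2 t ht).2).sub ((h2 t ht).1.mul (h1 t ht).2)).congr_deriv (by ring)
  have hm : (1 / 2 : ℝ) ∈ Icc (0 : ℝ) 1 := ⟨by norm_num, by norm_num⟩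
  have a1 := le_of_deriv hW (fun _ _ => le_rfl) _ hm
  have a2 := le_of_deriv (fun t ht => (hW t ht).neg) (fun _ _ => by simp) _ hm
  simp only [Pi.neg_apply, u0, v0, x0, y0] at a1 a2
  refine ⟨fun t => y (1 / 2) * u t - v (1 / 2) * x t, fun t => y (1 / 2) * v t - v (1 / 2) * y t,
    ⟨hp, h0, fun t ht => ?_, fun t ht => ?_⟩, by linarith, by ring⟩
  · exact (((h1 t ht).1.const_mul _).sub ((h2 t ht).1.const_mul _)).congr_deriv (by ring)
  · exact (((h1 t ht).2.const_mul _).sub ((h2 t ht).2.const_mul _)).congr_deriv (by ring)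

theorem mvt {g g' : ℝ → ℝ} {C : ℝ} (hg : ∀ t ∈ Icc (0 : ℝ) 1, HasDerivAt g (g' t) t)
    (hb : ∀ t ∈ Icc (0 : ℝ) 1, |g' t| ≤ C) : ∀ t ∈ Icc (0 : ℝ) 1, |g t - g (1 / 2)| ≤ C / 2 := by
  intro t ht
  have hm : (1 / 2 : ℝ) ∈ Icc (0 : ℝ) 1 := ⟨by norm_num, by norm_num⟩
  have h := (convex_Icc (0 : ℝ) 1).norm_image_sub_le_of_norm_hasDerivWithin_le
    (fun t ht => (hg t ht).hasDerivWithinAt) hb hm ht
  have hC : 0 ≤ C := (abs_nonneg _).trans (hb _ hm)
  have h2 : ‖t - 1 / 2‖ ≤ 1 / 2 := abs_le.2 ⟨by linarith [ht.1], by linarith [ht.2]⟩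
  have := mul_le_mul_of_nonneg_left h2 hC
  rw [Real.norm_eq_abs] at h
  linarith

end First

theorem firstSt : FirstSt := by
  refine ⟨6, fun K p q hK hp hq hb => ?_⟩
  have hp0 : ∀ t ∈ Icc (0 : ℝ) 1, 0 < p t := fun t ht => by linarith [(hb t ht).1]
  obtain ⟨th, f, hs, h1, h0⟩ := First.exists_mid hp hq hp0
  have hK0 : 0 < K := by linarith
  have hq0 : ∀ t ∈ Icc (0 : ℝ) 1, q t < 0 := fun t ht => by
    by_contra h
    have := mul_nonneg hK0.le (not_lt.1 h)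
    linarith [(hb t ht).2.2.2]
  have hqa : ∀ t ∈ Icc (0 : ℝ) 1, |q t| ≤ 1 / 100 := fun t ht =>
    abs_le.2 ⟨(hb t ht).2.2.1, by linarith [hq0 t ht]⟩
  have bd : ∀ M : ℝ, (∀ t ∈ Icc (0 : ℝ) 1, |th t| ≤ M) →
      ∀ t ∈ Icc (0 : ℝ) 1, |f t| ≤ M / 200 ∧ |th t - 1| ≤ M / 200 := by
    intro M hM
    have a : ∀ t ∈ Icc (0 : ℝ) 1, |f t| ≤ M / 200 := fun t ht => by
      have := First.mvt (C := 1 / 100 * M) hs.dFl (fun s hs' => by
        rw [abs_mul]
        exact mul_le_mul (hqa s hs') (hM s hs') (abs_nonneg _) (by norm_num)) t ht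
      rw [h0, sub_zero] at this
      linarith
    intro t ht
    refine ⟨a t ht, ?_⟩
    have := First.mvt (C := M / 100) hs.dTh (fun s hs' => by
      rw [abs_div, abs_of_pos (hp0 s hs'), div_le_iff₀ (hp0 s hs')]
      have h3 := (abs_nonneg _).trans (hM s hs')
      nlinarith [a s hs', (hb s hs').1]) t ht
    rw [h1] at this
    linarith
  obtain ⟨tm, htm, hmax⟩ := isCompact_Icc.exists_isMaxOn (nonempty_Icc.2 zero_le_one)
    (contOn hs.dTh).abs
  have hM2 : |th tm| ≤ 2 := by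
    have a := (bd _ (fun t ht => hmax ht) tm htm).2
    have b := abs_sub_abs_le_abs_sub (th tm) 1
    rw [abs_one] at b
    linarith
  have b2 := bd 2 fun t ht => (hmax ht).trans hM2
  have lo : ∀ t ∈ Icc (0 : ℝ) 1, 1 / 2 ≤ th t := fun t ht => by
    linarith [(abs_le.1 (b2 t ht).2).1]
  have hc : ∀ t ∈ Icc (0 : ℝ) 1, q t * th t + 1 / (2 * K) ≤ 0 := fun t ht => by
    have a := (hb t ht).2.2.2
    have : 1 / (2 * K) ≤ -(q t * th t) := by
      rw [div_le_iff₀ (by positivity)]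
      nlinarith [lo t ht]
    linarith
  have fl : ∀ t ∈ Icc (0 : ℝ) (1 / 2), (1 / 2 - t) * (1 / (2 * K)) ≤ f t := fun t ht => by
    have := le_of_deriv (a := t) (b := 1 / 2) (g := fun s => -(f s + s * (1 / (2 * K))))
      (g' := fun s => -(q s * th s + 1 / (2 * K)))
      (fun s hs' => ((hs.dFl s ⟨ht.1.trans hs'.1, by linarith [hs'.2]⟩).add
        (hasDerivAt_mul_const _)).neg)
      (fun s hs' => by linarith [hc s ⟨ht.1.trans hs'.1, by linarith [hs'.2]⟩]) (1 / 2)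
      ⟨ht.2, le_rfl⟩
    simp only [h0] at this
    linarith
  have k0 : 0 < 1 / (2 * K) := by positivity
  have f0 : ∀ t ∈ Icc (0 : ℝ) (1 / 2), 0 ≤ f t := fun t ht =>
    (mul_nonneg (by linarith [ht.2]) k0.le).trans (fl t ht)
  have mono := (hs.mono le_rfl (by norm_num : (1 / 2 : ℝ) ≤ 1)).Th_mono f0
  have f1 : ∀ t ∈ Icc (1 / 2 : ℝ) 1, f t ≤ 0 := fun t ht => by
    have := le_of_deriv (a := 1 / 2) (b := 1) (g := fun s => -f s) (g' := fun s => -(q s * th s))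
      (fun s hs' => (hs.dFl s ⟨by linarith [hs'.1], hs'.2⟩).neg)
      (fun s hs' => by linarith [hc s ⟨by linarith [hs'.1], hs'.2.le⟩]) t ht
    simp only [h0] at this
    linarith
  have hi : ∀ t ∈ Icc (0 : ℝ) 1, th t ≤ 1 := fun t ht => by
    rcases le_total t (1 / 2) with h | h
    · exact (mono t ⟨ht.1, h⟩ (1 / 2) ⟨by norm_num, le_rfl⟩ h).trans h1.le
    · have := le_of_deriv (a := 1 / 2) (b := 1) (g := fun s => -th s) (g' := fun s => -(f s / p s))
        (fun s hs' => (hs.dTh s ⟨by linarith [hs'.1], hs'.2⟩).neg)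
        (fun s hs' => neg_nonneg.2 (div_nonpos_of_nonpos_of_nonneg (f1 s (Ico_subset_Icc_self hs'))
          (hp0 s ⟨by linarith [hs'.1], hs'.2.le⟩).le)) t ⟨h, ht.2⟩
      simp only [h1] at this
      linarith
  have drop : th 0 + 1 / 16 * (1 / (2 * K)) ≤ 1 := by
    have := le_of_deriv (a := 0) (b := 1 / 2)
      (g := fun s => th s + (1 / 2 - s) ^ 2 * (1 / 4 * (1 / (2 * K))))
      (g' := fun s => f s / p s - (1 / 2 - s) * (1 / (2 * K)) / 2)
      (fun s hs' => ((hs.dTh s ⟨hs'.1, by linarith [hs'.2]⟩).add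
        ((((hasDerivAt_id s).const_sub (1 / 2)).pow 2).mul_const _)).congr_deriv (by simp; ring))
      (fun s hs' => by
        have m : s ∈ Icc (0 : ℝ) 1 := ⟨hs'.1, by linarith [hs'.2]⟩
        have a := fl s (Ico_subset_Icc_self hs')
        have b := f0 s (Ico_subset_Icc_self hs')
        have c : f s / 2 ≤ f s / p s := div_le_div_of_nonneg_left b (hp0 s m) (hb s m).2.1
        linarith) (1 / 2) ⟨by norm_num, le_rfl⟩
    simp only [h1] at this
    linarith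
  have k5 : (32 : ℝ) ≤ K ^ 5 := by
    have := pow_le_pow_left₀ zero_le_two hK 5
    linarith
  have k6 : 32 * K ≤ K ^ 6 := by nlinarith
  have k7 : 1 / K ^ 6 ≤ 1 / 16 * (1 / (2 * K)) := by
    have := one_div_le_one_div_of_le (by positivity : 0 < 32 * K) k6
    calc 1 / K ^ 6 ≤ 1 / (32 * K) := this
      _ = _ := by field_simp; norm_num
  have k8 : 1 / K ^ 6 ≤ 1 / 2 := one_div_le_one_div_of_le (by norm_num) (by linarith)
  refine ⟨th, f, ⟨hs, fun t ht => by nlinarith [(hb t ht).1], fun t ht => by linarith [(hb t ht).2.1],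
    fun t ht => by linarith [hqa t ht], fun t ht => by linarith [lo t ht],
    fun t ht => by nlinarith [(b2 t ht).1, lo t ht],
    fun s hs' t ht _ => by nlinarith [hi s hs', lo t ht], fun t ht => by rw [h1]; linarith [hi t ht],
    by linarith, by linarith, le_rfl, h0,
    fun t ht s hs' hts => mono t ⟨ht.1, hts.trans hs'.2⟩ s ⟨ht.1.trans hts, hs'.2⟩ hts,
    by rw [h1]; linarith⟩, h1, fun t ht => ⟨lo t ht, hi t ht⟩⟩

end Pool.Agent.Lib.MP_fbbbeb_an.D
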