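import Pool.Agent.Lib.MP_fbbbeb_an.D.SDefs

/-! Sign of the new coefficient before the end time of a returning level. -/

set_option autoImplicit false

noncomputable section

namespace Pool.Agent.Lib.MP_fbbbeb_an.D

open Set Pool.Agent.Lib.MP_fbbbeb_an.Ric

namespace Neg

theorem div_le {K a b e : ℝ} (hK : 0 < K) (hb : 1 ≤ K * |b|) (ha : |a| ≤ e) : |a / b| ≤ K * e := by
  have h0 : 0 < |b| := by
    by_contra h
    have := mul_le_mul_of_nonneg_left (not_lt.1 h) hK.le
    linarith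
  have he : 0 ≤ e := (abs_nonneg _).trans ha
  rw [abs_div, div_le_iff₀ h0]
  nlinarith [mul_le_mul_of_nonneg_left hb he]

theorem ne0 {K b : ℝ} (hb : 1 ≤ K * |b|) : b ≠ 0 := by
  rintro rfl
  simp at hb
  linarith

theorem small {y z : ℝ} (hy : |y| ≤ 4 / 10000) (hz : |z| ≤ 2 / 10000) :
    |(1 + z) * (-1 + y) + 1| ≤ 1 / 1000 := by
  have h : |z * y| ≤ 2 / 10000 * (4 / 10000) := by
    rw [abs_mul]
    exact mul_le_mul hz hy (abs_nonneg _) (by norm_num)
  rw [abs_le] at *
  constructor <;> nlinarith [hy.1, hy.2, hz.1, hz.2, h.1, h.2]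

end Neg

theorem negSt : TurnSt → NegSt := by
  rintro ⟨C0, hT⟩
  refine ⟨C0 + 20, fun x K ε ψ ψ' τ te hK ok hε hτ hte hbig hψ0 hψ1 hTH => ?_⟩
  have hK0 : 0 < K := by linarith
  rw [pow_add] at hε hτ hbig hTH
  have hA : 1 ≤ K ^ C0 := one_le_pow₀ (by linarith)
  have τ0 : 0 ≤ τ := by linarith [hte.1, hte.2]
  have k14 : 16384 ≤ K ^ 14 := by
    have := pow_le_pow_left₀ (by norm_num : (0 : ℝ) ≤ 2) hK 14
    norm_num at this
    exact this
  have k6 : 64 ≤ K ^ 6 := by
    have := pow_le_pow_left₀ (by norm_num : (0 : ℝ) ≤ 2) hK 6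
    norm_num at this
    exact this
  have k20 : 20000 ≤ K ^ 20 := by nlinarith
  have hη : K * (K * τ) ≤ 1 / 10000 := by
    have h1 : τ * K ^ 20 * 1 ≤ τ * K ^ 20 * K ^ C0 := mul_le_mul_of_nonneg_left hA (by positivity)
    have k4 : 1 ≤ K ^ 4 := one_le_pow₀ (by linarith)
    have k18 : 16384 ≤ K ^ 14 * K ^ 4 := by nlinarith
    have h2 : K * (K * τ) * 16384 ≤ K * (K * τ) * (K ^ 14 * K ^ 4) :=
      mul_le_mul_of_nonneg_left k18 (by positivity)
    linarith
  have hKτ : K * τ ≤ 1 / 10000 := by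
    have : 1 * (K * τ) ≤ K * (K * τ) := mul_le_mul_of_nonneg_right (by linarith) (by positivity)
    linarith
  have ε0 : 0 ≤ ε := (abs_nonneg _).trans (ok.q_eq 0 ⟨le_rfl, by
    have := ok.sp.t_hi
    have h1 : 0 < 1 / K := by positivity
    have h2 : 0 < x.t0 := by
      by_contra h
      have := mul_le_mul_of_nonneg_left (not_lt.1 h) hK0.le
      linarith [ok.sp.t_lo]
    linarith⟩)
  have cut : ∀ a : ℝ, 0 ≤ a → a * (K ^ C0 * K ^ 20) ≤ 1 → a * K ^ C0 * 20000 ≤ 1 := fun a ha h => by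
    have := mul_le_mul_of_nonneg_left k20 (by positivity : 0 ≤ a * K ^ C0)
    linarith
  have hε' : ε * K ^ C0 ≤ 1 := by
    have := cut ε ε0 hε
    have h2 : 0 ≤ ε * K ^ C0 := by positivity
    linarith
  have hτ' : τ * K ^ C0 ≤ 1 := by
    have := cut τ τ0 hτ
    have h2 : 0 ≤ τ * K ^ C0 := by positivity
    linarith
  have turn := hT x K ε ψ (-1) τ hK ok hε' hτ'
  have TH0 : 0 < x.TH := lt_of_lt_of_le (by positivity) hTH
  have mem : ∀ t ∈ Icc (-τ + x.t0) x.t0, t ∈ Icc 0 x.T := fun t ht => by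
    have h1 : 0 < 1 / K := by positivity
    refine ⟨?_, by linarith [ht.2, ok.sp.t_hi]⟩
    have h2 : τ ≤ x.t0 := le_of_mul_le_mul_left (by linarith [ok.sp.t_lo]) hK0
    linarith [ht.1]
  have m0 : x.t0 ∈ Icc 0 x.T := mem _ ⟨by linarith, le_rfl⟩
  have near : ∀ g : ℝ → ℝ, Lip K x.T g → ∀ t ∈ Icc (-τ + x.t0) x.t0, |g x.t0 - g t| ≤ K * τ :=
    fun g hg t ht => (hg.2 t (mem t ht) _ m0).trans (mul_le_mul_of_nonneg_left
      (abs_le.2 ⟨by linarith [ht.2], by linarith [ht.1]⟩) hK0.le)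
  have dlo : ∀ t ∈ Icc (-τ + x.t0) x.t0, 1 ≤ 2 * K * |x.d t| := fun t ht => by
    have h1 := abs_sub_abs_le_abs_sub (x.d x.t0) (x.d t)
    have h2 := mul_le_mul_of_nonneg_left (h1.trans (near _ ok.ld t ht)) hK0.le
    linarith [ok.d_lo]
  have c0 : x.c x.t0 < 0 := by
    by_contra h
    have := mul_nonneg hK0.le (not_lt.1 h)
    linarith [ok.c_lo]
  have w0 : |x.c x.t0| = -x.c x.t0 := abs_of_neg c0
  have wlo : 1 ≤ K * |x.c x.t0| := by rw [w0]; linarith [ok.c_lo]
  have whi : |x.c x.t0| ≤ K := ok.lc.1 _ m0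
  have de0 : x.d te ≠ 0 := Neg.ne0 (dlo te hte)
  have mm0 : x.m ≠ 0 := Neg.ne0 ok.m_lo
  have hκ : 0 ≤ ψ' * |x.c x.t0| / 4 := by positivity
  have hκ1 : ψ' * |x.c x.t0| / 4 ≤ K := by
    have := mul_le_mul hψ1 whi (abs_nonneg _) (by norm_num)
    linarith
  have hg : |x.c te + ψ' * |x.c x.t0| / 4| ≤ 2 * K := by
    have := abs_le.1 (ok.lc.1 te (mem te hte))
    exact abs_le.2 ⟨by linarith, by linarith⟩
  refine ⟨?_, ?_, de0, fun t ht => ?_⟩
  · obtain ⟨t1, t2, -, -⟩ := turn (te - x.t0) ⟨by linarith [hte.1], by linarith [hte.2]⟩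
    rw [sub_add_cancel] at t1 t2
    have a1 : 0 ≤ x.TH - x.th te := by
      by_contra h
      have h1 := mul_lt_mul_of_pos_left (not_le.1 h) (by positivity : 0 < K ^ C0)
      have h2 : 0 ≤ (te - x.t0) ^ 2 * x.TH := by positivity
      linarith
    have a2 : (te - x.t0) ^ 2 ≤ τ := by
      have h1 : (te - x.t0) ^ 2 ≤ τ ^ 2 := sq_le_sq' (by linarith [hte.1]) (by linarith [hte.2])
      have h2 : τ ≤ 1 := by nlinarith
      nlinarith
    have a3 : K ^ C0 * (te - x.t0) ^ 2 * 20000 ≤ 1 := by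
      have := mul_le_mul_of_nonneg_left a2 (by positivity : 0 ≤ K ^ C0)
      linarith [cut τ τ0 hτ]
    have a4 := mul_le_mul_of_nonneg_right a3 TH0.le
    have a5 : |x.m * ((x.c te + ψ' * |x.c x.t0| / 4) / x.d te)| ≤ K * (2 * K * (2 * K)) := by
      rw [abs_mul]
      exact mul_le_mul ok.m_hi (Neg.div_le (by positivity) (dlo te hte) hg) (abs_nonneg _) hK0.le
    have a6 : 20000 * (K * (2 * K * (2 * K))) ≤ x.TH := by
      have h1 : K ^ 20 * 1 ≤ K ^ 20 * K ^ C0 := mul_le_mul_of_nonneg_left hA (by positivity)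
      have k3 : 8 ≤ K ^ 3 := by nlinarith
      have k17 : 80000 ≤ K ^ 14 * K ^ 3 := by nlinarith
      have h2 := mul_le_mul_of_nonneg_left k17 (by positivity : 0 ≤ K ^ 3)
      linarith
    have a7 := abs_le.1 a5
    have a8 : |x.La ψ' te - x.TH| ≤ x.TH / 10000 := by
      unfold Dat.La
      exact abs_le.2 ⟨by linarith, by linarith⟩
    linarith
  · have p0 : 0 < x.p x.t0 := ok.sp.sys.pos _ m0
    have a0 : 0 < x.a x.t0 := by
      by_contra h
      have := mul_le_mul_of_nonneg_left (not_lt.1 h) hK0.le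
      linarith [ok.a_lo]
    have kp0 : x.kp ≠ 0 := (Real.sqrt_pos.2 (div_pos p0 a0)).ne'
    have e1 : x.ps * x.Sig (x.La ψ' te) (te - x.t0) =
        (1 + (x.d x.t0 - x.d te) / x.d te) *
          (-1 + (-((x.c x.t0 - x.c te) / |x.c x.t0|) + ψ' / 4)) := by
      unfold Dat.ps Dat.Sig Dat.La
      rw [sub_add_cancel, add_sub_cancel_left, w0]
      have c1 := c0.ne
      rcases mul_pos_iff.1 ok.md with ⟨h1, h2⟩ | ⟨h1, h2⟩
      · rw [abs_of_pos h1, abs_of_pos h2]
        field_simp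
        ring
      · rw [abs_of_neg h1, abs_of_neg h2]
        field_simp
        ring
    rw [e1]
    refine Neg.small ?_ ?_
    · have h1 := abs_le.1 (Neg.div_le hK0 (b := |x.c x.t0|) (by rwa [abs_abs]) (near _ ok.lc te hte))
      exact abs_le.2 ⟨by linarith, by linarith⟩
    · have h1 := Neg.div_le (by positivity) (dlo te hte) (near _ ok.ld te hte)
      linarith
  · have ht' : t ∈ Icc (-τ + x.t0) x.t0 := ⟨ht.1, ht.2.trans hte.2⟩
    have e1 : x.c t - x.lam (x.La ψ' te) t * x.d t = -(ψ' * |x.c x.t0| / 4) + ((x.c t - x.c te) +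
        (x.c te + ψ' * |x.c x.t0| / 4) * ((x.d te - x.d t) / x.d te) -
          (x.th te - x.th t) * (x.d t / x.m)) := by
      unfold Dat.lam Dat.La
      field_simp
      ring
    have tt : |te - t| = te - t := abs_of_nonneg (by linarith [ht.2])
    have b1 : x.c t - x.c te ≤ K * (te - t) := by
      have := ok.lc.2 t (mem t ht') te (mem te hte)
      rw [tt] at this
      linarith [(abs_le.1 this).1]
    have b2 : (x.c te + ψ' * |x.c x.t0| / 4) * ((x.d te - x.d t) / x.d te) ≤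
        2 * K * (2 * K * (K * (te - t))) := by
      have := ok.ld.2 t (mem t ht') te (mem te hte)
      rw [tt] at this
      refine (le_abs_self _).trans ?_
      rw [abs_mul]
      exact mul_le_mul hg (Neg.div_le (by positivity) (dlo te hte) this) (abs_nonneg _)
        (by positivity)
    have b3 : K ^ 19 * (te - t) ≤ x.th te - x.th t := by
      rcases ht.2.eq_or_lt with h | h
      · simp [h]
      have sub : ∀ s ∈ Icc t te, s ∈ Icc (-τ + x.t0) x.t0 := fun s hs =>
        ⟨ht.1.trans hs.1, hs.2.trans hte.2⟩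
      obtain ⟨s, hs, e⟩ := exists_hasDerivAt_eq_slope x.th (fun s => x.f s / x.p s) h
        (fun s hs => (ok.sp.sys.dTh s (mem s (sub s hs))).continuousAt.continuousWithinAt)
        fun s hs => ok.sp.sys.dTh s (mem s (sub s (Ioo_subset_Icc_self hs)))
      have hs' := sub s (Ioo_subset_Icc_self hs)
      obtain ⟨-, -, t3, -⟩ := turn (s - x.t0) ⟨by linarith [hs'.1], by linarith [hs'.2]⟩
      rw [sub_add_cancel] at t3
      have u0 : 0 < x.t0 - s := by linarith [hs.2, hte.2]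
      have f1 : (x.t0 - s) * x.TH ≤ K ^ C0 * x.f s := le_of_mul_le_mul_left (by linarith) u0
      have f2 : (x.t0 - te) * x.TH ≤ (x.t0 - s) * x.TH :=
        mul_le_mul_of_nonneg_right (by linarith [hs.2]) TH0.le
      have f3 : K ^ 20 ≤ x.f s := le_of_mul_le_mul_left (by linarith) (by positivity : 0 < K ^ C0)
      have f4 : K ^ 19 ≤ x.f s / x.p s := by
        rw [le_div_iff₀ (ok.sp.sys.pos s (mem s hs'))]
        have := mul_le_mul_of_nonneg_left (ok.sp.p_hi s (mem s hs')) (by positivity : 0 ≤ K ^ 19)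
        linarith
      rw [e, le_div_iff₀ (by linarith)] at f4
      exact f4
    have b4 : 1 / (2 * K ^ 2) ≤ x.d t / x.m := by
      have h0 := abs_le.1 (near _ ok.ld t ht')
      have h3 := ok.d_lo
      have h4 := ok.m_hi
      rcases mul_pos_iff.1 ok.md with ⟨h1, h2⟩ | ⟨h1, h2⟩
      · rw [abs_of_pos h2] at h3
        rw [abs_of_pos h1] at h4
        have h5 := mul_le_mul_of_nonneg_left h0.2 hK0.le
        have h6 : 1 ≤ 2 * K * x.d t := by linarith
        rw [div_le_div_iff₀ (by positivity) h1]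
        nlinarith [mul_le_mul_of_nonneg_left h6 hK0.le]
      · rw [abs_of_neg h2] at h3
        rw [abs_of_neg h1] at h4
        have h5 := mul_le_mul_of_nonneg_left h0.1 hK0.le
        have h6 : 1 ≤ 2 * K * -x.d t := by linarith
        rw [← neg_div_neg_eq (x.d t), div_le_div_iff₀ (by positivity) (by linarith)]
        nlinarith [mul_le_mul_of_nonneg_left h6 hK0.le]
    have s0 : 0 ≤ te - t := by linarith [ht.2]
    have b5 : K ^ 19 * (te - t) * (1 / (2 * K ^ 2)) ≤ (x.th te - x.th t) * (x.d t / x.m) :=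
      mul_le_mul b3 b4 (by positivity) (le_trans (by positivity) b3)
    have b6 : K ^ 19 * (te - t) * (1 / (2 * K ^ 2)) = K ^ 3 * (te - t) * K ^ 14 / 2 := by
      field_simp
    have b7 := mul_le_mul_of_nonneg_left k14 (by positivity : 0 ≤ K ^ 3 * (te - t))
    have b8 : K * (te - t) * 1 ≤ K * (te - t) * K ^ 2 :=
      mul_le_mul_of_nonneg_left (one_le_pow₀ (by linarith)) (by positivity)
    have b9 : 0 ≤ K ^ 3 * (te - t) := by positivity
    rw [e1]
    linarith

end Pool.Agent.Lib.MP_fbbbeb_an.D
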