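import Mathlib
import Pool.Agent.Lib.MP_fbbbeb_an.D.SDefs

/-! The new pack (D7). -/

set_option autoImplicit false

noncomputable section

namespace Pool.Agent.Lib.MP_fbbbeb_an.D

open Set Pool.Agent.Lib.MP_fbbbeb_an.Ric

namespace SNew

/-- pointwise consequences of the alignment -/
theorem pt {K K1 K2 H d th f m Th Fl : ℝ} (hK : 2 ≤ K) (h2 : K ≤ K2) (h1 : K2 ≤ K1) (H1 : 1 ≤ H)
    (HK : H ≤ K1) (d2 : 2 * d ≤ 3 * H) (t0 : 0 < th) (tH : th ≤ H) (hf : |f| ≤ K * th)
    (hm : 1 ≤ K * |m|) (a1 : H ≤ K2 * d) (a2 : K2 * |d * Th - th| ≤ th)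
    (a3 : K2 * |m ^ 2 * Fl / d - f * Th - f| ≤ th) :
    0 < d ∧ th ≤ 2 * (d * Th) ∧ 2 * (d * Th) ≤ 3 * th ∧ 0 < Th ∧ |Fl| ≤ K1 ^ 9 * Th := by
  have d0 : 0 < d := by
    by_contra h
    nlinarith
  have b2 : 2 * |d * Th - th| ≤ th := by nlinarith [abs_nonneg (d * Th - th)]
  have b3 : |m ^ 2 * Fl / d - f * Th - f| ≤ th := by
    nlinarith [abs_nonneg (m ^ 2 * Fl / d - f * Th - f)]
  have c1 : th ≤ 2 * (d * Th) := by linarith [neg_abs_le (d * Th - th)]
  have c2 : 2 * (d * Th) ≤ 3 * th := by linarith [le_abs_self (d * Th - th)]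
  have T0 : 0 < Th := by
    by_contra h
    nlinarith
  refine ⟨d0, c1, c2, T0, ?_⟩
  have e1 : |m ^ 2 * Fl / d| ≤ th + |f| * Th + |f| := by
    have := abs_add_three (m ^ 2 * Fl / d - f * Th - f) (f * Th) f
    rw [abs_mul f Th, abs_of_pos T0,
      show m ^ 2 * Fl / d - f * Th - f + f * Th + f = m ^ 2 * Fl / d by ring] at this
    linarith
  rw [abs_div, abs_mul, abs_of_pos d0, abs_pow, div_le_iff₀ d0] at e1
  have k0 : 0 < K1 := by linarith
  have e2 : th ≤ 3 * K1 * Th := by nlinarith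
  have e3 : |f| * Th ≤ K1 * K1 * Th := by
    refine mul_le_mul_of_nonneg_right (hf.trans ?_) T0.le
    exact mul_le_mul (by linarith) (by linarith) t0.le k0.le
  have e4 : |f| ≤ K1 * (3 * K1 * Th) := hf.trans (mul_le_mul (by linarith) e2 t0.le k0.le)
  have e5 : th ≤ 2 * (K1 * K1 * Th) := by nlinarith [mul_pos k0 T0]
  have e6 : (th + |f| * Th + |f|) * d ≤ 6 * (K1 * K1 * Th) * (2 * K1) :=
    mul_le_mul (by linarith) (by linarith) d0.le (by positivity)
  have e7 : 1 ≤ K1 ^ 2 * |m| ^ 2 := by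
    have : 1 ≤ K1 * |m| := hm.trans (mul_le_mul_of_nonneg_right (by linarith) (abs_nonneg _))
    rw [← mul_pow]
    exact one_le_pow₀ this
  have e8 : (2 : ℝ) ^ 4 ≤ K1 ^ 4 := pow_le_pow_left₀ zero_le_two (by linarith) 4
  calc |Fl| ≤ K1 ^ 2 * |m| ^ 2 * |Fl| := le_mul_of_one_le_left (abs_nonneg _) e7
    _ = K1 ^ 2 * (|m| ^ 2 * |Fl|) := by ring
    _ ≤ K1 ^ 2 * (6 * (K1 * K1 * Th) * (2 * K1)) := 
        mul_le_mul_of_nonneg_left (e1.trans e6) (by positivity)
    _ = 12 * (K1 ^ 5 * Th) := by ring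
    _ ≤ K1 ^ 4 * (K1 ^ 5 * Th) := by gcongr; linarith
    _ = _ := by ring

/-- growth of `Th` when the flux is bounded -/
theorem grow {a b K c : ℝ} {P Q Th Fl : ℝ → ℝ} (h : Sys a b P Q Th Fl) (hab : a ≤ b)
    (hP : ∀ t ∈ Icc a b, 1 ≤ K * P t) (hc : 0 ≤ c) (hF : ∀ t ∈ Icc a b, Fl t ≤ c) :
    Th b ≤ Th a + K * c * (b - a) := by
  have h1 := le_of_deriv (a := a) (b := b) (g := fun t => K * c * (t - a) - Th t)
    (g' := fun t => K * c - Fl t / P t) (fun t ht => (dlin _ _ _).sub (h.dTh t ht))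
    (fun t ht => by
      have ht' := Ico_subset_Icc_self ht
      have := mul_le_mul_of_nonneg_left (hP t ht') hc
      rw [sub_nonneg, div_le_iff₀ (h.pos t ht')]
      linarith [hF t ht']) b ⟨hab, le_rfl⟩
  simp only [sub_self, mul_zero] at h1
  linarith

end SNew

open SNew in
theorem newSt : NewSt := by
  refine ⟨15, fun x K K1 K2 ε ψ S L s t1 P Q Th Fl hK h2 h1 ok H1 HK hL sys hb s1 s2 st tT al F0 Fz
    g8 => ?_⟩
  have sp := ok.sp
  have k2 : 2 ≤ K1 := by linarith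
  have k0 : 0 < K1 := by linarith
  have k1 : 1 ≤ K1 := by linarith
  have pw : ∀ {m n : ℕ}, m ≤ n → K1 ^ m ≤ K1 ^ n := fun h => pow_le_pow_right₀ k1 h
  have p2 : ∀ n m : ℕ, n + 1 = m → 2 * K1 ^ n ≤ K1 ^ m := fun n m h => by
    rw [← h, pow_succ']
    gcongr
  have pp : ∀ n : ℕ, 0 < K1 ^ n := fun n => pow_pos k0 n
  have iK : 0 < 1 / K := by positivity
  have iK1 : 0 < 1 / K1 := by positivity
  have hh : 1 / (2 * K) = 1 / K / 2 := by field_simp
  have hh1 : 1 / (2 * K1) = 1 / K1 / 2 := by field_simp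
  have t0K : 1 / K ≤ x.t0 := by
    rw [div_le_iff₀ (by linarith)]
    linarith [sp.t_lo]
  have s0 : 0 < s := by linarith
  have T1 := sp.T_le
  have t0T : x.t0 ≤ x.T := by linarith [sp.t_hi]
  have sT : ∀ t ∈ Icc 0 s, t ∈ Icc 0 x.T := fun t ht => ⟨ht.1, by linarith [ht.2]⟩
  have ss : s ∈ Icc 0 s := ⟨s0.le, le_rfl⟩
  have thH : ∀ t ∈ Icc 0 s, x.th t ≤ x.TH := fun t ht =>
    sp.mono t (sT t ht) x.t0 ⟨by linarith, le_rfl⟩ (by linarith [ht.2])
  have dH : ∀ t ∈ Icc 0 s, 2 * (L - x.th t) ≤ 3 * x.TH := fun t ht => by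
    linarith [le_abs_self (L - x.TH), sp.pos t (sT t ht)]
  have A := fun t (ht : t ∈ Icc 0 s) => pt hK h2 h1 H1 HK (dH t ht) (sp.pos t (sT t ht)) (thH t ht)
    (sp.f_bd t (sT t ht)) ok.m_lo (al.dl t ht) (al.w t ht) (al.g t ht)
  have Ts : 0 < Th s := (A s ss).2.2.2.1
  have T1p : 0 < Th t1 := by linarith
  -- before `s`
  have four : ∀ t ∈ Icc 0 s, Th t ≤ 4 * Th s := fun t ht => by
    obtain ⟨d0, -, a2, a3, -⟩ := A t ht
    obtain ⟨e0, b1, -, -, -⟩ := A s ss
    have m1 := sp.mono t (sT t ht) s ⟨by linarith, s2⟩ ht.2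
    have m2 : (L - x.th s) * Th t ≤ (L - x.th t) * Th t := by gcongr
    have m3 : (L - x.th s) * Th t ≤ (L - x.th s) * (4 * Th s) := by nlinarith
    exact le_of_mul_le_mul_left m3 e0
  have up0 : ∀ t ∈ Icc 0 s, 2 * (Th t * x.TH) ≤ 3 * (K1 * x.th t) := fun t ht => by
    obtain ⟨d0, -, a2, a3, -⟩ := A t ht
    have m1 : x.TH ≤ K1 * (L - x.th t) := (al.dl t ht).trans (by gcongr)
    have m2 := mul_le_mul_of_nonneg_left m1 a3.le
    have m3 := mul_le_mul_of_nonneg_left a2 k0.le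
    linarith
  have lo0 : ∀ t ∈ Icc 0 s, x.th t ≤ 3 * (Th t * x.TH) := fun t ht => by
    obtain ⟨d0, a1, -, a3, -⟩ := A t ht
    have m2 := mul_le_mul_of_nonneg_left (dH t ht) a3.le
    linarith
  -- between `s` and `t1`
  have t1T : t1 ≤ x.T := by linarith
  have mT : ∀ t ∈ Icc s t1, t ∈ Icc 0 x.T := fun t ht => ⟨by linarith [ht.1], by linarith [ht.2]⟩
  have sy1 : Sys s t1 P Q Th Fl := sys.mono s0.le t1T
  have mo := sy1.Th_mono F0
  have s1m : s ∈ Icc s t1 := ⟨le_rfl, st⟩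
  have t1m : t1 ∈ Icc s t1 := ⟨st, le_rfl⟩
  have pos1 : ∀ t ∈ Icc s t1, 0 < Th t := fun t ht => Ts.trans_le (mo s s1m t ht ht.1)
  have Fs : Fl s ≤ K1 ^ 9 * Th s := (le_abs_self _).trans (A s ss).2.2.2.2
  have fl1 : ∀ t ∈ Icc s t1, Fl t ≤ K1 ^ 10 * Th t := fun t ht => by
    refine (sy1.upper (K := K1) (fun u hu => (le_abs_self _).trans (hb u (mT u
      (Ico_subset_Icc_self hu))).2.2) (fun u hu => (pos1 u (Ico_subset_Icc_self hu)).le) Fs
      t ht).trans (mul_le_mul_of_nonneg_right ?_ (pos1 t ht).le)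
    have a : K1 * (t - s) ≤ K1 * 1 := by
      gcongr
      linarith [ht.2]
    have b : K1 ^ 1 ≤ K1 ^ 9 := pw (by norm_num)
    linarith [p2 9 10 rfl, pow_one K1]
  have gr : ∀ u ∈ Icc s t1, Th t1 ≤ Th u + K1 ^ 11 * (t1 - u) * Th t1 := fun u hu => by
    have := grow (K := K1) (c := K1 ^ 10 * Th t1) (sy1.mono hu.1 le_rfl) hu.2
      (fun t ht => (hb t (mT t ⟨hu.1.trans ht.1, ht.2⟩)).1) (by positivity) fun t ht =>
        (fl1 t ⟨hu.1.trans ht.1, ht.2⟩).trans (mul_le_mul_of_nonneg_left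
          (mo t ⟨hu.1.trans ht.1, ht.2⟩ t1 t1m ht.2) (pp _).le)
    calc _ ≤ _ := this
      _ = _ := by ring
  have q15 : K1 ^ 11 * (1 / K1 ^ 15) ≤ 1 / 4 := by
    rw [mul_one_div, div_le_div_iff₀ (pp _) (by norm_num)]
    linarith [p2 11 12 rfl, p2 12 13 rfl, pw (show 13 ≤ 15 by norm_num)]
  have i15 : 0 < 1 / K1 ^ 15 := by positivity
  have gap : s + 2 / K1 ^ 15 ≤ t1 := by
    by_contra hn
    have a : K1 ^ 11 * (t1 - s) ≤ K1 ^ 11 * (2 * (1 / K1 ^ 15)) := by
      gcongr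
      rw [mul_one_div]
      linarith
    have b := mul_le_mul_of_nonneg_right (show K1 ^ 11 * (t1 - s) ≤ 1 / 2 by linarith) T1p.le
    linarith [gr s s1m]
  -- after `t1`
  obtain ⟨Tn, hTn⟩ : ∃ Tn, Tn = t1 + 1 / (2 * K1) := ⟨_, rfl⟩
  have n1 : t1 ≤ Tn := by linarith
  have nT : Tn ≤ x.T := by linarith
  have aT : ∀ t ∈ Icc t1 Tn, t ∈ Icc 0 x.T := fun t ht => ⟨by linarith [ht.1], by linarith [ht.2]⟩
  have sy2 : Sys t1 Tn P Q Th Fl := sys.mono (by linarith) nT
  have B := sy2.after_zero k0 (by rw [hTn, add_sub_cancel_left, mul_one_div_cancel (by positivity)])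
    (fun t ht => (hb t (aT t ht)).1) (fun t ht => (hb t (aT t ht)).2.2) T1p Fz
  have up2 : ∀ t ∈ Icc t1 Tn, Th t ≤ 2 * Th t1 := fun t ht => by
    have a := exp_le_of_deriv (a := t1) (b := Tn) (c := K1) (g := fun u => -Th u)
      (g' := fun u => -(Fl u / P u)) (fun u hu => (sy2.dTh u hu).neg) (fun u hu => by
        have hu' := Ico_subset_Icc_self hu
        have b := mul_le_mul_of_nonneg_left (hb u (aT u hu')).1 (B u hu').1.le
        have c := (le_abs_self _).trans (B u hu').2.1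
        rw [mul_neg, neg_le_neg_iff, div_le_iff₀ (sy2.pos u hu')]
        linarith) t ht
    have b : K1 * (t - t1) ≤ 1 / 2 := by
      have : K1 * (t - t1) ≤ K1 * (1 / (2 * K1)) := by
        gcongr
        linarith [ht.2]
      rwa [show K1 * (1 / (2 * K1)) = 1 / 2 by field_simp] at this
    have c : Real.exp (K1 * (t - t1)) ≤ 2 := by
      have e1 := Real.exp_le_exp.2 b
      have e2 : Real.exp (1 / 2) * Real.exp (1 / 2) < 2 * 2 := by
        rw [← Real.exp_add]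
        norm_num
        linarith [Real.exp_one_lt_d9]
      nlinarith [Real.exp_pos (1 / 2)]
    nlinarith
  have tri : ∀ t ∈ Icc 0 Tn, t ∈ Icc 0 s ∨ t ∈ Icc s t1 ∨ t ∈ Icc t1 Tn := fun t ht => by
    rcases le_total t s with h | h
    · exact Or.inl ⟨ht.1, h⟩
    · rcases le_total t t1 with h' | h'
      · exact Or.inr (Or.inl ⟨h, h'⟩)
      · exact Or.inr (Or.inr ⟨h', ht.2⟩)
  have nn : ∀ t ∈ Icc 0 Tn, t ∈ Icc 0 x.T := fun t ht => ⟨ht.1, ht.2.trans nT⟩
  have pos : ∀ t ∈ Icc 0 Tn, 0 < Th t := fun t ht => by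
    rcases tri t ht with h | h | h
    exacts [(A t h).2.2.2.1, pos1 t h, (B t h).1]
  have top : ∀ t ∈ Icc 0 Tn, Th t ≤ 2 * Th t1 := fun t ht => by
    rcases tri t ht with h | h | h
    · linarith [four t h]
    · linarith [mo t h t1 t1m h.2]
    · exact up2 t h
  have c1 : K1 ≤ K1 ^ 15 := by simpa using pw (show 1 ≤ 15 by norm_num)
  have c2 : 2 * K1 ≤ K1 ^ 15 := by
    linarith [p2 1 2 rfl, pw (show 2 ≤ 15 by norm_num), pow_one K1]
  have c4 : 16 ≤ K1 ^ 4 := by linarith [pow_le_pow_left₀ zero_le_two k2 4]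
  have c8 : 16 ≤ K1 ^ 15 := c4.trans (pw (by norm_num))
  have big : ∀ {y z c : ℝ}, 0 ≤ z → c ≤ K1 ^ 15 → y ≤ c * z → y ≤ K1 ^ 15 * z :=
    fun hz hc h => h.trans (mul_le_mul_of_nonneg_right hc hz)
  have H0 : 0 < x.TH := by linarith
  refine ⟨Tn, by linarith,
    { sys := sys.mono le_rfl nT
      p_lo := fun t ht => big (sys.pos t (nn t ht)).le c1 (hb t (nn t ht)).1
      p_hi := fun t ht => (hb t (nn t ht)).2.1.trans c1
      q_bd := fun t ht => (hb t (nn t ht)).2.2.trans c1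
      pos := pos
      f_bd := fun t ht => ?_
      qmono := fun a ha b hb' hab => ?_
      top := fun t ht => big T1p.le (by linarith) (top t ht)
      t_lo := ?_
      t_hi := ?_
      T_le := nT.trans T1
      f_zero := Fz
      mono := fun t ht u hu htu => ?_
      drop := ?_ }, gap, four, fun hQ hth t ht => ?_⟩
  · rcases tri t ht with h | h | h
    · exact big (pos t ht).le (pw (by norm_num)) (A t h).2.2.2.2
    · rw [abs_of_nonneg (F0 t h)]
      exact big (pos t ht).le (pw (by norm_num)) (fl1 t h)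
    · exact big (c := 1) (pos t ht).le (by linarith) (by simpa using (B t h).2.1)
  · rcases tri b hb' with h | h | h
    · have ha' : a ∈ Icc 0 s := ⟨ha.1, hab.trans h.2⟩
      have m1 := sp.qmono a (nn a ha) b (nn b hb') hab
      have m2 : K * x.th b ≤ K1 * (3 * (Th b * x.TH)) :=
        mul_le_mul (by linarith) (lo0 b h) (sp.pos b (nn b hb')).le k0.le
      have m3 := mul_le_mul_of_nonneg_left (m1.trans m2) k0.le
      have m4 : Th a * x.TH ≤ 16 * K1 ^ 2 * Th b * x.TH := by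
        have : 0 < K1 ^ 2 * Th b * x.TH := by have := pos b hb'; positivity
        linarith [up0 a ha']
      refine big (pos b hb').le ?_ (le_of_mul_le_mul_right m4 H0)
      calc 16 * K1 ^ 2 ≤ K1 ^ 4 * K1 ^ 2 := by gcongr
        _ = K1 ^ 6 := by ring
        _ ≤ _ := pw (by norm_num)
    · refine big (c := 4) (pos b hb').le (by linarith) ?_
      rcases le_total a s with h' | h'
      · linarith [four a ⟨ha.1, h'⟩, mo s s1m b h h.1]
      · linarith [mo a ⟨h', hab.trans h.2⟩ b h hab, pos b hb']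
    · refine big (c := 4) (pos b hb').le (by linarith) ?_
      linarith [top a ha, (B b h).2.2]
  · refine big (c := 2 * K) (by linarith) (by linarith) ?_
    have : 1 / (2 * K) ≤ t1 := by linarith
    rwa [div_le_iff₀' (by positivity)] at this
  · have : 1 / K1 ^ 15 ≤ 1 / (2 * K1) := one_div_le_one_div_of_le (by positivity) c2
    linarith
  · have e2 : 2 / K1 ^ 15 = 2 * (1 / K1 ^ 15) := by ring
    have hu' : u ∈ Icc s t1 := ⟨by linarith [hu.1], hu.2⟩
    rcases le_total t s with h' | h'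
    · have a : K1 ^ 11 * (t1 - u) ≤ K1 ^ 11 * (1 / K1 ^ 15) := by
        gcongr
        linarith [hu.1]
      have b := mul_le_mul_of_nonneg_right (show K1 ^ 11 * (t1 - u) ≤ 1 / 2 by linarith) T1p.le
      linarith [gr u hu', four t ⟨ht.1, h'⟩]
    · exact mo t ⟨h', htu.trans hu.2⟩ u hu' htu
  · have a : 1 / K1 ^ 15 ≤ 1 / 2 := one_div_le_one_div_of_le (by norm_num) (by linarith)
    have b := mul_le_mul_of_nonneg_right (show 1 / 2 ≤ 1 - 1 / K1 ^ 15 by linarith) T1p.le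
    linarith [four 0 ⟨le_rfl, s0.le⟩]
  · have fd : ∀ u ∈ Icc s t1, Fl u ≤ K1 ^ 9 * Th s := fun u hu => by
      have := le_of_deriv (a := s) (b := t1) (g := fun v => -Fl v) (g' := fun v => -(Q v * Th v))
        (fun v hv => (sy1.dFl v hv).neg) (fun v hv => neg_nonneg.2 (mul_nonpos_of_nonpos_of_nonneg
          (hQ v (Ico_subset_Icc_self hv)) (pos1 v (Ico_subset_Icc_self hv)).le)) u hu
      linarith
    have u1 : Th t1 ≤ K1 ^ 11 * Th s := by
      have a := grow sy1 st (fun v hv => (hb v (mT v hv)).1) (by positivity) fd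
      have b : K1 * (K1 ^ 9 * Th s) * (t1 - s) ≤ K1 * (K1 ^ 9 * Th s) * 1 := by
        gcongr
        linarith
      have c := mul_le_mul_of_nonneg_right (p2 10 11 rfl) Ts.le
      have d := mul_le_mul_of_nonneg_right (one_le_pow₀ k1 : 1 ≤ K1 ^ 10) Ts.le
      have e : K1 * (K1 ^ 9 * Th s) = K1 ^ 10 * Th s := by ring
      linarith
    have tp := sp.pos t (nn t ht)
    have Tp := pos t ht
    show Th t * x.TH ≤ _ ∧ _ ≤ K1 ^ 15 * (Th t * x.TH)
    rcases le_total t s with h' | h'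
    · have ht' : t ∈ Icc 0 s := ⟨ht.1, h'⟩
      have l1 : 1 ≤ Th t1 := by
        have a : x.TH * 1 ≤ x.TH * (8 * Th s) := by
          linarith [lo0 s ss, hth s ⟨le_rfl, st.trans n1⟩, mul_pos Ts H0]
        linarith [le_of_mul_le_mul_left a H0]
      have l2 : Th s ≤ 2 * K1 := by
        have a := mul_le_mul_of_nonneg_left (thH s ss) k0.le
        have b : Th s * x.TH ≤ 2 * K1 * x.TH := by linarith [up0 s ss, mul_pos k0 H0]
        exact le_of_mul_le_mul_right b H0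
      refine ⟨big (c := 2 * K1) (by positivity) c2 ?_, big (c := 6 * K1 ^ 12) (by positivity)
        (by linarith [p2 12 13 rfl, p2 13 14 rfl, p2 14 15 rfl, pp 12]) ?_⟩
      · have a : K1 * x.th t * 1 ≤ K1 * x.th t * Th t1 := by gcongr
        linarith [up0 t ht', mul_pos k0 tp]
      · calc x.th t * Th t1 ≤ 3 * (Th t * x.TH) * (K1 ^ 11 * (2 * K1)) :=
              mul_le_mul (lo0 t ht') (u1.trans (by gcongr)) T1p.le (by positivity)
          _ = _ := by ring
    · refine ⟨big (c := 4) (by positivity) (by linarith) ?_,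
        big (c := K1 ^ 12) (by positivity) (pw (by norm_num)) ?_⟩
      · calc Th t * x.TH ≤ 2 * Th t1 * (2 * x.th t) :=
              mul_le_mul (top t ht) (hth t ⟨h', ht.2⟩) H0.le (by positivity)
          _ = _ := by ring
      · have a : x.th t ≤ K1 * x.TH :=
          (sp.top t (nn t ht)).trans (mul_le_mul_of_nonneg_right (by linarith) H0.le)
        have b : Th t1 ≤ K1 ^ 11 * Th t := by
          rcases le_total t t1 with h | h
          · exact u1.trans (mul_le_mul_of_nonneg_left (mo s s1m t ⟨h', h⟩ h') (pp _).le)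
          · refine (B t ⟨h, ht.2⟩).2.2.trans (mul_le_mul_of_nonneg_right ?_ Tp.le)
            linarith [pw (show 1 ≤ 11 by norm_num), pow_one K1]
        calc x.th t * Th t1 ≤ K1 * x.TH * (K1 ^ 11 * Th t) :=
              mul_le_mul a b T1p.le (by positivity)
          _ = _ := by ring

end Pool.Agent.Lib.MP_fbbbeb_an.D
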