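import Mathlib
import Pool.Agent.Lib.MP_fbbbeb_an.D.SDefs

/-! Normal form on the window around the turning point. -/

set_option autoImplicit false

noncomputable section

namespace Pool.Agent.Lib.MP_fbbbeb_an.D

open Set Pool.Agent.Lib.MP_fbbbeb_an.Ric

namespace Nf

theorem am {x y a b : ℝ} (hx : |x| ≤ a) (hy : |y| ≤ b) : |x * y| ≤ a * b := by
  rw [abs_mul]
  exact mul_le_mul hx hy (abs_nonneg _) ((abs_nonneg _).trans hx)

theorem aa {x y a b : ℝ} (hx : |x| ≤ a) (hy : |y| ≤ b) : |x + y| ≤ a + b :=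
  (abs_add_le x y).trans (add_le_add hx hy)

theorem pw {K : ℝ} (hK : 2 ≤ K) (n : ℕ) : 16384 * K ^ 10 * K ^ n ≤ K ^ (n + 24) := by
  have h : (2 : ℝ) ^ 14 ≤ K ^ 14 := pow_le_pow_left₀ (by norm_num) hK 14
  have e : K ^ (n + 24) = K ^ 14 * K ^ 10 * K ^ n := by ring
  have h0 : 0 ≤ K ^ 10 * K ^ n := by positivity
  rw [e]
  nlinarith

theorem inv_le {K p : ℝ} (hp : 0 < p) (h : 1 ≤ K * p) : |p⁻¹| ≤ K := by
  rw [abs_of_pos (inv_pos.mpr hp), inv_le_iff_one_le_mul₀ hp]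
  exact h

/-- second derivative of `Sig` -/
theorem core2 {K TH m d d0 p p0 th f p1 q η : ℝ} (hK : 2 ≤ K) (hp : 0 < p) (hp0 : 0 < p0)
    (pl : 1 ≤ K * p) (pl0 : 1 ≤ K * p0) (ph0 : p0 ≤ K) (hm : |m| ≤ K) (hd0 : |d0| ≤ K)
    (hmd : 1 ≤ K ^ 2 * (m * d0)) (hq : |q + 2 * m * d| ≤ η) (hd : |d - d0| ≤ η)
    (hpp : |p - p0| ≤ η) (th0 : 0 < th) (th1 : th ≤ TH) (th2 : TH - th ≤ η * TH)
    (hf : |f| ≤ η * TH) (hp1 : |p1| ≤ K) (hη : 16384 * K ^ 9 * η ≤ 1) :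
    |-((q * th * p - f * p1) / p ^ 2) - 2 * (m * d0) * TH / p0| ≤
      2 * (m * d0) * TH / p0 / 1000 := by
  have K0 : 0 < K := by linarith
  have T0 : 0 < TH := th0.trans_le th1
  have η0 : 0 ≤ η := (abs_nonneg _).trans hd
  have i1 := inv_le hp pl
  have i0 := inv_le hp0 pl0
  have at1 : |th| ≤ TH := by rw [abs_of_pos th0]; exact th1
  have at2 : |th - TH| ≤ η * TH := by rw [abs_sub_comm, abs_of_nonneg (by linarith)]; exact th2
  have aT : |TH| ≤ TH := (abs_of_pos T0).le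
  have a2 : |(2 : ℝ)| ≤ 2 := by norm_num
  have an : |-(q + 2 * m * d)| ≤ η := by rw [abs_neg]; exact hq
  have ap : |p0 - p| ≤ η := by rw [abs_sub_comm]; exact hpp
  have e : -((q * th * p - f * p1) / p ^ 2) - 2 * (m * d0) * TH / p0 =
      -(q + 2 * m * d) * th * p⁻¹ + 2 * m * (d - d0) * th * p⁻¹ + 2 * m * d0 * (th - TH) * p⁻¹ +
        2 * m * d0 * TH * ((p0 - p) * p⁻¹ * p0⁻¹) + f * p1 * p⁻¹ * p⁻¹ := by
    field_simp
    ring
  have b := aa (aa (aa (aa (am (am an at1) i1) (am (am (am (am a2 hm) hd) at1) i1))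
    (am (am (am (am a2 hm) hd0) at2) i1)) (am (am (am (am a2 hm) hd0) aT) (am (am ap i1) i0)))
    (am (am (am hf hp1) i1) i1)
  rw [e]
  refine b.trans ?_
  have k1 : K ≤ K ^ 4 := le_self_pow₀ (by linarith) (by norm_num)
  have k2 : K ^ 2 ≤ K ^ 4 := pow_le_pow_right₀ (by linarith) (by norm_num)
  have k3 : K ^ 3 ≤ K ^ 4 := pow_le_pow_right₀ (by linarith) (by norm_num)
  have k7 : K ^ 7 ≤ K ^ 9 := pow_le_pow_right₀ (by linarith) (by norm_num)
  have hx : 0 ≤ η * TH := mul_nonneg η0 T0.le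
  have s1 : η * TH * K + 2 * K * η * TH * K + 2 * K * K * (η * TH) * K +
      2 * K * K * TH * (η * K * K) + η * TH * K * K * K ≤ η * TH * (8 * K ^ 4) := by
    have : η * TH * K + 2 * K * η * TH * K + 2 * K * K * (η * TH) * K +
        2 * K * K * TH * (η * K * K) + η * TH * K * K * K =
        η * TH * (K + 2 * K ^ 2 + 3 * K ^ 3 + 2 * K ^ 4) := by ring
    rw [this]
    exact mul_le_mul_of_nonneg_left (by linarith) hx
  refine s1.trans ?_
  have md0 : 0 < m * d0 := by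
    by_contra h
    have := mul_nonpos_of_nonneg_of_nonpos (sq_nonneg K) (not_lt.mp h)
    linarith
  rw [le_div_iff₀ (by norm_num), le_div_iff₀ hp0]
  have s2 : 4000 * K ^ 7 * η ≤ 1 := by
    have := mul_le_mul_of_nonneg_right k7 η0
    have h9 : 0 ≤ K ^ 9 * η := by positivity
    linarith
  have s3 : η * (8 * K ^ 4) * 1000 * p0 ≤ η * (8 * K ^ 4) * 1000 * K :=
    mul_le_mul_of_nonneg_left ph0 (by positivity)
  have s4 : η * (8 * K ^ 4) * 1000 * K * 1 ≤ η * (8 * K ^ 4) * 1000 * K * (K ^ 2 * (m * d0)) :=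
    mul_le_mul_of_nonneg_left hmd (by positivity)
  have s5 : 4000 * K ^ 7 * η * (2 * (m * d0)) ≤ 1 * (2 * (m * d0)) :=
    mul_le_mul_of_nonneg_right s2 (by positivity)
  have s6 : η * (8 * K ^ 4) * 1000 * p0 ≤ 2 * (m * d0) := by nlinarith
  have := mul_le_mul_of_nonneg_right s6 T0.le
  nlinarith

/-- the coefficient `P` -/
theorem coreP {K a a0 b p p0 l P η : ℝ} (hK : 2 ≤ K) (al : 1 ≤ K * a0) (pl : 1 ≤ K * p0)
    (ha : |a - a0| ≤ η) (hb : |b| ≤ η) (hp : |p - p0| ≤ η)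
    (hP : |P - (a - 2 * l * b + l ^ 2 * p)| ≤ η) (hη : 16384 * K ^ 9 * η ≤ 1) :
    |P - (a0 + l ^ 2 * p0)| ≤ (a0 + l ^ 2 * p0) / 1000 := by
  have K0 : 0 < K := by linarith
  have η0 : 0 ≤ η := (abs_nonneg _).trans ha
  have e : P - (a0 + l ^ 2 * p0) =
      (P - (a - 2 * l * b + l ^ 2 * p)) + (a - a0) + (-(2 * l)) * b + l ^ 2 * (p - p0) := by ring
  have h1 : |-(2 * l)| ≤ 1 + l ^ 2 := by
    rw [abs_le]
    constructor <;> nlinarith [sq_nonneg (l - 1), sq_nonneg (l + 1)]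
  have h2 : |l ^ 2| ≤ l ^ 2 := (abs_of_nonneg (sq_nonneg l)).le
  have bd := aa (aa (aa hP ha) (am h1 hb)) (am h2 hp)
  rw [e]
  refine bd.trans ?_
  have k1 : K ≤ K ^ 9 := le_self_pow₀ (by linarith) (by norm_num)
  have s1 : 16384 * K * η ≤ 1 := by
    have := mul_le_mul_of_nonneg_right k1 η0
    linarith
  have s2 : 16384 * η ≤ a0 := by
    have a00 : 0 ≤ a0 := by nlinarith
    have := mul_le_mul_of_nonneg_left al η0
    have := mul_le_mul_of_nonneg_right s1 a00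
    nlinarith
  have s3 : 16384 * η ≤ p0 := by
    have a00 : 0 ≤ p0 := by nlinarith
    have := mul_le_mul_of_nonneg_left pl η0
    have := mul_le_mul_of_nonneg_right s1 a00
    nlinarith
  have s4 := mul_le_mul_of_nonneg_left s3 (sq_nonneg l)
  have s5 : 0 ≤ l ^ 2 * η := mul_nonneg (sq_nonneg l) η0
  nlinarith

/-- the coefficient `D` -/
theorem coreD {K c c0 d d0 l D η : ℝ} (hK : 2 ≤ K) (cl : 1 ≤ K * |c0|) (dl : 1 ≤ K * |d0|)
    (hc : |c - c0| ≤ η) (hd : |d - d0| ≤ η) (hD : |D - (c - l * d)| ≤ η)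
    (hη : 16384 * K ^ 9 * η ≤ 1) :
    |D - (c0 - l * d0)| ≤ (|c0| + |l| * |d0|) / 8000 := by
  have K0 : 0 < K := by linarith
  have η0 : 0 ≤ η := (abs_nonneg _).trans hc
  have e : D - (c0 - l * d0) = (D - (c - l * d)) + (c - c0) + (-l) * (d - d0) := by ring
  have h1 : |-l| ≤ |l| := (abs_neg l).le
  have bd := aa (aa hD hc) (am h1 hd)
  rw [e]
  refine bd.trans ?_
  have k1 : K ≤ K ^ 9 := le_self_pow₀ (by linarith) (by norm_num)
  have s1 : 16384 * K * η ≤ 1 := by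
    have := mul_le_mul_of_nonneg_right k1 η0
    linarith
  have s2 : 16384 * η ≤ |c0| := by
    have := mul_le_mul_of_nonneg_left cl η0
    have := mul_le_mul_of_nonneg_right s1 (abs_nonneg c0)
    nlinarith
  have s3 : 16384 * η ≤ |d0| := by
    have := mul_le_mul_of_nonneg_left dl η0
    have := mul_le_mul_of_nonneg_right s1 (abs_nonneg d0)
    nlinarith
  have s4 := mul_le_mul_of_nonneg_left s3 (abs_nonneg l)
  have s5 : 0 ≤ |l| * η := mul_nonneg (abs_nonneg l) η0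
  nlinarith

/-- the coefficient `Q` -/
theorem coreQ {K TH L mn D G H Q η : ℝ} (hK : 2 ≤ K) (hT : 16384 * K ≤ TH) (hG : |G| ≤ H)
    (hH : 1 ≤ K * H) (hD : |D - G| ≤ H / 8000) (hL : 10000 * |L - TH| ≤ TH) (hm : |mn + L| ≤ K)
    (hQ : |Q + 2 * mn * D| ≤ η) (hη : η ≤ 1) : |Q - 2 * TH * G| ≤ 2 * TH * H / 1000 := by
  have K0 : 0 < K := by linarith
  have H0 : 0 ≤ H := (abs_nonneg _).trans hG
  have T0 : 0 < TH := by linarith
  have e : Q - 2 * TH * G =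
      (Q + 2 * mn * D) + (-2) * ((mn + L) + (TH - L)) * ((D - G) + G) + 2 * TH * (D - G) := by ring
  have h1 : |(-2 : ℝ)| ≤ 2 := by norm_num
  have h2 : |TH - L| ≤ TH / 10000 := by rw [abs_sub_comm]; linarith
  have h3 : |mn + L| ≤ TH / 16384 := by linarith
  have h4 : |2 * TH| ≤ 2 * TH := (abs_of_pos (by linarith)).le
  have bd := aa (aa hQ (am (am h1 (aa h3 h2)) (aa hD hG))) (am h4 hD)
  rw [e]
  refine bd.trans ?_
  have s1 : 16384 ≤ TH * H := by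
    have := mul_le_mul_of_nonneg_right hT H0
    nlinarith
  nlinarith

theorem same_sign {m d : ℝ} (h : 0 < m * d) : |d| / |m| = d / m := by
  rcases pos_and_pos_or_neg_and_neg_of_mul_pos h with ⟨a, b⟩ | ⟨a, b⟩
  · rw [abs_of_pos a, abs_of_pos b]
  · rw [abs_of_neg a, abs_of_neg b, neg_div_neg_eq]

theorem pos_of {K y : ℝ} (hK : 0 < K) (h : 1 ≤ K * y) : 0 < y := by
  by_contra hh
  have := mul_nonpos_of_nonneg_of_nonpos hK.le (not_lt.mp hh)
  linarith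

theorem tilt_le {ps ψ z d om p : ℝ} (ps0 : 0 < ps) (h0 : 0 ≤ ψ) (h1 : ψ ≤ 1 / 2000) (z0 : 0 < z)
    (e1 : om * p = z + d ^ 2) (e2 : d ^ 2 = ps ^ 2 * z) (e3 : d ^ 2 ≤ ψ ^ 2 * om * p) :
    ps ≤ 2 * ψ := by
  refine (pow_le_pow_iff_left₀ ps0.le (by linarith) two_ne_zero).mp ?_
  rw [mul_assoc, e1, e2] at e3
  have e4 : ps ^ 2 ≤ ψ ^ 2 * (1 + ps ^ 2) := by
    refine le_of_mul_le_mul_right ?_ z0
    linarith
  have e5 : ψ ^ 2 ≤ 1 / 2 := by nlinarith
  nlinarith [sq_nonneg ps, sq_nonneg ψ]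

theorem kp_le {K kp p a : ℝ} (K0 : 0 < K) (kp0 : 0 < kp) (a0 : 0 < a) (e : kp ^ 2 = p / a)
    (al : 1 ≤ K * a) (ph : p ≤ K) : kp ≤ K := by
  refine (pow_le_pow_iff_left₀ kp0.le K0.le two_ne_zero).mp ?_
  rw [e, div_le_iff₀ a0]
  have := mul_le_mul_of_nonneg_left al K0.le
  nlinarith

theorem sg_lo {K TH c a : ℝ} (hK : 2 ≤ K) (T0 : 0 < TH) (a0 : 0 < a) (aK : a ≤ K)
    (cl : 1 ≤ K * c) : TH ≤ K ^ 3 * (2 * TH * c / a) := by
  have K0 : 0 < K := by linarith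
  have c0 := pos_of K0 cl
  rw [← mul_div_assoc, le_div_iff₀ a0]
  have b1 := mul_le_mul_of_nonneg_left aK T0.le
  have b2 := mul_le_mul_of_nonneg_left cl (mul_pos T0 K0).le
  have b3 : 0 ≤ TH * K * (K * c) := by positivity
  have b4 := mul_le_mul_of_nonneg_left hK b3
  nlinarith

theorem sg_hi {K TH c a : ℝ} (hK : 2 ≤ K) (T0 : 0 < TH) (a0 : 0 < a) (al : 1 ≤ K * a)
    (cK : c ≤ K) : 2 * TH * c / a ≤ K ^ 3 * TH := by
  have K0 : 0 < K := by linarith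
  rw [div_le_iff₀ a0]
  have b1 := mul_le_mul_of_nonneg_left cK T0.le
  have b2 := mul_le_mul_of_nonneg_left al (show 0 ≤ TH * K ^ 2 by positivity)
  have b3 := mul_le_mul_of_nonneg_left hK (mul_pos T0 K0).le
  nlinarith

theorem ps_lo {K ps kp c d : ℝ} (K0 : 0 < K) (ps0 : 0 < ps) (c0 : 0 < c) (kpK : kp ≤ K)
    (cK : c ≤ K) (e : ps * (kp * c) = d) (dl : 1 ≤ K * d) : 1 ≤ K ^ 3 * ps := by
  have b1 : kp * c ≤ K * K := mul_le_mul kpK cK c0.le K0.le
  have b2 := mul_le_mul_of_nonneg_left b1 ps0.le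
  rw [e] at b2
  have b3 := mul_le_mul_of_nonneg_left b2 K0.le
  nlinarith

theorem md_lo {K m d : ℝ} (h1 : 1 ≤ K * m) (h2 : 1 ≤ K * d) :
    1 ≤ K ^ 2 * (m * d) := by
  have := mul_le_mul h1 h2 zero_le_one (by linarith)
  nlinarith

theorem om_lo {K c d a p om η : ℝ} (hK : 2 ≤ K) (a0 : 0 < a) (p0 : 0 < p) (aK : a ≤ K)
    (cl : 1 ≤ K * |c|) (e : om = c ^ 2 / a + d ^ 2 / p) (η0 : 0 ≤ η)
    (hη : 16384 * K ^ 9 * η ≤ 1) : 16384 * η ≤ om := by
  have K0 : 0 < K := by linarith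
  have om0 : 0 ≤ om := by rw [e]; positivity
  have b3 : 1 ≤ K ^ 3 * om := by
    have y : 1 ≤ K ^ 3 * (c ^ 2 / a) := by
      rw [← mul_div_assoc, le_div_iff₀ a0, ← sq_abs]
      have := mul_le_mul cl cl zero_le_one (by positivity)
      have := mul_le_mul_of_nonneg_left this K0.le
      nlinarith
    rw [e, mul_add]
    have : 0 ≤ K ^ 3 * (d ^ 2 / p) := by positivity
    linarith
  have k39 : K ^ 3 ≤ K ^ 9 := pow_le_pow_right₀ (by linarith) (by norm_num)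
  have s1 := mul_le_mul_of_nonneg_left b3 η0
  have s2 := mul_le_mul_of_nonneg_right k39 (mul_nonneg η0 om0)
  have s3 := mul_le_mul_of_nonneg_right hη om0
  nlinarith

/-- the small number of the window -/
theorem eta {K ε τ : ℝ} {n : ℕ} (hK : 2 ≤ K) (ε0 : 0 ≤ ε) (hε : ε * K ^ (n + 24) ≤ 1) (τ0 : 0 < τ)
    (hτ : τ * K ^ (n + 24) ≤ 1) : ∃ η : ℝ, 0 ≤ η ∧ 16384 * K ^ 9 * η ≤ 1 ∧ η ≤ 1 ∧ ε ≤ η ∧
      K * τ ≤ η ∧ K ^ n * τ ≤ η ∧ τ ≤ 1 ∧ τ < 1 / K ∧ 16384 * K ≤ K ^ (n + 24) := by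
  have K0 : 0 < K := by linarith
  have K1 : 1 ≤ K := by linarith
  have hpw := pw hK n
  have κ1 : 1 ≤ K ^ n := one_le_pow₀ K1
  have k10 : K ≤ K ^ 10 := le_self_pow₀ K1 (by norm_num)
  have k9 : K ^ 9 ≤ K ^ 10 := pow_le_pow_right₀ K1 (by norm_num)
  have k100 : 0 < K ^ 10 := by positivity
  have hbig : 16384 * K ^ 10 ≤ K ^ (n + 24) := by nlinarith
  set η : ℝ := 1 / (16384 * K ^ 9) with hηd
  have hη : 16384 * K ^ 9 * η ≤ 1 := by rw [hηd]; field_simp; exact le_rfl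
  have η0 : 0 < η := by rw [hηd]; positivity
  have εη : ε ≤ η := by
    rw [hηd, le_div_iff₀ (by positivity)]
    have := mul_le_mul_of_nonneg_left (show 16384 * K ^ 9 ≤ K ^ (n + 24) by linarith) ε0
    linarith
  have τη : K ^ n * K * τ ≤ η := by
    rw [hηd, le_div_iff₀ (by positivity)]
    have := mul_le_mul_of_nonneg_left hpw τ0.le
    have e : K ^ n * K * τ * (16384 * K ^ 9) = τ * (16384 * K ^ 10 * K ^ n) := by ring
    linarith
  have η1 : 16384 * η ≤ 1 := by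
    have := mul_le_mul_of_nonneg_right (one_le_pow₀ K1 : 1 ≤ K ^ 9) η0.le
    linarith
  have Kτ0 : 0 < K * τ := by positivity
  have Kτ : K * τ ≤ η := by
    have := mul_le_mul_of_nonneg_right κ1 Kτ0.le
    linarith
  have κτ : K ^ n * τ ≤ η := by
    have := mul_le_mul_of_nonneg_left K1 (show 0 ≤ K ^ n * τ by positivity)
    linarith
  have τ1 : τ ≤ 1 := by
    have := mul_le_mul_of_nonneg_right K1 τ0.le
    linarith
  have τK : τ < 1 / K := by
    rw [lt_div_iff₀ K0]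
    linarith
  exact ⟨η, η0.le, hη, by linarith, εη, Kτ, κτ, τ1, τK, by linarith⟩

end Nf

open Nf in
theorem nfSt (hT : TurnSt) : NfSt := by
  obtain ⟨CT, hT⟩ := hT
  refine ⟨CT + 24, fun x K ε ψ S τ hK h hψ hTH hε τ0 hτ => ?_⟩
  have K0 : 0 < K := by linarith
  have K1 : 1 ≤ K := by linarith
  have t0p : 0 < x.t0 := pos_of K0 h.sp.t_lo
  have iK : 0 < 1 / K := by positivity
  have m0 : x.t0 ∈ Icc 0 x.T := ⟨t0p.le, by linarith [h.sp.t_hi]⟩
  have ε0 : 0 ≤ ε := (abs_nonneg _).trans (h.q_eq _ m0)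
  have hκ : K ^ CT ≤ K ^ (CT + 24) := pow_le_pow_right₀ K1 (by omega)
  obtain ⟨η, η0, hη, η1, εη, Kτ, κτ, τ1, τK, hbig⟩ := eta hK ε0 hε τ0 hτ
  have t0K : 1 / K ≤ x.t0 := by
    rw [div_le_iff₀ K0]
    linarith [h.sp.t_lo]
  have mo : ∀ u ∈ Icc (-τ) τ, u + x.t0 ∈ Ioo 0 x.T := fun u hu =>
    ⟨by linarith [hu.1], by linarith [hu.2, h.sp.t_hi]⟩
  have lip : ∀ g : ℝ → ℝ, Lip K x.T g → ∀ u ∈ Icc (-τ) τ, |g (u + x.t0) - g x.t0| ≤ η := by
    intro g hg u hu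
    have a := hg.2 _ m0 _ (Ioo_subset_Icc_self (mo u hu))
    rw [add_sub_cancel_right] at a
    have b : |u| ≤ τ := abs_le.mpr hu
    have := mul_le_mul_of_nonneg_left b K0.le
    linarith
  have TH0 : 0 < x.TH := h.sp.pos _ m0
  have a0 : 0 < x.a x.t0 := pos_of K0 h.a_lo
  have p0 : 0 < x.p x.t0 := h.sp.sys.pos _ m0
  have aK : x.a x.t0 ≤ K := (le_abs_self _).trans (h.la.1 _ m0)
  have cS : |x.c x.t0| = S * x.c x.t0 := by
    have c1 : 0 < S * x.c x.t0 := pos_of K0 h.c_lo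
    rcases h.sgn with e | e <;> rw [e] at c1 ⊢
    · rw [one_mul] at c1 ⊢
      exact abs_of_pos c1
    · rw [neg_one_mul] at c1 ⊢
      exact abs_of_neg (by linarith)
  have cl : 1 ≤ K * |x.c x.t0| := by rw [cS]; exact h.c_lo
  have cS' : |x.c x.t0| * S = x.c x.t0 := by
    rw [cS]
    rcases h.sgn with e | e <;> rw [e] <;> ring
  have c0 : 0 < |x.c x.t0| := pos_of K0 cl
  have d0 : 0 < |x.d x.t0| := pos_of K0 h.d_lo
  have mm0 : 0 < |x.m| := pos_of K0 h.m_lo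
  have mne : x.m ≠ 0 := abs_pos.mp mm0
  have cK := h.lc.1 _ m0
  have dK := h.ld.1 _ m0
  have sg2 : x.sg ^ 2 = 2 * x.TH * |x.c x.t0| / x.a x.t0 := Real.sq_sqrt (by positivity)
  have kp2 : x.kp ^ 2 = x.p x.t0 / x.a x.t0 := Real.sq_sqrt (by positivity)
  have sg0 : 0 < x.sg := Real.sqrt_pos.mpr (by positivity)
  have kp0 : 0 < x.kp := Real.sqrt_pos.mpr (by positivity)
  have ps0 : 0 < x.ps := div_pos d0 (mul_pos kp0 c0)
  have kpK : x.kp ≤ K := kp_le K0 kp0 a0 kp2 h.a_lo (h.sp.p_hi _ m0)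
  have psd : x.ps * (x.kp * |x.c x.t0|) = |x.d x.t0| := div_mul_cancel₀ _ (mul_pos kp0 c0).ne'
  have ps2 : x.ps ≤ 2 * ψ := by
    refine tilt_le (z := (x.kp * |x.c x.t0|) ^ 2) ps0 h.psi hψ (by positivity) ?_ ?_ h.tilt
    · rw [h.om_eq, mul_pow, kp2, sq_abs]
      field_simp
    · rw [← mul_pow, psd, sq_abs]
  have k3 : K ^ 3 ≤ K ^ (CT + 24) := pow_le_pow_right₀ K1 (by omega)
  have md : x.m * x.d x.t0 = |x.m| * |x.d x.t0| := by rw [← abs_mul, abs_of_pos h.md]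
  refine ⟨⟨?_, ?_, ?_, ps2, kp0, kpK⟩, fun L => ⟨?_, fun K1' mn P Q D Om hL hN => ?_⟩⟩
  · have := sg_lo hK TH0 a0 aK cl
    rw [← sg2] at this
    exact this.trans (mul_le_mul_of_nonneg_right k3 (sq_nonneg _))
  · have := sg_hi hK TH0 a0 h.a_lo cK
    rw [← sg2] at this
    exact this.trans (mul_le_mul_of_nonneg_right k3 TH0.le)
  · exact (ps_lo K0 ps0 c0 kpK cK psd h.d_lo).trans (mul_le_mul_of_nonneg_right k3 ps0.le)
  · obtain ⟨p1, hp1⟩ := h.dp
    refine ⟨fun u => -((x.q (u + x.t0) * x.th (u + x.t0) * x.p (u + x.t0) -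
      x.f (u + x.t0) * p1 (u + x.t0)) / x.p (u + x.t0) ^ 2) / |x.m| * x.kp, by linarith, τ0.le,
      sg0, ps0, by linarith, fun u hu => ?_, fun u hu => ?_, fun u hu => ?_, ?_⟩
    · have a := (h.sp.sys.dTh _ (Ioo_subset_Icc_self (mo u hu))).comp_add_const u x.t0
      exact ((a.const_sub L).div_const _).mul_const _
    · have hm := Ioo_subset_Icc_self (mo u hu)
      have a := (h.sp.sys.dFl _ hm).comp_add_const u x.t0
      have b := (hp1 _ (mo u hu)).1.comp_add_const u x.t0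
      exact (((a.div b (h.sp.sys.pos _ hm).ne').neg).div_const _).mul_const _
    · have hm := Ioo_subset_Icc_self (mo u hu)
      obtain ⟨r1, r2, -, r4⟩ := hT x K ε ψ S τ hK h
        ((mul_le_mul_of_nonneg_left hκ ε0).trans hε)
        ((mul_le_mul_of_nonneg_left hκ τ0.le).trans hτ) u hu
      have ua : |u| ≤ τ := abs_le.mpr hu
      have u2 : u ^ 2 ≤ τ := by
        have e : u ^ 2 ≤ τ ^ 2 := sq_le_sq' hu.1 hu.2
        exact e.trans (by rw [sq]; exact mul_le_of_le_one_left τ0.le τ1)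
      have κ0 : 0 < K ^ CT := by positivity
      have th1 : x.th (u + x.t0) ≤ x.TH := by
        by_contra hh
        have := mul_neg_of_pos_of_neg κ0 (show x.TH - x.th (u + x.t0) < 0 by linarith)
        have := mul_nonneg (sq_nonneg u) TH0.le
        linarith
      have th2 : x.TH - x.th (u + x.t0) ≤ η * x.TH :=
        r2.trans (mul_le_mul_of_nonneg_right
          ((mul_le_mul_of_nonneg_left u2 κ0.le).trans κτ) TH0.le)
      have f2 : |x.f (u + x.t0)| ≤ η * x.TH :=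
        r4.trans (mul_le_mul_of_nonneg_right
          ((mul_le_mul_of_nonneg_left ua κ0.le).trans κτ) TH0.le)
      have hmd : 1 ≤ K ^ 2 * (x.m * x.d x.t0) := by
        rw [md]
        exact md_lo h.m_lo h.d_lo
      have cc := core2 hK (h.sp.sys.pos _ hm) p0 (h.sp.p_lo _ hm) (h.sp.p_lo _ m0)
        (h.sp.p_hi _ m0) h.m_hi dK hmd ((h.q_eq _ hm).trans εη) (lip _ h.ld u hu)
        (lip _ h.lp u hu) (h.sp.pos _ hm) th1 th2 f2 (hp1 _ (mo u hu)).2 hη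
      have e : x.sg ^ 2 * x.ps = 2 * (x.m * x.d x.t0) * x.TH / x.p x.t0 / |x.m| * x.kp := by
        have e1 : x.p x.t0 = x.kp ^ 2 * x.a x.t0 := by rw [kp2]; field_simp
        rw [sg2, md, e1, Dat.ps]
        field_simp
      have z : 0 < x.kp / |x.m| := div_pos kp0 mm0
      have g : ∀ y : ℝ, y / |x.m| * x.kp = y * (x.kp / |x.m|) := fun y => by ring
      rw [e, g, g, ← sub_mul, abs_mul, abs_of_pos z]
      have := mul_le_mul_of_nonneg_right cc z.le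
      linarith
    · simp [Dat.S1, h.sp.f_zero]
  · have sq : ∀ u, x.Sig L u ^ 2 = x.lam L (u + x.t0) ^ 2 * x.p x.t0 / x.a x.t0 := by
      intro u
      rw [Dat.Sig, Dat.lam, mul_pow, kp2, div_pow, div_pow, sq_abs]
      ring
    have cs : ∀ u, |x.c x.t0| * (x.ps * x.Sig L u) = x.lam L (u + x.t0) * x.d x.t0 := by
      intro u
      have e := same_sign h.md
      calc |x.c x.t0| * (x.ps * x.Sig L u)
          = x.ps * (x.kp * |x.c x.t0|) / |x.m| * (L - x.th (u + x.t0)) := by rw [Dat.Sig]; ring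
        _ = x.lam L (u + x.t0) * x.d x.t0 := by rw [psd, e, Dat.lam]; ring
    have ca : ∀ u, |x.c x.t0| * (x.ps * |x.Sig L u|) = |x.lam L (u + x.t0)| * |x.d x.t0| := by
      intro u
      rw [← abs_mul, ← cs u, abs_mul, abs_mul, abs_abs, abs_of_pos ps0]
    have eG : ∀ u, |x.c x.t0| * (S - x.ps * x.Sig L u) =
        x.c x.t0 - x.lam L (u + x.t0) * x.d x.t0 := fun u => by rw [mul_sub, cS', cs]
    have eH : ∀ u, |x.c x.t0| * (1 + x.ps * |x.Sig L u|) =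
        |x.c x.t0| + |x.lam L (u + x.t0)| * |x.d x.t0| := fun u => by rw [mul_add, mul_one, ca]
    have hD : ∀ u ∈ Icc (-τ) τ, |D (u + x.t0) - (x.c x.t0 - x.lam L (u + x.t0) * x.d x.t0)| ≤
        (|x.c x.t0| + |x.lam L (u + x.t0)| * |x.d x.t0|) / 8000 := fun u hu =>
      coreD hK cl h.d_lo (lip _ h.lc u hu) (lip _ h.ld u hu)
        ((hN.D_eq _ (Ioo_subset_Icc_self (mo u hu))).trans εη) hη
    refine ⟨⟨fun u hu => ?_, fun u hu => ?_⟩, fun u hu => ⟨?_, ?_⟩⟩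
    · have hb := lip _ h.lb u hu
      rw [h.b_zero, sub_zero] at hb
      have cc := coreP hK h.a_lo (h.sp.p_lo _ m0) (lip _ h.la u hu) hb (lip _ h.lp u hu)
        ((hN.P_eq _ (Ioo_subset_Icc_self (mo u hu))).trans εη) hη
      have e : 1 + x.Sig L u ^ 2 = (x.a x.t0 + x.lam L (u + x.t0) ^ 2 * x.p x.t0) / x.a x.t0 := by
        rw [sq]
        field_simp
      show |P (u + x.t0) / x.a x.t0 - (1 + x.Sig L u ^ 2)| ≤ (1 + x.Sig L u ^ 2) / 1000
      rw [e, ← sub_div, abs_div, abs_of_pos a0, div_right_comm]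
      exact div_le_div_of_nonneg_right cc a0.le
    · have hG : |x.c x.t0 - x.lam L (u + x.t0) * x.d x.t0| ≤
          |x.c x.t0| + |x.lam L (u + x.t0)| * |x.d x.t0| := by
        rw [← abs_mul]
        exact abs_sub _ _
      have hH : 1 ≤ K * (|x.c x.t0| + |x.lam L (u + x.t0)| * |x.d x.t0|) := by
        have : 0 ≤ K * (|x.lam L (u + x.t0)| * |x.d x.t0|) := by positivity
        linarith
      have cc := coreQ hK (hbig.trans hTH) hG hH (hD u hu) hL hN.m_eq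
        ((hN.Q_eq _ (Ioo_subset_Icc_self (mo u hu))).trans εη) η1
      show |Q (u + x.t0) / x.a x.t0 - x.sg ^ 2 * (S - x.ps * x.Sig L u)| ≤
        x.sg ^ 2 * (1 + x.ps * |x.Sig L u|) / 1000
      have g : ∀ y : ℝ, x.sg ^ 2 * y = 2 * x.TH * (|x.c x.t0| * y) / x.a x.t0 := fun y => by
        rw [sg2]
        ring
      rw [g, g, eG, eH, ← sub_div, abs_div, abs_of_pos a0, div_right_comm]
      exact div_le_div_of_nonneg_right cc a0.le
    · rw [eG, eH]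
      have z : 0 ≤ |x.c x.t0| + |x.lam L (u + x.t0)| * |x.d x.t0| := by positivity
      linarith [hD u hu]
    · have b1 := abs_le.mp ((hN.Om_eq _ (Ioo_subset_Icc_self (mo u hu))).trans εη)
      have b2 := abs_le.mp (lip _ h.lo u hu)
      have b4 := om_lo hK a0 p0 aK cl h.om_eq η0 hη
      linarith [b1.1, b2.1]

end Pool.Agent.Lib.MP_fbbbeb_an.D
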