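import Pool.Agent.Lib.MP_fbbbeb_an.D.Win

set_option autoImplicit false

/-! The level A (D6): fast passage, slow passage, gain on the way in. -/

namespace Pool.Agent.Lib.MP_fbbbeb_an.Ric

open Set

variable {a b sg ps te : ℝ} {Sig S1 S2 P Q Th Fl : ℝ → ℝ}

/-- data of the level A up to the target time `te < 0`. -/
structure LA (a b sg ps te : ℝ) (Sig S1 S2 P Q Th Fl : ℝ → ℝ) : Prop where
  g : Sg a b sg ps Sig S1 S2
  sys : Sys a te P Q Th Fl
  nf : NF a te sg ps (-1) Sig P Q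
  hat : a ≤ te
  ht0 : te ≤ 0
  hte : |ps * Sig te + 1| ≤ 3 / 1000
  big : 1 ≤ Sig a
  hT : 0 < Th a

theorem LA.neg (h : LA a b sg ps te Sig S1 S2 P Q Th Fl) : Sig te < 0 := by
  have := (abs_le.mp h.hte).2
  have := h.g.ps0
  by_contra e; push Not at e; nlinarith

theorem LA.t1 (h : LA a b sg ps te Sig S1 S2 P Q Th Fl) : ∃ t1 ∈ Icc a te, Sig t1 = 1 :=
  intermediate_value_Icc' h.hat ((contOn h.g.d1).mono (Icc_subset_Icc le_rfl (h.ht0.trans h.g.hb)))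
    ⟨by linarith [h.neg], h.big⟩

theorem LA.R0 (h : LA a b sg ps te Sig S1 S2 P Q Th Fl) {t : ℝ} (ht : t ∈ Icc a te) :
    -S1 te ≤ -S1 t := by
  have := h.g.lo ht.1 ht.2 (h.ht0.trans h.g.hb)
  have := mul_nonneg h.g.c0.le (sub_nonneg.mpr ht.2)
  linarith

theorem LA.R0sq (h : LA a b sg ps te Sig S1 S2 P Q Th Fl) :
    998 / 1000 * (sg ^ 2 * (sg ^ 2 * ps ^ 3 * te ^ 2)) ≤ ps * S1 te ^ 2 := by
  have e5 := (h.g.neg h.hat h.ht0).1
  have c0 := h.g.c0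
  have e6 : (999 / 1000 * (sg ^ 2 * ps) * (-te)) ^ 2 ≤ (-S1 te) ^ 2 :=
    pow_le_pow_left₀ (by have := h.ht0; nlinarith) e5 2
  have e7 := mul_le_mul_of_nonneg_left e6 h.g.ps0.le
  have e8 : 0 ≤ sg ^ 2 * (sg ^ 2 * ps ^ 3 * te ^ 2) := by have := h.g.ps0; positivity
  nlinarith

theorem LA.inc (h : LA a b sg ps te Sig S1 S2 P Q Th Fl) (hx : 1 ≤ 40 * (sg ^ 2 * ps ^ 3 * te ^ 2))
    (hF : 3 / 4 * (Sig a * -S1 a) * Th a ≤ Fl a) {t1 : ℝ} (h1 : t1 ∈ Icc a te) (e1 : Sig t1 = 1) :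
    ∀ t ∈ Icc a t1, 0 < Th t ∧ 3 / 4 * (Sig t * -S1 t) * Th t ≤ Fl t := by
  have h10 := h1.2.trans h.ht0
  refine incoming h.g h10 (h.sys.mono le_rfl h1.2) (h.nf.mono le_rfl h1.2)
    ((h.g.anti h.hat h.ht0 le_rfl).trans h.neg.le)
    (fun t ht => by have := h.g.anti ht.1 ht.2 h10; linarith) (Or.inr ⟨rfl, fun t ht => ?_⟩) h.hT hF
  have r0 := h.R0 ⟨ht.1, ht.2.trans h1.2⟩
  have r1 := h.g.S1_le h.hat h.ht0
  have r2 : (-S1 te) ^ 2 ≤ (-S1 t) ^ 2 := pow_le_pow_left₀ (by linarith) r0 2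
  have r3 := h.R0sq
  have r4 := mul_le_mul_of_nonneg_left hx (sq_nonneg sg)
  have r5 := mul_le_mul_of_nonneg_right h.g.ps1 (sq_nonneg (S1 te))
  nlinarith [sq_nonneg sg]

theorem mul_abs_le' {p x c : ℝ} (_hp : 0 < p) (h1 : -c ≤ p * x) (h2 : p * x ≤ c) : p * |x| ≤ c := by
  rcases abs_cases x with e | e <;> rw [e.1] <;> linarith

theorem fast_aux {sg ps R R0 N y p q : ℝ} (hN0 : 0 < N) (hN : N ≤ 47 / 10) (hp : 0 < p)
    (hy : 0 < y) (hyp : 999 / 1000 * y ≤ p) (hR0 : 0 < R0) (hR : R0 ≤ R) (hps : 0 < ps)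
    (hq : -(1004 / 1000 * sg ^ 2) ≤ q) (hf : 998 * sg ^ 2 ≤ ps * R0 ^ 2) :
    R0 * (-(1002 / 1000 * (1 / y * R) + 4 / 100 * ps * R) / N ^ 2) ≤ q - (R0 * N⁻¹) ^ 2 / p := by
  have e1 : 1 / p ≤ 1002 / 1000 * (1 / y) := by
    rw [div_le_iff₀ hp, mul_assoc, one_div, ← div_eq_inv_mul, ← mul_div_assoc, le_div_iff₀ hy]
    linarith
  have e2 : N ^ 2 ≤ 2209 / 100 := by nlinarith
  have hN2 : 0 < N ^ 2 := by positivity
  have e3 : R0 ^ 2 ≤ R0 * R := by nlinarith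
  have e4 : R0 ^ 2 * (1 / p) ≤ R0 * R * (1002 / 1000 * (1 / y)) :=
    mul_le_mul e3 e1 (by positivity) (by nlinarith)
  have e5 : -(q * N ^ 2) ≤ 4 / 100 * ps * (R0 * R) := by
    nlinarith [mul_le_mul_of_nonneg_right hq hN2.le, mul_le_mul_of_nonneg_left e2 (sq_nonneg sg),
      mul_le_mul_of_nonneg_left e3 hps.le, sq_nonneg sg]
  have e6 : q - (R0 * N⁻¹) ^ 2 / p = (q * N ^ 2 - R0 ^ 2 * (1 / p)) / N ^ 2 := by field_simp
  rw [e6, ← mul_div_assoc]
  exact div_le_div_of_nonneg_right (by nlinarith) hN2.le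

/-- D6, fast passage. -/
theorem LA.fast (h : LA a b sg ps te Sig S1 S2 P Q Th Fl)
    (hF : 3 / 4 * (Sig a * -S1 a) * Th a ≤ Fl a) (hx : 1000 ≤ sg ^ 2 * ps ^ 3 * te ^ 2) :
    ∀ t ∈ Icc a te, 0 < Th t ∧ 0 < Fl t := by
  obtain ⟨t1, h1, e1⟩ := h.t1
  have hin := h.inc (by linarith) hF h1 e1
  have ps0 := h.g.ps0
  have ps1 := h.g.ps1
  have hf : 998 * sg ^ 2 ≤ ps * S1 te ^ 2 := by
    have := h.R0sq
    nlinarith [mul_le_mul_of_nonneg_left hx (sq_nonneg sg)]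
  have R0 : 0 < -S1 te := by
    rcases (h.g.S1_le h.hat h.ht0).eq_or_lt with e | e
    · rw [e] at hf; nlinarith [pow_pos h.g.sg0 2]
    · linarith
  have hb : ∀ t ∈ Icc t1 te, t ∈ Icc a b := fun t ht =>
    ⟨h1.1.trans ht.1, ht.2.trans (h.ht0.trans h.g.hb)⟩
  have hr : ∀ t ∈ Icc t1 te, Sig t ≤ 1 ∧ -(1003 / 1000) ≤ ps * Sig t := fun t ht => by
    have r1 := h.g.anti h1.1 ht.1 (ht.2.trans h.ht0)
    have r2 := h.g.anti (hb t ht).1 ht.2 h.ht0
    have r3 := (abs_le.mp h.hte).1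
    exact ⟨by linarith, by nlinarith⟩
  have hN : ∀ t ∈ Icc t1 te,
      14 / 10 ≤ 3 - 1002 / 1000 * Real.arctan (Sig t) + 4 / 100 * ps * (1 - Sig t) ∧
      3 - 1002 / 1000 * Real.arctan (Sig t) + 4 / 100 * ps * (1 - Sig t) ≤ 47 / 10 := fun t ht => by
    have r1 := Real.arctan_lt_pi_div_two (Sig t)
    have r2 := Real.neg_pi_div_two_lt_arctan (Sig t)
    have r3 := Real.pi_lt_d2
    have r4 := hr t ht
    constructor <;> nlinarith [r4.1, r4.2]
  have key := (h.sys.mono h1.1 le_rfl).ric_sub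
    (u := fun t => -S1 te * (3 - 1002 / 1000 * Real.arctan (Sig t) + 4 / 100 * ps * (1 - Sig t))⁻¹)
    (u' := fun t => -S1 te * (-(1002 / 1000 * (1 / (1 + Sig t ^ 2) * -S1 t) + 4 / 100 * ps * -S1 t) /
      (3 - 1002 / 1000 * Real.arctan (Sig t) + 4 / 100 * ps * (1 - Sig t)) ^ 2))
    (fun t ht => by
      have d := h.g.d1 t (hb t ht)
      have d' : HasDerivAt
          (fun t => 3 - 1002 / 1000 * Real.arctan (Sig t) + 4 / 100 * ps * (1 - Sig t))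
          (1002 / 1000 * (1 / (1 + Sig t ^ 2) * -S1 t) + 4 / 100 * ps * -S1 t) t :=
        (((d.arctan.const_mul (1002 / 1000)).const_sub 3).add
          ((d.const_sub 1).const_mul (4 / 100 * ps))).congr_deriv (by ring)
      exact (d'.inv (lt_of_lt_of_le (by norm_num) (hN t ht).1).ne').const_mul _)
    (fun t ht => by
      have ht' := Ico_subset_Icc_self ht
      have ht2 : t ∈ Icc a te := ⟨h1.1.trans ht.1, ht.2.le⟩
      have r := hr t ht'
      refine fast_aux (sg := sg) (by linarith [(hN t ht').1]) (hN t ht').2 (h.sys.pos t ht2)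
        (by positivity) (by linarith [(abs_le.mp (h.nf.hP t ht2)).1]) R0 (h.R0 ht2) ps0 ?_
        (by nlinarith)
      have q1 := (abs_le.mp (h.nf.hQ t ht2)).1
      have q2 : ps * |Sig t| ≤ 1003 / 1000 := by
        exact mul_abs_le' ps0 r.2 (by nlinarith [r.1])
      have q3 : ps * Sig t ≤ 1 / 1000 := by nlinarith [r.1]
      nlinarith [mul_le_mul_of_nonneg_left q2 (sq_nonneg sg),
        mul_le_mul_of_nonneg_left q3 (sq_nonneg sg), sq_nonneg sg])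
    (hin t1 ⟨h1.1, le_rfl⟩).1
    (by
      have r := hin t1 ⟨h1.1, le_rfl⟩
      refine le_trans (mul_le_mul_of_nonneg_right ?_ r.1.le) r.2
      have r1 := (hN t1 ⟨le_rfl, h1.2⟩).1
      have r2 := h.R0 h1
      rw [← div_eq_mul_inv, div_le_iff₀ (by linarith)]
      rw [e1] at r1 ⊢
      nlinarith)
  intro t ht
  rcases le_total t t1 with e | e
  · have r := hin t ⟨ht.1, e⟩
    have r1 := h.g.anti ht.1 e (h1.2.trans h.ht0)
    have r2 := h.R0 ht
    exact ⟨r.1, lt_of_lt_of_le (mul_pos (mul_pos (by norm_num)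
      (mul_pos (by linarith) (by linarith))) r.1) r.2⟩
  · have r := key t ⟨e, ht.2⟩
    exact ⟨r.1, lt_of_lt_of_le (mul_pos (mul_pos R0
      (inv_pos.mpr (by linarith [(hN t ⟨e, ht.2⟩).1]))) r.1) r.2⟩

/-- D6, slow passage. -/
theorem LA.slow (h : LA a b sg ps te Sig S1 S2 P Q Th Fl)
    (hx : 40 * (sg ^ 2 * ps ^ 3 * te ^ 2) ≤ 1) : ∃ t ∈ Icc a te, Fl t < 0 := by
  by_contra hn
  push Not at hn
  obtain ⟨t1, h1, e1⟩ := h.t1
  have ps0 := h.g.ps0
  have ps1 := h.g.ps1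
  have sg0 := h.g.sg0
  have c0 := h.g.c0
  have hT : ∀ t ∈ Icc a te, 0 < Th t := fun t ht =>
    h.hT.trans_le (h.sys.Th_mono hn a ⟨le_rfl, h.hat⟩ t ht ht.1)
  have hb : ∀ t ∈ Icc t1 te, t ∈ Icc a b := fun t ht =>
    ⟨h1.1.trans ht.1, ht.2.trans (h.ht0.trans h.g.hb)⟩
  have hr : ∀ t ∈ Icc t1 te, Sig t ≤ 1 := fun t ht => by
    linarith [h.g.anti h1.1 ht.1 (ht.2.trans h.ht0)]
  obtain ⟨R, R0, hR⟩ : ∃ R : ℝ, 0 < R ∧ ps * R ^ 2 = 272 / 10000 * sg ^ 2 := by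
    refine ⟨Real.sqrt (272 / 10000 * sg ^ 2 / ps), Real.sqrt_pos.mpr (by positivity), ?_⟩
    rw [Real.sq_sqrt (by positivity)]; field_simp
  have hS : ∀ t ∈ Icc t1 te, -S1 t ≤ R := fun t ht => by
    have m := mono_of_deriv (a := t1) (b := te)
      (g := fun x => S1 x * S1 x - 2002 / 1000 * (sg ^ 2 * ps) * Sig x)
      (fun x hx => ((h.g.d2 x (hb x hx)).mul (h.g.d2 x (hb x hx))).sub
        ((h.g.d1 x (hb x hx)).const_mul _))
      (fun x hx => by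
        have r1 := h.g.S1_le (hb x hx).1 (hx.2.trans h.ht0)
        have r2 := (abs_le.mp (h.g.h2 x (hb x hx))).2
        nlinarith) ht.1 ht.2 le_rfl
    have r1 := (h.g.neg h.hat h.ht0).2
    have r2 : (-S1 te) ^ 2 ≤ (1001 / 1000 * (sg ^ 2 * ps) * (-te)) ^ 2 :=
      pow_le_pow_left₀ (neg_nonneg.mpr (h.g.S1_le h.hat h.ht0)) r1 2
    have r3 := mul_le_mul_of_nonneg_left r2 ps0.le
    have r4 := mul_le_mul_of_nonneg_left hx (sq_nonneg sg)
    have r5 : ps * S1 te ^ 2 ≤ 2506 / 100000 * sg ^ 2 := by nlinarith [sq_nonneg sg]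
    have r6 : ps * (Sig t - Sig te) ≤ 1004 / 1000 := by
      nlinarith [hr t ht, (abs_le.mp h.hte).1]
    have r7 := mul_le_mul_of_nonneg_left r6 c0.le
    have r8 := mul_le_mul_of_nonneg_left m ps0.le
    have r9 := mul_le_mul_of_nonneg_left ps1 (sq_nonneg sg)
    have r10 : ps * (-S1 t) ^ 2 ≤ ps * R ^ 2 := by nlinarith [sq_nonneg sg]
    exact le_of_pow_le_pow_left₀ (by norm_num) R0.le (le_of_mul_le_mul_left r10 ps0)
  have hL : ∀ t ∈ Icc t1 te, 1 - R * (t - t1) ≤ Sig t := fun t ht => by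
    have m := mono_of_deriv (a := t1) (b := te) (g := fun x => Sig x + R * x)
      (fun x hx => (h.g.d1 x (hb x hx)).add (dmul R x))
      (fun x hx => by linarith [hS x hx]) le_rfl ht.1 ht.2
    linarith
  obtain ⟨w, hw⟩ : ∃ w, R * w = 1 := ⟨1 / R, by field_simp⟩
  have w0 : 0 < w := by nlinarith
  obtain ⟨v, hv⟩ : ∃ v, 2 * ps * v = w := ⟨w / (2 * ps), by field_simp⟩
  have v0 : 0 < v := by nlinarith
  have hRv : 2 * ps * (R * v) = 1 := by rw [← hw, ← hv]; ring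
  have h3 : t1 + w + v ≤ te := by
    have r1 := mul_le_mul_of_nonneg_left (hL te ⟨h1.2, le_rfl⟩) ps0.le
    have r2 := (abs_le.mp h.hte).2
    by_contra e
    push Not at e
    have r3 : ps * R * (te - t1) < ps * R * (w + v) :=
      mul_lt_mul_of_pos_left (by linarith) (mul_pos ps0 R0)
    have r4 : ps * R * (w + v) = ps * (R * w) + ps * (R * v) := by ring
    rw [hw] at r4
    nlinarith
  have hA : Fl (t1 + w) ≤ 201 / 100 * R * Th (t1 + w) := by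
    have e0 := hT t1 h1
    obtain ⟨d, d0, hd⟩ : ∃ d : ℝ, 0 < d ∧ Fl t1 ≤ d⁻¹ * Th t1 := by
      refine ⟨Th t1 / (Fl t1 + 1), div_pos e0 (by linarith [hn t1 h1]), ?_⟩
      rw [inv_div, div_mul_cancel₀ _ e0.ne']; linarith
    have hp : ∀ t ∈ Icc t1 (t1 + w), 0 < d + 499 / 1000 * (t - t1) := fun t ht => by
      linarith [ht.1]
    have := (h.sys.mono h1.1 (show t1 + w ≤ te by linarith)).ric_super
      (u := fun t => (d + 499 / 1000 * (t - t1))⁻¹)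
      (u' := fun t => -(499 / 1000) / (d + 499 / 1000 * (t - t1)) ^ 2)
      (fun t ht => ((dlin _ t1 t).const_add d).inv (hp t ht).ne')
      (fun t ht => by
        have ht1 : t ∈ Icc t1 te := ⟨ht.1, by linarith [ht.2]⟩
        have ht2 : t ∈ Icc a te := ⟨h1.1.trans ht.1, ht1.2⟩
        have r0 : 0 ≤ Sig t := by
          have := hL t ht1
          have := mul_le_mul_of_nonneg_left (show t - t1 ≤ w by linarith [ht.2]) R0.le
          linarith
        have r1 := hr t ht1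
        have r2 : P t ≤ 2002 / 1000 := by nlinarith [(abs_le.mp (h.nf.hP t ht2)).2]
        have r3 := (abs_le.mp (h.nf.hQ t ht2)).2
        rw [abs_of_nonneg r0] at r3
        have r4 : Q t ≤ 0 := by nlinarith [mul_nonneg c0.le r0, sq_nonneg sg]
        have r5 := hp t (Ico_subset_Icc_self ht)
        obtain ⟨y, hy⟩ : ∃ y, y = (d + 499 / 1000 * (t - t1))⁻¹ := ⟨_, rfl⟩
        have r6 : -(499 / 1000) / (d + 499 / 1000 * (t - t1)) ^ 2 = -(499 / 1000 * y ^ 2) := by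
          rw [hy]; field_simp
        have r7 : 499 / 1000 * y ^ 2 ≤ y ^ 2 / P t := by
          rw [le_div_iff₀ (h.sys.pos t ht2)]
          nlinarith [mul_le_mul_of_nonneg_left r2 (sq_nonneg y), sq_nonneg y]
        simp only [r6, ← hy]
        linarith)
      (fun t ht => (hT t ⟨h1.1.trans ht.1, by linarith [ht.2]⟩).le) (by simpa using hd)
      (t1 + w) ⟨by linarith, le_rfl⟩
    refine this.trans (mul_le_mul_of_nonneg_right ?_ (hT _ ⟨by linarith [h1.1], by linarith⟩).le)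
    rw [inv_le_iff_one_le_mul₀ (hp _ ⟨by linarith, le_rfl⟩)]
    nlinarith [mul_pos R0 d0]
  have hB := (h.sys.mono (show a ≤ t1 + w by linarith [h1.1]) h3).upper (K := -(498 / 1000 * sg ^ 2))
    (fun t ht => by
      have ht1 : t ∈ Icc t1 te := ⟨by linarith [ht.1], by linarith [ht.2]⟩
      have ht2 : t ∈ Icc a te := ⟨h1.1.trans ht1.1, ht1.2⟩
      have r0 : -(1 / 2) ≤ ps * Sig t := by
        have r1 := hL t ht1
        have r2 := mul_le_mul_of_nonneg_left (show t - t1 ≤ w + v by linarith [ht.2]) R0.le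
        have r3 : -(R * v) ≤ Sig t := by linarith
        nlinarith [mul_le_mul_of_nonneg_left r3 ps0.le]
      have r1 : ps * |Sig t| ≤ 1 / 2 := by
        exact mul_abs_le' ps0 r0 (by nlinarith [hr t ht1])
      have r3 := (abs_le.mp (h.nf.hQ t ht2)).2
      nlinarith [mul_le_mul_of_nonneg_left r0 (sq_nonneg sg),
        mul_le_mul_of_nonneg_left r1 (sq_nonneg sg), sq_nonneg sg])
    (fun t ht => (hT t ⟨by linarith [h1.1, ht.1], by linarith [ht.2]⟩).le) hA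
    (t1 + w + v) ⟨by linarith, le_rfl⟩
  have r1 := hT (t1 + w + v) ⟨by linarith [h1.1], h3⟩
  have r2 := hn (t1 + w + v) ⟨by linarith [h1.1], h3⟩
  have r3 : 201 / 100 * R + -(498 / 1000 * sg ^ 2) * (t1 + w + v - (t1 + w)) < 0 := by
    have r4 : 272 / 10000 * sg ^ 2 * v * 2 = R := by
      calc _ = 2 * ps * (R * v) * R := by rw [← hR]; ring
        _ = R := by rw [hRv, one_mul]
    nlinarith
  nlinarith [mul_neg_of_neg_of_pos r3 r1]

/-- D6, gain on the way in. -/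
theorem LA.gain8 (h : LA a b sg ps te Sig S1 S2 P Q Th Fl)
    (hF : 3 / 4 * (Sig a * -S1 a) * Th a ≤ Fl a) (hx : 1 ≤ 40 * (sg ^ 2 * ps ^ 3 * te ^ 2))
    (hbig : 512 ≤ Sig a) (hn : ∀ t ∈ Icc a te, 0 ≤ Fl t) : 8 * Th a ≤ Th te := by
  obtain ⟨t1, h1, e1⟩ := h.t1
  have hin := h.inc hx hF h1 e1
  have h10 := h1.2.trans h.ht0
  have m := mono_of_deriv (a := a) (b := t1) (g := fun x => Th x ^ 3 * Sig x)
    (g' := fun x => 3 * Th x ^ 2 * (Fl x / P x) * Sig x + Th x ^ 3 * S1 x)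
    (fun x hx => (((h.sys.dTh x ⟨hx.1, hx.2.trans h1.2⟩).pow 3).mul
      (h.g.d1 x ⟨hx.1, hx.2.trans (h10.trans h.g.hb)⟩)).congr_deriv (by simp))
    (fun x hx => by
      have hx2 : x ∈ Icc a te := ⟨hx.1, hx.2.trans h1.2⟩
      have r := hin x hx
      have r1 : 1 ≤ Sig x := e1 ▸ h.g.anti hx.1 hx.2 h10
      have r2 := neg_nonneg.mpr (h.g.S1_le hx.1 (hx.2.trans h10))
      have r3 : P x ≤ 2002 / 1000 * Sig x ^ 2 := by nlinarith [(abs_le.mp (h.nf.hP x hx2)).2]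
      have r4 : -S1 x * Th x ≤ 3 * (Fl x * Sig x / P x) := by
        rw [← mul_div_assoc, le_div_iff₀ (h.sys.pos x hx2)]
        have r5 := mul_nonneg r2 r.1.le
        nlinarith [mul_le_mul_of_nonneg_left r3 r5,
          mul_le_mul_of_nonneg_right r.2 (show 0 ≤ Sig x by linarith),
          mul_nonneg r5 (sq_nonneg (Sig x))]
      have r6 := mul_le_mul_of_nonneg_left r4 (sq_nonneg (Th x))
      have r7 : Th x ^ 2 * (3 * (Fl x * Sig x / P x)) = 3 * Th x ^ 2 * (Fl x / P x) * Sig x := by ring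
      nlinarith) le_rfl h1.1 le_rfl
  rw [e1, mul_one] at m
  have r1 : (8 * Th a) ^ 3 ≤ Th t1 ^ 3 := by
    nlinarith [mul_le_mul_of_nonneg_left hbig (pow_pos h.hT 3).le]
  have r2 := le_of_pow_le_pow_left₀ (by norm_num) (hin t1 ⟨h1.1, le_rfl⟩).1.le r1
  exact r2.trans (h.sys.Th_mono hn t1 h1 te ⟨h.hat, le_rfl⟩ h1.2)

end Pool.Agent.Lib.MP_fbbbeb_an.Ric
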