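import Mathlib
import Pool.Agent.Lib.MP_fbbbeb_an.D.Mono
import Pool.Agent.Lib.MP_fbbbeb_an.D.WinA
import Pool.Agent.Lib.MP_fbbbeb_an.D.Lin

/-! The returning level: shooting in the end time. -/

namespace Pool.Agent.Lib.MP_fbbbeb_an.D

open Set Pool.Agent.Lib.MP_fbbbeb_an.Ric

namespace SA

lemma num {G TH s2 ps u : ℝ} (G6 : 10 ^ 6 ≤ G) (hTH : G ^ 12 ≤ TH) (h1 : TH ≤ G * s2)
    (h2 : s2 ≤ G * TH) (h3 : 1 ≤ G * ps) (h4 : ps ≤ 1) (u0 : 0 ≤ u)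
    (hu1 : s2 * ps ^ 3 * u ^ 2 ≤ 1000) (hu2 : 1 ≤ 40 * (s2 * ps ^ 3 * u ^ 2)) :
    u ≤ 1 / G ∧ G ≤ u * TH ∧ G * u ^ 2 * TH ≤ G ^ 6 := by
  have G1 : 1 ≤ G := by linarith
  have G0 : 0 < G := by linarith
  have T0 : 0 < TH := (by positivity : 0 < G ^ 12).trans_le hTH
  have s0 : 0 < s2 := (mul_pos_iff_of_pos_left G0).1 (T0.trans_le h1)
  have p0 : 0 < ps := (mul_pos_iff_of_pos_left G0).1 (one_pos.trans_le h3)
  have e1 : TH * u ^ 2 ≤ 1000 * G ^ 4 := by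
    have a := mul_le_mul_of_nonneg_right h1 (sq_nonneg u)
    have b := le_mul_of_one_le_right (by positivity : 0 ≤ G * s2 * u ^ 2) (one_le_pow₀ (n := 3) h3)
    have c := mul_le_mul_of_nonneg_left hu1 (by positivity : 0 ≤ G ^ 4)
    linarith
  have e2 : 1000 * G ^ 5 ≤ G ^ 6 := by nlinarith [pow_pos G0 5]
  have e3 : G * u ^ 2 * TH ≤ G ^ 6 := by linarith [mul_le_mul_of_nonneg_left e1 G0.le]
  refine ⟨?_, ?_, e3⟩
  · rw [le_div_iff₀ G0, ← sq_le_one_iff₀ (by positivity)]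
    have a := mul_le_mul_of_nonneg_left hTH (by positivity : 0 ≤ G * u ^ 2)
    have b : G ^ 6 ≤ G ^ 11 := pow_le_pow_right₀ G1 (by norm_num)
    exact le_of_mul_le_mul_left (a := G ^ 11) (by linarith) (by positivity)
  · rw [← sq_le_sq₀ G0.le (by positivity)]
    have a : s2 * ps ^ 3 * u ^ 2 ≤ G * TH * 1 * u ^ 2 := mul_le_mul_of_nonneg_right
      (mul_le_mul h2 (pow_le_one₀ p0.le h4) (by positivity) (by positivity)) (sq_nonneg u)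
    have b : TH * 1 ≤ TH * (40 * (G * TH * 1 * u ^ 2)) :=
      mul_le_mul_of_nonneg_left (by linarith) T0.le
    have c : G ^ 4 ≤ G ^ 12 := pow_le_pow_right₀ G1 (by norm_num)
    have d : 40 * G ^ 3 ≤ G ^ 4 := by nlinarith [pow_pos G0 3]
    exact le_of_mul_le_mul_left (a := 40 * G) (by linarith) (by positivity)

/-- the gap at the left end of the window -/
lemma gap {G K TH L ths the m kp ps : ℝ} (G6 : 10 ^ 6 ≤ G) (hTH : G ^ 12 ≤ TH) (K1 : 1 ≤ K)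
    (KG : 2 * K ^ 2 ≤ G) (h1 : (1 / G) ^ 2 * TH ≤ G * (TH - ths)) (h2 : TH - the ≤ G ^ 6)
    (h3 : |ps * ((L - the) / m * kp) + 1| ≤ 1 / 1000) (h4 : 1 ≤ G * ps) (m0 : 0 < m) (m1 : m ≤ K)
    (k1 : 1 ≤ K * kp) : TH ≤ G ^ 4 * (L - ths) ∧ 512 ≤ (L - ths) / m * kp := by
  have G1 : 1 ≤ G := by linarith
  have G0 : 0 < G := by linarith
  have p0 : 0 < ps := (mul_pos_iff_of_pos_left G0).1 (one_pos.trans_le h4)
  have k0 : 0 < kp := (mul_pos_iff_of_pos_left (by linarith : 0 < K)).1 (one_pos.trans_le k1)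
  have e0 : m ≤ K ^ 2 * kp := by nlinarith
  have e1 : TH ≤ G ^ 3 * (TH - ths) := by
    have := mul_le_mul_of_nonneg_left h1 (sq_nonneg G)
    rw [← mul_assoc, ← mul_pow, mul_one_div_cancel G0.ne'] at this
    linarith
  have e2 : the - L ≤ G ^ 2 := by
    by_contra hn
    push Not at hn
    have a : ps * ((the - L) / m * kp) ≤ 2 := by
      have := (abs_le.1 h3).1
      rw [show (the - L) / m * kp = -((L - the) / m * kp) by ring]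
      linarith
    have b : ps * (the - L) * kp ≤ 2 * m := by
      have := mul_le_mul_of_nonneg_right a m0.le
      rwa [show ps * ((the - L) / m * kp) * m = ps * (the - L) * kp by field_simp] at this
    have c : ps * (the - L) ≤ G := le_of_mul_le_mul_right (a := kp) (by nlinarith) k0
    nlinarith [mul_lt_mul_of_pos_left hn p0]
  have p1 : G ^ 2 ≤ G ^ 6 := pow_le_pow_right₀ G1 (by norm_num)
  have p2 : G ^ 10 ≤ G ^ 12 := pow_le_pow_right₀ G1 (by norm_num)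
  have p3 : 4 * G ^ 9 ≤ G ^ 10 := by nlinarith [pow_pos G0 9]
  have e3 : TH ≤ 2 * (G ^ 3 * (L - ths)) := by
    have : G ^ 3 * (TH - ths) ≤ G ^ 3 * (L - ths + 2 * G ^ 6) :=
      mul_le_mul_of_nonneg_left (by linarith) (by positivity)
    linarith
  have T0 : 0 < TH := (by positivity : 0 < G ^ 12).trans_le hTH
  have e4 : 0 < G ^ 3 * (L - ths) := by linarith
  have e5 : TH ≤ G ^ 4 * (L - ths) := by nlinarith
  refine ⟨e5, ?_⟩
  have e6 : G ^ 8 ≤ L - ths := le_of_mul_le_mul_left (a := G ^ 4) (by linarith) (by positivity)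
  have p4 : G ^ 2 ≤ G ^ 8 := pow_le_pow_right₀ G1 (by norm_num)
  rw [div_mul_eq_mul_div, le_div_iff₀ m0]
  have : 512 * K ^ 2 ≤ L - ths := by nlinarith
  nlinarith

lemma kk {K G : ℝ} (K2 : 2 ≤ K) (K3 : K ^ 3 ≤ G) (G6 : 10 ^ 6 ≤ G) :
    2 * K ^ 2 ≤ G ∧ 4 * K ≤ G ∧ 8 * K ≤ G ^ 4 := by
  have a : 2 * K ^ 2 ≤ G := by nlinarith [sq_nonneg K]
  have b : 4 * K ≤ G := by nlinarith
  have G1 : 1 ≤ G := by linarith
  have c : G ^ 2 ≤ G ^ 4 := pow_le_pow_right₀ G1 (by norm_num)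
  exact ⟨a, b, by nlinarith⟩

lemma kp_lo {K p a : ℝ} (K0 : 0 < K) (h1 : 1 ≤ K * p) (h2 : |a| ≤ K) : 1 * a ≤ K ^ 2 * p := by
  nlinarith [le_abs_self a]

lemma eps_le {K G ε ψ c : ℝ} (K0 : 0 < K) (e0 : 0 ≤ ε) (ψ0 : 0 < ψ) (b : 8 * K ≤ G)
    (a : ε * G ≤ ψ) (c1 : 1 ≤ K * c) : 8 * ε ≤ ψ * c := by
  have := mul_le_mul_of_nonneg_left b e0
  refine le_of_mul_le_mul_left (a := K) ?_ K0
  nlinarith

lemma win {A u u1 u2 : ℝ} (A0 : 0 < A) (u20 : 0 ≤ u2) (h1 : A * u1 ^ 2 = 1000)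
    (h2 : 40 * (A * u2 ^ 2) = 1) (a : u2 ≤ -u) (b : -u ≤ u1) :
    A * u ^ 2 ≤ 1000 ∧ 1 ≤ 40 * (A * u ^ 2) := by
  have c := mul_le_mul_of_nonneg_left (pow_le_pow_left₀ (u20.trans a) b 2) A0.le
  have d := mul_le_mul_of_nonneg_left (pow_le_pow_left₀ u20 a 2) A0.le
  rw [neg_sq] at c d
  exact ⟨by linarith, by linarith⟩

lemma neg {D Q ε z c mn L K TH : ℝ} (a : |D - c| ≤ ε) (b : c ≤ -(z / 4)) (d : |Q + 2 * mn * D| ≤ ε)
    (e : |mn + L| ≤ K) (i : 2 * |L - TH| ≤ TH) (ec : 8 * ε ≤ z) (z0 : 0 < z) (K2 : 2 ≤ K)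
    (hT : 4 * K ≤ TH) : D ≤ -(z / 8) ∧ Q < 0 := by
  have j : D ≤ -(z / 8) := by linarith [(abs_le.1 a).2]
  have o : mn ≤ -1 := by linarith [(abs_le.1 e).2, neg_abs_le (L - TH)]
  exact ⟨j, by nlinarith [(abs_le.1 d).2]⟩

lemma low {D K K1 K' ψ c : ℝ} (K2 : 2 ≤ K) (h : 8 * K ≤ K1) (hK : K1 ^ 2 ≤ K') (c1 : 1 ≤ K * c)
    (h1 : 1 ≤ K1 * ψ) (z : 0 < ψ * c) (d1 : D ≤ -(ψ * c / 8)) : 1 ≤ K' * |D| := by
  rw [abs_of_neg (by linarith)]
  have a : 8 * K * K1 ≤ K1 ^ 2 := by nlinarith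
  have d : 1 ≤ K * c * (K1 * ψ) := one_le_mul_of_one_le_of_one_le c1 h1
  have e := mul_le_mul (a.trans hK) (neg_le_neg d1) (by linarith) ((sq_nonneg _).trans hK)
  linarith

lemma tilt {D ε ψ c a P Om om d S : ℝ} (a0 : 0 < a) (h : |D - -(ψ * |c| / 4)| ≤ ε)
    (ec : 8 * ε ≤ ψ * |c|) (o : 9 / 10 * om ≤ Om) (ho : om = c ^ 2 / a + d) (d0 : 0 ≤ d)
    (pp : |P / a - (1 + S ^ 2)| ≤ (1 + S ^ 2) / 1000) : D ^ 2 ≤ ψ ^ 2 * Om * P := by
  have p1 : 9 / 10 * a ≤ P := by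
    rw [← le_div_iff₀ a0]; nlinarith [sq_nonneg S, (abs_le.1 pp).1]
  have o1 : 9 / 10 * (|c| ^ 2 / a) ≤ Om := by rw [sq_abs]; linarith
  have o2 := mul_le_mul o1 p1 (by positivity) ((by positivity : (0 : ℝ) ≤ _).trans o1)
  rw [show 9 / 10 * (|c| ^ 2 / a) * (9 / 10 * a) = 81 / 100 * |c| ^ 2 by field_simp; ring] at o2
  have o3 := mul_le_mul_of_nonneg_left o2 (sq_nonneg ψ)
  have e0 := (abs_nonneg _).trans h
  have o4 : D ^ 2 ≤ (ψ * |c| / 2) ^ 2 :=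
    sq_le_sq' (by linarith [(abs_le.1 h).1]) (by linarith [(abs_le.1 h).2])
  nlinarith [sq_nonneg (ψ * |c|)]

lemma half {TH th k u G τ : ℝ} (T0 : 0 < TH) (G6 : 10 ^ 6 ≤ G) (hτ : τ = 1 / G) (kG : k ≤ G)
    (mu : u ∈ Icc (-τ) τ) (a : TH - th ≤ k * u ^ 2 * TH) : TH ≤ 2 * th := by
  have G0 : 0 < G := by linarith
  have d : k * u ^ 2 ≤ G * τ ^ 2 := mul_le_mul kG (sq_le_sq' mu.1 mu.2) (sq_nonneg _) G0.le
  have e : G * τ ^ 2 ≤ 1 / 2 := by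
    rw [hτ, show G * (1 / G) ^ 2 = 1 / G by field_simp]
    exact one_div_le_one_div_of_le (by norm_num) (by linarith)
  nlinarith

end SA

theorem stepASt : AliSt → TurnSt → NfSt → EntSt → NewSt → NegSt → StepASt := by
  rintro ⟨Ca, hA⟩ ⟨Ct, hT⟩ ⟨Cn, hN⟩ ⟨Ce, hE⟩ ⟨Cw, hW⟩ ⟨Cg, hG⟩
  obtain ⟨c, hc⟩ : ∃ c, c = Ca + Ct + Cn + Ce + Cw + Cg + 20 := ⟨_, rfl⟩
  refine ⟨c * (4 * c + 12), ?_⟩
  intro x K K1 ε ψ ψ' mn P Q D Om K2 ok nw cP cQ hTH TK1 hψ ψ0 ψ1 hε hK1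
  have K0 : 0 < K := by linarith
  have K1' : 1 ≤ K := by linarith
  obtain ⟨G, hG'⟩ : ∃ G, G = K ^ c := ⟨_, rfl⟩
  rw [pow_mul, ← hG'] at hTH hε
  have kG : ∀ n, n ≤ c → K ^ n ≤ G := fun n h => hG' ▸ pow_le_pow_right₀ K1' h
  have G6 : 10 ^ 6 ≤ G := ((pow_le_pow_left₀ (by norm_num) K2 20).trans' (by norm_num)).trans
    (kG 20 (by omega))
  have G1 : 1 ≤ G := by linarith
  have G0 : 0 < G := by linarith
  have gC : ∀ n, n ≤ 4 * c + 12 → G ^ n ≤ G ^ (4 * c + 12) := fun n h => pow_le_pow_right₀ G1 h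
  obtain ⟨KG2, KG, KG4⟩ := SA.kk K2 (kG 3 (by omega)) G6
  have T12 : G ^ 12 ≤ x.TH := (gC 12 (by omega)).trans hTH
  have g4 : G ≤ G ^ 4 := le_self_pow₀ G1 (by norm_num)
  have T4 : G ^ 4 ≤ x.TH := (gC 4 (by omega)).trans hTH
  have TG : G ≤ x.TH := g4.trans T4
  have T0 : 0 < x.TH := G0.trans_le TG
  have sp := ok.sp
  have xT := sp.T_pos K0
  have e0 : 0 ≤ ε := (abs_nonneg _).trans (ok.q_eq 0 ⟨le_rfl, xT.le⟩)
  have eG : ∀ n, n ≤ 4 * c + 12 → ε * G ^ n ≤ ψ' := fun n h =>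
    (mul_le_mul_of_nonneg_left (gC n h) e0).trans hε
  have eK : ∀ n, n ≤ c → ε * K ^ n ≤ 1 := fun n h => (mul_le_mul_of_nonneg_left (kG n h) e0).trans
    (by have := eG 1 (by omega); rw [pow_one] at this; linarith)
  obtain ⟨τ, hτ⟩ : ∃ τ, τ = 1 / G := ⟨_, rfl⟩
  have τ0 : 0 < τ := by rw [hτ]; positivity
  have τK : ∀ n, n ≤ c → τ * K ^ n ≤ 1 := fun n h => by
    rw [hτ, one_div, inv_mul_le_iff₀ G0, mul_one]; exact kG n h
  have τ1 : τ ≤ 1 / (2 * K) := hτ ▸ one_div_le_one_div_of_le (by positivity) (by linarith)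
  have τ2 : 1 / (2 * K) ≤ 1 / K := one_div_le_one_div_of_le K0 (by linarith)
  have τ3 : 1 / K1 ≤ τ := hτ ▸ one_div_le_one_div_of_le G0 (TG.trans TK1)
  have K10 : 0 < K1 := T0.trans_le TK1
  have t1 := sp.inv_le K0
  have t2 := sp.t_hi
  have tn := hT x K ε ψ (-1) τ K2 ok (eK _ (by omega)) (τK _ (by omega))
  obtain ⟨⟨n1, n2, n3, n4, n5, n6⟩, hN⟩ := hN x K ε ψ (-1) τ K2 ok hψ ((kG _ (by omega)).trans TG)
    (eK _ (by omega)) τ0 (τK _ (by omega))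
  have a0 : 0 < x.a x.t0 := (mul_pos_iff_of_pos_left K0).1 (one_pos.trans_le ok.a_lo)
  have m0 : 0 < |x.m| := (mul_pos_iff_of_pos_left K0).1 (one_pos.trans_le ok.m_lo)
  have mt := sp.t0_mem K0
  have p0 : 0 < x.ps := (mul_pos_iff_of_pos_left (by positivity)).1 (one_pos.trans_le n3)
  have s0 : 0 < x.sg ^ 2 := (mul_pos_iff_of_pos_left (by positivity)).1 (T0.trans_le n1)
  have n1' : x.TH ≤ G * x.sg ^ 2 := n1.trans (mul_le_mul_of_nonneg_right (kG _ (by omega)) s0.le)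
  have n2' : x.sg ^ 2 ≤ G * x.TH := n2.trans (mul_le_mul_of_nonneg_right (kG _ (by omega)) T0.le)
  have n3' : 1 ≤ G * x.ps := n3.trans (mul_le_mul_of_nonneg_right (kG _ (by omega)) p0.le)
  have k1 : 1 ≤ K * x.kp := by
    rw [← one_le_sq_iff₀ (by positivity), mul_pow, Dat.kp,
      Real.sq_sqrt (div_pos (sp.sys.pos _ mt) a0).le, ← mul_div_assoc, le_div_iff₀ a0]
    exact SA.kp_lo K0 (sp.p_lo _ mt) (ok.la.1 _ mt)
  have c1 : 1 ≤ K * |x.c x.t0| :=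
    ok.c_lo.trans (mul_le_mul_of_nonneg_left (by rw [neg_one_mul]; exact neg_le_abs _) K0.le)
  have c0 : 0 < |x.c x.t0| := (mul_pos_iff_of_pos_left K0).1 (one_pos.trans_le c1)
  have ec : 8 * ε ≤ ψ' * |x.c x.t0| := SA.eps_le K0 e0 ψ0 KG4 (eG 4 (by omega)) c1
  obtain ⟨A, hA'⟩ : ∃ A, A = x.sg ^ 2 * x.ps ^ 3 := ⟨_, rfl⟩
  have A0 : 0 < A := by rw [hA']; positivity
  obtain ⟨u1, u10, hu1⟩ : ∃ u, 0 ≤ u ∧ A * u ^ 2 = 1000 :=
    ⟨√(1000 / A), Real.sqrt_nonneg _, by rw [Real.sq_sqrt (by positivity)]; field_simp⟩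
  obtain ⟨u2, u20, hu2⟩ : ∃ u, 0 ≤ u ∧ 40 * (A * u ^ 2) = 1 :=
    ⟨√(1 / (40 * A)), Real.sqrt_nonneg _, by rw [Real.sq_sqrt (by positivity)]; field_simp⟩
  have u21 : u2 ≤ u1 := by
    rw [← sq_le_sq₀ u20 u10]
    exact le_of_mul_le_mul_left (a := A) (by linarith) A0
  obtain ⟨S, hS⟩ : ∃ S, S = Icc (x.t0 - u1) (x.t0 - u2) := ⟨_, rfl⟩
  have sA : ∀ y ∈ S, 0 ≤ x.t0 - y ∧ A * (y - x.t0) ^ 2 ≤ 1000 ∧ 1 ≤ 40 * (A * (y - x.t0) ^ 2) := by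
    intro y hy
    rw [hS] at hy
    exact ⟨by linarith only [hy.2, u20], SA.win A0 u20 hu1 hu2 (by linarith only [hy.2])
      (by linarith only [hy.1])⟩
  have sN : ∀ y ∈ S, x.t0 - y ≤ τ ∧ G ≤ (x.t0 - y) * x.TH ∧ G * (x.t0 - y) ^ 2 * x.TH ≤ G ^ 6 := by
    intro y hy
    obtain ⟨a, b, d⟩ := sA y hy
    rw [show (y - x.t0) ^ 2 = (x.t0 - y) ^ 2 by ring, hA'] at b d
    exact hτ ▸ SA.num G6 T12 n1' n2' n3' (by linarith) a b d
  have sM : ∀ y ∈ S, y ∈ Icc (-τ + x.t0) x.t0 := fun y hy =>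
    ⟨by linarith [(sN y hy).1], by linarith [(sA y hy).1]⟩
  have w : ∀ t ∈ Icc (-τ + x.t0) (τ + x.t0), t ∈ Icc 0 x.T := fun t h =>
    ⟨by linarith [h.1], by linarith [h.2]⟩
  have w' : ∀ t ∈ Icc (-τ + x.t0) x.t0, t ∈ Icc 0 x.T := fun t h => w t ⟨h.1, by linarith [h.2]⟩
  have ms : -τ + x.t0 ∈ Icc 0 x.T := w _ ⟨le_rfl, by linarith⟩
  have ng := fun y (hy : y ∈ S) => hG x K ε ψ ψ' τ y K2 ok (eK _ (by omega)) (τK _ (by omega))
    (sM y hy) ((kG _ (by omega)).trans (sN y hy).2.1) ψ0.le ψ1 ((kG _ (by omega)).trans TG)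
  have l2 : ∀ y ∈ S, 2 * |x.La ψ' y - x.TH| ≤ x.TH := fun y hy => by
    linarith [(ng y hy).1, abs_nonneg (x.La ψ' y - x.TH)]
  have gp : ∀ y ∈ S, x.TH ≤ G ^ 4 * (x.La ψ' y - x.th (-τ + x.t0)) ∧
      512 ≤ x.Sig (x.La ψ' y) (-τ) := fun y hy => by
    have a := (tn (-τ) ⟨le_rfl, by linarith⟩).1
    have b := (tn (y - x.t0) ⟨by linarith [(sN y hy).1], by linarith [(sA y hy).1]⟩).2.1
    have d := (ng y hy).2.1
    rw [Dat.Sig, sub_add_cancel] at d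
    rw [sub_add_cancel] at b
    have z : 0 ≤ x.TH - x.th (-τ + x.t0) := sub_nonneg.2 (sp.mono _ ms x.t0
      ⟨by linarith [one_div_pos.2 K0], le_rfl⟩ (by linarith))
    refine SA.gap G6 T12 K1' KG2 ?_ (b.trans (le_trans ?_ (sN y hy).2.2)) d n3' m0 ok.m_hi k1
    · rw [← hτ, ← neg_sq]
      exact a.trans (mul_le_mul_of_nonneg_right (kG _ (by omega)) z)
    · rw [show (y - x.t0) ^ 2 = (x.t0 - y) ^ 2 by ring]
      exact mul_le_mul_of_nonneg_right (mul_le_mul_of_nonneg_right (kG _ (by omega))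
        (sq_nonneg _)) T0.le
  have dl : ∀ y ∈ S, ∀ t ∈ Icc 0 (-τ + x.t0), x.TH ≤ G ^ 4 * (x.La ψ' y - x.th t) :=
    fun y hy t ht => (gp y hy).1.trans (mul_le_mul_of_nonneg_left (sub_le_sub_left
      (sp.mono t ⟨ht.1, ht.2.trans ms.2⟩ _ ⟨by linarith, by linarith⟩ ht.2) _) (by positivity))
  have lc : ∀ {g : ℝ → ℝ}, Lip K x.T g → ContinuousOn g S := fun h =>
    ((LipschitzOnWith.of_dist_le' (K := K) fun s hs t ht => by
      simpa [Real.dist_eq] using h.2 t ht s hs).continuousOn).mono fun y hy => w' y (sM y hy)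
  have cL : ContinuousOn (x.La ψ') S := (sp.cont.mono fun y hy => w' y (sM y hy)).add
    (continuousOn_const.mul (((lc ok.lc).add continuousOn_const).div (lc ok.ld)
      fun y hy => (ng y hy).2.2.1))
  have cz : ContinuousOn (fun z : ℝ × ℝ => ((x.La ψ' z.1, z.2) : ℝ × ℝ)) (S ×ˢ Icc 0 x.T) :=
    (cL.comp continuousOn_fst fun z hz => hz.1).prodMk continuousOn_snd
  obtain ⟨Th, Fl, -, cF, hs⟩ := Lin.exists_scalar (S := S) xT.le (P := fun y => P (x.La ψ' y))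
    (Q := fun y => Q (x.La ψ' y)) (u0 := fun y => x.th 0 / (x.La ψ' y - x.th 0))
    (v0 := fun y => x.f 0 * x.La ψ' y / x.m ^ 2)
    (cP.comp cz fun z hz => ⟨trivial, hz.2⟩) (cQ.comp cz fun z hz => ⟨trivial, hz.2⟩)
    (fun y hy t ht => ((mul_pos_iff_of_pos_left K10).1
      (one_pos.trans_le ((nw _ (l2 y hy)).P_lo t ht))).ne')
    (continuousOn_const.div (cL.sub continuousOn_const) fun y hy =>
      ((mul_pos_iff_of_pos_left (by positivity)).1 (T0.trans_le (dl y hy 0 ⟨le_rfl, ms.1⟩))).ne')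
    ((continuousOn_const.mul cL).div_const _)
  have sy : ∀ y ∈ S, Sys 0 x.T (P (x.La ψ' y)) (Q (x.La ψ' y)) (Th y) (Fl y) := fun y hy =>
    ⟨cP.comp (f := fun t => ((x.La ψ' y, t) : ℝ × ℝ)) (by fun_prop) fun t ht => ⟨trivial, ht⟩,
      fun t ht => (mul_pos_iff_of_pos_left K10).1 (one_pos.trans_le ((nw _ (l2 y hy)).P_lo t ht)),
      fun t ht => ((hs y hy).2.2.2.2 t ht).1, fun t ht => ((hs y hy).2.2.2.2 t ht).2⟩
  have al : ∀ y ∈ S, Al x (G ^ 4) (x.La ψ' y) (-τ + x.t0) (Th y) (Fl y) := fun y hy =>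
    hA x K K1 (G ^ 4) ε ψ (-1) _ _ _ _ _ _ _ _ _ K2 (by linarith) ok (nw _ (l2 y hy))
      (by rw [← pow_mul]; exact (gC _ (by omega)).trans hTH)
      (by rw [← pow_mul]; exact (eG _ (by omega)).trans (by linarith)) (l2 y hy) ms (dl y hy)
      ⟨sy y hy, (hs y hy).1, (hs y hy).2.1⟩
  have en := fun y (hy : y ∈ S) => hE x K (G ^ 4) ε ψ (-1) _ τ _ _ K2 ok (eK _ (by omega)) τ0
    (τK _ (by omega)) ((kG _ (by omega)).trans (by
      rw [hτ, show 1 / G * G ^ 4 = G ^ 3 by field_simp]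
      exact le_self_pow₀ G1 (by norm_num))) (al y hy)
  have nf := fun y (hy : y ∈ S) => (hN (x.La ψ' y)).2 K1 _ _ _ _ Om (ng y hy).1 (nw _ (l2 y hy))
  have la : ∀ y ∈ S, ∃ S2, LA (-τ) τ x.sg x.ps (y - x.t0) (x.Sig (x.La ψ' y)) x.S1 S2
      (fun u => P (x.La ψ' y) (u + x.t0) / x.a x.t0) (fun u => Q (x.La ψ' y) (u + x.t0) / x.a x.t0)
      (fun u => Th y (u + x.t0)) (fun u => Fl y (u + x.t0) / x.a x.t0) := fun y hy => by
    obtain ⟨S2, h2⟩ := (hN (x.La ψ' y)).1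
    have b := sM y hy
    exact ⟨S2, h2, (Sys.shift (c := x.t0) ((sy y hy).mono ms.1
      (by rw [sub_add_cancel]; exact (w' y b).2))).scale a0,
      (nf y hy).1.mono le_rfl (by linarith [b.2]), by linarith [b.1], by linarith [b.2],
      (ng y hy).2.1.trans (by norm_num), (gp y hy).2.trans' (by norm_num), (en y hy).1⟩
  have sh : ∀ y, ∀ t ∈ Icc (-τ + x.t0) y, t - x.t0 ∈ Icc (-τ) (y - x.t0) := fun y t h =>
    ⟨by linarith [h.1], by linarith [h.2]⟩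
  have dn : ∀ y ∈ S, ∀ t ∈ Icc (-τ + x.t0) y,
      D (x.La ψ' y) t ≤ -(ψ' * |x.c x.t0| / 8) ∧ Q (x.La ψ' y) t < 0 := fun y hy t ht => by
    have mm := w' t ⟨ht.1, ht.2.trans (sM y hy).2⟩
    exact SA.neg ((nw _ (l2 y hy)).D_eq t mm) ((ng y hy).2.2.2 t ht) ((nw _ (l2 y hy)).Q_eq t mm)
      (nw _ (l2 y hy)).m_eq (l2 y hy) ec (mul_pos ψ0 c0) K2 (KG.trans TG)
  have y0 : x.t0 - u1 ∈ S := hS ▸ ⟨le_rfl, by linarith⟩
  have y1 : x.t0 - u2 ∈ S := hS ▸ ⟨by linarith, le_rfl⟩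
  obtain ⟨y, hy, f1, f2⟩ := Lin.shoot_end (S := S) (hS ▸ isPreconnected_Icc) (s := -τ + x.t0)
    (b := x.t0) (te := fun y => y) (g := Fl) continuousOn_id sM
    (cF.mono (prod_mono le_rfl w')) y0 y1
    (fun t ht => by
      obtain ⟨S2, h2⟩ := la _ y0
      have := (h2.fast (en _ y0).2 (by rw [← hA', ← hu1]; exact le_of_eq (by ring)) _
        (sh _ t ht)).2
      rw [sub_add_cancel] at this
      exact ((div_pos_iff_of_pos_right a0).1 this).le)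
    (by
      obtain ⟨S2, h2⟩ := la _ y1
      obtain ⟨t, ht, h3⟩ := h2.slow (by rw [← hA', ← hu2]; exact le_of_eq (by ring))
      exact ⟨t + x.t0, ⟨by linarith [ht.1], by linarith [ht.2]⟩,
        (neg_of_div_neg_left h3 a0.le).le⟩)
    (fun y hy h t ht _ => by
      have b := sM y hy
      have mm := w' t ⟨ht.1, ht.2.le.trans b.2⟩
      refine ⟨_, mul_neg_of_neg_of_pos (dn y hy t ⟨ht.1, ht.2.le⟩).2 ((en y hy).1.trans_le ?_),
        (sy y hy).dFl t mm⟩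
      exact ((sy y hy).mono ms.1 (w' y b).2).Th_mono h _ ⟨le_rfl, b.1⟩ t ⟨ht.1, ht.2.le⟩ ht.1)
  have b := sM y hy
  have f3 : ∀ t ∈ Icc (-τ + x.t0) y, 0 ≤ Fl y t := fun t ht =>
    ht.2.lt_or_eq.elim (fun h => (f1 t ⟨ht.1, h⟩).le) fun h => by rw [h, f2]
  obtain ⟨S2, h2⟩ := la y hy
  have g8 := h2.gain8 (en y hy).2 (hA' ▸ (sA y hy).2.2) (gp y hy).2 fun t ht =>
    div_nonneg (f3 _ ⟨by linarith [ht.1], by linarith [ht.2]⟩) a0.le
  simp only [sub_add_cancel] at g8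
  have N := nw _ (l2 y hy)
  obtain ⟨Tn, r1, r2, -, -, r5⟩ := hW x K K1 (G ^ 4) ε ψ (-1) _ _ y _ _ _ _ K2 (by linarith)
    (T4.trans TK1) ok (G1.trans TG) TK1 (l2 y hy) (sy y hy)
    (fun t ht => ⟨N.P_lo t ht, N.P_hi t ht, N.Q_bd t ht⟩) (by linarith) (by linarith) b.1
    (by linarith [b.2]) (al y hy) f3 f2 g8
  have K11 : 1 ≤ K1 := G1.trans (TG.trans TK1)
  have kC : ∀ n, n ≤ c → K1 ^ n ≤ K1 ^ (c * (4 * c + 12)) := fun n h =>
    pow_le_pow_right₀ K11 (h.trans (Nat.le_mul_of_pos_right _ (by omega)))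
  have TT : Tn ≤ x.T := by linarith [b.2]
  have my := w' y b
  have z := mul_pos ψ0 c0
  have d1 := (dn y hy y ⟨b.1, le_rfl⟩).1
  refine ⟨_, y, Tn, Th y, Fl y, l2 y hy, r2.monoK (by positivity) (kC _ (by omega)),
    by linarith only [b.1, τ1, τ2], TT, by linarith only [d1, z],
    SA.low K2 (KG4.trans (T4.trans TK1)) (kC 2 (by omega)) c1 hK1 z d1, ?_, fun t ht => ?_⟩
  · have a := N.D_eq y my
    have e : x.c y - x.lam (x.La ψ' y) y * x.d y = -(ψ' * |x.c x.t0| / 4) := by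
      have := (ng y hy).2.2.1
      have := abs_pos.1 m0
      rw [Dat.lam, Dat.La]
      field_simp
      ring
    have mu : y - x.t0 ∈ Icc (-τ) τ := ⟨by linarith only [b.1], by linarith only [b.2, τ0]⟩
    have o := ((nf y hy).2 _ mu).2
    have pp := (nf y hy).1.hP _ mu
    simp only [sub_add_cancel] at o pp
    rw [e] at a
    exact SA.tilt a0 a ec o ok.om_eq (div_nonneg (sq_nonneg _) (sp.sys.pos _ mt).le) pp
  · have r := r5 (fun t ht => (dn y hy t ht).2.le) (fun t ht => by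
      have mu : t - x.t0 ∈ Icc (-τ) τ :=
        ⟨by linarith only [ht.1], by linarith only [ht.2, b.2, r1, τ3]⟩
      have a := (tn _ mu).2.1
      rw [sub_add_cancel] at a
      exact SA.half T0 G6 hτ (kG _ (by omega)) mu a) t ht
    have i1 := sp.pos t ⟨ht.1, ht.2.trans TT⟩
    have i2 := r2.pos t ht
    have i3 := r2.TH_pos (by positivity)
    have i4 := sp.TH_pos K0
    exact ⟨r.1.trans (mul_le_mul_of_nonneg_right (kC _ (by omega)) (mul_pos i1 i3).le),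
      r.2.trans (mul_le_mul_of_nonneg_right (kC _ (by omega)) (mul_pos i2 i4).le)⟩

end Pool.Agent.Lib.MP_fbbbeb_an.D
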