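import Mathlib
import Pool.Agent.Lib.MP_fbbbeb_an.D.SDefs
import Pool.Agent.Lib.MP_fbbbeb_an.D.Lin

/-! The growing level of the scalar cascade. -/

set_option autoImplicit false

noncomputable section

namespace Pool.Agent.Lib.MP_fbbbeb_an.D

open Set Pool.Agent.Lib.MP_fbbbeb_an.Ric

namespace SG

theorem le_sq (a b : ℝ) (hb : 0 ≤ b) (h : a ^ 2 ≤ b ^ 2) : a ≤ b :=
  le_trans (le_abs_self a) (abs_le_of_sq_le_sq h hb)

theorem sp_mono {K K' T t0 : ℝ} {p q th f : ℝ → ℝ} (h : Sp K T t0 p q th f) (hK : 0 < K)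
    (hle : K ≤ K') : Sp K' T t0 p q th f := by
  have hi : 1 / K' ≤ 1 / K := one_div_le_one_div_of_le hK hle
  have hK1 : 0 < 1 / K := by positivity
  have ht0 : 0 < t0 := by
    by_contra h1
    nlinarith [not_lt.1 h1, h.t_lo]
  have hm : t0 ∈ Icc 0 T := ⟨ht0.le, by linarith [h.t_hi]⟩
  refine ⟨h.sys, fun t ht => (h.p_lo t ht).trans ?_, fun t ht => (h.p_hi t ht).trans hle,
    fun t ht => (h.q_bd t ht).trans hle, h.pos, fun t ht => (h.f_bd t ht).trans ?_,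
    fun s hs t ht hst => (h.qmono s hs t ht hst).trans ?_, fun t ht => (h.top t ht).trans ?_,
    h.t_lo.trans ?_, by linarith [h.t_hi], h.T_le, h.f_zero,
    fun t ht s hs => h.mono t ht s ⟨by linarith [hs.1], hs.2⟩, h.drop.trans ?_⟩
  · exact mul_le_mul_of_nonneg_right hle (h.sys.pos t ht).le
  · exact mul_le_mul_of_nonneg_right hle (h.pos t ht).le
  · exact mul_le_mul_of_nonneg_right hle (h.pos t ht).le
  · exact mul_le_mul_of_nonneg_right hle (h.pos t0 hm).le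
  · exact mul_le_mul_of_nonneg_right hle ht0.le
  · exact mul_le_mul_of_nonneg_right (by linarith) (h.pos t0 hm).le

/-- size and sign of the new coefficient at the new turning point -/
theorem dsize {D c y σ ps ψ Om om P a : ℝ} (hc : 0 < c) (ha : 0 < a) (hps : 0 < ps)
    (hy : y = ps * σ) (h1 : 127 / 100 ≤ y) (h2 : y ≤ 34 / 10) (hψ : ps ≤ 2 * ψ)
    (hD : |D - c * (1 - ps * σ)| ≤ c * (1 + ps * |σ|) / 1000) (hO : 9 / 10 * om ≤ Om)
    (hom : c ^ 2 / a ≤ om) (hP : |P / a - (1 + σ ^ 2)| ≤ (1 + σ ^ 2) / 1000) :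
    D ≤ -(c / 4) ∧ D ^ 2 ≤ (3 * ψ) ^ 2 * Om * P := by
  have hσ : 0 < σ := by
    by_contra h
    nlinarith [mul_nonneg hps.le (neg_nonneg.2 (not_lt.1 h))]
  rw [abs_of_pos hσ, ← hy] at hD
  obtain ⟨d1, d2⟩ := abs_le.1 hD
  have e1 : D ≤ -(c / 4) := by nlinarith
  have e2 : -(c * y) ≤ D := by nlinarith
  refine ⟨e1, ?_⟩
  have e3 : D ^ 2 ≤ (c * y) ^ 2 := sq_le_sq' e2 (by nlinarith)
  have p1 : 9 / 10 * σ ^ 2 ≤ P / a := by nlinarith [(abs_le.1 hP).1, sq_nonneg σ]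
  have p2 : 9 / 10 * σ ^ 2 * a ≤ P := (le_div_iff₀ ha).1 p1
  have o1 : 9 / 10 * (c ^ 2 / a) ≤ Om := by linarith
  have o2 : 9 / 10 * (c ^ 2 / a) * (9 / 10 * σ ^ 2 * a) ≤ Om * P :=
    mul_le_mul o1 p2 (by positivity) (le_trans (by positivity) o1)
  have o3 : 9 / 10 * (c ^ 2 / a) * (9 / 10 * σ ^ 2 * a) = 81 / 100 * (c * σ) ^ 2 := by
    field_simp
    ring
  have q1 : (3 / 2 * ps) ^ 2 ≤ (3 * ψ) ^ 2 := pow_le_pow_left₀ (by positivity) (by linarith) 2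
  have q2 : (3 / 2 * ps) ^ 2 * (81 / 100 * (c * σ) ^ 2) ≤ (3 * ψ) ^ 2 * (Om * P) :=
    mul_le_mul q1 (o3 ▸ o2) (by positivity) (sq_nonneg _)
  have q3 : (3 / 2 * ps) ^ 2 * (81 / 100 * (c * σ) ^ 2) = 729 / 400 * (c * y) ^ 2 := by
    rw [hy]; ring
  rw [mul_assoc]
  nlinarith [sq_nonneg (c * y)]

end SG

open SG in
theorem stepGSt (hA : AliSt) (hT : TurnSt) (hN : NfSt) (hE : EntSt) (hW : NewSt) : StepGSt := by
  obtain ⟨Ca, hA⟩ := hA
  obtain ⟨Ct, hT⟩ := hT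
  obtain ⟨Cn, hN⟩ := hN
  obtain ⟨Ce, hE⟩ := hE
  obtain ⟨Cw, hW⟩ := hW
  obtain ⟨c1, hc1⟩ : ∃ c1, c1 = Ct + Cn + Ce + 3 := ⟨_, rfl⟩
  obtain ⟨c2, hc2⟩ : ∃ c2, c2 = 2 * c1 + Ct + Ce := ⟨_, rfl⟩
  obtain ⟨c3, hc3⟩ : ∃ c3, c3 = c2 * Ca := ⟨_, rfl⟩
  obtain ⟨C, hC⟩ : ∃ C, C = c3 + c2 + 3 * Cn + 2 * c1 + 3 + Cw := ⟨_, rfl⟩
  refine ⟨C, fun x K K1 ε ψ l mn P Q D Om hK hx hw cP cQ hTH hK1 hε hl hψ => ?_⟩
  have K0 : 0 < K := by linarith
  have Kone : 1 ≤ K := by linarith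
  have pw : ∀ {a b : ℕ}, a ≤ b → K ^ a ≤ K ^ b := fun h => pow_le_pow_right₀ Kone h
  have sp := hx.sp
  have iK : 0 < 1 / K := by positivity
  have t0lo : 1 / K ≤ x.t0 := by rw [div_le_iff₀ K0]; linarith [sp.t_lo]
  have T0 : 0 ≤ x.T := by linarith [sp.t_hi]
  have t0m : x.t0 ∈ Icc 0 x.T := ⟨by linarith, by linarith [sp.t_hi]⟩
  have ε0 : 0 ≤ ε := (abs_nonneg _).trans (hx.q_eq 0 ⟨le_rfl, T0⟩)
  have he : ∀ {a : ℕ}, a ≤ C → ε * K ^ a ≤ 1 := fun h =>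
    (mul_le_mul_of_nonneg_left (pw h) ε0).trans hε
  have hH : ∀ {a : ℕ}, a ≤ C → K ^ a ≤ x.TH := fun h => (pw h).trans hTH
  have TH0 : 0 < x.TH := sp.pos _ t0m
  have K3 : 4 * K ≤ K ^ 3 := by nlinarith [mul_le_mul hK hK (by norm_num) K0.le]
  have K14 : 4 * K ≤ K1 := K3.trans ((hH (by omega)).trans hK1)
  have K10 : 0 < K1 := by linarith
  have K1one : 1 ≤ K1 := by linarith
  have iK1 : 1 / K1 ≤ 1 / K / 4 := by
    rw [div_div]; exact one_div_le_one_div_of_le (by positivity) (by linarith)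
  obtain ⟨τ, hτ⟩ : ∃ τ, τ = 1 / K ^ c1 := ⟨_, rfl⟩
  have τ0 : 0 < τ := by rw [hτ]; positivity
  have τ1 : τ * K ^ c1 = 1 := by rw [hτ]; field_simp
  have hτa : ∀ {a : ℕ}, a ≤ c1 → τ * K ^ a ≤ 1 := fun h =>
    (mul_le_mul_of_nonneg_left (pw h) τ0.le).trans τ1.le
  have τK : τ ≤ 1 / K / 4 := by
    rw [div_div, le_div_iff₀ (by positivity)]
    have := hτa (a := 3) (by omega)
    nlinarith
  have sm : -τ + x.t0 ∈ Icc 0 x.T := ⟨by linarith, by linarith [t0m.2]⟩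
  have ψ0 := hx.psi
  have ψ1 : ψ ≤ 1 / 2000 := by nlinarith [mul_le_mul hl hl (by norm_num) (by linarith : 0 ≤ l)]
  have a0 : 0 < x.a x.t0 := by
    by_contra h
    nlinarith [hx.a_lo, not_lt.1 h]
  have Ppos : ∀ t ∈ Icc 0 x.T, 0 < P t := fun t ht => by
    by_contra h
    nlinarith [hw.P_lo t ht, not_lt.1 h]
  -- the old solution at the left end of the window
  obtain ⟨u1, u2, -, -⟩ := hT x K ε ψ 1 τ hK hx (he (by omega)) (hτa (by omega)) (-τ)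
    ⟨le_rfl, by linarith⟩
  have dl : ∀ t ∈ Icc 0 (-τ + x.t0), x.TH ≤ K ^ c2 * (x.TH - x.th t) := by
    intro t ht
    have h1 := sp.mono t ⟨ht.1, ht.2.trans sm.2⟩ (-τ + x.t0) ⟨by linarith, by linarith⟩ ht.2
    have h2 : 0 ≤ x.TH - x.th (-τ + x.t0) := by
      have h3 := sp.mono _ sm x.t0 ⟨by linarith, le_rfl⟩ (by linarith)
      exact sub_nonneg.2 h3
    calc x.TH = (K ^ c1) ^ 2 * ((-τ) ^ 2 * x.TH) := by
          rw [neg_sq, ← mul_assoc, ← mul_pow, mul_comm (K ^ c1), τ1]; ring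
      _ ≤ (K ^ c1) ^ 2 * (K ^ Ct * (x.TH - x.th (-τ + x.t0))) :=
          mul_le_mul_of_nonneg_left u1 (by positivity)
      _ = K ^ (2 * c1 + Ct) * (x.TH - x.th (-τ + x.t0)) := by ring
      _ ≤ K ^ c2 * (x.TH - x.th t) :=
          mul_le_mul (pw (by omega)) (by linarith) h2 (by positivity)
  -- the new solution
  obtain ⟨Th, Fl, i1, i2, -, -, hd⟩ := Lin.exists_scalar0 T0 cP cQ (fun t ht => (Ppos t ht).ne')
    (x.th 0 / (x.TH - x.th 0)) (x.f 0 * x.TH / x.m ^ 2)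
  have sys : Sys 0 x.T P Q Th Fl := ⟨cP, Ppos, fun t ht => (hd t ht).1, fun t ht => (hd t ht).2⟩
  have KK2 : K ≤ K ^ c2 := by simpa using pw (a := 1) (b := c2) (by omega)
  have hL : 2 * |x.TH - x.TH| ≤ x.TH := by simpa using TH0.le
  have al : Al x (K ^ c2) x.TH (-τ + x.t0) Th Fl :=
    hA x K K1 (K ^ c2) ε ψ 1 x.TH mn (-τ + x.t0) P Q D Om Th Fl hK KK2 hx hw
      (by rw [← pow_mul, ← hc3]; exact hH (by omega))
      (by rw [← pow_mul, ← hc3]; exact he (by omega)) hL sm dl ⟨sys, i1, i2⟩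
  obtain ⟨e1, e2⟩ := hE x K (K ^ c2) ε ψ 1 x.TH τ Th Fl hK hx (he (by omega)) τ0 (hτa (by omega))
    (by
      calc K ^ Ce = τ * K ^ (c1 + Ce) := by rw [pow_add, ← mul_assoc, τ1, one_mul]
        _ ≤ τ * K ^ c2 := mul_le_mul_of_nonneg_left (pw (by omega)) τ0.le) al
  obtain ⟨⟨n1, -, n3, n4, -, -⟩, nL⟩ := hN x K ε ψ 1 τ hK hx ψ1 (hH (by omega)) (he (by omega)) τ0
    (hτa (by omega))
  obtain ⟨⟨S2, sg⟩, nf⟩ := nL x.TH
  obtain ⟨nf, nD⟩ := nf K1 mn P Q D Om (by simpa using TH0.le) hw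
  have ps0 := sg.ps0
  have sg0 := sg.sg0
  have wsys := ((sys.mono (c := -τ + x.t0) (d := τ + x.t0) sm.1
    (by linarith [sp.t_hi])).shift).scale a0
  obtain ⟨l2, hl2⟩ : ∃ l2, l2 = Real.sqrt (1 / x.ps) := ⟨_, rfl⟩
  have l20 : 0 < l2 := by rw [hl2]; exact Real.sqrt_pos.2 (by positivity)
  have l21 : x.ps * l2 ^ 2 = 1 := by
    rw [hl2, Real.sq_sqrt (by positivity)]; field_simp
  have ll : l ≤ l2 := by
    refine le_sq l l2 l20.le ?_
    have h1 : x.ps * l ^ 2 ≤ x.ps * l2 ^ 2 := by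
      rw [l21]; exact (mul_le_mul_of_nonneg_right n4 (sq_nonneg l)).trans hψ
    exact le_of_mul_le_mul_left h1 ps0
  have big : K ^ (2 * Cn + 3) ≤ (x.sg * τ) ^ 2 := by
    have h1 : K ^ Cn * ((K ^ c1) ^ 2 * K ^ (2 * Cn + 3)) ≤ K ^ Cn * x.sg ^ 2 := by
      refine le_trans (le_of_eq ?_) ((hH (a := 3 * Cn + 2 * c1 + 3) (by omega)).trans n1)
      ring
    have h2 := le_of_mul_le_mul_left h1 (by positivity)
    calc K ^ (2 * Cn + 3) = τ ^ 2 * ((K ^ c1) ^ 2 * K ^ (2 * Cn + 3)) := by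
          rw [← mul_assoc, ← mul_pow, τ1]; ring
      _ ≤ τ ^ 2 * x.sg ^ 2 := mul_le_mul_of_nonneg_left h2 (sq_nonneg _)
      _ = (x.sg * τ) ^ 2 := by ring
  have hal : x.sg * -τ ≤ -l2 := by
    have h1 : l2 ^ 2 ≤ K ^ Cn := by
      have h2 := mul_le_mul_of_nonneg_right n3 (sq_nonneg l2)
      rwa [one_mul, mul_assoc, l21, mul_one] at h2
    have h3 := le_sq l2 (x.sg * τ) (by positivity)
      (h1.trans ((pw (by omega)).trans big))
    linarith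
  have hbl : 26 / 10 ≤ x.sg * x.ps * τ := by
    refine le_sq _ _ (by positivity) ?_
    have h1 : 1 ≤ (K ^ Cn * x.ps) ^ 2 := one_le_pow₀ n3
    have h2 : (8 : ℝ) ≤ K ^ 3 := by linarith
    calc (26 / 10 : ℝ) ^ 2 ≤ K ^ 3 * 1 := by linarith [show (26 / 10 : ℝ) ^ 2 ≤ 8 by norm_num]
      _ ≤ K ^ 3 * (K ^ Cn * x.ps) ^ 2 := mul_le_mul_of_nonneg_left h1 (by positivity)
      _ = K ^ (2 * Cn + 3) * x.ps ^ 2 := by ring
      _ ≤ (x.sg * τ) ^ 2 * x.ps ^ 2 := mul_le_mul_of_nonneg_right big (sq_nonneg _)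
      _ = (x.sg * x.ps * τ) ^ 2 := by ring
  obtain ⟨tn, tm, -, -, g1, g2, g3, g4, g5, -⟩ := levelG sg wsys nf
    (by simp [Dat.Sig, Dat.TH]) l20 l21 hal hbl e1 e2
  have g1' : Fl (tn + x.t0) = 0 := by
    rcases div_eq_zero_iff.1 g1 with h | h
    · exact h
    · exact absurd h a0.ne'
  have g2' : ∀ t ∈ Icc (-τ + x.t0) (tn + x.t0), 0 ≤ Fl t := fun t ht => by
    have h := (g2 (t - x.t0) ⟨by linarith [ht.1], by linarith [ht.2]⟩).2
    simp only [sub_add_cancel] at h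
    by_contra h1
    exact absurd h (not_le.2 (div_neg_of_neg_of_pos (not_le.1 h1) a0))
  have g3' : Real.exp (l / 2) * Th (-τ + x.t0) ≤ Th (tn + x.t0) :=
    (mul_le_mul_of_nonneg_right (Real.exp_le_exp.2 (by linarith)) e1.le).trans g3
  have ex8 : 8 ≤ Real.exp (l / 2) := by linarith [Real.add_one_le_exp (l / 2)]
  have t1T : tn + x.t0 + 1 / K1 ≤ x.T := by linarith [tm.2, sp.t_hi]
  obtain ⟨Tn, w1, w2, w3, w4, -⟩ := hW x K K1 (K ^ c2) ε ψ 1 x.TH (-τ + x.t0) (tn + x.t0) P Q Th Fl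
    hK KK2 ((hH (by omega)).trans hK1) hx (by simpa using hH (a := 0) (by omega)) hK1 hL sys
    (fun t ht => ⟨hw.P_lo t ht, hw.P_hi t ht, hw.Q_bd t ht⟩)
    (by rw [mul_comm, ← div_div]; linarith) (by linarith) (by linarith [tm.1]) t1T al g2' g1'
    ((mul_le_mul_of_nonneg_right ex8 e1.le).trans g3')
  have KC : K1 ^ Cw ≤ K1 ^ C := pow_le_pow_right₀ K1one (by omega)
  have c0 : 1 ≤ K * x.c x.t0 := by simpa using hx.c_lo
  have c00 : 0 < x.c x.t0 := by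
    by_contra h
    nlinarith [not_lt.1 h]
  have tw : tn ∈ Icc (-τ) τ := ⟨by linarith [tm.1], tm.2⟩
  obtain ⟨dD, dO⟩ := nD tn tw
  rw [abs_of_pos c00] at dD
  obtain ⟨z1, z2⟩ := dsize (om := x.om x.t0) c00 a0 ps0 rfl g4 g5 n4 dD dO
    (by
      rw [hx.om_eq]
      exact le_add_of_nonneg_right (div_nonneg (sq_nonneg _) (sp.sys.pos _ t0m).le))
    (nf.hP tn tw)
  refine ⟨-τ + x.t0, tn + x.t0, Tn, Th, Fl, sp_mono w2 (by positivity) KC, by linarith, ?_,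
    w1.trans t1T, by linarith [tm.2], fun t ht => ?_, by linarith, ?_, z2, ?_⟩
  · have h := div_le_div_of_nonneg_left (by norm_num : (0 : ℝ) ≤ 2) (by positivity) KC
    linarith
  · have h1 : Th (-τ + x.t0) ≤ Real.exp (-(l / 2)) * Th (tn + x.t0) := by
      rw [Real.exp_neg, ← div_eq_inv_mul, le_div_iff₀ (Real.exp_pos _), mul_comm]
      exact g3'
    linarith [w4 t ht]
  · have h1 : K1 ≤ K1 ^ C := by simpa using pow_le_pow_right₀ K1one (show 1 ≤ C by omega)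
    have h2 : x.c x.t0 / 4 ≤ |D (tn + x.t0)| := by
      rw [abs_of_neg (by linarith)]; linarith
    calc (1 : ℝ) ≤ 4 * K * (x.c x.t0 / 4) := by linarith
      _ ≤ K1 ^ C * |D (tn + x.t0)| := mul_le_mul (K14.trans h1) h2 (by positivity) (by positivity)
  · have h1 : K ^ Ct * (-τ) ^ 2 * x.TH ≤ τ * x.TH := by
      refine mul_le_mul_of_nonneg_right ?_ TH0.le
      have h2 := mul_le_mul_of_nonneg_left (hτa (a := Ct) (by omega)) τ0.le
      calc K ^ Ct * (-τ) ^ 2 = τ * (τ * K ^ Ct) := by ring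
        _ ≤ τ := by simpa using h2
    have h3 : τ * x.TH ≤ 1 / K / 4 * x.TH := mul_le_mul_of_nonneg_right τK TH0.le
    have h4 : x.th 0 ≤ (1 - 1 / K) * x.TH := sp.drop
    have h5 : 1 / K / 2 * x.TH ≤ x.th (-τ + x.t0) - x.th 0 := by
      have h6 := (mul_pos iK TH0).le
      have h7 := u2.trans (h1.trans h3)
      clear * - h4 h6 h7
      linarith
    calc x.TH = 2 * K * (1 / K / 2 * x.TH) := by field_simp
      _ ≤ 2 * K * (x.th (-τ + x.t0) - x.th 0) := mul_le_mul_of_nonneg_left h5 (by positivity)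

end Pool.Agent.Lib.MP_fbbbeb_an.D
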