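import Mathlib
import Pool.Agent.Lib.MP_fbbbeb_an.D.SDefs

/-! The old solution near its turning point. -/

set_option autoImplicit false

namespace Pool.Agent.Lib.MP_fbbbeb_an.D

open Set Pool.Agent.Lib.MP_fbbbeb_an.Ric

namespace Turn

theorem core {τ K H : ℝ} {g F p q : ℝ → ℝ} (hK : 2 ≤ K) (hH : 0 < H) (hτ : τ * K ^ 4 ≤ 1)
    (dg : ∀ v ∈ Icc 0 τ, HasDerivAt g (F v / p v) v) (dF : ∀ v ∈ Icc 0 τ, HasDerivAt F (q v * g v) v)
    (F0 : F 0 = 0) (g0 : g 0 = H) (p1 : ∀ v ∈ Icc 0 τ, 1 ≤ K * p v) (p2 : ∀ v ∈ Icc 0 τ, p v ≤ K)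
    (q1 : ∀ v ∈ Icc 0 τ, -K ≤ q v) (q2 : ∀ v ∈ Icc 0 τ, 2 * K ^ 2 * q v ≤ -1)
    (fb : ∀ v ∈ Icc 0 τ, |F v| ≤ K ^ 2 * H) : ∀ v ∈ Icc 0 τ,
    v ^ 2 * H ≤ 8 * K ^ 3 * (H - g v) ∧ H - g v ≤ K ^ 2 * v ^ 2 * H ∧
      v * H ≤ 4 * K ^ 2 * -F v ∧ -F v ≤ 2 * K * v * H := by
  have K0 : 0 < K := by linarith
  have pp : ∀ v ∈ Icc 0 τ, 0 < p v := fun v hv => by
    have := p1 v hv
    by_contra h
    nlinarith [not_lt.1 h]
  have dq : ∀ v ∈ Icc 0 τ, |F v / p v| ≤ K ^ 3 * H := fun v hv => by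
    rw [abs_div, abs_of_pos (pp v hv), div_le_iff₀ (pp v hv)]
    have := mul_le_mul_of_nonneg_left (p1 v hv) (show 0 ≤ K ^ 2 * H by positivity)
    nlinarith [fb v hv]
  have sm : ∀ v ∈ Icc 0 τ, K ^ 3 * H * v ≤ H / 2 := fun v hv => by
    have h1 : v * K ^ 4 ≤ 1 := (mul_le_mul_of_nonneg_right hv.2 (by positivity)).trans hτ
    have h2 : 0 ≤ K ^ 3 * v := mul_nonneg (by positivity) hv.1
    have h3 : K ^ 3 * v ≤ 1 / 2 := by nlinarith
    nlinarith
  have lo : ∀ v ∈ Icc 0 τ, H / 2 ≤ g v := fun v hv => by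
    have := le_of_deriv (g := fun v => g v + K ^ 3 * H * v) (fun v hv => (dg v hv).add (dmul _ v))
      (fun v hv => by linarith [(abs_le.1 (dq v (Ico_subset_Icc_self hv))).1]) v hv
    simp only [g0] at this
    linarith [sm v hv]
  have hi : ∀ v ∈ Icc 0 τ, g v ≤ 2 * H := fun v hv => by
    have := le_of_deriv (g := fun v => K ^ 3 * H * v - g v) (fun v hv => (dmul _ v).sub (dg v hv))
      (fun v hv => by linarith [(abs_le.1 (dq v (Ico_subset_Icc_self hv))).2]) v hv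
    simp only [g0] at this
    linarith [sm v hv]
  have A : ∀ v ∈ Icc 0 τ, v * H ≤ 4 * K ^ 2 * -F v := fun v hv => by
    have := le_of_deriv (g := fun v => -(4 * K ^ 2) * F v - H * v)
      (fun v hv => ((dF v hv).const_mul _).sub (dmul _ v))
      (fun v hv => by
        have hv' := Ico_subset_Icc_self hv
        nlinarith [q2 v hv', lo v hv']) v hv
    simp only [F0] at this
    linarith
  have B : ∀ v ∈ Icc 0 τ, -F v ≤ 2 * K * v * H := fun v hv => by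
    have := le_of_deriv (g := fun v => F v + 2 * K * H * v)
      (fun v hv => (dF v hv).add (dmul _ v))
      (fun v hv => by
        have hv' := Ico_subset_Icc_self hv
        nlinarith [q1 v hv', lo v hv', hi v hv']) v hv
    simp only [F0] at this
    linarith
  have Fn : ∀ v ∈ Icc 0 τ, 0 ≤ -F v := fun v hv => by
    have h1 := (mul_nonneg hv.1 hH.le).trans (A v hv)
    exact le_of_mul_le_mul_left ((mul_zero _).trans_le h1) (by positivity)
  intro v hv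
  refine ⟨?_, ?_, A v hv, B v hv⟩
  · have := le_of_deriv (g := fun v => -(8 * K ^ 3) * g v - H * v ^ 2)
      (fun v hv => ((dg v hv).const_mul _).sub (dsq _ v))
      (fun v hv => by
        have hv' := Ico_subset_Icc_self hv
        have h1 : -F v ≤ K * (-F v / p v) := by
          rw [← mul_div_assoc, le_div_iff₀ (pp v hv')]
          nlinarith [Fn v hv', p2 v hv']
        have h2 := mul_le_mul_of_nonneg_left h1 (show 0 ≤ 8 * K ^ 2 by positivity)
        rw [neg_div] at h2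
        nlinarith [A v hv']) v hv
    simp only [g0] at this
    linarith
  · have := le_of_deriv (g := fun v => K ^ 2 * H * v ^ 2 + g v)
      (fun v hv => (dsq _ v).add (dg v hv))
      (fun v hv => by
        have hv' := Ico_subset_Icc_self hv
        have h1 : -F v / p v ≤ K * -F v := by
          rw [div_le_iff₀ (pp v hv')]
          nlinarith [Fn v hv', p1 v hv']
        have h2 := mul_le_mul_of_nonneg_left (B v hv') K0.le
        rw [neg_div] at h1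
        nlinarith) v hv
    simp only [g0] at this
    linarith

theorem t0_mem {K T t0 : ℝ} {p q th f : ℝ → ℝ} (h : Sp K T t0 p q th f) (hK : 2 ≤ K) {u : ℝ}
    (hu : |u| * K ≤ 1) : u + t0 ∈ Icc 0 T := by
  have K0 : 0 < K := by linarith
  have h1 : |u| ≤ 1 / K := by rwa [le_div_iff₀ K0]
  have h2 : 1 / K ≤ t0 := by rw [div_le_iff₀ K0]; linarith [h.t_lo]
  have := abs_le.1 h1
  exact ⟨by linarith, by linarith [h.t_hi]⟩

theorem q_neg {x : Dat} {K ε ψ S : ℝ} (h : x.Ok K ε ψ S) (hK : 2 ≤ K) (he : ε * K ^ 6 ≤ 1) {u : ℝ}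
    (hu : |u| * K ^ 6 ≤ 1) : 2 * K ^ 2 * x.q (u + x.t0) ≤ -1 := by
  have K0 : 0 < K := by linarith
  have k5 : (32 : ℝ) ≤ K ^ 5 := by linarith [pow_le_pow_left₀ (by norm_num) hK 5]
  have k2 : (4 : ℝ) ≤ K ^ 2 := by nlinarith
  have u0 := abs_nonneg u
  have m1 := t0_mem h.sp hK (u := u) (by nlinarith [mul_nonneg u0 K0.le])
  have m0 := t0_mem h.sp hK (u := 0) (by simp)
  rw [zero_add] at m0
  have a := abs_le.1 (h.q_eq _ m1)
  have e0 : 0 ≤ ε := (abs_nonneg _).trans (h.q_eq _ m1)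
  have b := h.ld.2 _ m0 _ m1
  rw [add_sub_cancel_right] at b
  have c : |x.m * (x.d (u + x.t0) - x.d x.t0)| ≤ K * (K * |u|) := by
    rw [abs_mul]; exact mul_le_mul h.m_hi b (abs_nonneg _) K0.le
  have d : 1 ≤ K ^ 2 * (x.m * x.d x.t0) := by
    rw [← abs_of_pos h.md, abs_mul]
    nlinarith [mul_le_mul h.m_lo h.d_lo zero_le_one (zero_le_one.trans h.m_lo)]
  have c1 := mul_le_mul_of_nonneg_left (abs_le.1 c).1 (show 0 ≤ K ^ 2 by positivity)
  have a1 := mul_le_mul_of_nonneg_left a.2 (show 0 ≤ K ^ 2 by positivity)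
  have s1 : |u| * K ^ 4 ≤ 1 / 4 := by nlinarith [mul_nonneg u0 (show 0 ≤ K ^ 4 by positivity)]
  have s2 : ε * K ^ 2 ≤ 1 / 4 := by
    have : (4 : ℝ) ≤ K ^ 4 := by nlinarith
    nlinarith [mul_nonneg e0 (show 0 ≤ K ^ 2 by positivity)]
  nlinarith

theorem side {x : Dat} {K ε ψ S τ σ : ℝ} (h : x.Ok K ε ψ S) (hK : 2 ≤ K) (he : ε * K ^ 6 ≤ 1)
    (hτ : τ * K ^ 6 ≤ 1) (hσ : σ = 1 ∨ σ = -1) : ∀ v ∈ Icc 0 τ,
    v ^ 2 * x.TH ≤ 8 * K ^ 3 * (x.TH - x.th (σ * v + x.t0)) ∧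
      x.TH - x.th (σ * v + x.t0) ≤ K ^ 2 * v ^ 2 * x.TH ∧
      v * x.TH ≤ 4 * K ^ 2 * -(σ * x.f (σ * v + x.t0)) ∧ -(σ * x.f (σ * v + x.t0)) ≤ 2 * K * v * x.TH := by
  intro v hv
  have K0 : 0 < K := by linarith
  have K1 : 1 ≤ K := by linarith
  have t0 : 0 ≤ τ := hv.1.trans hv.2
  have s1 : |σ| = 1 := by rcases hσ with rfl | rfl <;> simp
  have s2 : σ * σ = 1 := by rcases hσ with rfl | rfl <;> simp
  have ab : ∀ v ∈ Icc 0 τ, |σ * v| * K ^ 6 ≤ 1 := fun v hv => by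
    rw [abs_mul, s1, one_mul, abs_of_nonneg hv.1]
    exact (mul_le_mul_of_nonneg_right hv.2 (by positivity)).trans hτ
  have mem : ∀ v ∈ Icc 0 τ, σ * v + x.t0 ∈ Icc 0 x.T := fun v hv =>
    t0_mem h.sp hK ((mul_le_mul_of_nonneg_left (le_self_pow₀ K1 (by norm_num)) (abs_nonneg _)).trans (ab v hv))
  have m0 := t0_mem h.sp hK (u := 0) (by simp)
  rw [zero_add] at m0
  have dl : ∀ v, HasDerivAt (fun v => σ * v + x.t0) σ v := fun v => (dmul σ v).add_const _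
  refine core (g := fun v => x.th (σ * v + x.t0)) (F := fun v => σ * x.f (σ * v + x.t0))
    (p := fun v => x.p (σ * v + x.t0)) (q := fun v => x.q (σ * v + x.t0)) hK (h.sp.pos _ m0)
    ((mul_le_mul_of_nonneg_left (pow_le_pow_right₀ K1 (by norm_num)) t0).trans hτ)
    (fun v hv => ((h.sp.sys.dTh _ (mem v hv)).comp v (dl v)).congr_deriv (by ring))
    (fun v hv => (((h.sp.sys.dFl _ (mem v hv)).comp v (dl v)).const_mul σ).congr_deriv
      (by linear_combination (x.q (σ * v + x.t0) * x.th (σ * v + x.t0)) * s2))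
    (by simp [h.sp.f_zero]) (by simp) (fun v hv => h.sp.p_lo _ (mem v hv))
    (fun v hv => h.sp.p_hi _ (mem v hv)) (fun v hv => (abs_le.1 (h.sp.q_bd _ (mem v hv))).1)
    (fun v hv => q_neg h hK he (ab v hv)) (fun v hv => ?_) v hv
  rw [abs_mul, s1, one_mul]
  have := mul_le_mul_of_nonneg_left (h.sp.top _ (mem v hv)) K0.le
  have := h.sp.f_bd _ (mem v hv)
  nlinarith

end Turn

theorem turnSt : TurnSt := by
  refine ⟨6, fun x K ε ψ S τ hK h he hτ u hu => ?_⟩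
  have K0 : 0 < K := by linarith
  have K1 : 1 ≤ K := by linarith
  have m0 := Turn.t0_mem h.sp hK (u := 0) (by simp)
  rw [zero_add] at m0
  have H0 : 0 < x.TH := h.sp.pos _ m0
  obtain ⟨σ, hσ, e, s1⟩ : ∃ σ : ℝ, (σ = 1 ∨ σ = -1) ∧ σ * |u| = u ∧ |σ| = 1 := by
    rcases le_total 0 u with h | h
    · exact ⟨1, .inl rfl, by rw [abs_of_nonneg h, one_mul], by simp⟩
    · exact ⟨-1, .inr rfl, by rw [abs_of_nonpos h]; ring, by simp⟩
  obtain ⟨a, b, c, d⟩ := Turn.side h hK he hτ hσ |u| ⟨abs_nonneg _, abs_le.2 hu⟩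
  rw [e] at a b c d
  rw [sq_abs] at a b
  have u0 := abs_nonneg u
  have k3 : 8 * K ^ 3 ≤ K ^ 6 := by nlinarith [pow_le_pow_left₀ (by norm_num) hK 3, pow_pos K0 3]
  have k2 : K ^ 2 ≤ K ^ 3 := pow_le_pow_right₀ K1 (by norm_num)
  have k1 : K ≤ K ^ 2 := le_self_pow₀ K1 (by norm_num)
  have w : 0 ≤ u ^ 2 * x.TH := by positivity
  have fn : 0 ≤ -(σ * x.f (u + x.t0)) :=
    le_of_mul_le_mul_left (((mul_zero _).trans_le (mul_nonneg u0 H0.le)).trans c) (by positivity)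
  refine ⟨?_, ?_, ?_, ?_⟩
  · have : 0 ≤ x.TH - x.th (u + x.t0) :=
      le_of_mul_le_mul_left (((mul_zero _).trans_le w).trans a) (by positivity)
    nlinarith
  · nlinarith
  · have e2 : -u * x.f (u + x.t0) = |u| * -(σ * x.f (u + x.t0)) := by
      linear_combination (x.f (u + x.t0)) * e
    have c2 := mul_le_mul_of_nonneg_left c u0
    have z := mul_nonneg u0 fn
    rw [e2, ← sq_abs u]
    nlinarith
  · have e3 : |x.f (u + x.t0)| = -(σ * x.f (u + x.t0)) := by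
      rw [← abs_of_nonneg fn, abs_neg, abs_mul, s1, one_mul]
    rw [e3]
    nlinarith [mul_nonneg u0 H0.le]

end Pool.Agent.Lib.MP_fbbbeb_an.D
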