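import Pool.Agent.Lib.MP_fbbbeb_an.D.SAli
import Pool.Agent.Lib.MP_fbbbeb_an.D.STurn
import Pool.Agent.Lib.MP_fbbbeb_an.D.SNf
import Pool.Agent.Lib.MP_fbbbeb_an.D.SEnt
import Pool.Agent.Lib.MP_fbbbeb_an.D.SNew
import Pool.Agent.Lib.MP_fbbbeb_an.D.SNeg
import Pool.Agent.Lib.MP_fbbbeb_an.D.SStepG
import Pool.Agent.Lib.MP_fbbbeb_an.D.SStepA
import Pool.Agent.Lib.MP_fbbbeb_an.D.SFirst
import Pool.Agent.Lib.MP_fbbbeb_an.D.MPrep
import Pool.Agent.Lib.MP_fbbbeb_an.D.MWav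
import Pool.Agent.Lib.MP_fbbbeb_an.D.MFin
import Pool.Agent.Lib.MP_fbbbeb_an.D.MMul
import Pool.Agent.Lib.MP_fbbbeb_an.D.MExt
import Pool.Agent.Lib.MP_fbbbeb_an.D.MPrp
import Pool.Agent.Lib.MP_fbbbeb_an.D.MNear
import Pool.Agent.Lib.MP_fbbbeb_an.D.MNw
import Pool.Agent.Lib.MP_fbbbeb_an.D.MG
import Pool.Agent.Lib.MP_fbbbeb_an.D.MA
import Pool.Agent.Lib.MP_fbbbeb_an.D.MFirstPack
import Pool.Agent.Lib.MP_fbbbeb_an.D.MStart
import Pool.Agent.Lib.MP_fbbbeb_an.D.MCyc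
import Pool.Agent.Lib.MP_fbbbeb_an.D.Ode

/-! The ODE cascade. -/

set_option autoImplicit false

namespace Pool.Agent.Lib.MP_fbbbeb_an.D

open Pool.Agent.Lib.MP_fbbbeb_an.Cas

theorem odeSt0 : OdeSt :=
  odeSt (startKSt (firstPackSt ext0St firstSt) (finLev prepSt wavSt) prpLevSt prpNearSt nearSt)
    (cycKSt mulSt extSt (mgSt (nwSt mulSt) (stepGSt aliSt turnSt (nfSt turnSt) (entSt turnSt) newSt))
      (finLev prepSt wavSt)
      (maSt mulSt (nwSt mulSt)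
        (stepASt aliSt turnSt (nfSt turnSt) (entSt turnSt) newSt (negSt turnSt)))
      (insWSt prpLevSt prpNearSt nearSt))

end Pool.Agent.Lib.MP_fbbbeb_an.D
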