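import Pool.Agent.Lib.MP_fbbbeb_an.D.Prp

/-! The aligned regime: the new scalar system follows the old one. -/

namespace Pool.Agent.Lib.MP_fbbbeb_an.D.Ali

open Set Filter Topology

/-- `W = (L - th) Th` and `m^2 Fl / (L - th) - f Th` stay close to `th` and `f` -/
theorem core {K R e η s a m L : ℝ} {p q th f P Q Th Fl : ℝ → ℝ} (K1 : 1 ≤ K) (R1 : 1 ≤ R)
    (s0 : 0 < s) (sK : s ≤ K) (a0 : 0 < a) (ha : ∀ t ∈ Ioc 0 s, a ≤ th t)
    (d1 : ∀ t ∈ Ioc 0 s, HasDerivAt th (f t / p t) t)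
    (d2 : ∀ t ∈ Ioc 0 s, HasDerivAt f (q t * th t) t)
    (hp : ∀ t ∈ Ioc 0 s, 1 / K ≤ p t) (hf : ∀ t ∈ Ioc 0 s, |f t| ≤ K * th t)
    (hm : ∀ u t, 0 < u → u ≤ t → t ≤ s → th u ≤ K * th t)
    (hD : ∀ t ∈ Ioc 0 s, th t < L) (hR : ∀ t ∈ Ioc 0 s, |f t| ≤ R * (L - th t)) (m0 : m ≠ 0)
    (D1 : ∀ t ∈ Ioc 0 s, HasDerivAt Th (Fl t / P t) t)
    (D2 : ∀ t ∈ Ioc 0 s, HasDerivAt Fl (Q t * Th t) t)
    (P0 : ∀ t ∈ Ioc 0 s, 0 < P t)
    (hP : ∀ t ∈ Ioc 0 s, |p t * (L - th t) ^ 2 / m ^ 2 - P t| ≤ e * P t)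
    (hQ : ∀ t ∈ Ioc 0 s, |m ^ 2 * Q t - q t * L * (L - th t)| ≤ e * (L - th t) ^ 2)
    (z1 : Tendsto (fun t => (L - th t) * Th t - th t) (𝓝[>] 0) (𝓝 0))
    (z2 : Tendsto (fun t => m ^ 2 * Fl t / (L - th t) - f t * Th t - f t) (𝓝[>] 0) (𝓝 0))
    (he : 100 * K ^ 9 * R ^ 2 * e ≤ η) (η1 : η ≤ 1) :
    ∀ t ∈ Ioc 0 s, |(L - th t) * Th t - th t| ≤ η * th t ∧
      |m ^ 2 * Fl t / (L - th t) - f t * Th t - f t| ≤ η * th t := by
  have K0 : 0 < K := one_pos.trans_le K1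
  have p0 : ∀ t ∈ Ioc 0 s, 0 < p t := fun t h => (by positivity : 0 < 1 / K).trans_le (hp t h)
  have h0 : ∀ t ∈ Ioc 0 s, 0 < th t := fun t h => a0.trans_le (ha t h)
  have l0 : ∀ t ∈ Ioc 0 s, 0 < L - th t := fun t h => sub_pos.2 (hD t h)
  have ms : s ∈ Ioc 0 s := ⟨s0, le_rfl⟩
  have e0 : 0 ≤ e := nonneg_of_mul_nonneg_left ((abs_nonneg _).trans (hP s ms)) (P0 s ms)
  have m2 : 0 < m ^ 2 := by positivity
  set y1 : ℝ → ℝ := fun t => (L - th t) * Th t - th t with hy1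
  set y2 : ℝ → ℝ := fun t => m ^ 2 * Fl t / (L - th t) - f t * Th t - f t with hy2
  set x : ℝ → ℝ := fun t => (p t * (L - th t) ^ 2 / m ^ 2 - P t) / P t with hx
  set g1 : ℝ → ℝ := fun t => (y2 t + f t + f t / (L - th t) * (y1 t + th t)) / p t * x t with hg1
  set g2 : ℝ → ℝ := fun t => (m ^ 2 * Q t - q t * L * (L - th t)) / (L - th t) ^ 2 * (y1 t + th t)
    - f t / (L - th t) * g1 t with hg2
  have E1 : ∀ t ∈ Ioc 0 s, HasDerivAt y1 (y2 t / p t + g1 t) t := fun t h => by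
    have := p0 t h; have := l0 t h; have := P0 t h
    refine ((((d1 t h).const_sub L).fun_mul (D1 t h)).fun_sub (d1 t h)).congr_deriv ?_
    simp only [hy1, hy2, hx, hg1]
    field_simp
    ring
  have E2 : ∀ t ∈ Ioc 0 s, HasDerivAt y2 (q t * y1 t + g2 t) t := fun t h => by
    have := p0 t h; have := l0 t h; have := P0 t h
    refine ((((((D2 t h).const_mul (m ^ 2)).fun_div ((d1 t h).const_sub L) (l0 t h).ne')).fun_sub
      ((d2 t h).fun_mul (D1 t h))).fun_sub (d2 t h)).congr_deriv ?_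
    simp only [hy1, hy2, hx, hg1, hg2]
    field_simp
    ring
  obtain ⟨C1, hC1⟩ := bdd0 (fun t ht => (E1 t ht).continuousAt) z1
  obtain ⟨C2, hC2⟩ := bdd0 (fun t ht => (E2 t ht).continuousAt) z2
  have bd : BddAbove ((fun t => (|y1 t| + |y2 t|) / th t) '' Ioc 0 s) := ⟨(C1 + C2) / a, by
    rintro _ ⟨t, ht, rfl⟩
    have k := add_le_add (hC1 t ht) (hC2 t ht)
    exact div_le_div₀ (le_trans (by positivity) k) k a0 (ha t ht)⟩
  set S := sSup ((fun t => (|y1 t| + |y2 t|) / th t) '' Ioc 0 s) with hS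
  have s1 : ∀ t ∈ Ioc 0 s, |y1 t| + |y2 t| ≤ S * th t := fun t ht =>
    (div_le_iff₀ (h0 t ht)).1 (le_csSup bd ⟨t, ht, rfl⟩)
  have S0 : 0 ≤ S := nonneg_of_mul_nonneg_left (le_trans (by positivity) (s1 s ms)) (h0 s ms)
  have bb : ∀ t ∈ Ioc 0 s, |g1 t| ≤ 3 * e * K * R ^ 2 * (S + K) * th t ∧
      |g2 t| ≤ 3 * e * K * R ^ 2 * (S + K) * th t := fun t h => by
    have t0 := h0 t h
    have u0 : 0 ≤ (S + K) * th t := by positivity
    have u1 : |y1 t + th t| ≤ (S + K) * th t := by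
      have := abs_add_le (y1 t) (th t)
      rw [abs_of_pos t0] at this
      nlinarith [s1 t h, abs_nonneg (y2 t)]
    have u2 : |y2 t + f t| ≤ (S + K) * th t := by
      nlinarith [s1 t h, abs_nonneg (y1 t), abs_add_le (y2 t) (f t), hf t h]
    have u3 : |f t / (L - th t)| ≤ R := by
      rw [abs_div, abs_of_pos (l0 t h), div_le_iff₀ (l0 t h)]; exact hR t h
    have u4 : |x t| ≤ e := by
      simp only [hx]; rw [abs_div, abs_of_pos (P0 t h), div_le_iff₀ (P0 t h)]; exact hP t h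
    have u5 : |(m ^ 2 * Q t - q t * L * (L - th t)) / (L - th t) ^ 2| ≤ e := by
      have := pow_pos (l0 t h) 2
      rw [abs_div, abs_of_pos this, div_le_iff₀ this]; exact hQ t h
    have u6 : |y2 t + f t + f t / (L - th t) * (y1 t + th t)| ≤ 2 * R * ((S + K) * th t) := by
      refine (abs_add_le _ _).trans ?_
      rw [abs_mul]
      nlinarith [mul_le_mul u3 u1 (abs_nonneg _) (by linarith)]
    have u7 : |g1 t| ≤ 2 * R * ((S + K) * th t) * K * e := by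
      simp only [hg1]
      rw [abs_mul, abs_div, abs_of_pos (p0 t h)]
      refine mul_le_mul ?_ u4 (abs_nonneg _) (by positivity)
      rw [div_le_iff₀ (p0 t h)]
      have : 1 ≤ K * p t := by have := hp t h; rwa [div_le_iff₀' K0] at this
      refine u6.trans ?_
      rw [mul_assoc (2 * R * _)]
      exact le_mul_of_one_le_right (by positivity) this
    have u8 : |g2 t| ≤ e * ((S + K) * th t) + R * (2 * R * ((S + K) * th t) * K * e) := by
      simp only [hg2]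
      refine (abs_sub _ _).trans ?_
      rw [abs_mul, abs_mul (f t / _)]
      exact add_le_add (mul_le_mul u5 u1 (abs_nonneg _) e0) (mul_le_mul u3 u7 (abs_nonneg _) (by linarith))
    have v0 : 0 ≤ e * ((S + K) * th t) := by positivity
    have v1 : 1 ≤ K * R ^ 2 := one_le_mul_of_one_le_of_one_le K1 (one_le_pow₀ R1)
    have v2 : K * R ≤ K * R ^ 2 := by nlinarith [mul_pos K0 (one_pos.trans_le R1)]
    constructor
    · nlinarith [mul_le_mul_of_nonneg_left v2 v0, mul_le_mul_of_nonneg_left v1 v0]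
    · nlinarith [mul_le_mul_of_nonneg_left v1 v0]
  have s2 : S ≤ 8 * K ^ 7 * (3 * e * K * R ^ 2 * (S + K)) := by
    refine csSup_le ⟨_, s, ms, rfl⟩ ?_
    rintro _ ⟨t, ht, rfl⟩
    have mm : ∀ u ∈ Ioc 0 t, u ∈ Ioc 0 s := fun u hu => ⟨hu.1, hu.2.trans ht.2⟩
    obtain ⟨k1, k2⟩ := d1_scalar (c := 3 * e * K * R ^ 2 * (S + K)) K1 ht.1 (ht.2.trans sK) a0
      (fun u hu => ha u (mm u hu)) (fun u hu => d1 u (mm u hu)) (fun u hu => d2 u (mm u hu))
      (fun u hu => hp u (mm u hu)) (fun u hu => hf u (mm u hu))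
      (fun u v h1 h2 h3 => hm u v h1 h2 (h3.trans ht.2)) (fun u hu => E1 u (mm u hu))
      (fun u hu => E2 u (mm u hu)) z1 z2 (fun u hu => (bb u (mm u hu)).1) fun u hu => (bb u (mm u hu)).2
    refine (div_le_iff₀ (h0 t ht)).2 ?_
    have w0 : 0 ≤ K ^ 6 * (3 * e * K * R ^ 2 * (S + K)) * th t := by have := h0 t ht; positivity
    nlinarith [mul_le_mul_of_nonneg_left K1 w0]
  have s3 : S ≤ η := by
    have w0 : 0 ≤ K ^ 8 * R ^ 2 * e := by positivity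
    have w1 : K ^ 8 * R ^ 2 * e * K ≤ η / 100 := by nlinarith
    have w2 : K ^ 8 * R ^ 2 * e ≤ 1 / 100 := by nlinarith [mul_le_mul_of_nonneg_left K1 w0]
    have w3 : S ≤ 24 * (K ^ 8 * R ^ 2 * e * S) + 24 * (K ^ 8 * R ^ 2 * e * K) := s2.trans_eq (by ring)
    nlinarith [mul_le_mul_of_nonneg_right w2 S0, mul_nonneg w0 K0.le]
  intro t h
  have := (s1 t h).trans (mul_le_mul_of_nonneg_right s3 (h0 t h).le)
  exact ⟨(le_add_of_nonneg_right (abs_nonneg _)).trans this, (le_add_of_nonneg_left (abs_nonneg _)).trans this⟩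

/-- the two limits at `0+` from the initial values -/
lemma lim {m L th0 f0 : ℝ} {th f Th Fl : ℝ → ℝ} (m0 : m ≠ 0) (hL : th0 < L)
    (h1 : Tendsto th (𝓝[>] 0) (𝓝 th0)) (h2 : Tendsto f (𝓝[>] 0) (𝓝 f0))
    (h3 : Tendsto Th (𝓝[>] 0) (𝓝 (th0 / (L - th0))))
    (h4 : Tendsto Fl (𝓝[>] 0) (𝓝 (f0 * L / m ^ 2))) :
    Tendsto (fun t => (L - th t) * Th t - th t) (𝓝[>] 0) (𝓝 0) ∧
      Tendsto (fun t => m ^ 2 * Fl t / (L - th t) - f t * Th t - f t) (𝓝[>] 0) (𝓝 0) := by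
  have l0 : L - th0 ≠ 0 := (sub_pos.2 hL).ne'
  have k : Tendsto (fun t => L - th t) (𝓝[>] 0) (𝓝 (L - th0)) := h1.const_sub L
  constructor
  · convert (k.mul h3).sub h1 using 2
    field_simp
    ring
  · have := (((h4.const_mul (m ^ 2)).div k l0).sub (h2.mul h3)).sub h2
    rwa [show m ^ 2 * (f0 * L / m ^ 2) / (L - th0) - f0 * (th0 / (L - th0)) - f0 = 0 by
      field_simp; ring] at this

/-- pointwise consequences of `core` -/
lemma out {K η m Dl th f Th Fl : ℝ} (m0 : m ≠ 0) (D0 : 0 < Dl) (t0 : 0 < th) (η1 : η ≤ 1 / 2)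
    (hf : |f| ≤ K * th) (h1 : |Dl * Th - th| ≤ η * th) (h2 : |m ^ 2 * Fl / Dl - f * Th - f| ≤ η * th) :
    0 < Th ∧ th / 2 ≤ Dl * Th ∧ Dl * Th ≤ 2 * th ∧
      m ^ 2 * |Fl| ≤ Dl * (K * th + (2 * K + 1) * Dl) * Th ∧
      (η * th ≤ f → Dl * f * Th ≤ m ^ 2 * Fl) := by
  obtain ⟨a1, a2⟩ := abs_le.1 h1
  have b1 : th / 2 ≤ Dl * Th := by nlinarith
  have T0 : 0 < Th := (mul_pos_iff_of_pos_left D0).1 (by linarith)
  have K0 : 0 ≤ K := nonneg_of_mul_nonneg_left ((abs_nonneg _).trans hf) t0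
  refine ⟨T0, b1, by nlinarith, ?_, fun h => ?_⟩
  · have m2 : 0 < m ^ 2 := by positivity
    have c1 : |m ^ 2 * Fl / Dl| ≤ η * th + K * th * Th + K * th := by
      have e : m ^ 2 * Fl / Dl = (m ^ 2 * Fl / Dl - f * Th - f) + f * Th + f := by ring
      rw [e]
      refine (abs_add_le _ _).trans (add_le_add ((abs_add_le _ _).trans (add_le_add h2 ?_)) hf)
      rw [abs_mul, abs_of_pos T0]
      exact mul_le_mul_of_nonneg_right hf T0.le
    rw [abs_div, abs_mul, abs_of_pos m2, abs_of_pos D0, div_le_iff₀ D0] at c1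
    have c2 : η * th + K * th ≤ (2 * K + 1) * (Dl * Th) := by nlinarith
    nlinarith [mul_le_mul_of_nonneg_right c2 D0.le]
  · have c1 : f * Th ≤ m ^ 2 * Fl / Dl := by linarith [(abs_le.1 h2).1]
    rw [le_div_iff₀ D0] at c1
    linarith

end Pool.Agent.Lib.MP_fbbbeb_an.D.Ali
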