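import Mathlib
import Pool.Agent.Lib.MP_fbbbeb_an.D.Mono
import Pool.Agent.Lib.MP_fbbbeb_an.Cas.Prp

/-! One inserted wave: a priori bound for the true curve and closeness to the ideal new curve. -/

set_option autoImplicit false

noncomputable section

namespace Pool.Agent.Lib.MP_fbbbeb_an.D

open Set Pool.Agent.Lib.MP_fbbbeb_an.Pub Pool.Agent.Lib.MP_fbbbeb_an.Cas
open scoped RealInnerProductSpace

theorem pk {K : ℝ} (h : 1 ≤ K) {a b : ℕ} (hab : a ≤ b) : K ^ a ≤ K ^ b := pow_le_pow_right₀ h hab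

theorem pk1 {K : ℝ} (h : 1 ≤ K) {b : ℕ} (hb : 1 ≤ b) : K ≤ K ^ b := by simpa using pk h hb

theorem sm {K ε : ℝ} {a C : ℕ} (h1 : 1 ≤ K) (he : 0 ≤ ε) (h : ε * K ^ C ≤ 1) (hab : a ≤ C) :
    ε * K ^ a ≤ 1 := (mul_le_mul_of_nonneg_left (pk h1 hab) he).trans h

theorem wave_mono {T ε ε' : ℝ} {w : ℝ → ℝ} {F : Cv L3} {k p : E} {η : Cv E}
    (h : Wave T ε w F k p η) (he : ε ≤ ε') (hw : ∀ t ∈ Ioo 0 T, 0 ≤ w t) : Wave T ε' w F k p η := by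
  obtain ⟨a, b, s, e, e1, c⟩ := h
  refine ⟨a, b, s, e, e1, fun t ht => ?_⟩
  obtain ⟨c1, c2, c3, c4, c5⟩ := c t ht
  have := mul_le_mul_of_nonneg_right he (hw t ht)
  exact ⟨c1, c2, c3, c4.trans this, c5.trans this⟩

theorem near_mono {T ε ε' : ℝ} {F G : Cv L3} (h : F.Near T ε G) (he : ε ≤ ε') : F.Near T ε' G :=
  fun t ht => ⟨(h t ht).1.trans he, (h t ht).2.1.trans he, (h t ht).2.2.trans he⟩

def InsWSt : Prop := ∃ C : ℕ, 1 ≤ C ∧ ∀ (K K1 ε δ ψ S T T' t0 amin : ℝ) (G F : Cv L3) (B : L3)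
  (τ k ν p : E) (th f w : ℝ → ℝ) (ηi : Cv E), 2 ≤ K → K ≤ K1 →
  Lev K ε ψ S T t0 G B τ th f k ν p ηi → th t0 ≤ K1 → T' ≤ T → ε ≤ δ → δ * K1 ^ C ≤ 1 →
  0 < amin → (∀ t ∈ Ioo 0 T', amin ≤ w t ∧ w t ≤ K1 ∧ th t ≤ K1 * (w t * th t0) ∧
    w t * th t0 ≤ K1 * th t) →
  (∀ t ∈ Ioo 0 T', ‖p‖ ≤ K1 ^ C * w t) ∧ (F.Ok T' → Cl T' K1 δ F G →
    Prp T' (fun t => Mop (F.f t) (F.f1 t) k) w (K1 ^ C) ∧
    ∀ η : Cv E, Wave T' δ w F k p η → ∀ Fn : Cv L3, Fn.Near T' δ (mulH F η k) →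
      Cl T' (K1 ^ C) (K1 ^ C * δ) Fn (mulH G ηi k))

theorem insWSt (hP : PrpLevSt) (hN : PrpNearSt) (hR : NearSt) : InsWSt := by
  obtain ⟨Cp, hP⟩ := hP
  obtain ⟨Cn, hN⟩ := hN
  obtain ⟨Cr, hR⟩ := hR
  refine ⟨(Cp + 2) * Cn + (Cp + 3) * Cr + (Cp + 3), by omega, ?_⟩
  intro K K1 ε δ ψ S T T' t0 amin G F B τ k ν p th f w ηi K2 KK h hT hT' he hd a0 hw
  have K0 : 0 < K := by linarith
  have K12 : 2 ≤ K1 := K2.trans KK
  have K11 : 1 ≤ K1 := by linarith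
  have K10 : 0 < K1 := by linarith
  have d0 : 0 ≤ δ := h.pack.crv.eps.trans he
  have H0 : 0 < th t0 := h.pack.sp.TH_pos K0
  have sub : ∀ t ∈ Ioo 0 T', t ∈ Icc 0 T := fun t ht => ⟨ht.1.le, ht.2.le.trans hT'⟩
  have w0 : ∀ t ∈ Ioo 0 T', 0 < w t := fun t ht => a0.trans_le (hw t ht).1
  have hth : ∀ t ∈ Ioo 0 T', th t ≤ K1 ^ 2 * w t := fun t ht => by
    have h1 := (hw t ht).2.2.1
    have h2 : K1 * (w t * th t0) ≤ K1 * (w t * K1) :=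
      mul_le_mul_of_nonneg_left (mul_le_mul_of_nonneg_left hT (w0 t ht).le) K10.le
    nlinarith
  refine ⟨fun t ht => ?_, fun hF hc => ?_⟩
  · have h1 := h.iw.bp t (sub t ht)
    have h2 : K * th t ≤ K1 * (K1 ^ 2 * w t) :=
      mul_le_mul KK (hth t ht) (h.pack.sp.pos t (sub t ht)).le K10.le
    have h3 : K1 ^ 3 * w t ≤ K1 ^ ((Cp + 2) * Cn + (Cp + 3) * Cr + (Cp + 3)) * w t :=
      mul_le_mul_of_nonneg_right (pk K11 (by omega)) (w0 t ht).le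
    nlinarith
  have p1 := ((hP K ε ψ T t0 G B τ k th f K2 h.pack h.frm.k_one h.frm.k_a h.frm.k_t).smul
    (th t0)⁻¹).mono hT' (pow_le_pow_left₀ K0.le KK Cp)
  have p2 := p1.comp (A' := w) (L := K1) (by positivity) K10.le w0
    (fun t ht => by
      rw [inv_mul_le_iff₀ H0]; have := (hw t ht).2.2.1; linarith)
    (fun t ht => by
      have := (hw t ht).2.2.2
      rw [mul_left_comm, ← div_eq_inv_mul, le_div_iff₀ H0]; exact this)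
  rw [← pow_add] at p2
  have e1 : K1 ≤ K1 ^ (Cp + 2) := pk1 K11 (by omega)
  have e2 : K1 ≤ K1 ^ (Cp + 3) := pk1 K11 (by omega)
  have p3 := hN (K1 ^ (Cp + 2)) δ T T' amin F G B k w (K12.trans e1)
    (h.pack.crv.monoK K0 (KK.trans e1) he) hT' p2 (hc.monoK le_rfl e1 le_rfl)
    (by rw [← pow_mul]; exact sm K11 d0 hd (by omega)) h.frm.k_one a0 fun t ht => (hw t ht).1
  have p4 : Prp T' (fun t => Mop (F.f t) (F.f1 t) k) w (K1 ^ (Cp + 3)) := p3.mono (by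
    rw [pow_succ K1 (Cp + 2)]
    have : 0 < K1 ^ (Cp + 2) := by positivity
    nlinarith)
  refine ⟨p4.mono (pk K11 (by omega)), fun η hη Fn hn => ?_⟩
  have r := hR (K1 ^ (Cp + 3)) δ T T' F G Fn B k p η ηi th w (K12.trans e2)
    (h.pack.crv.monoK K0 (KK.trans e2) he) (h.iw.monoK K0 (KK.trans e2)) hT'
    (fun t ht => ⟨(hth t ht).trans (mul_le_mul_of_nonneg_right (pk K11 (by omega)) (w0 t ht).le),
      (hw t ht).2.1.trans e2⟩) h.frm.k_one hF (hc.monoK le_rfl e2 le_rfl) p4 hη hn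
    (by rw [← pow_mul]; exact sm K11 d0 hd (by omega))
  rw [← pow_mul] at r
  exact r.monoK le_rfl (pk K11 (by omega)) (mul_le_mul_of_nonneg_right (pk K11 (by omega)) d0)

end Pool.Agent.Lib.MP_fbbbeb_an.D
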