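import Mathlib
import Pool.Agent.Lib.MP_fbbbeb_an.D.MIns

/-! One cycle of the ODE cascade. -/

set_option autoImplicit false

noncomputable section

namespace Pool.Agent.Lib.MP_fbbbeb_an.D

open Set Pool.Agent.Lib.MP_fbbbeb_an.Pub Pool.Agent.Lib.MP_fbbbeb_an.Cas
open scoped RealInnerProductSpace

/-- the growing level of a cycle -/
def StageG (C0 a : ℕ) : Prop := ∀ (K l ε0 ε T s0 : ℝ) (F : Cv L3), 100 ≤ l → ε0 * K ^ a ≤ 1 →
  ε * K ^ a ≤ 1 → F.Ok T → Rdy C0 K l ε0 T s0 F → Defect T ε F →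
  ∃ (F' : Cv L3) (B : L3) (ψ s t1 Tn : ℝ) (τ : E) (Th Fl : ℝ → ℝ), l ≤ K ∧ Same T F' F ∧
    Pack (K ^ a) ε ψ Tn t1 F' B τ Th Fl ∧ ψ ≤ 1 / 2000 ∧ s0 < s ∧ 0 < s ∧ s + 2 / K ^ a ≤ t1 ∧
    Tn ≤ T ∧ Tn - s ≤ 1 / l ∧ (∀ t ∈ Icc 0 s, Th t ≤ 4 * Real.exp (-(l / 2)) * Th t1) ∧
    l ≤ ‖F.f s‖

theorem stageG (hM : MulSt) (hE : ExtSt) {C0 : ℕ} (hG : MG C0) : ∃ a, 1 ≤ a ∧ StageG C0 a := by
  obtain ⟨Cm, hM⟩ := hM
  obtain ⟨Ce, hE⟩ := hE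
  obtain ⟨a1, e1⟩ : ∃ a, a = 2 * Cm + 1 := ⟨_, rfl⟩
  obtain ⟨a2, e2⟩ : ∃ a, a = a1 * Ce + 1 := ⟨_, rfl⟩
  refine ⟨a1 + a1 * Ce + a2 * C0 + 1, by omega, ?_⟩
  intro K l ε0 ε T s0 F hl h0 h1 hF hR hD
  obtain ⟨Ka, ψ, t0, Fa, B, τ, th, f, k, ν, p, η, r1, r2, r3, r4, r5, r6, r7, r8⟩ := hR
  have Ka0 : 0 < Ka := by linarith
  have K2 : 2 ≤ K := by linarith
  have K1 : 1 ≤ K := by linarith
  have K0 : 0 < K := by linarith
  have T0 := r7.pack.crv.T_pos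
  have z0 := r7.pack.crv.eps
  have z1 : 0 ≤ ε := (norm_nonneg _).trans (hD (T / 2) ⟨by linarith, by linarith⟩)
  have KK : K ≤ K ^ 2 := pk1 K1 (by omega)
  have c1 := hM (K ^ 2) ε0 T Fa B k p η th (K2.trans KK) (r7.pack.crv.monoK Ka0 (r2.trans KK) le_rfl)
    (r7.iw.monoK Ka0 (r2.trans KK)) (fun t ht => (r7.pack.sp.top t ht).trans (by
      rw [pow_two]; exact mul_le_mul r2 r4 (r7.pack.sp.TH_pos Ka0).le K0.le))
    r7.frm.k_one r7.frm.k_a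
  rw [← pow_mul] at c1
  have q1 : K ^ (2 * Cm) ≤ K ^ a1 := pk K1 (by omega)
  have q2 : K ≤ K ^ a1 := pk1 K1 (by omega)
  have q3 : ε0 ≤ K ^ a1 * ε0 := le_mul_of_one_le_left z0 (K1.trans q2)
  obtain ⟨F', B', s1, s2, s3⟩ := hE (K ^ a1) (K ^ a1 * ε0) ε T F (mulH Fa η k) (Bx B k p)
    (K2.trans q2) (c1.monoK (by positivity) q1 (mul_le_mul_of_nonneg_right q1 z0))
    (r8.monoK le_rfl q2 q3) hF hD (by
      rw [← pow_mul, mul_comm (K ^ a1), mul_assoc, ← pow_add]; exact sm K1 z0 h0 (by omega))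
  rw [← pow_mul] at s2
  have q4 : K ≤ K ^ a2 := pk1 K1 (by omega)
  have q5 : (K ^ a1 * ε0 + ε) * (K ^ a2) ^ C0 ≤ 1 := by
    have u1 : ε0 * K ^ (a1 + a2 * C0 + 1) ≤ 1 := sm K1 z0 h0 (by omega)
    have u2 : ε * K ^ (a2 * C0 + 1) ≤ 1 := sm K1 z1 h1 (by omega)
    rw [pow_succ, pow_add] at u1
    rw [pow_succ] at u2
    rw [← pow_mul]
    have v1 : 0 ≤ ε0 * (K ^ a1 * K ^ (a2 * C0)) := by positivity
    have v2 : 0 ≤ ε * K ^ (a2 * C0) := by positivity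
    nlinarith
  have z2 : 0 ≤ K ^ a1 * ε0 := by positivity
  obtain ⟨s, t1, Tn, τn, Th, Fl, g1, g2, g3, g4, g5, g6, g7⟩ := hG Ka (K ^ a2) (K ^ a1 * ε0 + ε)
    ε0 ε ψ l T t0 Fa F' B B' τ k ν p th f η (by linarith) r7 r3 (r4.trans q4)
    (s2.monoK (by positivity) (pk K1 (by omega)) le_rfl) (s3.monoK (by linarith)) (by linarith)
    (by linarith) q5 hl r5
  rw [← pow_mul] at g1 g3
  have q6 : K ^ (a2 * C0) ≤ K ^ (a1 + a1 * Ce + a2 * C0 + 1) := pk K1 (by omega)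
  have P0 : 0 < K ^ (a2 * C0) := by positivity
  have s0' : 0 < s := by linarith [r7.pack.sp.inv_le Ka0]
  have hs : s ∈ Ioo 0 T := by
    have : 0 < 2 / K ^ (a2 * C0) := by positivity
    exact ⟨s0', by linarith [g1.sp.t0_lt P0]⟩
  refine ⟨F', B', 3 * ψ, s, t1, Tn, τn, Th, Fl, r1.trans r2, s1, g1.monoK P0 q6 le_rfl, ?_,
    by linarith, s0', ?_, g4, g5.trans (one_div_le_one_div_of_le (by linarith) r1), g6, ?_⟩
  · have := r7.pack.psi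
    have : (10000 : ℝ) ≤ l ^ 2 := by nlinarith
    nlinarith
  · have := div_le_div_of_nonneg_left (by norm_num : (0 : ℝ) ≤ 2) P0 q6
    linarith
  · rw [← (s1 s hs).1]; exact r1.trans g7

theorem cycKSt (hM : MulSt) (hE : ExtSt) (hG : MGSt) (hF : FinSt) (hA : MASt) (hI : InsWSt) :
    CycKSt := by
  obtain ⟨C0, hG⟩ := hG
  obtain ⟨a, a1, hS⟩ := stageG hM hE hG
  obtain ⟨Cf, hF⟩ := hF
  obtain ⟨Ca, hA⟩ := hA
  obtain ⟨Ci, i1, hI⟩ := hI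
  obtain ⟨a4, e4⟩ : ∃ x, x = a * Cf + a := ⟨_, rfl⟩
  obtain ⟨a5, e5⟩ : ∃ x, x = a4 * Ca + a4 := ⟨_, rfl⟩
  obtain ⟨b1, f1⟩ : ∃ x, x = 3 * Ca + 1 := ⟨_, rfl⟩
  obtain ⟨b2, f2⟩ : ∃ x, x = b1 * Cf + b1 := ⟨_, rfl⟩
  obtain ⟨b3, f3⟩ : ∃ x, x = b2 * C0 + b2 := ⟨_, rfl⟩
  obtain ⟨C, c1, c2, c3, c4, c5, c6⟩ : ∃ C, a ≤ C ∧ a5 ≤ C ∧ a5 * Ci ≤ C ∧ b3 ≤ C ∧
      b1 + b3 * Ci ≤ C ∧ 3 * Ca ≤ C := ⟨a + a5 + a5 * Ci + b3 + b1 + b3 * Ci + 3 * Ca,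
    by omega, by omega, by omega, by omega, by omega, by omega⟩
  refine ⟨C0, C, ?_⟩
  intro K L l ε0 ε T s0 F hl hL h0 h1 hOk hR hD
  have lK : l ≤ K := by
    obtain ⟨Ka, _, _, _, _, _, _, _, _, _, _, _, r1, r2, _⟩ := hR
    exact r1.trans r2
  have K2 : 2 ≤ K := by linarith
  have K1 : 1 ≤ K := by linarith
  have K0 : 0 < K := by linarith
  have KL : ∀ n, n ≤ C → K ^ n ≤ L := fun n hn => (pk K1 hn).trans hL
  have L100 : 100 ≤ L := by have := KL 1 (by omega); rw [pow_one] at this; linarith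
  have L1 : 1 ≤ L := by linarith
  have L0 : 0 < L := by linarith
  have z0 : 0 ≤ ε0 := by
    obtain ⟨Ka, _, _, _, _, _, _, _, _, _, _, _, _, _, _, _, _, _, r7, _⟩ := hR
    exact r7.pack.crv.eps
  have z1 : 0 ≤ ε := by
    obtain ⟨Ka, _, _, _, _, _, _, _, _, _, _, _, _, _, _, _, _, _, r7, _⟩ := hR
    have T0 := r7.pack.crv.T_pos
    exact (norm_nonneg _).trans (hD (T / 2) ⟨by linarith, by linarith⟩)
  have eK : ∀ n, n ≤ C → ε * K ^ n ≤ 1 := fun n hn =>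
    (mul_le_mul_of_nonneg_left ((KL n hn).trans (pk1 L1 (by omega))) z1).trans h1
  obtain ⟨F', B, ψ, s, t1, TG, τ, Th, Fl, -, sa, pG, hψ, g1, g2, g3, g4, g5, g6, g7⟩ :=
    hS K l ε0 ε T s0 F hl (sm K1 z0 h0 c1) (eK a c1) hOk hR hD
  have Ka2 : 2 ≤ K ^ a := K2.trans (pk1 K1 a1)
  have Ka0 : 0 < K ^ a := by positivity
  have H1 : 0 < Th t1 := pG.sp.TH_pos Ka0
  -- the wave of the growing level
  obtain ⟨k2, ν2, p2, η2i, l2⟩ := hF (K ^ a) ε ψ (-1) TG t1 ((K ^ a4) ^ Ca) F' B τ Th Fl Ka2 pG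
    (by linarith) (Or.inr rfl) (by positivity)
  rw [← pow_mul K a] at l2
  replace l2 := l2.monoK (by positivity) (pk K1 (show a * Cf ≤ a4 by omega)) le_rfl
  have v2 : (K ^ a4) ^ Ca / Th t1 * Th t1 = (K ^ a4) ^ Ca := div_mul_cancel₀ _ H1.ne'
  have K42 : 2 ≤ K ^ a4 := K2.trans (pk1 K1 (by omega))
  have L3' : L ≤ L ^ 3 := pk1 L1 (by omega)
  -- the returning level
  obtain ⟨te, T', τA, ThA, FlA, pA, m1, m2, m3⟩ := hA (K ^ a4) (L ^ 3) ε ψ (1 / (2 * L ^ 2)) TG t1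
    F' B τ k2 ν2 p2 _ _ η2i K42 l2 v2.ge
    (by rw [v2, ← pow_mul]; exact (KL _ (by omega)).trans L3') hψ (by positivity)
    (one_div_le_one_div_of_le (by norm_num) (by nlinarith))
    (by rw [mul_one_div, le_div_iff₀ (by positivity)]; nlinarith [pow_pos L0 2])
    (by rw [← pow_mul]; exact sm L1 z1 h1 c6)
  rw [← pow_mul] at pA m3
  have q1 : L ^ (3 * Ca) ≤ L ^ b1 := pk L1 (by omega)
  replace pA := pA.monoK (by positivity) q1 (mul_le_mul_of_nonneg_right q1 z1)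
  have Lb : ∀ n, 1 ≤ n → L ≤ L ^ n := fun n hn => pk1 L1 hn
  have Lb0 : 0 < L ^ b1 := by positivity
  have H2 : 0 < ThA te := pA.sp.TH_pos Lb0
  have hψ' : 1 / (2 * L ^ 2) ≤ 1 / 2 := one_div_le_one_div_of_le (by norm_num) (by nlinarith)
  obtain ⟨k3, ν3, p3, η3i, l3⟩ := hF (L ^ b1) (L ^ b1 * ε) (1 / (2 * L ^ 2)) 1 T' te
    ((L ^ b2) ^ C0) _ _ τA ThA FlA (by linarith [Lb b1 (by omega)]) pA hψ' (Or.inl rfl)
    (by positivity)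
  rw [← pow_mul L b1] at l3
  replace l3 := l3.monoK (by positivity) (pk L1 (show b1 * Cf ≤ b2 by omega)) le_rfl
  have v3 : (L ^ b2) ^ C0 / ThA te * ThA te = (L ^ b2) ^ C0 := div_mul_cancel₀ _ H2.ne'
  obtain ⟨am, am0, ham⟩ := pG.sp.amin Ka0
  have sub : ∀ t ∈ Ioo 0 T', t ∈ Icc 0 TG := fun t ht => ⟨ht.1.le, ht.2.le.trans m2⟩
  have A1 : ∀ t ∈ Ioo 0 T', am / Th t1 ≤ Th t / Th t1 := fun t ht =>
    div_le_div_of_nonneg_right (ham t (sub t ht)) H1.le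
  have A0 : 0 < am / Th t1 := div_pos am0 H1
  have A2 : ∀ t ∈ Ioo 0 T', Th t / Th t1 ≤ K ^ a := fun t ht =>
    (div_le_iff₀ H1).2 (pG.sp.top t (sub t ht))
  have K45 : K ^ a4 ≤ K ^ a5 := pk K1 (by omega)
  have K51 : 1 ≤ K ^ a5 := one_le_pow₀ K1
  obtain ⟨w1, w2⟩ := hI (K ^ a4) (K ^ a5) ε ε ψ (-1) TG T' t1 (am / Th t1) F' F B τ k2 ν2 p2 _ _
    (fun t => Th t / Th t1) η2i K42 K45 l2 (by rw [v2, ← pow_mul]; exact pk K1 (by omega)) m2 le_rfl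
    (by rw [← pow_mul]; exact eK _ c3) A0 (fun t ht => by
      have e : (K ^ a4) ^ Ca / Th t1 * Th t =
          Th t / Th t1 * ((K ^ a4) ^ Ca / Th t1 * Th t1) := by field_simp
      have p0 : 0 ≤ (K ^ a4) ^ Ca / Th t1 * Th t :=
        mul_nonneg (by positivity) (pG.sp.pos t (sub t ht)).le
      refine ⟨A1 t ht, (A2 t ht).trans (pk K1 (by omega)), ?_, ?_⟩
      · rw [← e]; exact le_mul_of_one_le_left p0 K51
      · rw [← e]; exact le_mul_of_one_le_left p0 K51)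
  rw [← pow_mul] at w1 w2
  have TT : T' ≤ T := m2.trans g4
  obtain ⟨w2, w3⟩ := w2 (ok_restrict hOk TT) (Cl.monoK (T := TG) (Same.cl
    (fun t ht => sa t ⟨ht.1, ht.2.trans_le g4⟩) l2.pack.crv) m2 K45 le_rfl)
  have L23 : L ^ b2 ≤ L ^ b3 := pk L1 (by omega)
  have L13 : L ^ (3 * Ca) ≤ L ^ b3 := pk L1 (by omega)
  have HH : 0 < (K ^ a4) ^ Ca := by positivity
  have hI3 := fun F2 => hI (L ^ b2) (L ^ b3) (L ^ b1 * ε) (L ^ b1 * ε) (1 / (2 * L ^ 2)) 1 T' T' te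
    (am / Th t1) _ F2 _ τA k3 ν3 p3 _ _ (fun t => Th t / Th t1) η3i
    (by linarith [Lb b2 (by omega)]) L23 l3 (by rw [v3, ← pow_mul]; exact pk L1 (by omega)) le_rfl
    le_rfl (by rw [← pow_mul, mul_comm (L ^ b1), mul_assoc, ← pow_add]; exact sm L1 z1 h1 c5) A0
    (fun t ht => by
      obtain ⟨n1, n2⟩ := m3 t ⟨ht.1.le, ht.2.le⟩
      have p0 : 0 < Th t / Th t1 := A0.trans_le (A1 t ht)
      have p1 : 0 < ThA t := pA.sp.pos t ⟨ht.1.le, ht.2.le⟩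
      have e : (K ^ a4) ^ Ca / Th t1 * Th t = (K ^ a4) ^ Ca * (Th t / Th t1) := by ring
      beta_reduce at n1 n2
      rw [v2, e] at n1 n2
      have n3 : ThA t ≤ L ^ b3 * (Th t / Th t1 * ThA te) := by
        refine le_trans ?_ (mul_le_mul_of_nonneg_right L13 (by positivity))
        refine le_of_mul_le_mul_right ?_ HH
        linarith
      have n4 : Th t / Th t1 * ThA te ≤ L ^ b3 * ThA t := by
        refine le_trans ?_ (mul_le_mul_of_nonneg_right L13 p1.le)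
        refine le_of_mul_le_mul_right ?_ HH
        linarith
      have p2 : 0 ≤ (L ^ b2) ^ C0 / ThA te := by positivity
      refine ⟨A1 t ht, (A2 t ht).trans ((KL a c1).trans (Lb b3 (by omega))), ?_, ?_⟩
      · have := mul_le_mul_of_nonneg_left n3 p2
        linarith
      · have := mul_le_mul_of_nonneg_left n4 p2
        linarith)
  have x1 : 1 / K ^ a4 ≤ 1 / K ^ a := one_div_le_one_div_of_le Ka0 (pk K1 (by omega))
  have x2 : 1 / L ^ b2 ≤ 1 / K ^ a :=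
    one_div_le_one_div_of_le Ka0 ((KL a c1).trans (Lb b2 (by omega)))
  have x3 : 2 / K ^ a = 2 * (1 / K ^ a) := by ring
  have x4 : 0 < 1 / K ^ a := by positivity
  have Aw0 : ∀ t ∈ Ioo 0 T', 0 ≤ Th t / Th t1 := fun t ht => (A0.trans_le (A1 t ht)).le
  have y1 : ε ≤ L ^ b1 * ε := le_mul_of_one_le_left z1 (one_le_pow₀ L1)
  refine ⟨T', s, am / Th t1, fun t => Th t / Th t1, k2, p2, k3, p3, g1,
    by linarith [pA.sp.t0_lt Lb0], TT, by linarith, l2.frm.k_one, l2.frm.k_a, l3.frm.k_one,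
    l3.frm.k_a, A0, fun t ht => ⟨A1 t ht, (A2 t ht).trans (pk K1 c1),
      fun hts => (div_le_iff₀ H1).2 (g6 t ⟨ht.1.le, hts⟩),
      (w1 t ht).trans (mul_le_mul_of_nonneg_right (pk K1 c3) (Aw0 t ht)),
      ((hI3 F).1 t ht).trans (mul_le_mul_of_nonneg_right (by
        rw [← pow_mul]; exact pk L1 (by omega)) (Aw0 t ht))⟩,
    g7, w2.mono (pk K1 c3), fun η2 hη2 F2 o2 n2 => ?_⟩
  have c2' := (w3 η2 hη2 F2 n2).monoK le_rfl ((KL _ c3).trans (Lb b3 (by omega)))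
    (mul_le_mul_of_nonneg_right ((KL _ c3).trans (Lb b1 (by omega))) z1)
  obtain ⟨u1, u2⟩ := (hI3 F2).2 o2 c2'
  rw [← pow_mul] at u1 u2
  refine ⟨u1.mono (pk L1 (by omega)), fun η3 hη3 Fn n3 => ?_⟩
  have c3' := u2 η3 (wave_mono hη3 y1 Aw0) Fn (near_mono n3 y1)
  refine ⟨L ^ b2, 1 / (2 * L ^ 2), te, _, _, τA, _, _, k3, ν3, p3, η3i, Lb b2 (by omega),
    pk L1 (by omega), v3.ge, by rw [v3, ← pow_mul]; exact pk L1 (by omega),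
    le_of_eq (by field_simp), by linarith,
    l3.monoK (by positivity) le_rfl (mul_le_mul_of_nonneg_right (pk L1 (by omega)) z1),
    c3'.monoK le_rfl (pk L1 (by omega)) ?_⟩
  rw [← mul_assoc, ← pow_add]
  exact mul_le_mul_of_nonneg_right (pk L1 (by omega)) z1

end Pool.Agent.Lib.MP_fbbbeb_an.D
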