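import Mathlib
import Pool.Agent.Lib.MP_fbbbeb_an.Cas.Ev
import Pool.Agent.Lib.MP_fbbbeb_an.D.MDefs
import Pool.Agent.Lib.MP_fbbbeb_an.D.D1
import Pool.Agent.Lib.MP_fbbbeb_an.D.MulH

/-! The ideal wave of a pack. -/

set_option autoImplicit false

noncomputable section

namespace Pool.Agent.Lib.MP_fbbbeb_an.D

open Set Pool.Agent.Lib.MP_fbbbeb_an.Pub Pool.Agent.Lib.MP_fbbbeb_an.Cas
open Pool.Agent.Lib.MP_fbbbeb_an.D.Geo
open scoped RealInnerProductSpace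

namespace Wav

theorem inv_le {K x : ℝ} (hK : 0 < K) (h : 1 ≤ K * |x|) : |x⁻¹| ≤ K :=
  ainv hK (by rw [div_le_iff₀ hK]; linarith)

theorem mono {K x : ℝ} (hK : 2 ≤ K) (hx : 0 ≤ x) (a : ℕ) (h : a ≤ 13) : K ^ a * x ≤ K ^ 13 * x :=
  mul_le_mul_of_nonneg_right (pow_le_pow_right₀ (by linarith) h) hx

theorem top {K x : ℝ} (hK : 2 ≤ K) (hx : 0 ≤ x) : 32 * (K ^ 13 * x) ≤ K ^ 18 * x := by
  have a : (2 : ℝ) ^ 5 ≤ K ^ 5 := pow_le_pow_left₀ zero_le_two hK 5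
  have b : 0 ≤ K ^ 13 * x := by positivity
  have c := mul_le_mul_of_nonneg_right a b
  have e : K ^ 18 * x = K ^ 5 * (K ^ 13 * x) := by ring
  rw [e]; linarith

theorem comb {a g A G K : ℝ} {τ : E} (h1 : |a| ≤ A) (h2 : |g| ≤ G) (hτ : ‖τ‖ ≤ K) :
    ‖a • a0 + g • τ‖ ≤ A + G * K := by
  refine (norm_add_le _ _).trans ?_
  rw [norm_smul, norm_smul, norm_a0, mul_one, Real.norm_eq_abs, Real.norm_eq_abs]
  exact add_le_add h1 (mul_le_mul h2 hτ (norm_nonneg _) ((abs_nonneg _).trans h2))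

theorem app {G : L3} {x : E} {a b : ℝ} (h : ‖G‖ ≤ a) (hx : ‖x‖ ≤ b) : ‖G x‖ ≤ a * b :=
  (G.le_opNorm x).trans (mul_le_mul h hx (norm_nonneg _) ((norm_nonneg _).trans h))

theorem ain {x y : E} {a b : ℝ} (hx : ‖x‖ ≤ a) (hy : ‖y‖ ≤ b) : |⟪x, y⟫| ≤ a * b :=
  (abs_real_inner_le_norm x y).trans (mul_le_mul hx hy (norm_nonneg _) ((norm_nonneg _).trans hx))

end Wav

open Wav in
theorem wavSt : WavSt := by
  refine ⟨18, fun K ε ψ T t0 F B τ k th f hK h hk ka kτ => ?_⟩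
  have C := h.crv
  have S := h.sp
  have K0 : 0 < K := by linarith
  have z0 : (0 : ℝ) ∈ Icc 0 T := ⟨le_rfl, C.T_pos.le⟩
  have na : ‖a0‖ = 1 := norm_a0
  have a_ne : a0 ≠ 0 := fun e => by simp [e] at na
  have t_pos : 0 < ‖τ‖ := by linarith [h.t_lo]
  have t_ne : τ ≠ 0 := norm_pos_iff.1 t_pos
  have k_ne : k ≠ 0 := fun e => by simp [e] at hk
  have m_ne : mm B τ ≠ 0 := fun e => by have := h.m_lo; simp [e] at this; linarith
  have mi : |(mm B τ)⁻¹| ≤ K := inv_le K0 h.m_lo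
  have lo : ∀ t ∈ Icc 0 T, 1 ≤ K * ‖F.f t a0‖ := fun t ht => by simpa [na] using C.lo t ht a0
  have e_ne : ∀ t ∈ Icc 0 T, F.f t a0 ≠ 0 := fun t ht e => by
    have := lo t ht; simp [e] at this; linarith
  have r_ne : ∀ t ∈ Icc 0 T, ⟪F.f t a0, F.f t a0⟫ ≠ 0 := fun t ht => by
    simpa using e_ne t ht
  have ri : ∀ t ∈ Icc 0 T, |⟪F.f t a0, F.f t a0⟫⁻¹| ≤ K ^ 2 := fun t ht => by
    refine inv_le (by positivity) ?_
    rw [real_inner_self_eq_norm_sq, abs_of_nonneg (by positivity), ← mul_pow]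
    exact one_le_pow₀ (lo t ht)
  have P_pos : ∀ t ∈ Icc 0 T, 0 < pp (F.f t) τ τ := S.sys.pos
  have Pi : ∀ t ∈ Icc 0 T, |(pp (F.f t) τ τ)⁻¹| ≤ K := fun t ht =>
    inv_le K0 (by rw [abs_of_pos (P_pos t ht)]; exact S.p_lo t ht)
  obtain ⟨μ, hμ⟩ : ∃ μ : ℝ → ℝ, μ = fun t => ⟪F.f t τ, F.f t a0⟫ / ⟪F.f t a0, F.f t a0⟫ := ⟨_, rfl⟩
  have bμ : ∀ t ∈ Icc 0 T, |μ t| ≤ K * (K * K) := fun t ht => by
    rw [hμ]
    exact (abs_sr_le (lo t ht)).trans (mul_le_mul_of_nonneg_left (app (C.b0 t ht) h.t_hi) K0.le)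
  have bth : ∀ t ∈ Icc 0 T, |th t| ≤ th t := fun t ht => (abs_of_pos (S.pos t ht)).le
  have bth0 : ∀ t ∈ Icc 0 T, |th 0| ≤ K * th t := fun t ht =>
    (bth 0 z0).trans (S.qmono 0 z0 t ht ht.1)
  have bf0 : ∀ t ∈ Icc 0 T, |f 0| ≤ K * (K * th t) := fun t ht =>
    (S.f_bd 0 z0).trans (mul_le_mul_of_nonneg_left (S.qmono 0 z0 t ht ht.1) K0.le)
  obtain ⟨c, hc⟩ : ∃ c : ℝ, c = f 0 * (mm B τ)⁻¹ + μ 0 * th 0 := ⟨_, rfl⟩
  have bc : ∀ t ∈ Icc 0 T, |c| ≤ K * (K * th t) * K + K * (K * K) * (K * th t) := fun t ht => by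
    rw [hc]; exact aadd (amul (bf0 t ht) mi) (amul (bμ 0 z0) (bth0 t ht))
  obtain ⟨p, hp⟩ : ∃ p : E, p = th 0 • a0 + (c * (‖τ‖ ^ 2)⁻¹) • τ := ⟨_, rfl⟩
  have τa : ⟪τ, a0⟫ = 0 := by rw [real_inner_comm]; exact h.perp
  have pa : ⟪p, a0⟫ = th 0 := by
    rw [hp, inner_add_left, real_inner_smul_left, real_inner_smul_left, τa,
      real_inner_self_eq_norm_sq, na]; ring
  have pτ : ⟪p, τ⟫ = c := by
    rw [hp, inner_add_left, real_inner_smul_left, real_inner_smul_left, h.perp,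
      real_inner_self_eq_norm_sq]; field_simp; ring
  obtain ⟨ga, hga⟩ : ∃ ga : ℝ → ℝ, ga = fun t => (th t - th 0) * (mm B τ)⁻¹ := ⟨_, rfl⟩
  obtain ⟨al, hal⟩ : ∃ al : ℝ → ℝ,
    al = fun t => (c - μ t * th t - f t * (mm B τ)⁻¹) * (mm B τ)⁻¹ := ⟨_, rfl⟩
  obtain ⟨g1, hg1⟩ : ∃ g1 : ℝ → ℝ, g1 = fun t => f t * (pp (F.f t) τ τ)⁻¹ * (mm B τ)⁻¹ := ⟨_, rfl⟩
  obtain ⟨a1, ha1⟩ : ∃ a1 : ℝ → ℝ,
    a1 = fun t => th t * ⟪F.f t a0, F.f t a0⟫⁻¹ - μ t * g1 t := ⟨_, rfl⟩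
  have bg1 : ∀ t ∈ Icc 0 T, |g1 t| ≤ K * th t * K * K := fun t ht => by
    rw [hg1]; exact amul (amul (S.f_bd t ht) (Pi t ht)) mi
  -- continuity
  have cth : ContinuousOn th (Icc 0 T) := fun t ht => (S.sys.dTh t ht).continuousAt.continuousWithinAt
  have cf : ContinuousOn f (Icc 0 T) := fun t ht => (S.sys.dFl t ht).continuousAt.continuousWithinAt
  have cx : ∀ x : E, ContinuousOn (fun t => F.f t x) (Icc 0 T) := fun x =>
    C.c0.clm_apply continuousOn_const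
  have cr : ContinuousOn (fun t => ⟪F.f t a0, F.f t a0⟫) (Icc 0 T) := (cx a0).inner (cx a0)
  have cμ : ContinuousOn μ (Icc 0 T) := by rw [hμ]; exact ((cx τ).inner (cx a0)).div cr r_ne
  have cP : ContinuousOn (fun t => pp (F.f t) τ τ) (Icc 0 T) := S.sys.hP
  have cga : ContinuousOn ga (Icc 0 T) := by
    rw [hga]; exact (cth.sub continuousOn_const).mul continuousOn_const
  have cal : ContinuousOn al (Icc 0 T) := by
    rw [hal]
    exact ((continuousOn_const.sub (cμ.mul cth)).sub (cf.mul continuousOn_const)).mul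
      continuousOn_const
  have cg1 : ContinuousOn g1 (Icc 0 T) := by
    rw [hg1]; exact (cf.mul (cP.inv₀ fun t ht => (P_pos t ht).ne')).mul continuousOn_const
  have ca1 : ContinuousOn a1 (Icc 0 T) := by
    rw [ha1]; exact (cth.mul (cr.inv₀ r_ne)).sub (cμ.mul cg1)
  -- derivatives
  have dx : ∀ t ∈ Ioo 0 T, ∀ x : E, HasDerivAt (fun s => F.f s x) (F.f1 t x) t := fun t ht x => by
    simpa using (C.ok t ht).1.clm_apply (hasDerivAt_const t x)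
  have dμ : ∀ t ∈ Ioo 0 T, HasDerivAt μ
      ((2 * Gr (F.f t a0) (F.f1 t a0) (F.f t τ) - ⟪a0, Bop (F.f t) (F.f1 t) τ⟫) /
        ⟪F.f t a0, F.f t a0⟫) t := fun t ht => by
    rw [hμ]; exact hasDerivAt_sr (C.ok t ht).1 a0 τ (e_ne t (Ioo_subset_Icc_self ht))
  have dga : ∀ t ∈ Ioo 0 T, HasDerivAt ga (g1 t) t := fun t ht => by
    rw [hga, hg1]
    exact ((S.sys.dTh t (Ioo_subset_Icc_self ht)).sub_const _).mul_const _
  have dal : ∀ t ∈ Ioo 0 T, HasDerivAt al (a1 t) t := fun t ht => by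
    have hi := Ioo_subset_Icc_self ht
    have := ((((dμ t ht).fun_mul (S.sys.dTh t hi)).const_sub c).fun_sub
      ((S.sys.dFl t hi).mul_const (mm B τ)⁻¹)).mul_const (mm B τ)⁻¹
    rw [hal]
    refine this.congr_deriv ?_
    have h1 := r_ne t hi
    have h2 := (P_pos t hi).ne'
    simp only [ha1, hg1, qc, dq, rr]
    rw [show ⟪a0, Bop (F.f t) (F.f1 t) τ⟫ = mm (Bop (F.f t) (F.f1 t)) τ from rfl]
    field_simp
    ring
  have d2 : ∀ t ∈ Ioo 0 T, ∃ v : E, HasDerivAt (fun s => a1 s • a0 + g1 s • τ) v t ∧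
      ‖v‖ ≤ K ^ 18 * th t := fun t ht => by
    have hi := Ioo_subset_Icc_self ht
    have x0 := (S.pos t hi).le
    have n0 := app (C.b0 t hi) na.le
    have n1 := app (C.b1 t hi) na.le
    have n2 := app (C.b0 t hi) h.t_hi
    have n3 := app (C.b1 t hi) h.t_hi
    obtain ⟨P1, dP, bP⟩ : ∃ P1 : ℝ, HasDerivAt (fun s => pp (F.f s) τ τ) P1 t ∧
        |P1| ≤ K * K * (K * K) + K * K * (K * K) + K * (K * K) * (K * 1 * (K * K)) +
          K * (K * K) * (K * 1 * (K * K)) := by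
      have b := bμ t hi
      rw [hμ] at b
      exact ⟨_, hasDerivAt_Gr (dx t ht a0) (dx t ht τ) (dx t ht τ) (e_ne t hi),
        asub (asub (aadd (abs_Gr_le' _ n3 n2) (abs_Gr_le' _ n2 n3)) (amul b (abs_Gr_le' _ n1 n2)))
          (amul b (abs_Gr_le' _ n1 n2))⟩
    obtain ⟨R1, dR, bR⟩ : ∃ R1 : ℝ, HasDerivAt (fun s => ⟪F.f s a0, F.f s a0⟫) R1 t ∧
        |R1| ≤ K * 1 * (K * 1) + K * 1 * (K * 1) :=
      ⟨_, (dx t ht a0).inner ℝ (dx t ht a0), aadd (ain n0 n1) (ain n1 n0)⟩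
    obtain ⟨μ1, dM, bM⟩ : ∃ μ1 : ℝ, HasDerivAt μ μ1 t ∧
        |μ1| ≤ (2 * (K * 1 * (K * K)) + 1 * (2 * K ^ 2 * K)) * K ^ 2 := by
      refine ⟨_, dμ t ht, ?_⟩
      rw [div_eq_mul_inv]
      exact amul (asub (amul (by norm_num) (abs_Gr_le' _ n1 n2))
        (ain na.le (app (MH.norm_bop (C.b0 t hi) (C.b1 t hi)) h.t_hi))) (ri t hi)
    obtain ⟨g2, dG, bG⟩ : ∃ g2 : ℝ, HasDerivAt g1 g2 t ∧ |g2| ≤ 5 * (K ^ 10 * th t) := by
      have := ((S.sys.dFl t hi).fun_mul (dP.fun_inv (P_pos t hi).ne')).mul_const (mm B τ)⁻¹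
      refine ⟨(qc (F.f t) (F.f1 t) B τ * th t * (pp (F.f t) τ τ)⁻¹ -
        f t * (P1 * ((pp (F.f t) τ τ)⁻¹ * (pp (F.f t) τ τ)⁻¹))) * (mm B τ)⁻¹, ?_, ?_⟩
      · rw [hg1]; refine this.congr_deriv ?_; ring
      · refine (amul (asub (amul (amul (S.q_bd t hi) (bth t hi)) (Pi t hi))
          (amul (S.f_bd t hi) (amul bP (amul (Pi t hi) (Pi t hi))))) mi).trans ?_
        have u : ∀ a : ℕ, a ≤ 10 → K ^ a * th t ≤ K ^ 10 * th t := fun a ha =>
          mul_le_mul_of_nonneg_right (pow_le_pow_right₀ (by linarith) ha) x0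
        linarith [u 3 (by norm_num), u 8 (by norm_num)]
    have dA := ((S.sys.dTh t hi).fun_mul (dR.fun_inv (r_ne t hi))).fun_sub (dM.fun_mul dG)
    obtain ⟨a2, dA, bA⟩ : ∃ a2 : ℝ, HasDerivAt a1 a2 t ∧ |a2| ≤ 12 * (K ^ 13 * th t) := by
      refine ⟨f t * (pp (F.f t) τ τ)⁻¹ * ⟪F.f t a0, F.f t a0⟫⁻¹ -
        th t * (R1 * (⟪F.f t a0, F.f t a0⟫⁻¹ * ⟪F.f t a0, F.f t a0⟫⁻¹)) - (μ1 * g1 t + μ t * g2),
        ?_, ?_⟩
      · rw [ha1]; refine dA.congr_deriv ?_; ring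
      · refine (asub (asub (amul (amul (S.f_bd t hi) (Pi t hi)) (ri t hi))
          (amul (bth t hi) (amul bR (amul (ri t hi) (ri t hi)))))
          (aadd (amul bM (bg1 t hi)) (amul (bμ t hi) bG))).trans ?_
        linarith [mono hK x0 4 (by norm_num), mono hK x0 6 (by norm_num), mono hK x0 8 (by norm_num)]
    refine ⟨_, (dA.smul_const a0).fun_add (dG.smul_const τ), (comb bA bG h.t_hi).trans ?_⟩
    have : 0 ≤ K ^ 13 * th t := by positivity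
    linarith [mono hK x0 11 (by norm_num), top hK x0]
  refine ⟨p, ⟨fun t => al t • a0 + ga t • τ, fun t => a1 t • a0 + g1 t • τ,
    deriv fun t => a1 t • a0 + g1 t • τ⟩, ⟨fun t ht => ⟨?_, ?_⟩, ?_, ?_, ?_, fun t ht => ?_,
    fun t ht => ?_, fun t ht => ?_, fun t ht => ?_, fun t ht => ?_, fun t ht => ?_⟩, pa,
    fun t ht => ⟨al t, ?_⟩⟩
  · exact ((dal t ht).smul_const a0).fun_add ((dga t ht).smul_const τ)
  · obtain ⟨v, hv, -⟩ := d2 t ht
    exact hv.differentiableAt.hasDerivAt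
  · exact (cal.smul continuousOn_const).add (cga.smul continuousOn_const)
  · exact (ca1.smul continuousOn_const).add (cg1.smul continuousOn_const)
  · simp only [hal, hga, hc]
    rw [show f 0 * (mm B τ)⁻¹ + μ 0 * th 0 - μ 0 * th 0 - f 0 * (mm B τ)⁻¹ = 0 by ring]
    simp
  · simp only [inner_add_right, real_inner_smul_right, ka, kτ, mul_zero, add_zero]
  · refine pio_of_scalar (th := th t) (C.lo t ht) a_ne t_ne k_ne h.perp ka kτ
      (fun x y => by rw [C.anti, real_inner_comm]) ?_ ?_ ?_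
    · rw [pa, hga, show ⟪a0, B τ⟫ = mm B τ from rfl]; field_simp; ring
    · rw [ha1, hμ]; rfl
    · have h2 := (P_pos t ht).ne'
      have e : ⟪F.f t τ, F.f t a0⟫ / ⟪F.f t a0, F.f t a0⟫ = μ t := by rw [hμ]
      rw [pτ, e, hal, hg1, show ⟪a0, B τ⟫ = mm B τ from rfl,
        show Gr (F.f t a0) (F.f t τ) (F.f t τ) = pp (F.f t) τ τ from rfl]
      field_simp; ring
  · have x0 := (S.pos t ht).le
    have b1 := (congrArg abs (congrFun hal t)).trans_le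
      (amul (asub (asub (bc t ht) (amul (bμ t ht) (bth t ht))) (amul (S.f_bd t ht) mi)) mi)
    have b2 := (congrArg abs (congrFun hga t)).trans_le (amul (asub (bth t ht) (bth0 t ht)) mi)
    refine (comb b1 b2 h.t_hi).trans ?_
    have : 0 ≤ K ^ 13 * th t := by positivity
    linarith [mono hK x0 2 (by norm_num), mono hK x0 3 (by norm_num), mono hK x0 4 (by norm_num),
      mono hK x0 5 (by norm_num), top hK x0]
  · have x0 := (S.pos t ht).le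
    have b1 := (congrArg abs (congrFun ha1 t)).trans_le
      (asub (amul (bth t ht) (ri t ht)) (amul (bμ t ht) (bg1 t ht)))
    refine (comb b1 (bg1 t ht) h.t_hi).trans ?_
    have : 0 ≤ K ^ 13 * th t := by positivity
    linarith [mono hK x0 2 (by norm_num), mono hK x0 4 (by norm_num), mono hK x0 6 (by norm_num),
      top hK x0]
  · obtain ⟨v, hv, b⟩ := d2 t ht
    exact (congrArg norm hv.deriv).trans_le b
  · have x0 := (S.pos t ht).le
    have b1 : |(‖τ‖ ^ 2)⁻¹| ≤ 1 := inv_le one_pos (by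
      rw [one_mul, abs_of_nonneg (by positivity)]; exact one_le_pow₀ h.t_lo)
    rw [hp]
    refine (comb (bth0 t ht) (amul (bc t ht) b1) h.t_hi).trans ?_
    have : 0 ≤ K ^ 13 * th t := by positivity
    linarith [mono hK x0 1 (by norm_num), mono hK x0 4 (by norm_num), mono hK x0 5 (by norm_num),
      top hK x0]
  · simp only [hga, div_eq_mul_inv]

end Pool.Agent.Lib.MP_fbbbeb_an.D
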