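import Mathlib

set_option autoImplicit false

/-! Scalar system `Th' = Fl / P`, `Fl' = Q Th`: Riccati comparison kit. -/

namespace Pool.Agent.Lib.MP_fbbbeb_an.Ric

open Set

structure Sys (a b : ℝ) (P Q Th Fl : ℝ → ℝ) : Prop where
  hP : ContinuousOn P (Icc a b)
  pos : ∀ t ∈ Icc a b, 0 < P t
  dTh : ∀ t ∈ Icc a b, HasDerivAt Th (Fl t / P t) t
  dFl : ∀ t ∈ Icc a b, HasDerivAt Fl (Q t * Th t) t

theorem Sys.mono {a b c d : ℝ} {P Q Th Fl : ℝ → ℝ} (h : Sys a b P Q Th Fl) (hac : a ≤ c)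
    (hdb : d ≤ b) : Sys c d P Q Th Fl :=
  have hs : Icc c d ⊆ Icc a b := Icc_subset_Icc hac hdb
  ⟨h.hP.mono hs, fun t ht => h.pos t (hs ht), fun t ht => h.dTh t (hs ht),
    fun t ht => h.dFl t (hs ht)⟩

/-- change of units: divide `P, Q, Fl` by a positive constant. -/
theorem Sys.scale {a b c : ℝ} {P Q Th Fl : ℝ → ℝ} (h : Sys a b P Q Th Fl) (hc : 0 < c) :
    Sys a b (fun t => P t / c) (fun t => Q t / c) Th (fun t => Fl t / c) := by
  refine ⟨h.hP.div_const c, fun t ht => div_pos (h.pos t ht) hc, fun t ht => ?_, fun t ht => ?_⟩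
  · have := h.pos t ht
    convert h.dTh t ht using 1; field_simp
  · exact ((h.dFl t ht).div_const c).congr_deriv (by ring)

/-- shift of the time origin. -/
theorem Sys.shift {a b c : ℝ} {P Q Th Fl : ℝ → ℝ} (h : Sys (a + c) (b + c) P Q Th Fl) :
    Sys a b (fun t => P (t + c)) (fun t => Q (t + c)) (fun t => Th (t + c)) (fun t => Fl (t + c)) := by
  have hm : ∀ t ∈ Icc a b, t + c ∈ Icc (a + c) (b + c) := fun t ht =>
    ⟨by linarith [ht.1], by linarith [ht.2]⟩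
  refine ⟨h.hP.comp (by fun_prop) hm, fun t ht => h.pos _ (hm t ht), fun t ht => ?_, fun t ht => ?_⟩
  · exact (h.dTh _ (hm t ht)).comp_add_const t c
  · exact (h.dFl _ (hm t ht)).comp_add_const t c

theorem contOn {a b : ℝ} {g g' : ℝ → ℝ} (hg : ∀ t ∈ Icc a b, HasDerivAt g (g' t) t) :
    ContinuousOn g (Icc a b) := fun t ht => (hg t ht).continuousAt.continuousWithinAt

/-- linear differential inequality `g' ≥ k g`, `|k| ≤ K`. -/
theorem nonneg_of {a b K : ℝ} {g g' k : ℝ → ℝ} (hg : ∀ t ∈ Icc a b, HasDerivAt g (g' t) t)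
    (hk : ∀ t ∈ Ico a b, |k t| ≤ K) (h : ∀ t ∈ Ico a b, k t * g t ≤ g' t) (h0 : 0 ≤ g a) :
    ∀ t ∈ Icc a b, 0 ≤ g t := by
  intro t ht
  have key : ∀ e : ℝ, 0 < e → -g t ≤ e * Real.exp ((K + 1) * (t - a)) := by
    intro e he
    have hB : ∀ x, HasDerivAt (fun x => e * Real.exp ((K + 1) * (x - a)))
        (e * (Real.exp ((K + 1) * (x - a)) * (K + 1))) x := fun x => by
      have : HasDerivAt (fun x => (K + 1) * (x - a)) (K + 1) x := by
        simpa using ((hasDerivAt_id x).sub_const a).const_mul (K + 1)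
      exact this.exp.const_mul e
    refine image_le_of_deriv_right_lt_deriv_boundary (f := fun x => -g x) (f' := fun x => -g' x)
      (contOn hg).neg (fun x hx => (hg x (Ico_subset_Icc_self hx)).neg.hasDerivWithinAt)
      (by simp; linarith) hB (fun x hx hq => ?_) ht
    have h1 := h x hx
    have h2 := abs_le.mp (hk x hx)
    have h3 := Real.exp_pos ((K + 1) * (x - a))
    have h4 : g x = -(e * Real.exp ((K + 1) * (x - a))) := by linarith
    have h5 := mul_pos he h3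
    rw [h4] at h1
    nlinarith [h2.1, h2.2]
  by_contra hn
  push Not at hn
  have h3 := Real.exp_pos ((K + 1) * (t - a))
  have := key (-g t / (2 * Real.exp ((K + 1) * (t - a)))) (div_pos (by linarith) (by linarith))
  have h4 : -g t / (2 * Real.exp ((K + 1) * (t - a))) * Real.exp ((K + 1) * (t - a)) = -g t / 2 := by
    field_simp
  linarith

/-- `g' ≥ 0` gives `g a ≤ g t`. -/
theorem le_of_deriv {a b : ℝ} {g g' : ℝ → ℝ} (hg : ∀ t ∈ Icc a b, HasDerivAt g (g' t) t)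
    (h : ∀ t ∈ Ico a b, 0 ≤ g' t) : ∀ t ∈ Icc a b, g a ≤ g t := by
  intro t ht
  have := nonneg_of (K := 0) (k := fun _ => 0) (g := fun x => g x - g a) (g' := g')
    (fun x hx => (hg x hx).sub_const _) (by simp) (by simpa using h) (by simp) t ht
  linarith

/-- `g' ≥ c g` gives exponential growth. -/
theorem exp_le_of_deriv {a b c : ℝ} {g g' : ℝ → ℝ} (hg : ∀ t ∈ Icc a b, HasDerivAt g (g' t) t)
    (h : ∀ t ∈ Ico a b, c * g t ≤ g' t) :
    ∀ t ∈ Icc a b, g a * Real.exp (c * (t - a)) ≤ g t := by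
  intro t ht
  have hB : ∀ x, HasDerivAt (fun x => g a * Real.exp (c * (x - a)))
      (g a * (Real.exp (c * (x - a)) * c)) x := fun x => by
    have : HasDerivAt (fun x => c * (x - a)) c x := by
      simpa using ((hasDerivAt_id x).sub_const a).const_mul c
    exact this.exp.const_mul _
  have := nonneg_of (K := |c|) (k := fun _ => c)
    (g := fun x => g x - g a * Real.exp (c * (x - a)))
    (g' := fun x => g' x - g a * (Real.exp (c * (x - a)) * c))
    (fun x hx => (hg x hx).sub (hB x)) (by simp) (fun x hx => by have := h x hx; nlinarith)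
    (by simp) t ht
  linarith

theorem first_time {a b : ℝ} {f : ℝ → ℝ} (hf : ContinuousOn f (Icc a b))
    (H : ∀ c ∈ Icc a b, (∀ t ∈ Ico a c, 0 < f t) → 0 < f c) : ∀ t ∈ Icc a b, 0 < f t := by
  by_contra hn
  push Not at hn
  have hc : IsCompact (Icc a b ∩ f ⁻¹' Iic 0) :=
    isCompact_Icc.of_isClosed_subset (hf.preimage_isClosed_of_isClosed isClosed_Icc isClosed_Iic)
      inter_subset_left
  obtain ⟨c, hc1, hc2⟩ := hc.exists_isLeast (by obtain ⟨t, h1, h2⟩ := hn; exact ⟨t, h1, h2⟩)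
  have := H c hc1.1 (fun t ht => by
    by_contra h
    push Not at h
    have := hc2 ⟨⟨ht.1, ht.2.le.trans hc1.1.2⟩, h⟩
    linarith [ht.2])
  have h2 : f c ≤ 0 := hc1.2
  linarith

/-- first time in `[a, b]` at which a continuous function that starts `≥ 0` is `≤ 0`. -/
theorem first_zero {a b : ℝ} {f : ℝ → ℝ} (hf : ContinuousOn f (Icc a b)) (ha : 0 ≤ f a)
    (hn : ∃ t ∈ Icc a b, f t ≤ 0) : ∃ c ∈ Icc a b, f c = 0 ∧ ∀ t ∈ Icc a c, 0 ≤ f t := by
  have hc : IsCompact (Icc a b ∩ f ⁻¹' Iic 0) :=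
    isCompact_Icc.of_isClosed_subset (hf.preimage_isClosed_of_isClosed isClosed_Icc isClosed_Iic)
      inter_subset_left
  obtain ⟨c, hc1, hc2⟩ := hc.exists_isLeast (by obtain ⟨t, h1, h2⟩ := hn; exact ⟨t, h1, h2⟩)
  have h2 : f c ≤ 0 := hc1.2
  obtain ⟨d, hd, hd0⟩ := intermediate_value_Icc' hc1.1.1
    (hf.mono (Icc_subset_Icc le_rfl hc1.1.2)) (show (0 : ℝ) ∈ Icc (f c) (f a) from ⟨h2, ha⟩)
  have hcd := hc2 ⟨⟨hd.1, hd.2.trans hc1.1.2⟩, hd0.le⟩
  have hdc : d = c := le_antisymm hd.2 hcd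
  subst hdc
  refine ⟨d, hc1.1, hd0, fun t ht => ?_⟩
  rcases ht.2.eq_or_lt with rfl | h
  · exact hd0.ge
  · by_contra h'
    push Not at h'
    have := hc2 ⟨⟨ht.1, ht.2.trans hc1.1.2⟩, h'.le⟩
    linarith

section cmp
variable {a b : ℝ} {P Q Th Fl u u' : ℝ → ℝ}

theorem Sys.bd (h : Sys a b P Q Th Fl) (hu : ∀ t ∈ Icc a b, HasDerivAt u (u' t) t) :
    ∃ K, ∀ t ∈ Icc a b, |u t / P t| ≤ K := by
  obtain ⟨K, hK⟩ := isCompact_Icc.exists_bound_of_continuousOn
    ((contOn hu).div h.hP (fun t ht => (h.pos t ht).ne'))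
  exact ⟨K, fun t ht => hK t ht⟩

theorem Sys.dG (h : Sys a b P Q Th Fl) (hu : ∀ t ∈ Icc a b, HasDerivAt u (u' t) t) :
    ∀ t ∈ Icc a b, HasDerivAt (fun t => Fl t - u t * Th t)
      ((Q t - u t ^ 2 / P t - u' t) * Th t + -(u t / P t) * (Fl t - u t * Th t)) t := by
  intro t ht
  have := (h.pos t ht).ne'
  exact ((h.dFl t ht).sub ((hu t ht).mul (h.dTh t ht))).congr_deriv (by field_simp; ring)

theorem Sys.sub_aux (h : Sys a b P Q Th Fl) (hu : ∀ t ∈ Icc a b, HasDerivAt u (u' t) t)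
    (hs : ∀ t ∈ Ico a b, u' t ≤ Q t - u t ^ 2 / P t) (hT : ∀ t ∈ Ico a b, 0 ≤ Th t)
    (h1 : u a * Th a ≤ Fl a) : ∀ t ∈ Icc a b, u t * Th t ≤ Fl t := by
  obtain ⟨K, hK⟩ := h.bd hu
  intro t ht
  have := nonneg_of (K := K) (k := fun t => -(u t / P t)) (h.dG hu)
    (fun x hx => by rw [abs_neg]; exact hK x (Ico_subset_Icc_self hx))
    (fun x hx => by have := mul_nonneg (sub_nonneg.mpr (hs x hx)) (hT x hx); linarith)
    (by linarith) t ht
  linarith

/-- subsolution of the Riccati equation `U' = Q - U² / P`, `U = Fl / Th`. -/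
theorem Sys.ric_sub (h : Sys a b P Q Th Fl) (hu : ∀ t ∈ Icc a b, HasDerivAt u (u' t) t)
    (hs : ∀ t ∈ Ico a b, u' t ≤ Q t - u t ^ 2 / P t) (h0 : 0 < Th a) (h1 : u a * Th a ≤ Fl a) :
    ∀ t ∈ Icc a b, 0 < Th t ∧ u t * Th t ≤ Fl t := by
  obtain ⟨K, hK⟩ := h.bd hu
  have hT : ∀ t ∈ Icc a b, 0 < Th t := by
    refine first_time (contOn h.dTh) (fun c hc hp => ?_)
    have hsub : Icc a c ⊆ Icc a b := Icc_subset_Icc le_rfl hc.2
    have h' := h.mono le_rfl hc.2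
    have hG := h'.sub_aux (fun t ht => hu t (hsub ht))
      (fun t ht => hs t ⟨ht.1, ht.2.trans_le hc.2⟩) (fun t ht => (hp t ht).le) h1
    have := exp_le_of_deriv (c := -K) h'.dTh (fun t ht => by
      have ht' := Ico_subset_Icc_self ht
      have e1 := div_le_div_of_nonneg_right (hG t ht') (h'.pos t ht').le
      have e2 := (abs_le.mp (hK t (hsub ht'))).1
      have e3 := mul_le_mul_of_nonneg_right e2 (hp t ht).le
      have e4 : u t * Th t / P t = u t / P t * Th t := by ring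
      linarith) c ⟨hc.1, le_rfl⟩
    exact (mul_pos h0 (Real.exp_pos _)).trans_le this
  exact fun t ht => ⟨hT t ht, h.sub_aux hu hs (fun t ht => (hT t (Ico_subset_Icc_self ht)).le) h1 t ht⟩

/-- supersolution, as long as `Th ≥ 0`. -/
theorem Sys.ric_super (h : Sys a b P Q Th Fl) (hu : ∀ t ∈ Icc a b, HasDerivAt u (u' t) t)
    (hs : ∀ t ∈ Ico a b, Q t - u t ^ 2 / P t ≤ u' t) (hT : ∀ t ∈ Ico a b, 0 ≤ Th t)
    (h1 : Fl a ≤ u a * Th a) : ∀ t ∈ Icc a b, Fl t ≤ u t * Th t := by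
  obtain ⟨K, hK⟩ := h.bd hu
  intro t ht
  have := nonneg_of (K := K) (k := fun t => -(u t / P t)) (g := fun t => -(Fl t - u t * Th t))
    (fun x hx => (h.dG hu x hx).neg)
    (fun x hx => by rw [abs_neg]; exact hK x (Ico_subset_Icc_self hx))
    (fun x hx => by have := mul_nonneg (sub_nonneg.mpr (hs x hx)) (hT x hx); linarith)
    (by linarith) t ht
  linarith

/-- `Fl ≥ 0` makes `Th` nondecreasing. -/
theorem Sys.Th_mono (h : Sys a b P Q Th Fl) (hF : ∀ t ∈ Icc a b, 0 ≤ Fl t) :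
    ∀ s ∈ Icc a b, ∀ t ∈ Icc a b, s ≤ t → Th s ≤ Th t := by
  intro s hs t ht hst
  have h' := h.mono hs.1 ht.2
  exact le_of_deriv h'.dTh (fun x hx => div_nonneg
    (hF x ⟨hs.1.trans hx.1, hx.2.le.trans ht.2⟩) (h'.pos x (Ico_subset_Icc_self hx)).le) t ⟨hst, le_rfl⟩

/-- growth from a lower bound on `Fl / (P Th)`. -/
theorem Sys.gain {c : ℝ} (h : Sys a b P Q Th Fl) (hF : ∀ t ∈ Icc a b, c * P t * Th t ≤ Fl t) :
    ∀ t ∈ Icc a b, Th a * Real.exp (c * (t - a)) ≤ Th t :=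
  exp_le_of_deriv h.dTh (fun t ht => by
    have ht' := Ico_subset_Icc_self ht
    rw [le_div_iff₀ (h.pos t ht')]; have := hF t ht'; linarith)

/-- with `Q < 0` a zero of `Fl ≥ 0` can only sit at the right end. -/
theorem Sys.zero_end (h : Sys a b P Q Th Fl) (h0 : 0 < Th a) (hF : ∀ t ∈ Icc a b, 0 ≤ Fl t)
    (hQ : ∀ t ∈ Ico a b, Q t < 0) {c : ℝ} (hc : c ∈ Icc a b) (hz : Fl c = 0) : c = b := by
  by_contra hne
  have hcb : c < b := lt_of_le_of_ne hc.2 hne
  have hT : 0 < Th c := h0.trans_le (h.Th_mono hF a ⟨le_rfl, hc.1.trans hc.2⟩ c hc hc.1)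
  have hd := h.dFl c hc
  have hneg : Q c * Th c < 0 := mul_neg_of_neg_of_pos (hQ c ⟨hc.1, hcb⟩) hT
  have h1 := (hasDerivAt_iff_tendsto_slope_left_right.mp hd).2
  have h2 : ∀ᶠ x in nhdsWithin c (Ioi c), slope Fl c x < 0 := h1.eventually (gt_mem_nhds hneg)
  obtain ⟨x, hx1, hx2⟩ := (h2.and (Ioo_mem_nhdsGT hcb)).exists
  have h3 := hF x ⟨hc.1.trans hx2.1.le, hx2.2.le⟩
  rw [slope_def_field, hz, sub_zero] at hx1
  have := div_nonneg h3 (sub_nonneg.mpr hx2.1.le)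
  linarith

/-- short time after a zero of `Fl`. -/
theorem Sys.after_zero {K : ℝ} (h : Sys a b P Q Th Fl) (hK : 0 < K) (hb : 2 * K * (b - a) ≤ 1)
    (hP : ∀ t ∈ Icc a b, 1 ≤ K * P t) (hQ : ∀ t ∈ Icc a b, |Q t| ≤ K) (h0 : 0 < Th a)
    (hz : Fl a = 0) : ∀ t ∈ Icc a b, 0 < Th t ∧ |Fl t| ≤ Th t ∧ Th a ≤ 2 * Th t := by
  have hl : ∀ (c : ℝ) t, HasDerivAt (fun t => c * (t - a)) c t := fun c t => by
    simpa using ((hasDerivAt_id t).sub_const a).const_mul c
  have hx : ∀ t ∈ Icc a b, 0 ≤ 2 * K * (t - a) ∧ 2 * K * (t - a) ≤ 1 := fun t ht =>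
    ⟨by nlinarith [ht.1], by nlinarith [ht.2]⟩
  have h1 := h.ric_sub (u := fun t => -(2 * K) * (t - a)) (u' := fun _ => -(2 * K))
    (fun t _ => hl _ t) (fun t ht => by
      have ht' := Ico_subset_Icc_self ht
      have e1 := (abs_le.mp (hQ t ht')).1
      have e2 : (-(2 * K) * (t - a)) ^ 2 / P t ≤ K := by
        rw [div_le_iff₀ (h.pos t ht')]; nlinarith [hx t ht', hP t ht']
      linarith) h0 (by simp [hz])
  have h2 := h.ric_super (u := fun t => K * (t - a)) (u' := fun _ => K)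
    (fun t _ => hl _ t) (fun t ht => by
      have ht' := Ico_subset_Icc_self ht
      have e1 := (abs_le.mp (hQ t ht')).2
      have e2 : 0 ≤ (K * (t - a)) ^ 2 / P t := div_nonneg (sq_nonneg _) (h.pos t ht').le
      linarith) (fun t ht => (h1 t (Ico_subset_Icc_self ht)).1.le) (by simp [hz])
  have h3 : ∀ t ∈ Icc a b, |Fl t| ≤ Th t := fun t ht => by
    have e1 := h1 t ht
    have e2 := h2 t ht
    have e3 := hx t ht
    rw [abs_le]; constructor <;> nlinarith [e1.1, e1.2]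
  have h4 := h.gain (c := -K) (fun t ht => by
    have e1 := (abs_le.mp (h3 t ht)).1
    have e2 := (h1 t ht).1
    nlinarith [hP t ht])
  intro t ht
  refine ⟨(h1 t ht).1, h3 t ht, ?_⟩
  have e1 := h4 t ht
  have e2 := Real.add_one_le_exp (-K * (t - a))
  have e3 := hx t ht
  nlinarith

end cmp

end Pool.Agent.Lib.MP_fbbbeb_an.Ric
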