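import Pool.Agent.Lib.MP_fbbbeb_an.D.Ali
import Pool.Agent.Lib.MP_fbbbeb_an.D.SDefs

/-! The aligned regime for the data of one level. -/

namespace Pool.Agent.Lib.MP_fbbbeb_an.D

open Set Filter Topology

namespace SAli

lemma pP {K K2 ε lam a b p P X : ℝ} (K0 : 2 ≤ K) (h2 : K ≤ K2) (X1 : 1 ≤ X) (ha : |a| ≤ K) (hb : |b| ≤ K)
    (hp : 1 ≤ K * p) (e1 : ε ≤ 1) (hl : 8 * K2 ^ 2 * X ≤ |lam|)
    (hP : |P - (a - 2 * lam * b + lam ^ 2 * p)| ≤ ε) : 0 < P ∧ |lam ^ 2 * p - P| ≤ 1 / X * P := by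
  have k4 : 4 ≤ K2 ^ 2 := by nlinarith
  have l1 : 1 ≤ |lam| := by nlinarith
  have u1 : |lam ^ 2 * p - P| ≤ 4 * K * |lam| := by
    have : lam ^ 2 * p - P = -(P - (a - 2 * lam * b + lam ^ 2 * p)) - a + 2 * (lam * b) := by ring
    rw [this]
    refine (abs_add_le _ _).trans ((add_le_add ((abs_sub _ _).trans (add_le_add
      ((abs_neg _).trans_le hP) ha)) le_rfl).trans ?_)
    rw [abs_mul, abs_mul, abs_two]
    nlinarith [mul_le_mul_of_nonneg_left hb (abs_nonneg lam)]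
  have u2 : 8 * K * X * |lam| ≤ lam ^ 2 * p := by
    have w0 : 0 ≤ 8 * K * X * |lam| := by positivity
    have w1 : 8 * K * X * K ≤ |lam| := by
      refine le_trans ?_ hl
      nlinarith [mul_le_mul h2 h2 (by linarith) (by linarith : 0 ≤ K2)]
    rw [← sq_abs]
    calc _ ≤ 8 * K * X * |lam| * (K * p) := le_mul_of_one_le_right w0 hp
      _ = 8 * K * X * K * (|lam| * p) := by ring
      _ ≤ |lam| * (|lam| * p) := mul_le_mul_of_nonneg_right w1 (mul_nonneg (abs_nonneg _) (by nlinarith))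
      _ = _ := by ring
  have w2 : 0 < K * |lam| := by positivity
  have w3 : K * |lam| ≤ K * |lam| * X := le_mul_of_one_le_right w2.le X1
  have u3 : 4 * K * |lam| * X ≤ P := by nlinarith [(abs_le.1 u1).2]
  refine ⟨by nlinarith, u1.trans ?_⟩
  rw [one_div_mul_eq_div, le_div_iff₀ (by linarith)]
  exact u3

lemma pQ {K K2 ε m L Dl c d D q Q mn X : ℝ} (K0 : 2 ≤ K) (h2 : K ≤ K2) (X1 : 1 ≤ X) (m0 : m ≠ 0)
    (hm : |m| ≤ K) (hc : |c| ≤ K) (hd : |d| ≤ K) (L0 : 0 ≤ L) (hL : L ≤ 2 * K2 * Dl)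
    (hD : 32 * K2 ^ 4 * X ≤ Dl) (he : 4 * ε * K2 * X ≤ 1) (h1 : |D - (c - Dl / m * d)| ≤ ε)
    (h3 : |Q + 2 * mn * D| ≤ ε) (h4 : |mn + L| ≤ K) (h5 : |q + 2 * m * d| ≤ ε) :
    |m ^ 2 * Q - q * L * Dl| ≤ 1 / X * Dl ^ 2 := by
  have e0 : 0 ≤ ε := (abs_nonneg _).trans h1
  have k2 : 2 ≤ K2 := K0.trans h2
  have k4 : 16 ≤ K2 ^ 4 := by nlinarith [mul_le_mul k2 k2 (by norm_num) (by linarith : 0 ≤ K2)]
  have D1 : 1 ≤ Dl := by nlinarith
  have e1 : ε ≤ 1 := by nlinarith [mul_le_mul k2 X1 (by norm_num) (by linarith : 0 ≤ K2)]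
  have id : m ^ 2 * Q - q * L * Dl = m ^ 2 * (Q + 2 * mn * D) - 2 * (m ^ 2 * (mn * ((D - (c - Dl / m * d)) + c)))
      + 2 * (m * ((mn + L) * (d * Dl))) - (q + 2 * m * d) * (L * Dl) := by field_simp; ring
  have m2 : |m ^ 2| ≤ K2 ^ 2 := by rw [abs_pow]; exact pow_le_pow_left₀ (abs_nonneg _) (hm.trans h2) 2
  have n1 : |mn| ≤ 3 * K2 * Dl := by
    have : |mn| ≤ |mn + L| + |L| := by simpa using abs_sub (mn + L) L
    rw [abs_of_nonneg L0] at this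
    nlinarith
  have t1 : |m ^ 2 * (Q + 2 * mn * D)| ≤ K2 ^ 2 * 1 := by
    rw [abs_mul]; exact mul_le_mul m2 (h3.trans e1) (abs_nonneg _) (by positivity)
  have t2 : |m ^ 2 * (mn * ((D - (c - Dl / m * d)) + c))| ≤ K2 ^ 2 * (3 * K2 * Dl * (2 * K2)) := by
    rw [abs_mul, abs_mul]
    exact mul_le_mul m2 (mul_le_mul n1 ((abs_add_le _ _).trans (by linarith)) (abs_nonneg _)
      (by positivity)) (by positivity) (by positivity)
  have t3 : |m * ((mn + L) * (d * Dl))| ≤ K2 * (K2 * (K2 * Dl)) := by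
    rw [abs_mul, abs_mul, abs_mul, abs_of_nonneg (by linarith : 0 ≤ Dl)]
    gcongr <;> linarith
  have t4 : |(q + 2 * m * d) * (L * Dl)| ≤ ε * (2 * K2 * Dl * Dl) := by
    rw [abs_mul, abs_of_nonneg (by positivity : 0 ≤ L * Dl)]
    gcongr
  have s1 : K2 ^ 2 ≤ K2 ^ 4 * Dl := (pow_le_pow_right₀ (by linarith) (by norm_num)).trans
    (le_mul_of_one_le_right (by positivity) D1)
  have s2 : K2 ^ 3 * Dl ≤ K2 ^ 4 * Dl := by gcongr <;> linarith
  have s3 : |m ^ 2 * Q - q * L * Dl| ≤ 15 * (K2 ^ 4 * Dl) + 2 * (ε * K2 * Dl ^ 2) := by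
    rw [id]
    refine (abs_sub _ _).trans ((add_le_add ((abs_add_le _ _).trans (add_le_add (abs_sub _ _) le_rfl)) t4).trans ?_)
    rw [abs_mul 2, abs_mul 2, abs_two]
    nlinarith
  rw [one_div_mul_eq_div, le_div_iff₀ (by linarith)]
  nlinarith [mul_le_mul_of_nonneg_right s3 (by linarith : 0 ≤ X), mul_le_mul_of_nonneg_right hD (by linarith : 0 ≤ Dl),
    mul_le_mul_of_nonneg_right he (sq_nonneg Dl), mul_nonneg (by positivity : 0 ≤ K2 ^ 4 * X) (by linarith : 0 ≤ Dl)]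

end SAli

theorem aliSt : AliSt := by
  refine ⟨40, fun x K K1 K2 ε ψ S L mn s P Q D Om Th Fl K0 h2 ok nw hT he hL hs hD ini => ?_⟩
  have sp := ok.sp
  have k2 : 2 ≤ K2 := K0.trans h2
  have k1 : 1 ≤ K2 := by linarith
  have k0 : 0 < K2 := by linarith
  have Kp : 0 < K := by linarith
  have T0 : 0 < x.TH := lt_of_lt_of_le (by positivity) hT
  have mm : ∀ t ∈ Icc 0 s, t ∈ Icc 0 x.T := fun t h => ⟨h.1, h.2.trans hs.2⟩
  have m' : ∀ t ∈ Ioc 0 s, t ∈ Icc 0 s := fun t h => ⟨h.1.le, h.2⟩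
  have z : (0 : ℝ) ∈ Icc 0 s := ⟨le_rfl, hs.1⟩
  have dl : ∀ t ∈ Icc 0 s, K2 ^ 39 ≤ L - x.th t := fun t h =>
    le_of_mul_le_mul_left ((pow_succ' K2 39).symm.le.trans (hT.trans (hD t h))) k0
  have l0 : ∀ t ∈ Icc 0 s, 0 < L - x.th t := fun t h => lt_of_lt_of_le (by positivity) (dl t h)
  have m0 : x.m ≠ 0 := fun q => by have := ok.m_lo; rw [q] at this; norm_num at this
  have e0 : 0 ≤ ε := (abs_nonneg _).trans (nw.P_eq 0 (mm 0 z))
  have pw : ∀ {a b : ℕ} (c : ℕ), a + c ≤ b → 2 ^ c * K2 ^ a ≤ K2 ^ b := fun {a b} c h =>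
    (mul_le_mul_of_nonneg_right (pow_le_pow_left₀ (by norm_num) k2 c) (by positivity)).trans
      (by rw [← pow_add]; exact pow_le_pow_right₀ k1 (by omega))
  have X1 : 1 ≤ K2 ^ 23 := one_le_pow₀ k1
  have e1 : ε ≤ 1 := (le_mul_of_one_le_right e0 (one_le_pow₀ k1)).trans he
  have hP : ∀ t ∈ Icc 0 s, 0 < P t ∧ |x.p t * (L - x.th t) ^ 2 / x.m ^ 2 - P t| ≤ 1 / K2 ^ 23 * P t :=
    fun t h => by
    have := SAli.pP K0 h2 X1 (ok.la.1 t (mm t h)) (ok.lb.1 t (mm t h)) (sp.p_lo t (mm t h)) e1 (by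
      rw [Dat.lam, abs_div, abs_of_pos (l0 t h), le_div_iff₀ (abs_pos.2 m0)]
      refine le_trans ?_ (dl t h)
      refine (mul_le_mul_of_nonneg_left (ok.m_hi.trans h2) (by positivity)).trans ?_
      exact le_of_eq_of_le (by ring) (pw (a := 26) 3 (by norm_num))) (nw.P_eq t (mm t h))
    rwa [show x.lam L t ^ 2 * x.p t = x.p t * (L - x.th t) ^ 2 / x.m ^ 2 by rw [Dat.lam]; ring] at this
  have key : ∀ t ∈ Icc 0 s, |(L - x.th t) * Th t - x.th t| ≤ 1 / K2 * x.th t ∧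
      |x.m ^ 2 * Fl t / (L - x.th t) - x.f t * Th t - x.f t| ≤ 1 / K2 * x.th t := fun t h => by
    rcases h.1.eq_or_lt with rfl | t0
    · have := l0 0 h
      have p0 : 0 ≤ 1 / K2 * x.th 0 := (mul_pos (by positivity) (sp.pos 0 (mm 0 h))).le
      rw [ini.th0, ini.fl0, show (L - x.th 0) * (x.th 0 / (L - x.th 0)) - x.th 0 = 0 by field_simp; ring,
        show x.m ^ 2 * (x.f 0 * L / x.m ^ 2) / (L - x.th 0) - x.f 0 * (x.th 0 / (L - x.th 0)) - x.f 0 = 0 by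
          field_simp; ring, abs_zero]
      exact ⟨p0, p0⟩
    have tn : ∀ {g : ℝ → ℝ} {c : ℝ}, HasDerivAt g c 0 → Tendsto g (𝓝[>] 0) (𝓝 (g 0)) := fun h =>
      h.continuousAt.tendsto.mono_left nhdsWithin_le_nhds
    obtain ⟨z1, z2⟩ := Ali.lim m0 (sub_pos.1 (l0 0 z)) (tn (sp.sys.dTh 0 (mm 0 z)))
      (tn (sp.sys.dFl 0 (mm 0 z))) (ini.th0 ▸ tn (ini.sys.dTh 0 (mm 0 z)))
      (ini.fl0 ▸ tn (ini.sys.dFl 0 (mm 0 z)))
    refine Ali.core (K := K) (R := K2 ^ 3) (e := 1 / K2 ^ 23) (a := x.th 0 / K) (p := x.p) (q := x.q)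
      (P := P) (Q := Q) (by linarith) (one_le_pow₀ k1) (t0.trans_le h.2)
      (by linarith [hs.2, sp.T_le]) (div_pos (sp.pos 0 (mm 0 z)) Kp)
      (fun u hu => (div_le_iff₀' Kp).2 (sp.qmono 0 (mm 0 z) u (mm u (m' u hu)) hu.1.le))
      (fun u hu => sp.sys.dTh u (mm u (m' u hu))) (fun u hu => sp.sys.dFl u (mm u (m' u hu)))
      (fun u hu => (div_le_iff₀' Kp).2 (sp.p_lo u (mm u (m' u hu))))
      (fun u hu => sp.f_bd u (mm u (m' u hu)))
      (fun u v h1 h3 h4 => sp.qmono u (mm u ⟨h1.le, h3.trans h4⟩) v (mm v ⟨h1.le.trans h3, h4⟩) h3)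
      (fun u hu => sub_pos.1 (l0 u (m' u hu))) (fun u hu => ?_) m0
      (fun u hu => ini.sys.dTh u (mm u (m' u hu))) (fun u hu => ini.sys.dFl u (mm u (m' u hu)))
      (fun u hu => (hP u (m' u hu)).1) (fun u hu => (hP u (m' u hu)).2) (fun u hu => ?_) z1 z2 ?_
      (by rw [div_le_one k0]; exact k1) t ⟨t0, h.2⟩
    · have a1 := sp.f_bd u (mm u (m' u hu))
      have a2 : x.th u ≤ K * x.TH := sp.top u (mm u (m' u hu))
      have a3 := hD u (m' u hu)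
      calc _ ≤ K * (K * (K2 * (L - x.th u))) := a1.trans (mul_le_mul_of_nonneg_left
            (a2.trans (mul_le_mul_of_nonneg_left a3 Kp.le)) Kp.le)
        _ ≤ K2 * (K2 * (K2 * (L - x.th u))) := by have := l0 u (m' u hu); gcongr
        _ = _ := by ring
    · have u1 := mm u (m' u hu)
      obtain ⟨b1, b2⟩ := abs_le.1 (show |L - x.TH| ≤ x.TH / 2 by linarith)
      refine SAli.pQ K0 h2 X1 m0 ok.m_hi (ok.lc.1 u u1) (ok.ld.1 u u1) (by linarith)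
        (by linarith [hD u (m' u hu)]) (le_trans ?_ (dl u (m' u hu))) (le_trans ?_ he) (nw.D_eq u u1)
        (nw.Q_eq u u1) nw.m_eq (ok.q_eq u u1)
      · exact le_of_eq_of_le (by ring) (pw (a := 27) 5 (by norm_num))
      · exact le_of_eq_of_le (by ring) (mul_le_mul_of_nonneg_left (pw (a := 24) 2 (by norm_num)) e0)
    · rw [mul_one_div, div_le_div_iff₀ (by positivity) k0, one_mul]
      calc _ ≤ 2 ^ 7 * K2 ^ 9 * (K2 ^ 3) ^ 2 * K2 := by gcongr; norm_num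
        _ = 2 ^ 7 * K2 ^ 16 := by ring
        _ ≤ _ := pw 7 (by norm_num)
  have fin : ∀ {a b : ℝ}, a ≤ 1 / K2 * b → K2 * a ≤ b := fun h => by
    rwa [one_div_mul_eq_div, le_div_iff₀' k0] at h
  exact ⟨hD, fun t h => fin (key t h).1, fun t h => fin (key t h).2⟩

end Pool.Agent.Lib.MP_fbbbeb_an.D
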